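import Pool.Agent.P.MP_77d020_co.L.Base

/-! Finite product probability spaces: expectation, independence, union bound, Chernoff. -/

namespace Pool.Agent.P.MP_77d020_co.L

open Finset

variable {ι α : Type} [Fintype ι] [Fintype α] {q : ι → α → ℝ}

theorem Ex_mono (hq : IsP q) {f g : (ι → α) → ℝ} (h : ∀ ω, f ω ≤ g ω) : Ex q f ≤ Ex q g :=
  sum_le_sum fun ω _ => mul_le_mul_of_nonneg_left (h ω) (prod_nonneg fun _ _ => hq.nn _ _)

theorem Ex_congr {f g : (ι → α) → ℝ} (h : ∀ ω, f ω = g ω) : Ex q f = Ex q g := by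
  rw [funext h]

theorem Ex_add (f g : (ι → α) → ℝ) : Ex q (fun ω => f ω + g ω) = Ex q f + Ex q g := by
  simp only [Ex, mul_add, sum_add_distrib]

theorem Ex_sub (f g : (ι → α) → ℝ) : Ex q (fun ω => f ω - g ω) = Ex q f - Ex q g := by
  simp only [Ex, mul_sub, sum_sub_distrib]

theorem Ex_mul_left (c : ℝ) (f : (ι → α) → ℝ) : Ex q (fun ω => c * f ω) = c * Ex q f := by
  simp only [Ex, mul_sum]
  exact sum_congr rfl fun ω _ => by ring

theorem Ex_mul_right (c : ℝ) (f : (ι → α) → ℝ) : Ex q (fun ω => f ω * c) = Ex q f * c := by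
  simp only [Ex, sum_mul]
  exact sum_congr rfl fun ω _ => by ring

theorem Ex_sum {κ : Type*} (S : Finset κ) (f : κ → (ι → α) → ℝ) :
    Ex q (fun ω => ∑ j ∈ S, f j ω) = ∑ j ∈ S, Ex q (f j) := by
  simp only [Ex, mul_sum]
  exact sum_comm

theorem Ex_prod_univ (g : ι → α → ℝ) :
    Ex q (fun ω => ∏ i, g i (ω i)) = ∏ i, ∑ a, q i a * g i a := by
  classical
  rw [prod_univ_sum]
  simp only [Ex, Fintype.piFinset_univ, prod_mul_distrib]

theorem Ex_const (hq : IsP q) (c : ℝ) : Ex q (fun _ : ι → α => c) = c := by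
  have h := Ex_prod_univ (q := q) fun _ _ => 1
  simp only [prod_const_one, mul_one, hq.one] at h
  have h2 := Ex_mul_left (q := q) c fun _ => 1
  simp only [mul_one] at h2
  rw [h2, h, mul_one]

theorem Ex_nonneg (hq : IsP q) {f : (ι → α) → ℝ} (h : ∀ ω, 0 ≤ f ω) : 0 ≤ Ex q f := by
  have := Ex_mono hq (f := fun _ => 0) h
  rwa [Ex_const hq] at this

theorem Ex_le_const (hq : IsP q) {f : (ι → α) → ℝ} {c : ℝ} (h : ∀ ω, f ω ≤ c) : Ex q f ≤ c := by
  have := Ex_mono hq (g := fun _ => c) h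
  rwa [Ex_const hq] at this

theorem Ex_prod (hq : IsP q) (S : Finset ι) (g : ι → α → ℝ) :
    Ex q (fun ω => ∏ i ∈ S, g i (ω i)) = ∏ i ∈ S, ∑ a, q i a * g i a := by
  classical
  have h := Ex_prod_univ (q := q) fun i a => if i ∈ S then g i a else 1
  have h1 : ∀ ω : ι → α, (∏ i, if i ∈ S then g i (ω i) else 1) = ∏ i ∈ S, g i (ω i) := by
    intro ω
    rw [prod_ite_mem, univ_inter]
  have h2 : ∀ i, (∑ a, q i a * if i ∈ S then g i a else 1) =
      if i ∈ S then ∑ a, q i a * g i a else 1 := by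
    intro i
    split_ifs
    · rfl
    · simp only [mul_one, hq.one]
  simp only [h1, h2] at h
  rw [h, prod_ite_mem, univ_inter]

theorem Ex_coord (hq : IsP q) (i : ι) (g : α → ℝ) :
    Ex q (fun ω => g (ω i)) = ∑ a, q i a * g a := by
  simpa using Ex_prod hq {i} fun _ => g

/-- Resampling the coordinates outside `S`. -/
theorem Ex_pw (hq : IsP q) (S : ι → Prop) [DecidablePred S] (f : (ι → α) → ℝ) :
    Ex q f = Ex q fun x => Ex q fun y => f fun i => if S i then x i else y i := by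
  classical
  let Φ : (ι → α) × (ι → α) → (ι → α) × (ι → α) := fun z =>
    (fun i => if S i then z.1 i else z.2 i, fun i => if S i then z.2 i else z.1 i)
  have hΦ : Function.Involutive Φ := by
    intro z
    ext i <;> by_cases h : S i <;> simp [Φ, h]
  have h1 : Ex q f =
      ∑ z : (ι → α) × (ι → α), (∏ i, q i (z.1 i)) * (∏ i, q i (z.2 i)) * f z.1 := by
    rw [Fintype.sum_prod_type]
    refine sum_congr (by congr) fun x _ => ?_
    have h2 := Ex_const hq ((∏ i, q i (x i)) * f x)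
    rw [← h2]
    exact sum_congr (by congr) fun y _ => by ring
  rw [h1, ← hΦ.bijective.sum_comp, Fintype.sum_prod_type]
  refine sum_congr (by congr) fun x _ => ?_
  unfold Ex
  beta_reduce
  rw [mul_sum]
  refine sum_congr (by congr) fun y _ => ?_
  have h3 : (∏ i, q i ((Φ (x, y)).1 i)) * (∏ i, q i ((Φ (x, y)).2 i)) =
      (∏ i, q i (x i)) * ∏ i, q i (y i) := by
    rw [← prod_mul_distrib, ← prod_mul_distrib]
    refine prod_congr rfl fun i _ => ?_
    by_cases h : S i <;> simp [Φ, h, mul_comm]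
  rw [h3, mul_assoc]

/-- To bound an expectation, fix the coordinates in `S`. -/
theorem Ex_le_of_fix (hq : IsP q) (S : ι → Prop) [DecidablePred S] {f : (ι → α) → ℝ} {b : ℝ}
    (h : ∀ x : ι → α, Ex q (fun y => f fun i => if S i then x i else y i) ≤ b) : Ex q f ≤ b := by
  rw [Ex_pw hq S]
  exact Ex_le_const hq h

/-- The function `f` depends only on the coordinates in `S`. -/
def DepF (f : (ι → α) → ℝ) (S : ι → Prop) : Prop :=
  ∀ ω ω', (∀ i, S i → ω i = ω' i) → f ω = f ω'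

omit [Fintype ι] [Fintype α] in
theorem Dep.ind {E : (ι → α) → Prop} {S : ι → Prop} (h : Dep E S) (g : ℝ → ℝ) :
    DepF (fun ω => g (ind (E ω))) S := fun ω ω' a => by
  have : E ω ↔ E ω' := ⟨h ω ω' a, h ω' ω fun i hi => (a i hi).symm⟩
  simp only [this]

omit [Fintype ι] [Fintype α] in
theorem Dep.mono {E : (ι → α) → Prop} {S S' : ι → Prop} (h : Dep E S) (hS : ∀ i, S i → S' i) :
    Dep E S' := fun ω ω' a => h ω ω' fun i hi => a i (hS i hi)

omit [Fintype ι] [Fintype α] in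
theorem Dep.and {E E' : (ι → α) → Prop} {S : ι → Prop} (h : Dep E S) (h' : Dep E' S) :
    Dep (fun ω => E ω ∧ E' ω) S := fun ω ω' a b => ⟨h ω ω' a b.1, h' ω ω' a b.2⟩

omit [Fintype ι] [Fintype α] in
theorem Dep.coord (L : α → Prop) {i : ι} {S : ι → Prop} (h : S i) :
    Dep (fun ω => L (ω i)) S := fun ω ω' a (b : L (ω i)) => show L (ω' i) from a i h ▸ b

omit [Fintype ι] [Fintype α] in
theorem Dep.const (P : Prop) (S : ι → Prop) : Dep (fun _ : ι → α => P) S := fun _ _ _ b => b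

theorem Ex_mul_indep (hq : IsP q) {f g : (ι → α) → ℝ} {S S' : ι → Prop} (hf : DepF f S)
    (hg : DepF g S') (hd : ∀ i, S i → ¬ S' i) : Ex q (fun ω => f ω * g ω) = Ex q f * Ex q g := by
  classical
  rw [Ex_pw hq S, ← Ex_mul_right]
  refine Ex_congr fun x => ?_
  rw [← Ex_mul_left]
  refine Ex_congr fun y => ?_
  rw [hf _ x fun i hi => if_pos hi, hg _ y fun i hi => if_neg fun a => hd i a hi]

theorem Ex_prod_indep (hq : IsP q) {I : Type*} (s : Finset I) (f : I → (ι → α) → ℝ)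
    (S : I → ι → Prop) (hf : ∀ i ∈ s, DepF (f i) (S i))
    (hd : ∀ i ∈ s, ∀ i' ∈ s, i ≠ i' → ∀ x, S i x → ¬ S i' x) :
    Ex q (fun ω => ∏ i ∈ s, f i ω) = ∏ i ∈ s, Ex q (f i) := by
  classical
  induction s using Finset.induction_on with
  | empty => simpa using Ex_const hq 1
  | insert j s hj ih =>
    simp only [prod_insert hj]
    rw [← ih (fun i hi => hf i (mem_insert_of_mem hi))
      fun i hi i' hi' => hd i (mem_insert_of_mem hi) i' (mem_insert_of_mem hi')]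
    refine Ex_mul_indep hq (hf j (mem_insert_self _ _)) (S' := fun x => ∃ i ∈ s, S i x)
      (fun ω ω' a => prod_congr rfl fun i hi =>
        hf i (mem_insert_of_mem hi) ω ω' fun x hx => a x ⟨i, hi, hx⟩) ?_
    rintro x hx ⟨i, hi, hx'⟩
    exact hd j (mem_insert_self _ _) i (mem_insert_of_mem hi) (fun e => hj (e ▸ hi)) x hx hx'

theorem Pr_nonneg (hq : IsP q) (P : (ι → α) → Prop) : 0 ≤ Pr q P :=
  Ex_nonneg hq fun _ => ind_nonneg _

theorem Pr_le_one (hq : IsP q) (P : (ι → α) → Prop) : Pr q P ≤ 1 :=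
  Ex_le_const hq fun _ => ind_le_one _

theorem Pr_true (hq : IsP q) : Pr q (fun _ => True) = 1 := by
  simp only [Pr, ind_pos True.intro, Ex_const hq]

theorem Pr_zero (hq : IsP q) {P : (ι → α) → Prop} (h : ∀ ω, ¬ P ω) : Pr q P = 0 :=
  (Ex_congr fun ω => ind_neg (h ω)).trans (Ex_const hq 0)

theorem Pr_le_Ex (hq : IsP q) {P : (ι → α) → Prop} {f : (ι → α) → ℝ} (h0 : ∀ ω, 0 ≤ f ω)
    (h : ∀ ω, P ω → 1 ≤ f ω) : Pr q P ≤ Ex q f :=
  Ex_mono hq fun ω => ind_le (h0 ω) (h ω)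

theorem Pr_mono (hq : IsP q) {P Q : (ι → α) → Prop} (h : ∀ ω, P ω → Q ω) : Pr q P ≤ Pr q Q :=
  Ex_mono hq fun ω => ind_mono (h ω)

theorem Pr_congr {P Q : (ι → α) → Prop} (h : ∀ ω, P ω ↔ Q ω) : Pr q P = Pr q Q :=
  Ex_congr fun ω => ind_congr (h ω)

theorem Pr_not (hq : IsP q) (P : (ι → α) → Prop) : Pr q (fun ω => ¬ P ω) = 1 - Pr q P := by
  unfold Pr
  simp only [ind_not]
  rw [Ex_sub, Ex_const hq]

theorem Pr_or_le (hq : IsP q) (P Q : (ι → α) → Prop) :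
    Pr q (fun ω => P ω ∨ Q ω) ≤ Pr q P + Pr q Q := by
  unfold Pr
  rw [← Ex_add]
  exact Ex_mono hq fun ω => ind_or_le _ _

theorem Pr_le_add (hq : IsP q) {P Q R : (ι → α) → Prop} (h : ∀ ω, P ω → Q ω ∨ R ω) {b c : ℝ}
    (hQ : Pr q Q ≤ b) (hR : Pr q R ≤ c) : Pr q P ≤ b + c :=
  (Pr_mono hq h).trans ((Pr_or_le hq Q R).trans (add_le_add hQ hR))

theorem Pr_exists_le (hq : IsP q) {κ : Type*} (S : Finset κ) (P : κ → (ι → α) → Prop) :
    Pr q (fun ω => ∃ j ∈ S, P j ω) ≤ ∑ j ∈ S, Pr q (P j) := by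
  unfold Pr
  rw [← Ex_sum]
  refine Ex_mono hq fun ω => ind_le (sum_nonneg fun _ _ => ind_nonneg _) ?_
  rintro ⟨j, hj, h⟩
  rw [← ind_pos h]
  exact single_le_sum (f := fun j => ind (P j ω)) (fun _ _ => ind_nonneg _) hj

theorem Pr_exists_le_card (hq : IsP q) {κ : Type*} (S : Finset κ) (P : κ → (ι → α) → Prop)
    {c : ℝ} (h : ∀ j ∈ S, Pr q (P j) ≤ c) : Pr q (fun ω => ∃ j ∈ S, P j ω) ≤ S.card * c := by
  refine (Pr_exists_le hq S P).trans ((sum_le_sum h).trans ?_)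
  rw [sum_const, nsmul_eq_mul]

/-- An event of probability less than one fails somewhere. -/
theorem exists_not_of_Pr_lt (hq : IsP q) {P : (ι → α) → Prop} (h : Pr q P < 1) : ∃ ω, ¬ P ω := by
  by_contra h'
  push Not at h'
  rw [Pr_congr (Q := fun _ => True) (fun ω => by simp [h' ω]), Pr_true hq] at h
  exact lt_irrefl _ h

/-- Markov inequality. -/
theorem Pr_markov (hq : IsP q) {f : (ι → α) → ℝ} (h0 : ∀ ω, 0 ≤ f ω) {M : ℝ} (hM : 0 < M) :
    Pr q (fun ω => M ≤ f ω) ≤ Ex q f / M := by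
  rw [div_eq_mul_inv, ← Ex_mul_right]
  refine Pr_le_Ex hq (fun ω => mul_nonneg (h0 ω) (by positivity)) fun ω h => ?_
  rw [← div_eq_mul_inv, le_div_iff₀ hM, one_mul]
  exact h

theorem Pr_coord (hq : IsP q) (i : ι) (L : α → Prop) : Pr q (fun ω => L (ω i)) = pl q i L :=
  Ex_coord hq i fun a => ind (L a)

theorem pl_nonneg (hq : IsP q) (i : ι) (L : α → Prop) : 0 ≤ pl q i L := by
  rw [← Pr_coord hq]; exact Pr_nonneg hq _

theorem pl_le_one (hq : IsP q) (i : ι) (L : α → Prop) : pl q i L ≤ 1 := by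
  rw [← Pr_coord hq]; exact Pr_le_one hq _

theorem Pr_and_indep (hq : IsP q) {E E' : (ι → α) → Prop} {S S' : ι → Prop} (h : Dep E S)
    (h' : Dep E' S') (hd : ∀ i, S i → ¬ S' i) :
    Pr q (fun ω => E ω ∧ E' ω) = Pr q E * Pr q E' := by
  unfold Pr
  simp only [ind_and]
  exact Ex_mul_indep hq (h.ind id) (h'.ind id) hd

theorem Pr_two (hq : IsP q) {i j : ι} (h : i ≠ j) (L L' : α → Prop) :
    Pr q (fun ω => L (ω i) ∧ L' (ω j)) = pl q i L * pl q j L' := by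
  rw [Pr_and_indep hq (Dep.coord L (S := fun x => x = i) rfl)
    (Dep.coord L' (S := fun x => x = j) rfl) fun x a b => h (a.symm.trans b), Pr_coord hq,
    Pr_coord hq]

theorem Pr_all (hq : IsP q) (T : Finset ι) (L : ι → α → Prop) :
    Pr q (fun ω => ∀ i ∈ T, L i (ω i)) = ∏ i ∈ T, pl q i (L i) := by
  have h1 : ∀ ω : ι → α, ind (∀ i ∈ T, L i (ω i)) = ∏ i ∈ T, ind (L i (ω i)) := by
    intro ω
    by_cases h : ∀ i ∈ T, L i (ω i)
    · rw [ind_pos h, prod_eq_one fun i hi => ind_pos (h i hi)]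
    · rw [ind_neg h]
      push Not at h
      obtain ⟨i, hi, h⟩ := h
      exact (prod_eq_zero hi (ind_neg h)).symm
  unfold Pr
  simp only [h1]
  exact Ex_prod hq T fun i a => ind (L i a)

theorem Ex_sum_ind {I : Type*} (s : Finset I) (E : I → (ι → α) → Prop) :
    Ex q (fun ω => ∑ i ∈ s, ind (E i ω)) = ∑ i ∈ s, Pr q (E i) := Ex_sum s _

theorem mgf (hq : IsP q) {I : Type*} (s : Finset I) (E : I → (ι → α) → Prop) (S : I → ι → Prop)
    (hE : ∀ i ∈ s, Dep (E i) (S i)) (hd : ∀ i ∈ s, ∀ i' ∈ s, i ≠ i' → ∀ x, S i x → ¬ S i' x)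
    {μ θ : ℝ} (hμ : ∑ i ∈ s, Pr q (E i) ≤ μ) (hθ : |θ| ≤ 1) :
    Ex q (fun ω => Real.exp (θ * (∑ i ∈ s, ind (E i ω) - ∑ i ∈ s, Pr q (E i)))) ≤
      Real.exp (μ * θ ^ 2) := by
  have e1 : ∀ ω, Real.exp (θ * (∑ i ∈ s, ind (E i ω) - ∑ i ∈ s, Pr q (E i))) =
      ∏ i ∈ s, Real.exp (θ * (ind (E i ω) - Pr q (E i))) := by
    intro ω
    rw [← Real.exp_sum, ← mul_sum, sum_sub_distrib]
  simp only [e1]
  rw [Ex_prod_indep hq s _ S (fun i hi => (hE i hi).ind fun t => Real.exp (θ * (t - Pr q (E i))))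
    hd]
  have e2 : ∀ i ∈ s, Ex q (fun ω => Real.exp (θ * (ind (E i ω) - Pr q (E i)))) ≤
      Real.exp (Pr q (E i) * θ ^ 2) := by
    intro i _
    have h1 : ∀ ω, Real.exp (θ * (ind (E i ω) - Pr q (E i))) =
        (1 + ind (E i ω) * (Real.exp θ - 1)) * Real.exp (-(θ * Pr q (E i))) := by
      intro ω
      by_cases h : E i ω
      · rw [ind_pos h, one_mul, add_sub_cancel, ← Real.exp_add]; congr 1; ring
      · rw [ind_neg h]; simp
    simp only [h1]
    rw [Ex_mul_right, Ex_add, Ex_const hq, Ex_mul_right]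
    change (1 + Pr q (E i) * _) * _ ≤ _
    have h2 := (abs_le.1 (Real.abs_exp_sub_one_sub_id_le hθ)).2
    have h3 := Pr_nonneg hq (E i)
    have h4 : 1 + Pr q (E i) * (Real.exp θ - 1) ≤ Real.exp (Pr q (E i) * (θ + θ ^ 2)) := by
      refine le_trans ?_ (Real.add_one_le_exp _)
      nlinarith
    refine (mul_le_mul_of_nonneg_right h4 (Real.exp_pos _).le).trans (le_of_eq ?_)
    rw [← Real.exp_add]; congr 1; ring
  refine (prod_le_prod (fun i _ => Ex_nonneg hq fun _ => (Real.exp_pos _).le) e2).trans ?_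
  rw [← Real.exp_sum, ← sum_mul]
  gcongr

/-- Chernoff bound for events depending on pairwise disjoint sets of coordinates, together
with a condition `C` on other coordinates. -/
theorem chernoff (hq : IsP q) {I : Type*} (s : Finset I) (E : I → (ι → α) → Prop)
    (S : I → ι → Prop) (C : (ι → α) → Prop) (SC : ι → Prop) (hE : ∀ i ∈ s, Dep (E i) (S i))
    (hC : Dep C SC) (hd : ∀ i ∈ s, ∀ i' ∈ s, i ≠ i' → ∀ x, S i x → ¬ S i' x)
    (hd' : ∀ i ∈ s, ∀ x, S i x → ¬ SC x) {μ a : ℝ} (hμ : ∑ i ∈ s, Pr q (E i) ≤ μ) (ha : 0 ≤ a)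
    (ha' : a ≤ 2 * μ) :
    Pr q (fun ω => C ω ∧ a < |∑ i ∈ s, ind (E i ω) - ∑ i ∈ s, Pr q (E i)|) ≤
      Pr q C * (2 * Real.exp (-(a ^ 2 / (4 * μ)))) := by
  have hD : Dep (fun ω => a < |∑ i ∈ s, ind (E i ω) - ∑ i ∈ s, Pr q (E i)|)
      fun x => ∃ i ∈ s, S i x := by
    intro ω ω' h h'
    have : ∑ i ∈ s, ind (E i ω) = ∑ i ∈ s, ind (E i ω') := sum_congr rfl fun i hi =>
      (hE i hi).ind id ω ω' fun x hx => h x ⟨i, hi, hx⟩
    rwa [← this]
  rw [Pr_and_indep hq hC hD fun x hx ⟨i, hi, hx'⟩ => hd' i hi x hx' hx]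
  refine mul_le_mul_of_nonneg_left ?_ (Pr_nonneg hq C)
  have hμ0 : 0 ≤ μ := by linarith
  obtain ⟨θ, h0, h1, h2⟩ : ∃ θ : ℝ, 0 ≤ θ ∧ θ ≤ 1 ∧ μ * θ ^ 2 - θ * a = -(a ^ 2 / (4 * μ)) := by
    refine ⟨a / (2 * μ), by positivity, div_le_one_of_le₀ ha' (by positivity), ?_⟩
    rcases hμ0.eq_or_lt with rfl | h
    · simp
    · field_simp; ring
  have key : ∀ t : ℝ, |t| = θ →
      Ex q (fun ω => Real.exp (t * (∑ i ∈ s, ind (E i ω) - ∑ i ∈ s, Pr q (E i))) *
        Real.exp (-(θ * a))) ≤ Real.exp (-(a ^ 2 / (4 * μ))) := by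
    intro t ht
    rw [Ex_mul_right]
    refine (mul_le_mul_of_nonneg_right (mgf hq s E S hE hd hμ (ht ▸ h1)) (Real.exp_pos _).le).trans
      (le_of_eq ?_)
    rw [← Real.exp_add, ← h2, ← sq_abs t, ht]; congr 1
  have k1 := key θ (abs_of_nonneg h0)
  have k2 := key (-θ) (by rw [abs_neg, abs_of_nonneg h0])
  rw [two_mul]
  refine le_trans ?_ (add_le_add k1 k2)
  rw [← Ex_add]
  refine Pr_le_Ex hq (fun ω => by positivity) fun ω h => ?_
  rw [← Real.exp_add, ← Real.exp_add]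
  rcases lt_abs.1 h with h | h
  · have : 1 ≤ Real.exp (θ * (∑ i ∈ s, ind (E i ω) - ∑ i ∈ s, Pr q (E i)) + -(θ * a)) :=
      Real.one_le_exp (by nlinarith)
    linarith [Real.exp_pos (-θ * (∑ i ∈ s, ind (E i ω) - ∑ i ∈ s, Pr q (E i)) + -(θ * a))]
  · have : 1 ≤ Real.exp (-θ * (∑ i ∈ s, ind (E i ω) - ∑ i ∈ s, Pr q (E i)) + -(θ * a)) :=
      Real.one_le_exp (by nlinarith)
    linarith [Real.exp_pos (θ * (∑ i ∈ s, ind (E i ω) - ∑ i ∈ s, Pr q (E i)) + -(θ * a))]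

/-- Chernoff bound without a condition. -/
theorem chernoff' (hq : IsP q) {I : Type*} (s : Finset I) (E : I → (ι → α) → Prop)
    (S : I → ι → Prop) (hE : ∀ i ∈ s, Dep (E i) (S i))
    (hd : ∀ i ∈ s, ∀ i' ∈ s, i ≠ i' → ∀ x, S i x → ¬ S i' x) {μ a : ℝ}
    (hμ : ∑ i ∈ s, Pr q (E i) ≤ μ) (ha : 0 ≤ a) (ha' : a ≤ 2 * μ) :
    Pr q (fun ω => a < |∑ i ∈ s, ind (E i ω) - ∑ i ∈ s, Pr q (E i)|) ≤
      2 * Real.exp (-(a ^ 2 / (4 * μ))) := by
  have := chernoff hq s E S (fun _ => True) (fun _ => False) hE (Dep.const _ _) hd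
    (fun _ _ _ _ h => h) hμ ha ha'
  simpa [Pr_true hq] using this

/-- Chernoff bound for events on single coordinates `c i`. -/
theorem chernoff_coord (hq : IsP q) {I : Type*} (s : Finset I) (c : I → ι) (L : α → Prop)
    (C : (ι → α) → Prop) (SC : ι → Prop) (hC : Dep C SC) (hc : Set.InjOn c s)
    (hd' : ∀ i ∈ s, ¬ SC (c i)) {μ a : ℝ} (hμ : ∑ i ∈ s, pl q (c i) L ≤ μ) (ha : 0 ≤ a)
    (ha' : a ≤ 2 * μ) :
    Pr q (fun ω => C ω ∧ a < |∑ i ∈ s, ind (L (ω (c i))) - ∑ i ∈ s, pl q (c i) L|) ≤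
      Pr q C * (2 * Real.exp (-(a ^ 2 / (4 * μ)))) := by
  have := chernoff hq s (fun i ω => L (ω (c i))) (fun i x => x = c i) C SC
    (fun i _ => Dep.coord L rfl) hC (fun i hi i' hi' h x a b => h (hc hi hi' (a.symm.trans b)))
    (fun i hi x a => a ▸ hd' i hi) (μ := μ) (by simpa only [Pr_coord hq] using hμ) ha ha'
  simpa only [Pr_coord hq] using this

/-- Independent coins. -/
noncomputable def bern (p : ι → ℝ) (i : ι) (b : Bool) : ℝ := if b then p i else 1 - p i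

omit [Fintype ι] in
theorem bern_isP {p : ι → ℝ} (h0 : ∀ i, 0 ≤ p i) (h1 : ∀ i, p i ≤ 1) : IsP (bern p) :=
  ⟨fun i b => by cases b <;> simp [bern, h0 i, h1 i], fun i => by simp [bern]⟩

omit [Fintype ι] in
theorem pl_bern (p : ι → ℝ) (i : ι) : pl (bern p) i (fun b => b = true) = p i := by
  simp [pl, bern, ind]

end Pool.Agent.P.MP_77d020_co.L
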