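import Pool.Agent.P.MP_77d020_co.L.Prob

/-! Approximate decomposition from the random greedy packing. -/

namespace Pool.Agent.P.MP_77d020_co.L

open Finset

namespace ADP

variable {V : Type}

/-- The pair `x y` oriented from the lower part to the higher part. -/
def ori (pt : V → Fin 3) (x y : V) : V × V := if pt x < pt y then (x, y) else (y, x)

theorem ori_cases (pt : V → Fin 3) (x y : V) : ori pt x y = (x, y) ∨ ori pt x y = (y, x) := by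
  unfold ori
  split_ifs
  · exact Or.inl rfl
  · exact Or.inr rfl

theorem ori_inj (pt : V → Fin 3) (x : V) : Function.Injective (ori pt x) := by
  intro z z' h
  rcases ori_cases pt x z with e | e <;> rcases ori_cases pt x z' with e' | e' <;>
    rw [e, e'] at h <;> obtain ⟨h1, h2⟩ := Prod.mk.inj h
  · exact h2
  · exact h2.trans h1
  · exact h1.trans h2
  · exact h1

theorem ori_lt {pt : V → Fin 3} {x y : V} (h : pt x < pt y) : ori pt x y = (x, y) := if_pos h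

theorem ori_gt {pt : V → Fin 3} {x y : V} (h : pt y < pt x) : ori pt x y = (y, x) :=
  if_neg h.not_gt

/-- The three oriented edges of a triangle. -/
def ed [DecidableEq V] (t : V × V × V) : Finset (V × V) :=
  {(t.1, t.2.1), (t.1, t.2.2), (t.2.1, t.2.2)}

theorem mem_ed [DecidableEq V] {t : V × V × V} {x y : V} : (x, y) ∈ ed t ↔
    (x = t.1 ∧ y = t.2.1) ∨ (x = t.1 ∧ y = t.2.2) ∨ (x = t.2.1 ∧ y = t.2.2) := by
  simp only [ed, mem_insert, mem_singleton, Prod.mk.injEq]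

/-- Triangles of `H` listed in the order of the parts. -/
def IsT (pt : V → Fin 3) (H : V → V → Prop) (t : V × V × V) : Prop :=
  pt t.1 = 0 ∧ pt t.2.1 = 1 ∧ pt t.2.2 = 2 ∧ H t.1 t.2.1 ∧ H t.1 t.2.2 ∧ H t.2.1 t.2.2

theorem te_of_mem [DecidableEq V] {pt : V → Fin 3} {t : V × V × V} {x y : V}
    (h : ori pt x y ∈ ed t) : TE t.1 t.2.1 t.2.2 x y := by
  unfold TE
  rcases ori_cases pt x y with e | e <;> rw [e, mem_ed] at h <;> tauto

theorem mem_of_te [DecidableEq V] {pt : V → Fin 3} {H : V → V → Prop} {t : V × V × V}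
    (ht : IsT pt H t) {x y : V} (h : TE t.1 t.2.1 t.2.2 x y) : ori pt x y ∈ ed t := by
  obtain ⟨h0, h1, h2, -⟩ := ht
  have a : pt t.1 < pt t.2.1 := by rw [h0, h1]; decide
  have b : pt t.1 < pt t.2.2 := by rw [h0, h2]; decide
  have c : pt t.2.1 < pt t.2.2 := by rw [h1, h2]; decide
  rcases h with ⟨rfl, rfl⟩ | ⟨rfl, rfl⟩ | ⟨rfl, rfl⟩ | ⟨rfl, rfl⟩ | ⟨rfl, rfl⟩ | ⟨rfl, rfl⟩
  · rw [ori_lt a, mem_ed]; tauto
  · rw [ori_gt a, mem_ed]; tauto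
  · rw [ori_lt b, mem_ed]; tauto
  · rw [ori_gt b, mem_ed]; tauto
  · rw [ori_lt c, mem_ed]; tauto
  · rw [ori_gt c, mem_ed]; tauto

theorem h_of_te {pt : V → Fin 3} {H : V → V → Prop} (hH : Sy H) {t : V × V × V}
    (ht : IsT pt H t) {x y : V} (h : TE t.1 t.2.1 t.2.2 x y) : H x y := by
  obtain ⟨-, -, -, a, b, c⟩ := ht
  rcases h with ⟨rfl, rfl⟩ | ⟨rfl, rfl⟩ | ⟨rfl, rfl⟩ | ⟨rfl, rfl⟩ | ⟨rfl, rfl⟩ | ⟨rfl, rfl⟩
  exacts [a, hH _ _ a, b, hH _ _ b, c, hH _ _ c]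

theorem IsT.ne {pt : V → Fin 3} {H : V → V → Prop} {t : V × V × V} (ht : IsT pt H t) :
    t.1 ≠ t.2.1 ∧ t.1 ≠ t.2.2 ∧ t.2.1 ≠ t.2.2 := by
  obtain ⟨h0, h1, h2, -⟩ := ht
  refine ⟨fun e => ?_, fun e => ?_, fun e => ?_⟩
  · rw [e, h1] at h0; exact absurd h0 (by decide)
  · rw [e, h2] at h0; exact absurd h0 (by decide)
  · rw [e, h2] at h1; exact absurd h1 (by decide)

theorem card_ed [DecidableEq V] {pt : V → Fin 3} {H : V → V → Prop} {t : V × V × V}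
    (ht : IsT pt H t) : (ed t).card = 3 := by
  obtain ⟨a, b, c⟩ := ht.ne
  exact card_eq_three.2 ⟨_, _, _, fun e => c (Prod.mk.inj e).2, fun e => a (Prod.mk.inj e).1,
    fun e => a (Prod.mk.inj e).1, rfl⟩

/-- An oriented edge of a triangle is determined by the parts of its ends. -/
theorem mem_ed' [DecidableEq V] {pt : V → Fin 3} {H : V → V → Prop} {t : V × V × V}
    (ht : IsT pt H t) {x y : V} (h : (x, y) ∈ ed t) :
    (pt x = 0 ∧ pt y = 1 ∧ x = t.1 ∧ y = t.2.1) ∨ (pt x = 0 ∧ pt y = 2 ∧ x = t.1 ∧ y = t.2.2) ∨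
      (pt x = 1 ∧ pt y = 2 ∧ x = t.2.1 ∧ y = t.2.2) := by
  obtain ⟨h0, h1, h2, -⟩ := ht
  rcases mem_ed.1 h with ⟨rfl, rfl⟩ | ⟨rfl, rfl⟩ | ⟨rfl, rfl⟩
  · exact Or.inl ⟨h0, h1, rfl, rfl⟩
  · exact Or.inr (Or.inl ⟨h0, h2, rfl, rfl⟩)
  · exact Or.inr (Or.inr ⟨h1, h2, rfl, rfl⟩)

theorem inter_le [DecidableEq V] {pt : V → Fin 3} {H : V → V → Prop} {t t' : V × V × V}
    (ht : IsT pt H t) (ht' : IsT pt H t') (hne : t ≠ t') : (ed t ∩ ed t').card ≤ 1 := by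
  rw [card_le_one]
  rintro ⟨x, y⟩ h ⟨x', y'⟩ h'
  rw [mem_inter] at h h'
  by_contra hc
  apply hne
  obtain ⟨u, w, B⟩ := t
  obtain ⟨u', w', B'⟩ := t'
  have k1 := mem_ed' ht h.1
  have k2 := mem_ed' ht' h.2
  have k3 := mem_ed' ht h'.1
  have k4 := mem_ed' ht' h'.2
  simp only [Prod.mk.injEq] at hc k1 k2 k3 k4 ⊢
  have d01 : (0 : Fin 3) ≠ 1 := by decide
  have d12 : (1 : Fin 3) ≠ 2 := by decide
  grind

theorem third {pt : V → Fin 3} {x y z : V} {i j k : Fin 3}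
    (hx : pt x = i) (hy : pt y = j) (hij : i ≠ j) (hi : k ≠ i) (hj : k ≠ j)
    (a : pt x ≠ pt z) (b : pt y ≠ pt z) : pt z = k :=
  third_unique hij (hx ▸ a.symm) (hy ▸ b.symm) hi hj

variable [Fintype V]

theorem sum_edge [DecidableEq V] {pt : V → Fin 3} {H : V → V → Prop} (hT : Tp pt H)
    {φ : V → V → V → ℝ} {δ : ℝ} (hF : Frac pt H φ δ) {x y : V} (hxy : H x y)
    (hlt : pt x < pt y) :
    |∑ t ∈ (fs (IsT pt H)).filter (fun t => (x, y) ∈ ed t), φ t.1 t.2.1 t.2.2 - 1| ≤ δ := by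
  have hc : (pt x = 0 ∧ pt y = 1) ∨ (pt x = 0 ∧ pt y = 2) ∨ (pt x = 1 ∧ pt y = 2) := by
    revert hlt
    generalize pt x = i
    generalize pt y = j
    revert i j
    decide
  have d01 : (0 : Fin 3) ≠ 1 := by decide
  have d02 : (0 : Fin 3) ≠ 2 := by decide
  have d12 : (1 : Fin 3) ≠ 2 := by decide
  rcases hc with ⟨hx, hy⟩ | ⟨hx, hy⟩ | ⟨hx, hy⟩
  · refine le_of_eq_of_le ?_ (hF.f01 x y hx hy hxy)
    congr 2
    symm
    refine sum_bij (fun B _ => (x, y, B)) (fun B hB => ?_) (fun B _ B' _ e => ?_)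
      (fun t ht => ?_) fun _ _ => rfl
    · obtain ⟨a, b⟩ := mem_fs.1 hB
      exact mem_filter.2 ⟨mem_fs.2 ⟨hx, hy,
        third hx hy d01 d02.symm d12.symm (hT _ _ a) (hT _ _ b), hxy, a, b⟩,
        mem_ed.2 (Or.inl ⟨rfl, rfl⟩)⟩
    · exact (Prod.mk.inj (Prod.mk.inj e).2).2
    · obtain ⟨h1, h2⟩ := mem_filter.1 ht
      have h1 := mem_fs.1 h1
      rcases mem_ed' h1 h2 with ⟨-, -, rfl, rfl⟩ | ⟨-, e, -⟩ | ⟨e, -⟩
      · exact ⟨t.2.2, mem_fs.2 ⟨h1.2.2.2.2.1, h1.2.2.2.2.2⟩, rfl⟩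
      · exact (d12 (hy.symm.trans e)).elim
      · exact (d01 (hx.symm.trans e)).elim
  · refine le_of_eq_of_le ?_ (hF.f02 x y hx hy hxy)
    congr 2
    symm
    refine sum_bij (fun w _ => (x, w, y)) (fun w hw => ?_) (fun w _ w' _ e => ?_)
      (fun t ht => ?_) fun _ _ => rfl
    · obtain ⟨a, b⟩ := mem_fs.1 hw
      exact mem_filter.2 ⟨mem_fs.2 ⟨hx,
        third hx hy d02 d01.symm d12 (hT _ _ a) (hT _ _ b).symm, hy, a, hxy, b⟩,
        mem_ed.2 (Or.inr (Or.inl ⟨rfl, rfl⟩))⟩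
    · exact (Prod.mk.inj (Prod.mk.inj e).2).1
    · obtain ⟨h1, h2⟩ := mem_filter.1 ht
      have h1 := mem_fs.1 h1
      rcases mem_ed' h1 h2 with ⟨-, e, -⟩ | ⟨-, -, rfl, rfl⟩ | ⟨e, -⟩
      · exact (d12 (e.symm.trans hy)).elim
      · exact ⟨t.2.1, mem_fs.2 ⟨h1.2.2.2.1, h1.2.2.2.2.2⟩, rfl⟩
      · exact (d01 (hx.symm.trans e)).elim
  · refine le_of_eq_of_le ?_ (hF.f12 x y hx hy hxy)
    congr 2
    symm
    refine sum_bij (fun u _ => (u, x, y)) (fun u hu => ?_) (fun u _ u' _ e => ?_)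
      (fun t ht => ?_) fun _ _ => rfl
    · obtain ⟨a, b⟩ := mem_fs.1 hu
      exact mem_filter.2 ⟨mem_fs.2 ⟨
        third hx hy d12 d01 d02 (hT _ _ a).symm (hT _ _ b).symm, hx, hy, a, b, hxy⟩,
        mem_ed.2 (Or.inr (Or.inr ⟨rfl, rfl⟩))⟩
    · exact (Prod.mk.inj e).1
    · obtain ⟨h1, h2⟩ := mem_filter.1 ht
      have h1 := mem_fs.1 h1
      rcases mem_ed' h1 h2 with ⟨e, -⟩ | ⟨e, -⟩ | ⟨-, -, rfl, rfl⟩
      · exact (d01 (e.symm.trans hx)).elim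
      · exact (d01 (e.symm.trans hx)).elim
      · exact ⟨t.1, mem_fs.2 ⟨h1.2.2.2.1, h1.2.2.2.2.1⟩, rfl⟩

theorem card_pairs {Vs : V → Prop} {γ : ℝ} (h0 : 0 < γ) (hc : cnt Vs ≤ Real.exp (1 / γ))
    {P : V × V → Prop} (hP : ∀ e, P e → Vs e.1 ∧ Vs e.2) :
    ((fs P).card : ℝ) ≤ Real.exp (3 / γ) := by
  have h1 : fs P ⊆ fs Vs ×ˢ fs Vs := fun e he =>
    mem_product.2 ⟨mem_fs.2 (hP e (mem_fs.1 he)).1, mem_fs.2 (hP e (mem_fs.1 he)).2⟩
  have h2 : ((fs P).card : ℝ) ≤ cnt Vs * cnt Vs := by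
    unfold cnt
    exact_mod_cast (card_le_card h1).trans (card_product _ _).le
  have h3 : cnt Vs * cnt Vs ≤ Real.exp (1 / γ) * Real.exp (1 / γ) :=
    mul_le_mul hc hc (cnt_nonneg _) (Real.exp_pos _).le
  rw [← Real.exp_add] at h3
  refine h2.trans (h3.trans (Real.exp_le_exp.2 ?_))
  rw [← add_div]
  gcongr
  norm_num

end ADP

open ADP in
theorem ad (h : S_RG) : S_AD := by
  intro V _ pt G H Vs φ D γ hG hT hH hHG h0 h1 hD hω hφ hF hs hc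
  classical
  have hTH : Tp pt H := hT.mono fun x y a => (hHG x y a).1
  obtain ⟨M, hM, hdis, hZ⟩ := h (V × V) (V × V × V) (V × V)
    (fs fun e => H e.1 e.2 ∧ pt e.1 < pt e.2) (fs (IsT pt H))
    (fs fun f => Vs f.1 ∧ Vs f.2 ∧ G f.1 f.2) ed (fun t => φ t.1 t.2.1 t.2.2)
    (fun f => (fs fun z => G f.1 z ∧ G f.2 z ∧ H f.1 z).image (ori pt f.1)) γ (2 / D) (2 * D)
    h0 h1 hω (by positivity) (by rw [div_mul_eq_mul_div, le_div_iff₀ hD]; linarith)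
    (fun t ht => by
      have ht := mem_fs.1 ht
      refine ⟨?_, card_ed ht, (hφ _ _ _).1, (hφ _ _ _).2⟩
      rintro ⟨x, y⟩ he
      obtain ⟨a0, a1, a2, a, b, c⟩ := ht
      rcases mem_ed.1 he with ⟨rfl, rfl⟩ | ⟨rfl, rfl⟩ | ⟨rfl, rfl⟩
      · exact mem_fs.2 ⟨a, by dsimp only; rw [a0, a1]; decide⟩
      · exact mem_fs.2 ⟨b, by dsimp only; rw [a0, a2]; decide⟩
      · exact mem_fs.2 ⟨c, by dsimp only; rw [a1, a2]; decide⟩)
    (fun t ht t' ht' hne => inter_le (mem_fs.1 ht) (mem_fs.1 ht') hne)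
    (fun e he => sum_edge hTH hF (mem_fs.1 he).1 (mem_fs.1 he).2)
    (card_pairs h0 hc fun e he => (hHG _ _ he.1).2)
    (card_pairs h0 hc fun e he => ⟨he.1, he.2.1⟩)
    (fun f hf => by
      obtain ⟨a, b, c⟩ := mem_fs.1 hf
      constructor
      · intro e he
        obtain ⟨z, hz, rfl⟩ := mem_image.1 he
        have hz := (mem_fs.1 hz).2.2
        rcases lt_or_gt_of_ne (hTH _ _ hz) with k | k
        · rw [ori_lt k]; exact mem_fs.2 ⟨hz, k⟩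
        · rw [ori_gt k]; exact mem_fs.2 ⟨hH _ _ hz, k⟩
      · rw [card_image_of_injective _ (ori_inj pt _)]
        exact (cnt_mono fun z hz => ⟨(hHG _ _ hz.2.2).2.2, hz.1, hz.2.1⟩).trans (hs _ _ a b c))
  refine ⟨fun x y => ∃ t, t ∈ M ∧ TE t.1 t.2.1 t.2.2 x y, ?_, ?_, ?_⟩
  · rintro x y ⟨t, ht, a⟩
    exact h_of_te hH (mem_fs.1 (hM ht)) a
  · refine Dec.iUnion (fun t => t ∈ M) (fun t : V × V × V => TE t.1 t.2.1 t.2.2)
      (fun t ht => ?_) fun t t' x y ht ht' a a' => ?_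
    · obtain ⟨a, b, c⟩ := IsT.ne (mem_fs.1 (hM ht))
      exact Dec.tri a b c
    · by_contra hne
      exact disjoint_left.1 (hdis t ht t' ht' hne) (mem_of_te (mem_fs.1 (hM ht)) a)
        (mem_of_te (mem_fs.1 (hM ht')) a')
  · intro x y hx hy hxy
    have k := hZ (x, y) (mem_fs.2 ⟨hx, hy, hxy⟩)
    refine le_trans ?_ (k.trans (le_of_eq (by ring)))
    unfold cnt
    rw [Nat.cast_le]
    refine card_le_card_of_injOn (ori pt x) (fun z hz => ?_) (ori_inj pt x).injOn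
    obtain ⟨a, b, c, d⟩ := mem_fs.1 (mem_coe.1 hz)
    refine mem_coe.2 (mem_sdiff.2 ⟨mem_image_of_mem _ (mem_fs.2 ⟨a, b, c⟩), fun hm => d ?_⟩)
    obtain ⟨t, ht, he⟩ := mem_biUnion.1 hm
    exact ⟨t, ht, te_of_mem he⟩

end Pool.Agent.P.MP_77d020_co.L
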