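import Pool.Agent.P.MP_77d020_co.L.Prob

/-! The hypotheses of the correction step, and the fractional decomposition. -/

namespace Pool.Agent.P.MP_77d020_co.L

open Finset

namespace BoostP

/-- Schur test. -/
theorem schur {V : Type} (X Y : Finset V) (M : V → V → ℝ) (r : ℝ) (hr : 0 ≤ r)
    (h0 : ∀ x y, 0 ≤ M x y) (h1 : ∀ x ∈ X, ∑ y ∈ Y, M x y ≤ r) (h2 : ∀ y ∈ Y, ∑ x ∈ X, M x y ≤ r)
    (f k : V → ℝ) :
    (∑ x ∈ X, ∑ y ∈ Y, M x y * f x * k y) ^ 2 ≤ r ^ 2 * (∑ x ∈ X, f x ^ 2) * ∑ y ∈ Y, k y ^ 2 := by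
  have cs := sum_sq_le_sum_mul_sum_of_sq_le_mul (X ×ˢ Y)
    (r := fun z => M z.1 z.2 * f z.1 * k z.2) (f := fun z => M z.1 z.2 * f z.1 ^ 2)
    (g := fun z => M z.1 z.2 * k z.2 ^ 2) (fun z _ => mul_nonneg (h0 _ _) (sq_nonneg _))
    (fun z _ => mul_nonneg (h0 _ _) (sq_nonneg _)) (fun z _ => le_of_eq (by ring))
  rw [sum_product, sum_product, sum_product_right] at cs
  have a1 : ∑ x ∈ X, ∑ y ∈ Y, M x y * f x ^ 2 ≤ r * ∑ x ∈ X, f x ^ 2 := by
    rw [mul_sum]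
    refine sum_le_sum fun x hx => ?_
    rw [← sum_mul]
    exact mul_le_mul_of_nonneg_right (h1 x hx) (sq_nonneg _)
  have a2 : ∑ y ∈ Y, ∑ x ∈ X, M x y * k y ^ 2 ≤ r * ∑ y ∈ Y, k y ^ 2 := by
    rw [mul_sum]
    refine sum_le_sum fun y hy => ?_
    rw [← sum_mul]
    exact mul_le_mul_of_nonneg_right (h2 y hy) (sq_nonneg _)
  have b2 : 0 ≤ ∑ y ∈ Y, ∑ x ∈ X, M x y * k y ^ 2 :=
    sum_nonneg fun _ _ => sum_nonneg fun _ _ => mul_nonneg (h0 _ _) (sq_nonneg _)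
  have b1 : 0 ≤ r * ∑ x ∈ X, f x ^ 2 := mul_nonneg hr (sum_nonneg fun _ _ => sq_nonneg _)
  refine cs.trans ((mul_le_mul a1 a2 b2 b1).trans (le_of_eq ?_))
  ring

variable {V : Type} [Fintype V] {A : Amb V} {Vs : V → Prop} {H : V → V → Prop} {D e : ℝ}

theorem sum_fs_sub {P Q : V → Prop} (h : ∀ z, P z → Q z) (F : V → ℝ) :
    ∑ z ∈ fs P, F z = ∑ z ∈ fs Q, ind (P z) * F z := by
  rw [sum_fs, sum_fs]
  refine sum_congr rfl fun z _ => ?_
  rw [← mul_assoc, ← ind_and,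
    ind_congr (show Q z ∧ P z ↔ P z from ⟨fun a => a.2, fun a => ⟨h z a, a⟩⟩)]

/-- triangle counts on the edges of `H` -/
theorem tri (ok : A.Ok) (nt : A.Nt Vs D (10 * e)) (hG : ∀ x y, H x y → A.G x y ∧ Vs x ∧ Vs y)
    (st : St A.G Vs (fun x z => Vs z ∧ ¬ H x z) (30 * e * D)) {x y : V} (hxy : H x y) {j : Fin 3}
    (h1 : j ≠ A.pt x) (h2 : j ≠ A.pt y) :
    (1 - 70 * e) * D ≤ ∑ z ∈ fs (fun z => Vs z ∧ A.pt z = j), ind (H x z) * ind (H y z) ∧
      ∑ z ∈ fs (fun z => Vs z ∧ A.pt z = j), ind (H x z) * ind (H y z) ≤ (1 + 10 * e) * D := by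
  obtain ⟨g, vx, vy⟩ := hG x y hxy
  have f2 := abs_le.1 (nt.fam.f2 x y j vx vy g h1 h2)
  have s1 := st x y vx vy g
  have s2 := st y x vy vx (ok.sy _ _ g)
  simp only [← ind_and]
  rw [← cnt_and_eq_sum]
  have a1 : cnt (fun z => (Vs z ∧ A.pt z = j) ∧ H x z ∧ H y z) ≤
      cnt (fun z => Vs z ∧ A.G x z ∧ A.G y z) :=
    cnt_mono fun z hz => ⟨hz.1.1, (hG _ _ hz.2.1).1, (hG _ _ hz.2.2).1⟩
  have a2 := cnt_le_add3 (P := fun z => Vs z ∧ A.G x z ∧ A.G y z)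
    (Q := fun z => (Vs z ∧ A.pt z = j) ∧ H x z ∧ H y z)
    (R := fun z => A.G x z ∧ A.G y z ∧ Vs z ∧ ¬ H x z)
    (T := fun z => A.G y z ∧ A.G x z ∧ Vs z ∧ ¬ H y z) fun z hz => by
      by_cases b1 : H x z
      · by_cases b2 : H y z
        · exact Or.inl ⟨⟨hz.1, third_unique (ok.tp _ _ g) (ok.tp _ _ hz.2.1).symm
            (ok.tp _ _ hz.2.2).symm h1 h2⟩, b1, b2⟩
        · exact Or.inr (Or.inr ⟨hz.2.2, hz.2.1, hz.1, b2⟩)
      · exact Or.inr (Or.inl ⟨hz.2.1, hz.2.2, hz.1, b1⟩)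
  constructor <;> linarith [f2.1, f2.2]

/-- degrees -/
theorem dgr (nt : A.Nt Vs D (10 * e)) (hG : ∀ x y, H x y → A.G x y ∧ Vs x ∧ Vs y)
    {x : V} (hx : Vs x) {j : Fin 3} (h1 : j ≠ A.pt x) :
    ∑ z ∈ fs (fun z => Vs z ∧ A.pt z = j), ind (H x z) ≤ (1 + 10 * e) * D * A.g (A.pt x) := by
  have f1 := (abs_le.1 (nt.fam.f1 x j hx h1)).2
  rw [← cnt_and_eq_sum]
  have a1 : cnt (fun z => (Vs z ∧ A.pt z = j) ∧ H x z) ≤
      cnt (fun z => Vs z ∧ A.pt z = j ∧ A.G x z) :=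
    cnt_mono fun z hz => ⟨hz.1.1, hz.1.2, (hG _ _ hz.2).1⟩
  linarith

/-- sizes of the parts -/
theorem siz (nt : A.Nt Vs D (10 * e)) (j : Fin 3) :
    ((fs fun z => Vs z ∧ A.pt z = j).card : ℝ) ≤ (1 + 10 * e) * D * A.gz j := by
  have f0 := (abs_le.1 (nt.fam.f0 j)).2
  unfold cnt at f0
  linarith

/-- operator bound in the link of a vertex -/
theorem opl (ok : A.Ok) (nt : A.Nt Vs D (10 * e)) (sy : Sy H)
    (hG : ∀ x y, H x y → A.G x y ∧ Vs x ∧ Vs y)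
    (st : St A.G Vs (fun x z => Vs z ∧ ¬ H x z) (30 * e * D)) (h0 : 0 ≤ e * D) (c : V) {j : Fin 3}
    (hj : j ≠ 2) {π : ℝ} (hπ : ∀ x B, A.pt x = j → A.am x B = ind (A.G x B) - π) (f k : V → ℝ) :
    (∑ x ∈ fs (fun z => Vs z ∧ A.pt z = j), ∑ B ∈ fs (fun z => Vs z ∧ A.pt z = 2),
      ind (H c x) * ind (H c B) * (ind (H x B) - π) * f x * k B) ^ 2 ≤
      (100 * e * D) ^ 2 * (∑ x ∈ fs (fun z => Vs z ∧ A.pt z = j), f x ^ 2) *
        ∑ B ∈ fs (fun z => Vs z ∧ A.pt z = 2), k B ^ 2 := by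
  have o := nt.op j hj (fun x => ind (H c x) * f x) fun B => ind (H c B) * k B
  have key : ∀ x, H c x → cnt (fun z => H c z ∧ A.G x z ∧ ¬ H x z) ≤ 30 * e * D := by
    intro x hx
    obtain ⟨g, vc, vx⟩ := hG c x hx
    exact (cnt_mono fun z hz => ⟨hz.2.1, (hG _ _ hz.1).1, (hG _ _ hz.1).2.2, hz.2.2⟩).trans
      (st x c vx vc (ok.sy _ _ g))
  have key2 : ∀ (x : V) (S : Finset V),
      ∑ z ∈ S, ind (H c x ∧ H c z ∧ A.G x z ∧ ¬ H x z) ≤ 30 * e * D := by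
    intro x S
    by_cases hx : H c x
    · rw [sum_ind_eq_cnt]
      exact (cnt_mono fun z hz => hz.2.2).trans (key x hx)
    · rw [sum_eq_zero fun z _ => ind_neg fun a => hx a.1]
      linarith
  have s := schur (fs fun z => Vs z ∧ A.pt z = j) (fs fun z => Vs z ∧ A.pt z = 2)
    (fun x B => ind (H c x ∧ H c B ∧ A.G x B ∧ ¬ H x B)) (30 * e * D) (by linarith)
    (fun _ _ => ind_nonneg _) (fun x _ => key2 x _) (fun B _ => by
      refine le_of_eq_of_le (sum_congr rfl fun x _ => ind_congr ?_) (key2 B _)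
      exact ⟨fun a => ⟨a.2.1, a.1, ok.sy _ _ a.2.2.1, fun b => a.2.2.2 (sy _ _ b)⟩,
        fun a => ⟨a.2.1, a.1, ok.sy _ _ a.2.2.1, fun b => a.2.2.2 (sy _ _ b)⟩⟩) f k
  have le1 : ∀ (S : Finset V) (F : V → ℝ), ∑ x ∈ S, (ind (H c x) * F x) ^ 2 ≤ ∑ x ∈ S, F x ^ 2 := by
    intro S F
    refine sum_le_sum fun x _ => ?_
    rw [mul_pow, ind_sq]
    exact mul_le_of_le_one_left (sq_nonneg _) (ind_le_one _)
  have n1 : 0 ≤ ∑ x ∈ fs (fun z => Vs z ∧ A.pt z = j), f x ^ 2 := sum_nonneg fun _ _ => sq_nonneg _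
  have n2 : 0 ≤ ∑ x ∈ fs (fun z => Vs z ∧ A.pt z = 2), k x ^ 2 := sum_nonneg fun _ _ => sq_nonneg _
  have o' := o.trans (mul_le_mul (mul_le_mul_of_nonneg_left (le1 _ f) (sq_nonneg _)) (le1 _ k)
    (sum_nonneg fun _ _ => sq_nonneg _) (mul_nonneg (sq_nonneg _) n1))
  have split : ∑ x ∈ fs (fun z => Vs z ∧ A.pt z = j), ∑ B ∈ fs (fun z => Vs z ∧ A.pt z = 2),
      ind (H c x) * ind (H c B) * (ind (H x B) - π) * f x * k B =
      ∑ x ∈ fs (fun z => Vs z ∧ A.pt z = j), ∑ B ∈ fs (fun z => Vs z ∧ A.pt z = 2),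
        A.am x B * (ind (H c x) * f x) * (ind (H c B) * k B) -
      ∑ x ∈ fs (fun z => Vs z ∧ A.pt z = j), ∑ B ∈ fs (fun z => Vs z ∧ A.pt z = 2),
        ind (H c x ∧ H c B ∧ A.G x B ∧ ¬ H x B) * f x * k B := by
    rw [← sum_sub_distrib]
    refine sum_congr rfl fun x hx => ?_
    rw [← sum_sub_distrib]
    refine sum_congr rfl fun B _ => ?_
    rw [hπ x B (mem_fs.1 hx).2, ind_and, ind_and, ind_and, ind_not]
    have e1 : ind (A.G x B) * ind (H x B) = ind (H x B) := by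
      rw [← ind_and]
      exact ind_congr ⟨fun a => a.2, fun a => ⟨(hG _ _ a).1, a⟩⟩
    linear_combination (-(ind (H c x) * ind (H c B) * f x * k B)) * e1
  rw [split]
  have n3 := mul_nonneg (mul_nonneg (sq_nonneg (e * D)) n1) n2
  generalize (∑ x ∈ fs (fun z => Vs z ∧ A.pt z = j), ∑ B ∈ fs (fun z => Vs z ∧ A.pt z = 2),
        A.am x B * (ind (H c x) * f x) * (ind (H c B) * k B)) = S1 at o' ⊢
  generalize (∑ x ∈ fs (fun z => Vs z ∧ A.pt z = j), ∑ B ∈ fs (fun z => Vs z ∧ A.pt z = 2),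
        ind (H c x ∧ H c B ∧ A.G x B ∧ ¬ H x B) * f x * k B) = S2 at s ⊢
  nlinarith [sq_nonneg (S1 + S2)]

omit [Fintype V] in
theorem isy (sy : Sy H) (x y : V) : ind (H x y) = ind (H y x) := ind_congr ⟨sy _ _, sy _ _⟩

end BoostP

open BoostP in
theorem bc : S_BC := by
  intro V _ A Vs H D η ok hD he nt sy hG st
  have e0 : 0 ≤ η ^ 2 := sq_nonneg η
  generalize η ^ 2 = e at he nt st e0 ⊢
  have eD : 0 ≤ e * D := mul_nonneg e0 hD.le
  have eD' : e * D ≤ D / 10 ^ 6 := by nlinarith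
  have p0 := ok.p0
  have ph := ok.ph
  have T0 : ∀ u ∈ fs (fun x => Vs x ∧ A.pt x = 0), ∀ w ∈ fs (fun x => Vs x ∧ A.pt x = 1), H u w →
      (1 - 70 * e) * D ≤ tA (fs fun x => Vs x ∧ A.pt x = 2) H u w ∧
        tA (fs fun x => Vs x ∧ A.pt x = 2) H u w ≤ (1 + 10 * e) * D := fun u hu w hw h =>
    tri ok nt hG st h (by rw [(mem_fs.1 hu).2]; decide) (by rw [(mem_fs.1 hw).2]; decide)
  have T1 : ∀ u ∈ fs (fun x => Vs x ∧ A.pt x = 0), ∀ B ∈ fs (fun x => Vs x ∧ A.pt x = 2), H u B →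
      (1 - 70 * e) * D ≤ tB (fs fun x => Vs x ∧ A.pt x = 1) H u B ∧
        tB (fs fun x => Vs x ∧ A.pt x = 1) H u B ≤ (1 + 10 * e) * D := fun u hu B hB h => by
    have := tri ok nt hG st h (j := 1) (by rw [(mem_fs.1 hu).2]; decide)
      (by rw [(mem_fs.1 hB).2]; decide)
    simpa only [tB, isy sy B] using this
  have T2 : ∀ w ∈ fs (fun x => Vs x ∧ A.pt x = 1), ∀ B ∈ fs (fun x => Vs x ∧ A.pt x = 2), H w B →
      (1 - 70 * e) * D ≤ tC (fs fun x => Vs x ∧ A.pt x = 0) H w B ∧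
        tC (fs fun x => Vs x ∧ A.pt x = 0) H w B ≤ (1 + 10 * e) * D := fun w hw B hB h => by
    have := tri ok nt hG st h (j := 0) (by rw [(mem_fs.1 hw).2]; decide)
      (by rw [(mem_fs.1 hB).2]; decide)
    simpa only [tC, isy sy B, isy sy w] using this
  have dB : ∀ j : Fin 3, j ≠ 2 → ∀ B ∈ fs (fun x => Vs x ∧ A.pt x = 2),
      ∑ u ∈ fs (fun x => Vs x ∧ A.pt x = j), ind (H u B) ≤ (1 + 10 * e) * D := fun j hj B hB => by
    have := dgr nt hG (mem_fs.1 hB).1 (j := j) (by rw [(mem_fs.1 hB).2]; exact hj)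
    rw [(mem_fs.1 hB).2, ok.g2, mul_one] at this
    simpa only [isy sy B] using this
  have c0 : ((fs fun z => Vs z ∧ A.pt z = 0).card : ℝ) ≤ (1 + 10 * e) * D * A.g 1 := siz nt 0
  have c1 : ((fs fun z => Vs z ∧ A.pt z = 1).card : ℝ) ≤ (1 + 10 * e) * D * A.g 0 := siz nt 1
  have c2 : ((fs fun z => Vs z ∧ A.pt z = 2).card : ℝ) ≤ (1 + 10 * e) * D * (A.g 0 * A.g 1) :=
    siz nt 2
  have q0 : 0 ≤ (1 + 10 * e) * D := by positivity
  have q1 : (1 + 10 * e) * D ≤ 1.5 * D := by linarith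
  have g1 := ok.g1'
  have g0 := ok.g0_le
  have g00 := ok.one_le_g 0
  refine ⟨hD, p0, ph, by positivity, by linarith, fun u hu w hw h => ?_, fun u hu B hB h => ?_,
    fun w hw B hB h => ?_, ?_, ?_, ?_, fun B hB => ?_, fun B hB => ?_, fun w hw => ?_,
    fun w hw B hB h => ?_, fun w hw B hB h => ?_, fun u hu B hB h => ?_, fun u hu x y => ?_,
    fun w hw x y => ?_⟩
  · have := T0 u hu w hw h
    rw [abs_le]; constructor <;> linarith [this.1, this.2]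
  · have := T1 u hu B hB h
    rw [abs_le]; constructor <;> linarith [this.1, this.2]
  · have := T2 w hw B hB h
    rw [abs_le]; constructor <;> linarith [this.1, this.2]
  · have : (1 + 10 * e) * D * A.g 1 ≤ 1.5 * D * 2 := by gcongr; linarith [ok.g1]
    linarith
  · have : (1 + 10 * e) * D * A.g 0 ≤ 2 * D * (1 / A.p) := by gcongr; linarith
    rw [mul_one_div] at this
    linarith
  · have : (1 + 10 * e) * D * (A.g 0 * A.g 1) ≤ 1.5 * D * (1 / A.p * 2) := by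
      have := ok.g1
      gcongr
    have e1 : 1.5 * D * (1 / A.p * 2) = 3 * D / A.p := by ring
    linarith
  · linarith [dB 0 (by decide) B hB]
  · linarith [dB 1 (by decide) B hB]
  · have := dgr nt hG (mem_fs.1 hw).1 (j := 2) (by rw [(mem_fs.1 hw).2]; decide)
    rw [(mem_fs.1 hw).2] at this
    have h2 : (1 + 10 * e) * D * A.g 1 ≤ 1.5 * D * 2 := by gcongr; linarith [ok.g1]
    linarith
  · have t := (T2 w hw B hB h).1
    have h1 : ∑ u ∈ fs (fun x => Vs x ∧ A.pt x = 0), ind (H u w) ≤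
        ((fs fun z => Vs z ∧ A.pt z = 0).card : ℝ) := by
      have := sum_le_card_nsmul (fs fun x => Vs x ∧ A.pt x = 0) (fun u => ind (H u w)) 1
        fun _ _ => ind_le_one _
      simpa using this
    have h2 : (1 + 10 * e) * D * A.g 1 ≤ (1 + 10 * e) * D * (1 + 2 * A.p) :=
      mul_le_mul_of_nonneg_left ok.g1_le q0
    have h3 : e * D * A.p ≤ e * D * (1 / 2) := mul_le_mul_of_nonneg_left ph eD
    simp only [mul_sub, mul_one, sum_sub_distrib]
    unfold tC at t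
    linarith
  · have t := (T2 w hw B hB h).1
    have h1 := dB 0 (by decide) B hB
    simp only [mul_sub, mul_one, sum_sub_distrib]
    simp only [tC, mul_comm (ind (H _ w))] at t
    linarith
  · have t := (T1 u hu B hB h).1
    have h1 := dB 1 (by decide) B hB
    simp only [mul_sub, mul_one, sum_sub_distrib]
    simp only [tB, mul_comm (ind (H u _))] at t
    linarith
  · exact opl ok nt sy hG st eD u (by decide) (fun x B hx => by simp [Amb.am, hx]) x y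
  · have := opl ok nt sy hG st eD w (j := 0) (π := 1 - A.p) (by decide)
      (fun x B hx => by simp [Amb.am, hx]) x y
    refine le_of_eq_of_le ?_ this
    congr 1
    exact sum_congr rfl fun u _ => sum_congr rfl fun B _ => by rw [isy sy w u]

namespace BoostP

variable {V : Type} {U W L : Finset V} {H : V → V → Prop}

theorem bal_sub {α β c α' β' c' : V → V → ℝ} (h : Bal U W L H α β c) (h' : Bal U W L H α' β' c') :
    Bal U W L H (fun u w => α u w - α' u w) (fun u B => β u B - β' u B)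
      (fun w B => c w B - c' w B) :=
  ⟨fun u hu w hw a => by simp only [h.s0 u hu w hw a, h'.s0 u hu w hw a, sub_zero],
    fun u hu B hB a => by simp only [h.s1 u hu B hB a, h'.s1 u hu B hB a, sub_zero],
    fun w hw B hB a => by simp only [h.s2 w hw B hB a, h'.s2 w hw B hB a, sub_zero],
    fun u hu => by simp only [sum_sub_distrib, h.bU u hu, h'.bU u hu],
    fun w hw => by simp only [sum_sub_distrib, h.bW w hw, h'.bW w hw],
    fun B hB => by simp only [sum_sub_distrib, h.bL B hB, h'.bL B hB]⟩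

theorem bal_unif (D : ℝ) :
    Bal U W L H (fun u w => ind (H u w) * (tA L H u w / D))
      (fun u B => ind (H u B) * (tB W H u B / D)) (fun w B => ind (H w B) * (tC U H w B / D)) := by
  refine ⟨fun u _ w _ a => by simp only [ind_neg a, zero_mul],
    fun u _ B _ a => by simp only [ind_neg a, zero_mul],
    fun w _ B _ a => by simp only [ind_neg a, zero_mul], fun u _ => ?_, fun w _ => ?_,
    fun B _ => ?_⟩
  · simp only [tA, tB, sum_div, mul_sum]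
    rw [sum_comm]
    exact sum_congr rfl fun _ _ => sum_congr rfl fun _ _ => by ring
  · simp only [tA, tC, sum_div, mul_sum]
    rw [sum_comm]
    exact sum_congr rfl fun _ _ => sum_congr rfl fun _ _ => by ring
  · simp only [tB, tC, sum_div, mul_sum]
    rw [sum_comm]
    exact sum_congr rfl fun _ _ => sum_congr rfl fun _ _ => by ring

theorem err {P : Prop} {t D κ : ℝ} (hD : 0 < D) (hκ : 0 ≤ κ) (h : P → |t - D| ≤ κ * D) :
    |ind P - ind P * (t / D)| ≤ κ := by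
  by_cases hP : P
  · rw [ind_pos hP, one_mul, abs_sub_comm, div_sub_one hD.ne', abs_div, abs_of_pos hD,
      div_le_iff₀ hD]
    exact h hP
  · rw [ind_neg hP]; simpa using hκ

theorem err' {P : Prop} {t D κ a b : ℝ} (hD : 0 < D) (hκ : 0 ≤ κ) (h : P → |t - D| ≤ κ * D)
    (ha : |a| ≤ b) : |ind P - a - ind P * (t / D)| ≤ κ + b := by
  have h1 := abs_le.1 (err hD hκ h)
  have h2 := abs_le.1 ha
  rw [abs_le]; constructor <;> linarith [h1.1, h1.2, h2.1, h2.2]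

theorem num {η p : ℝ} (h0 : 0 < η) (h1 : η ≤ 1 / 10 ^ 8) (p0 : 0 < p)
    (hp : 1 / p ≤ Real.exp (1 / η)) :
    ∃ J : ℕ, 1 ≤ 4 ^ J * p ∧ 50 * (100 * η ^ 2) * J ≤ 1 ∧ 5000 * (J + 2) * (140 * η ^ 2) ≤ 1 := by
  have a1 : 1 / η ≤ (⌈1 / η⌉₊ : ℝ) := Nat.le_ceil _
  have a2 : (⌈1 / η⌉₊ : ℝ) < 1 / η + 1 := Nat.ceil_lt_add_one (by positivity)
  refine ⟨⌈1 / η⌉₊, ?_, ?_⟩
  · rw [← div_le_iff₀ p0]
    refine hp.trans ((Real.exp_le_exp.2 a1).trans ?_)
    rw [← Real.exp_one_pow]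
    exact pow_le_pow_left₀ (Real.exp_pos _).le (by linarith [Real.exp_one_lt_d9]) _
  · generalize (⌈1 / η⌉₊ : ℝ) = J at a1 a2 ⊢
    have a3 : η * J ≤ 1 + η := by
      have := mul_le_mul_of_nonneg_left a2.le h0.le
      rwa [mul_add, mul_one_div_cancel h0.ne', mul_one] at this
    have a4 : η * (η * J) ≤ η * (1 + η) := mul_le_mul_of_nonneg_left a3 h0.le
    have a5 : η * η ≤ η * (1 / 10 ^ 8) := mul_le_mul_of_nonneg_left h1 h0.le
    constructor <;> nlinarith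

end BoostP

open BoostP in
theorem boost (h1 : S_BC) (h2 : S_LemE) (h3 : S_Core) : S_Boost := by
  classical
  refine ⟨1 / 10 ^ 8, by positivity, ?_⟩
  intro V _ A Vs H D η δ ok hD h0 hη nt sy hG st hδ hδ' him hp
  have he : η ^ 2 ≤ 1 / 10 ^ 6 := by nlinarith
  have bc := h1 V A Vs H D η ok hD he nt sy hG st
  obtain ⟨αE, βE, ha, hb, bal⟩ := h2 V A Vs H D η δ ok hD he nt sy hG st hδ.le him
  obtain ⟨J, j1, j2, j3⟩ := num h0 hη ok.p0 hp
  have k0 := bc.k0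
  obtain ⟨ψ, α', β', cor, hψ, ha', hb'⟩ := h3 V _ _ _ H D A.p _ _ _ _ (140 * η ^ 2) δ J bc
    (bal_sub bal (bal_unif D)) j1 j2 (by positivity) hδ
    (fun u hu w hw => (err' hD k0 (bc.t0 u hu w hw) (ha u w)).trans (by linarith))
    (fun u hu B hB => (err' hD k0 (bc.t1 u hu B hB) (hb u B)).trans (by linarith))
    (fun w hw B hB => (err hD k0 (bc.t2 w hw B hB)).trans (by nlinarith [sq_nonneg η]))
  refine ⟨fun u w B => if (Vs u ∧ A.pt u = 0) ∧ (Vs w ∧ A.pt w = 1) ∧ (Vs B ∧ A.pt B = 2) then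
    1 / D + ψ u w B else 0, fun u w B => ?_, fun u w pu pw h => ?_, fun u B pu pB h => ?_,
    fun w B pw pB h => ?_⟩
  · beta_reduce
    split_ifs with c
    · have := abs_le.1 ((hψ u (mem_fs.2 c.1) w (mem_fs.2 c.2.1) B (mem_fs.2 c.2.2)).trans
        (div_le_div_of_nonneg_right j3 hD.le))
      have e : 2 / D = 1 / D + 1 / D := by ring
      constructor <;> linarith [this.1, this.2]
    · exact ⟨le_rfl, by positivity⟩
  · have mu : Vs u ∧ A.pt u = 0 := ⟨(hG _ _ h).2.1, pu⟩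
    have mw : Vs w ∧ A.pt w = 1 := ⟨(hG _ _ h).2.2, pw⟩
    have c := cor.c0 u (mem_fs.2 mu) w (mem_fs.2 mw) h
    rw [sum_fs_sub (Q := fun x => Vs x ∧ A.pt x = 2) fun z hz => ⟨(hG _ _ hz.1).2.2,
      third_unique (ok.tp _ _ (hG _ _ h).1) (ok.tp _ _ (hG _ _ hz.1).1).symm
        (ok.tp _ _ (hG _ _ hz.2).1).symm (by rw [pu]; decide) (by rw [pw]; decide)⟩]
    rw [sum_congr rfl (g := fun B => ind (H u B) * ind (H w B) / D +
      ind (H u B) * ind (H w B) * ψ u w B) fun B hB => by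
        have m := mem_fs.1 hB
        rw [if_pos ⟨mu, mw, m⟩, ind_and]; ring]
    rw [sum_add_distrib, ← sum_div]
    simp only [ind_pos h, tA, one_mul] at c
    have b1 := abs_le.1 (ha u w)
    have b2 := abs_le.1 (ha' u (mem_fs.2 mu) w (mem_fs.2 mw))
    rw [abs_le]; constructor <;> linarith [b1.1, b1.2, b2.1, b2.2]
  · have mu : Vs u ∧ A.pt u = 0 := ⟨(hG _ _ h).2.1, pu⟩
    have mB : Vs B ∧ A.pt B = 2 := ⟨(hG _ _ h).2.2, pB⟩
    have c := cor.c1 u (mem_fs.2 mu) B (mem_fs.2 mB) h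
    rw [sum_fs_sub (Q := fun x => Vs x ∧ A.pt x = 1) fun z hz => ⟨(hG _ _ hz.1).2.2,
      third_unique (ok.tp _ _ (hG _ _ h).1) (ok.tp _ _ (hG _ _ hz.1).1).symm
        (ok.tp _ _ (hG _ _ hz.2).1) (by rw [pu]; decide) (by rw [pB]; decide)⟩]
    rw [sum_congr rfl (g := fun w => ind (H u w) * ind (H w B) / D +
      ind (H u w) * ind (H w B) * ψ u w B) fun w hw => by
        have m := mem_fs.1 hw
        rw [if_pos ⟨mu, m, mB⟩, ind_and]; ring]
    rw [sum_add_distrib, ← sum_div]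
    simp only [ind_pos h, tB, one_mul] at c
    have b1 := abs_le.1 (hb u B)
    have b2 := abs_le.1 (hb' u (mem_fs.2 mu) B (mem_fs.2 mB))
    rw [abs_le]; constructor <;> linarith [b1.1, b1.2, b2.1, b2.2]
  · have mw : Vs w ∧ A.pt w = 1 := ⟨(hG _ _ h).2.1, pw⟩
    have mB : Vs B ∧ A.pt B = 2 := ⟨(hG _ _ h).2.2, pB⟩
    have c := cor.c2 w (mem_fs.2 mw) B (mem_fs.2 mB) h
    rw [sum_fs_sub (Q := fun x => Vs x ∧ A.pt x = 0) fun z hz => ⟨(hG _ _ hz.1).2.1,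
      third_unique (ok.tp _ _ (hG _ _ h).1) (ok.tp _ _ (hG _ _ hz.1).1)
        (ok.tp _ _ (hG _ _ hz.2).1) (by rw [pw]; decide) (by rw [pB]; decide)⟩]
    rw [sum_congr rfl (g := fun u => ind (H u w) * ind (H u B) / D +
      ind (H u w) * ind (H u B) * ψ u w B) fun u hu => by
        have m := mem_fs.1 hu
        rw [if_pos ⟨m, mw, mB⟩, ind_and]; ring]
    rw [sum_add_distrib, ← sum_div]
    simp only [ind_pos h, tC, one_mul] at c
    rw [abs_le]; constructor <;> linarith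

end Pool.Agent.P.MP_77d020_co.L
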