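import Pool.Agent.P.MP_77d020_co.L.Prob

/-! The cover-down step. -/

namespace Pool.Agent.P.MP_77d020_co.L

open Finset

namespace CDP

theorem dpos {ε D : ℝ} (e0 : 0 < ε) (dl : 1 ≤ ε ^ 600 * D) : 0 < D :=
  (mul_pos_iff_of_pos_left (pow_pos e0 600)).1 (lt_of_lt_of_le one_pos dl)

theorem big {ε D : ℝ} (e0 : 0 < ε) (e1 : ε ≤ 1 / 10 ^ 40) (dl : 1 ≤ ε ^ 600 * D) {a : ℕ}
    (ha : a ≤ 599) : 10 ^ 40 ≤ ε ^ a * D := by
  have D0 : 0 < D := dpos e0 dl
  have h1 : ε ^ 600 ≤ ε ^ (a + 1) :=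
    pow_le_pow_of_le_one e0.le (e1.trans (by norm_num)) (by omega)
  have h2 : ε ^ 600 * D ≤ ε ^ (a + 1) * D := by gcongr
  have h3 : ε ^ (a + 1) * D = ε ^ a * D * ε := by ring
  have h4 : ε ^ a * D * ε ≤ ε ^ a * D * (1 / 10 ^ 40) := by gcongr
  linarith

theorem small {ε D : ℝ} (e0 : 0 < ε) (e1 : ε ≤ 1 / 10 ^ 40) (D0 : 0 < D) {a b : ℕ}
    (h : a < b) : ε ^ b * D ≤ ε ^ a * D / 10 ^ 40 := by
  have h1 : ε ^ b ≤ ε ^ (a + 1) := pow_le_pow_of_le_one e0.le (e1.trans (by norm_num)) h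
  have h2 : ε ^ b * D ≤ ε ^ (a + 1) * D := by gcongr
  have h3 : ε ^ (a + 1) * D = ε ^ a * D * ε := by ring
  have h4 : ε ^ a * D * ε ≤ ε ^ a * D * (1 / 10 ^ 40) := by gcongr
  linarith

theorem inv_le {ε η D : ℝ} (e0 : 0 < ε) (e1 : ε ≤ 1 / 10 ^ 40) (eh : ε ≤ η)
    (dl : 1 ≤ ε ^ 600 * D) {a : ℕ} (ha : a ≤ 598) : 1 / η ≤ ε ^ a * D / 10 ^ 40 := by
  have h1 := big e0 e1 dl (a := a + 1) (by omega)
  have h2 : 1 / η ≤ 1 / ε := one_div_le_one_div_of_le e0 eh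
  refine h2.trans ?_
  rw [div_le_div_iff₀ e0 (by positivity)]
  have h3 : ε ^ (a + 1) * D = ε ^ a * D * ε := by ring
  linarith

end CDP

open CDP in
theorem cd (h1 : S_Boost) (h2 : S_AD) (h3 : S_Step3) (h4 : S_Step4) : S_CD := by
  obtain ⟨ηb, ηb0, hB⟩ := h1
  refine ⟨min ηb (1 / 10 ^ 20), lt_min ηb0 (by positivity), ?_⟩
  intro V _ A Vb Vs V1 V2 Q R R' H a π D ε η L hη Rp sR' hR' sH hH QH RH stH imbHQ imb0
  have e0 := L.e0
  have η0 := L.h0
  have η1 : η ≤ 1 / 10 ^ 20 := hη.trans (min_le_right _ _)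
  have e1 : ε ≤ 1 / 10 ^ 40 := L.eh.trans (by
    calc η ^ 2 ≤ (1 / 10 ^ 20) ^ 2 := by gcongr
      _ = 1 / 10 ^ 40 := by norm_num)
  have eη : ε ≤ η := L.eh.trans (by nlinarith)
  have dl := L.dl
  have D0 : 0 < D := dpos e0 dl
  have sm : ∀ {a b : ℕ}, a < b → ε ^ b ≤ ε ^ a / 10 ^ 40 := fun h => by
    simpa using small e0 e1 one_pos h
  have sG := L.ok.sy
  have tG := L.ok.tp
  have sQ := L.qsy
  have sR := Rp.sy
  have Rout : ∀ x z, ¬ V1 x → R x z → V1 z ∧ ¬ V2 z := fun x z hx h => by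
    rcases (Rp.sub x z h).2 with k | k
    · exact ⟨k.2.2.1, k.2.2.2⟩
    · exact absurd k.2.2.1 hx
  have QR : ∀ x y, Q x y → ¬ R x y := fun x y h h' => by
    obtain ⟨-, k1, k2⟩ := L.qG x y h
    rcases (Rp.sub x y h').2 with k | k
    · exact k.2.1 k1
    · exact k.2.1 k2
  have l7 : ∀ x y, Vs x → Vs y → A.G x y →
      cnt (fun z => Vs z ∧ A.G x z ∧ A.G y z) ≤ 2 * D := fun x y hx => L.l7 x y (L.ssb x hx)
  -- the graph without the kept graph and the reserve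
  obtain ⟨H0, hH0⟩ : ∃ H0 : V → V → Prop, ∀ x y, H0 x y ↔ H x y ∧ ¬ Q x y ∧ ¬ R x y :=
    ⟨_, fun _ _ => Iff.rfl⟩
  have sH0 : Sy H0 := fun x y h => by
    rw [hH0] at h ⊢
    exact ⟨sH _ _ h.1, fun k => h.2.1 (sQ _ _ k), fun k => h.2.2 (sR _ _ k)⟩
  have H0G : ∀ x y, H0 x y → A.G x y ∧ Vs x ∧ Vs y := fun x y h => hH x y ((hH0 x y).1 h).1
  have stQ : St A.G Vs Q (3 * ε * D) := fun x y hx hy hxy =>
    (cnt_mono fun z hz => ⟨(L.qG _ _ hz.2.2).2.2, hz.1, hz.2.1⟩).trans (L.l3 x y hx hy hxy)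
  have stH0 : St A.G Vs (fun x z => Vs z ∧ ¬ H0 x z) (30 * η ^ 2 * D) := by
    have k := (stH.or (stQ.or Rp.r2 (P'' := fun x z => Q x z ∨ R x z) fun _ _ _ _ h => h)
      (P'' := fun x z => Vs z ∧ ¬ H0 x z) fun x z _ _ h =>
        (em (Q x z ∨ R x z)).symm.imp_left fun k =>
          ⟨h.1, fun k' => h.2 ((hH0 x z).2 ⟨k', not_or.1 k⟩)⟩)
    refine k.mono (fun _ h => h) (fun _ _ _ _ h => h) ?_
    have : ε * D ≤ η ^ 2 * D := by gcongr; exact L.eh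
    have : 0 ≤ η ^ 2 * D := by positivity
    linarith
  have imbH0 : ∀ x, Vs x → |imb A.pt H0 x| ≤ 2 * ε ^ 47 * A.g (A.pt x) * D := fun x hx => by
    have k1 := imb_eq_add (pt := A.pt) (G := H) (H := H0) (H' := fun x y => Q x y ∨ R x y)
      (x := x) (fun y => ⟨fun h => (em (Q x y ∨ R x y)).symm.imp_left fun k =>
          (hH0 x y).2 ⟨h, not_or.1 k⟩,
        fun h => h.elim (fun k => ((hH0 x y).1 k).1) fun k => k.elim (QH x y) (RH x y)⟩)
      (fun y h k => k.elim ((hH0 x y).1 h).2.1 ((hH0 x y).1 h).2.2)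
    have k2 := imb_eq_add (pt := A.pt) (G := fun x y => Q x y ∨ R x y) (H := Q) (H' := R)
      (x := x) (fun _ => Iff.rfl) (QR x)
    have k3 := abs_le.1 (imbHQ x hx)
    have k4 := abs_le.1 (Rp.r1 x)
    rw [abs_le]
    constructor <;> linarith [k3.1, k3.2, k4.1, k4.2]
  obtain ⟨φ, φ0, φf⟩ := hB V A Vs H0 D η (2 * ε ^ 47) L.ok D0 η0 (hη.trans (min_le_left _ _))
    L.nat sH0 H0G stH0 (by positivity) (by
      have := sm (a := 1) (b := 47) (by norm_num)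
      have := L.eh
      rw [pow_one] at *
      linarith) imbH0 L.cp
  obtain ⟨C0, C0H, dC0, stC0⟩ := h2 V A.pt A.G H0 Vs φ D (ε ^ 15) sG tG sH0 H0G (by positivity)
    (by have := sm (a := 0) (b := 15) (by norm_num); rw [pow_zero] at this; linarith) D0
    (by
      rw [div_le_iff₀ D0, ← pow_mul]
      have := big e0 e1 dl (a := 15 * 20) (by norm_num)
      linarith) φ0
    (φf.mono (by
      have k : (ε ^ 15) ^ 3 = ε ^ 45 := by ring
      have := sm (a := 45) (b := 47) (by norm_num)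
      have : 0 < ε ^ 45 := by positivity
      linarith)) l7
    (L.cs.trans (Real.exp_le_exp.2 (one_div_le_one_div_of_le (by positivity) (by
      have := sm (a := 1) (b := 15) (by norm_num)
      rw [pow_one] at this
      linarith))))
  have sC0 := dC0.sy
  -- covering the leftover edges with an end outside `V1`
  obtain ⟨Lf, hLf⟩ : ∃ Lf : V → V → Prop,
      ∀ x y, Lf x y ↔ H0 x y ∧ ¬ C0 x y ∧ (¬ V1 x ∨ ¬ V1 y) := ⟨_, fun _ _ => Iff.rfl⟩
  obtain ⟨Opt, hOpt⟩ : ∃ Opt : V → V → Prop,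
      ∀ x z, Opt x z ↔ V1 z ∧ ¬ V2 z ∧ (R x z ∨ Q x z ∧ ¬ R' x z) := ⟨_, fun _ _ => Iff.rfl⟩
  have sLf : Sy Lf := fun x y h => by
    rw [hLf] at h ⊢
    exact ⟨sH0 _ _ h.1, fun k => h.2.1 (sC0 _ _ k), h.2.2.symm⟩
  have AvRQ : ∀ x y, Opt x y ∨ Opt y x → R x y ∨ Q x y := fun x y h =>
    h.elim (fun k => ((hOpt _ _).1 k).2.2.imp_right And.left) fun k =>
      ((hOpt _ _).1 k).2.2.imp (sR _ _) fun k => sQ _ _ k.1
  have cs2 : cnt Vs ^ 2 ≤ Real.exp (2 / η) := by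
    have k : Real.exp (2 / η) = Real.exp (1 / η) ^ 2 := by
      rw [← Real.exp_nat_mul]; congr 1; push_cast; ring
    rw [k]
    exact pow_le_pow_left₀ (cnt_nonneg _) L.cs 2
  have K1 : ∀ x y, ¬ V1 x → A.G x y → Vs x → Vs y →
      ε ^ 7 * D / 8 ≤ cnt (fun z => Opt x z ∧ Opt y z) := fun x y hx hxy sx sy => by
    by_cases hy : V1 y
    · refine (Rp.r3' x y sx hx hy hxy).trans (cnt_mono fun z hz => ?_)
      have k := Rout x z hx hz.1
      exact ⟨(hOpt _ _).2 ⟨k.1, k.2, Or.inl hz.1⟩, (hOpt _ _).2 ⟨k.1, k.2, Or.inr hz.2⟩⟩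
    · refine (Rp.r3 x y sx hx sy hy hxy).trans (cnt_mono fun z hz => ?_)
      have k := Rout x z hx hz.1
      exact ⟨(hOpt _ _).2 ⟨k.1, k.2, Or.inl hz.1⟩, (hOpt _ _).2 ⟨k.1, k.2, Or.inl hz.2⟩⟩
  obtain ⟨Us, sUs, UsAv, dUs, stUs⟩ := h3 V A.pt A.G Lf (fun x y => Opt x y ∨ Opt y x) Vs
    (fun x y z => Opt x z ∧ Opt y z) (ε ^ 7 * D / 8) (2 * ε ^ 15 * D) (2 * D) (200 * (ε ^ 8 * D))
    (2 / η) sG tG sLf (fun _ _ h => h.symm)
    (fun x y h => by
      have k := ((hLf x y).1 h).1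
      obtain ⟨k1, k2, k3⟩ := H0G x y k
      exact ⟨k1, k2, k3, fun k' =>
        (AvRQ x y k').elim ((hH0 x y).1 k).2.2 ((hH0 x y).1 k).2.1⟩)
    (fun x y h => hH x y ((AvRQ x y h).elim (RH x y) (QH x y))) (fun _ _ _ h => h.symm)
    (fun _ _ _ h => ⟨Or.inl h.1, Or.inl h.2⟩)
    (fun x y h => by
      obtain ⟨k, -, k'⟩ := (hLf x y).1 h
      obtain ⟨k1, k2, k3⟩ := H0G x y k
      rcases k' with k' | k'
      · exact K1 x y k' k1 k2 k3
      · exact (K1 y x k' (sG _ _ k1) k3 k2).trans (cnt_mono fun z hz => hz.symm))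
    (stC0.mono (fun _ h => h)
      (fun x z _ _ h => ⟨((hLf x z).1 h).1, ((hLf x z).1 h).2.1⟩) le_rfl)
    l7 (by positivity) (by positivity) (by positivity) cs2
    (by
      have k : 4 * (2 * ε ^ 15 * D) * (2 * D) / (ε ^ 7 * D / 8) = 128 * (ε ^ 8 * D) := by
        field_simp; norm_num
      have k2 := inv_le e0 e1 eη dl (a := 8) (by norm_num)
      have k3 : 2 / η = 2 * (1 / η) := by ring
      have : 0 < ε ^ 8 * D := by positivity
      rw [k, k3]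
      linarith)
    (by
      have := small e0 e1 D0 (a := 7) (b := 8) (by norm_num)
      have : 0 < ε ^ 7 * D := by positivity
      linarith)
  have UsRQ : ∀ x y, Us x y → R x y ∨ Q x y := fun x y h => AvRQ x y (UsAv x y h)
  have H0Us : ∀ x y, H0 x y → ¬ Us x y := fun x y h k =>
    (UsRQ x y k).elim ((hH0 x y).1 h).2.2 ((hH0 x y).1 h).2.1
  have LfH0 : ∀ x y, Lf x y → H0 x y := fun x y h => ((hLf x y).1 h).1
  have LUH : ∀ x y, Lf x y ∨ Us x y → H x y := fun x y h =>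
    h.elim (fun k => ((hH0 x y).1 (LfH0 x y k)).1) fun k => (UsRQ x y k).elim (RH x y) (QH x y)
  have C0LU : ∀ x y, C0 x y → ¬ (Lf x y ∨ Us x y) := fun x y h k =>
    k.elim (fun k => ((hLf x y).1 k).2.1 h) (H0Us x y (C0H x y h))
  have cov : ∀ x y, ¬ V1 x ∨ ¬ V1 y → H x y →
      (C0 x y ∨ (Lf x y ∨ Us x y)) ∨ (R x y ∧ ¬ Us x y) := fun x y hx h => by
    have k : ¬ Q x y := fun k =>
      hx.elim (fun a => a (L.qG x y k).2.1) fun a => a (L.qG x y k).2.2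
    by_cases c1 : R x y
    · by_cases c2 : Us x y
      · exact Or.inl (Or.inr (Or.inr c2))
      · exact Or.inr ⟨c1, c2⟩
    · by_cases c2 : C0 x y
      · exact Or.inl (Or.inl c2)
      · exact Or.inl (Or.inr (Or.inl ((hLf x y).2 ⟨(hH0 x y).2 ⟨h, k, c1⟩, c2, hx⟩)))
  have πn : ∀ i, 0.48 * (ε ^ 4 * D) ≤ π i * (ε ^ 4 * D * A.g i) := fun i => by
    have k := L.pl i
    have : 0.48 * (ε ^ 4 * D) ≤ π i * A.g i * (ε ^ 4 * D) := by gcongr
    linarith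
  have r0 : 0 < ε ^ 4 * D := by positivity
  -- covering the rest of the reserve
  obtain ⟨Us2, sUs2, Us2Av, dUs2, stUs2⟩ := h4 V A.pt Vs (fun x => Vs x ∧ ¬ V1 x)
    (fun x y => R x y ∧ ¬ Us x y) (fun x y => Q x y ∧ ¬ V2 x ∧ ¬ V2 y ∧ ¬ Us x y) π
    (fun i => ε ^ 4 * D * A.g i) (ε ^ 4 * D) (10 ^ 13 * ε ^ 6 * D) (3 * ε * D) (3 / η)
    (fun z y z' => A.G z y ∧ V1 z' ∧ A.G z z' ∧ A.G y z')
    (fun x y h => ⟨sR _ _ h.1, fun k => h.2 (sUs _ _ k)⟩)
    (fun x y h => ⟨sQ _ _ h.1, h.2.2.1, h.2.1, fun k => h.2.2.2 (sUs _ _ k)⟩)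
    (tG.mono fun x y h => (Rp.sub x y h.1).1) (tG.mono fun x y h => (L.qG x y h.1).1)
    (fun x y h => by
      rcases (Rp.sub x y h.1).2 with k | k
      · exact ⟨k.1, fun _ k' => k'.2 k.2.2.1, fun _ => ⟨k.1, k.2.1⟩⟩
      · exact ⟨L.s1s x k.2.2.1, fun k' => absurd k.2.2.1 k'.2, fun k' => absurd ⟨k.1, k.2.1⟩ k'⟩)
    (fun x y h k => k.2 (L.qG x y h.1).2.1)
    (fun x hx => by
      have k1 := imb_eq_add (pt := A.pt) (G := H) (H := fun x y => C0 x y ∨ (Lf x y ∨ Us x y))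
        (H' := fun x y => R x y ∧ ¬ Us x y) (x := x)
        (fun y => ⟨cov x y (Or.inl hx.2), fun k => k.elim
          (fun k => k.elim (fun k => ((hH0 x y).1 (C0H x y k)).1) (LUH x y))
          fun k => RH x y k.1⟩)
        (fun y k k' => k.elim (fun k => ((hH0 x y).1 (C0H x y k)).2.2 k'.1) fun k =>
          k.elim (fun k => ((hH0 x y).1 (LfH0 x y k)).2.2 k'.1) k'.2)
      have k2 := (dC0.union dUs C0LU).imb (pt := A.pt) (tG.mono fun x y k => (hH x y (k.elim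
        (fun k => ((hH0 x y).1 (C0H x y k)).1) (LUH x y))).1) x
      rw [imb0 x hx.1 hx.2, k2] at k1
      linarith)
    L.p0 (fun i => by linarith [πn i])
    (fun x j hx => (cnt_mono fun y hy => ⟨hy.1, hy.2.1⟩).trans (Rp.r4 x j hx.1 hx.2))
    (fun x z hx hz => by
      obtain ⟨z1, z2⟩ := Rout x z hx.2 hz.1
      have xz := (Rp.sub x z hz.1).1
      refine ⟨?_, (cnt_mono fun z' h => ⟨h.1.1, (L.qG _ _ h.2.1).1⟩).trans
        (Rp.r5' x z hx.1 hx.2 z1 xz)⟩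
      have k1 := Rp.r5 x z hx.1 hx.2 z1 xz
      have k2 := cnt_le_add3 (P := fun z' => R x z' ∧ Q z z')
        (Q := fun z' => (R x z' ∧ ¬ Us x z') ∧ Q z z' ∧ ¬ V2 z ∧ ¬ V2 z' ∧ ¬ Us z z')
        (R := fun z' => A.G x z' ∧ A.G z z' ∧ Us x z')
        (T := fun z' => A.G z z' ∧ A.G x z' ∧ Us z z') fun z' h => by
          have b1 := (Rout x z' hx.2 h.1).2
          have b2 := (Rp.sub x z' h.1).1
          have b3 := (L.qG _ _ h.2).1
          by_cases c1 : Us x z'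
          · exact Or.inr (Or.inl ⟨b2, b3, c1⟩)
          · by_cases c2 : Us z z'
            · exact Or.inr (Or.inr ⟨b3, b2, c2⟩)
            · exact Or.inl ⟨⟨h.1, c1⟩, h.2, z2, b1, c2⟩
      have k3 := stUs x z hx.1 (L.s1s z z1) xz
      have k4 := stUs z x (L.s1s z z1) hx.1 (sG _ _ xz)
      have k5 := πn (A.pt x)
      have k6 := small e0 e1 D0 (a := 4) (b := 8) (by norm_num)
      linarith)
    (fun x hx X Y hX hY => by
      have g0 : 0 ≤ ε ^ 4 * D * A.g (A.pt x) := by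
        have := L.ok.one_le_g (A.pt x)
        positivity
      have kk : ∀ (Z : Finset V) (j : Fin 3), (∀ z ∈ Z, (R x z ∧ ¬ Us x z) ∧ A.pt z = j) →
          (Z.card : ℝ) ≤ 2 * ε ^ 4 * D * A.g (A.pt x) := fun Z j hZ => by
        have k1 : (Z.card : ℝ) ≤ deg A.pt R x j :=
          card_le_cnt fun z hz => ⟨(hZ z hz).2, (hZ z hz).1.1⟩
        have k2 := Rp.r4 x j hx.1 hx.2
        linarith
      have k1 := L.l6 (A.pt x) X Y (fun z hz => ⟨(Rout x z hx.2 (hX z hz).1.1).1, (hX z hz).2⟩)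
        (fun z hz => ⟨(Rout x z hx.2 (hY z hz).1.1).1, (hY z hz).2⟩) (kk X _ hX) (kk Y _ hY)
      refine (eb_mono (fun _ _ h => h.1) X Y).trans (k1.trans ?_)
      have k5 := πn (A.pt x)
      exact add_le_add le_rfl (mul_le_mul_of_nonneg_right (by linarith)
        (le_max_of_le_left (Nat.cast_nonneg _))))
    (fun z z' h => (cnt_mono fun x hx => ⟨hx.1.1, hx.2.1⟩).trans
      (Rp.r6 z z' (L.qG _ _ h.1).2.1 (L.qG _ _ h.1).2.2 (L.qG _ _ h.1).1))
    (by positivity)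
    (by have := small e0 e1 D0 (a := 4) (b := 6) (by norm_num); linarith)
    (by
      have k : Real.exp (3 / η) = Real.exp (1 / η) * Real.exp (2 / η) := by
        rw [← Real.exp_add]; congr 1; ring
      have k1 : 1 ≤ 1 / η := by rw [le_div_iff₀ η0]; linarith
      have k2 := Real.add_one_le_exp (1 / η)
      rw [k]
      exact mul_le_mul (by linarith) cs2 (by positivity) (by positivity))
    (by
      have k2 := inv_le e0 e1 eη dl (a := 4) (by norm_num)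
      have k3 : 3 / η = 3 * (1 / η) := by ring
      linarith)
    (by have := big e0 e1 dl (a := 4) (by norm_num); linarith) (by positivity)
    (fun z y hz hy => by
      by_cases h : A.G z y
      · exact (cnt_mono fun z' k => k.2).trans (L.l3 z y hz hy h)
      · rw [cnt_zero fun z' k => h k.1]; positivity)
  have H0n : ∀ x y, H0 x y → ¬ (R x y ∧ ¬ Us x y ∨ Us2 x y) := fun x y h k =>
    k.elim (fun k => ((hH0 x y).1 h).2.2 k.1) fun k => ((hH0 x y).1 h).2.1 (Us2Av x y k).1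
  have Qn : ∀ x y, Q x y → (C0 x y ∨ (Lf x y ∨ Us x y)) ∨ (R x y ∧ ¬ Us x y ∨ Us2 x y) →
      Us x y ∨ Us2 x y := fun x y hQ k => by
    rcases k with (k | k | k) | k | k
    · exact absurd hQ ((hH0 x y).1 (C0H x y k)).2.1
    · exact absurd hQ ((hH0 x y).1 (LfH0 x y k)).2.1
    · exact Or.inl k
    · exact absurd k.1 (QR x y hQ)
    · exact Or.inr k
  refine ⟨fun x y => H x y ∧ ¬ ((C0 x y ∨ (Lf x y ∨ Us x y)) ∨ (R x y ∧ ¬ Us x y ∨ Us2 x y)),
    fun x y h => ⟨sH _ _ h.1, fun k => h.2 ?_⟩, fun x y h => ⟨h.1, ?_⟩, ?_, ?_, ?_, ?_⟩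
  · exact k.imp ((dC0.union dUs C0LU).sy _ _) (dUs2.sy _ _)
  · by_contra k
    exact h.2 ((cov x y (not_and_or.1 k) h.1).imp_right Or.inl)
  · refine ((dC0.union dUs C0LU).union dUs2 fun x y k k' => ?_).congr fun x y => ?_
    · rcases k with k | k | k
      · exact H0n x y (C0H x y k) k'
      · exact H0n x y (LfH0 x y k) k'
      · exact k'.elim (fun k' => k'.2 k) fun k' => (Us2Av x y k').2.2.2 k
    · refine ⟨fun k => ?_, fun k => by_contra fun k' => k.2 ⟨k.1, k'⟩⟩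
      refine ⟨?_, fun k' => k'.2 k⟩
      rcases k with (k | k) | k | k
      · exact ((hH0 x y).1 (C0H x y k)).1
      · exact LUH x y k
      · exact RH x y k.1
      · exact QH x y (Us2Av x y k).1
  · intro x y hQ hx hy
    refine ⟨QH x y hQ, fun k => (Qn x y hQ k).elim (fun k => ?_) fun k => (Us2Av x y k).2.1 hx⟩
    exact (UsAv x y k).elim (fun k => ((hOpt _ _).1 k).2.1 hy) fun k => ((hOpt _ _).1 k).2.1 hx
  · intro x y hQ hR
    refine ⟨QH x y hQ, fun k => (Qn x y hQ k).elim (fun k => ?_) fun k =>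
      (hR' x y hR).elim (Us2Av x y k).2.1 (Us2Av x y k).2.2.1⟩
    rcases UsAv x y k with k | k
    · exact ((hOpt _ _).1 k).2.2.elim (QR x y hQ) fun k => k.2 hR
    · exact ((hOpt _ _).1 k).2.2.elim (fun k => QR x y hQ (sR _ _ k)) fun k => k.2 (sR' _ _ hR)
  · intro x y hx hy hxy
    have k1 := cnt_le_add (P := fun z => A.G x z ∧ A.G y z ∧ Q x z ∧ ¬ (H x z ∧
        ¬ ((C0 x z ∨ (Lf x z ∨ Us x z)) ∨ (R x z ∧ ¬ Us x z ∨ Us2 x z))))
      (Q := fun z => A.G x z ∧ A.G y z ∧ Us x z)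
      (R := fun z => (A.G x y ∧ V1 z ∧ A.G x z ∧ A.G y z) ∧ Us2 x z) fun z h => by
        obtain ⟨a1, a2, hQ, a3⟩ := h
        exact (Qn x z hQ (by_contra fun k => a3 ⟨QH x z hQ, k⟩)).imp (fun k => ⟨a1, a2, k⟩)
          fun k => ⟨⟨hxy, (L.qG x z hQ).2.2, a1, a2⟩, k⟩
    have k2 := stUs x y (L.s1s x hx) (L.s1s y hy) hxy
    have k3 := stUs2 x y (L.s1s x hx) (L.s1s y hy)
    have k4 : 36 * (10 ^ 13 * ε ^ 6 * D) * (3 * ε * D) / (ε ^ 4 * D) =
        108 * 10 ^ 13 * (ε ^ 3 * D) := by field_simp; norm_num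
    have k5 := inv_le e0 e1 eη dl (a := 2) (by norm_num)
    have k6 : 3 / η = 3 * (1 / η) := by ring
    have k7 := small e0 e1 D0 (a := 2) (b := 8) (by norm_num)
    have k8 := small e0 e1 D0 (a := 2) (b := 3) (by norm_num)
    have k9 : 0 < ε ^ 2 * D := by positivity
    rw [k4, k6] at k3
    linarith

end Pool.Agent.P.MP_77d020_co.L
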