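import Pool.Agent.P.MP_77d020_co.L.Prob

/-! Rows adjacent to all sampled letters. -/

namespace Pool.Agent.P.MP_77d020_co.L

open Finset

namespace CellP

variable {V : Type} [Fintype V] {A : Amb V} {k : ℝ}

theorem markov_cnt {α : Type} [Fintype α] {q : V → α → ℝ} (hq : IsP q) (P : V → Prop)
    (L : α → Prop) {ρ M : ℝ} (h : ∀ x, P x → pl q x L ≤ ρ) (hM : 0 < M) :
    Pr q (fun ω => M ≤ cnt (fun x => P x ∧ L (ω x))) ≤ cnt P * ρ / M := by
  refine (Pr_markov hq (fun ω => cnt_nonneg _) hM).trans ?_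
  refine div_le_div_of_nonneg_right ?_ hM.le
  simp only [cnt_and_eq_sum]
  rw [Ex_sum_ind (fs P) fun x ω => L (ω x)]
  simp only [Pr_coord hq]
  exact sum_fs_le h

theorem cnt_exists_le (X P : V → Prop) (R : V → V → Prop) {b : ℝ}
    (h : ∀ u, X u → cnt (R u) ≤ b) (hP : ∀ z, P z → ∃ u, X u ∧ R u z) : cnt P ≤ cnt X * b := by
  refine le_trans ?_ (sum_fs_le h)
  simp only [cnt_eq_sum]
  rw [sum_comm]
  refine sum_le_sum fun z _ => ind_le (sum_nonneg fun _ _ => ind_nonneg _) fun hz => ?_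
  obtain ⟨u, hu, hR⟩ := hP z hz
  rw [← ind_pos hR]
  exact single_le_sum (f := fun u => ind (R u z)) (fun _ _ => ind_nonneg _) (mem_fs.2 hu)

omit [Fintype V] in
theorem gz0 : A.gz 0 = A.g 1 := rfl

omit [Fintype V] in
theorem gz2 : A.gz 2 = A.g 0 * A.g 1 := rfl

theorem miss1 (h : A.DG k) {u : V} (hu : A.pt u = 0) :
    cnt (fun z => A.pt z = 2 ∧ ¬ A.G u z) ≤ 2 * A.p * k * A.g 0 := by
  have h1 := cnt_split (fun z => A.pt z = 2) (fun z => A.G u z)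
  have h2 := h.dg u (j := 2) (by rw [hu]; decide)
  rw [h.sz 2, h2, hu, gz2] at h1
  have h3 := h.ok.g1_le
  have h4 : 0 ≤ k * A.g 0 := mul_nonneg (by linarith [h.k1]) (by linarith [h.ok.one_le_g 0])
  nlinarith [mul_le_mul_of_nonneg_left h3 h4]

theorem miss2 (h : A.DG k) {u w : V} (hu : A.pt u = 0) (hw : A.pt w = 1) :
    cnt (fun z => (A.pt z = 2 ∧ A.G w z) ∧ ¬ A.G u z) ≤ 2 * A.p * k := by
  have h1 := cnt_split (fun z => A.pt z = 2 ∧ A.G w z) (fun z => A.G u z)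
  have h2 := h.dg w (j := 2) (by rw [hw]; decide)
  rw [h2, hw] at h1
  have h5 : k ≤ cnt (fun z => (A.pt z = 2 ∧ A.G w z) ∧ A.G u z) := by
    rw [← h.tri (h.ok.cpl u w hu hw)]
    refine cnt_mono fun z hz => ⟨⟨?_, hz.2⟩, hz.1⟩
    have a := h.ok.tp _ _ hz.1
    have b := h.ok.tp _ _ hz.2
    rw [hu] at a
    rw [hw] at b
    rcases fin3 (A.pt z) with c | c | c
    · exact (a c.symm).elim
    · exact (b c.symm).elim
    · exact c
  have h3 := h.ok.g1_le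
  have h4 : 0 ≤ k := by linarith [h.k1]
  nlinarith [mul_le_mul_of_nonneg_left h3 h4]

theorem fam_miss (h : A.DG k) {X : V → Prop} (hX : ∀ u, X u → A.pt u = 0) {τ : ℝ}
    (hτ : cnt X * (2 * A.p) ≤ τ) :
    A.Fam (fun _ => True) (fun z => ¬ (A.pt z ≠ 2 ∨ ∀ u, X u → A.G u z)) (fun _ => 0)
      (τ * k) := by
  have k0 : 0 ≤ k := by linarith [h.k1]
  have t0 : 0 ≤ τ := le_trans (mul_nonneg (cnt_nonneg _) (by linarith [h.ok.p0])) hτ
  have tk : 0 ≤ τ * k := mul_nonneg t0 k0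
  have e1 : cnt (fun z => ¬ (A.pt z ≠ 2 ∨ ∀ u, X u → A.G u z)) ≤ τ * k * A.g 0 := by
    refine (cnt_exists_le X _ (fun u z => A.pt z = 2 ∧ ¬ A.G u z)
      (fun u hu => miss1 h (hX u hu)) fun z hz => ?_).trans ?_
    · push Not at hz
      obtain ⟨a, u, b, c⟩ := hz
      exact ⟨u, b, a, c⟩
    · have h4 : 0 ≤ k * A.g 0 := mul_nonneg k0 (by linarith [h.ok.one_le_g 0])
      nlinarith [mul_le_mul_of_nonneg_right hτ h4]
  have e2 : ∀ w, A.pt w = 1 →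
      cnt (fun z => ¬ (A.pt z ≠ 2 ∨ ∀ u, X u → A.G u z) ∧ A.G w z) ≤ τ * k := by
    intro w hw
    refine (cnt_exists_le X _ (fun u z => (A.pt z = 2 ∧ A.G w z) ∧ ¬ A.G u z)
      (fun u hu => miss2 h (hX u hu) hw) fun z hz => ?_).trans ?_
    · obtain ⟨hz, d⟩ := hz
      push Not at hz
      obtain ⟨a, u, b, c⟩ := hz
      exact ⟨u, b, ⟨a, d⟩, c⟩
    · nlinarith [mul_le_mul_of_nonneg_right hτ k0]
  have e3 : ∀ z, ¬ (A.pt z ≠ 2 ∨ ∀ u, X u → A.G u z) → A.pt z = 2 := fun z hz => by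
    by_contra a; exact hz (Or.inl a)
  refine ⟨fun j => ?_, fun x j _ hj => ?_, fun x y j _ _ hxy _ _ => ?_⟩
  · rw [zero_mul, sub_zero, abs_of_nonneg (cnt_nonneg _)]
    by_cases hj : j = 2
    · subst hj
      refine ((cnt_mono fun z hz => hz.1).trans e1).trans ?_
      rw [gz2]
      have h4 : 0 ≤ τ * k * A.g 0 := mul_nonneg tk (by linarith [h.ok.one_le_g 0])
      nlinarith [mul_le_mul_of_nonneg_left h.ok.g1 h4]
    · rw [cnt_zero fun z hz => hj (hz.2.symm.trans (e3 z hz.1))]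
      exact mul_nonneg tk (by linarith [h.ok.one_le_gz j])
  · rw [zero_mul, sub_zero, abs_of_nonneg (cnt_nonneg _)]
    rcases fin3 (A.pt x) with c | c | c
    · rw [c]; exact (cnt_mono fun z hz => hz.1).trans e1
    · refine ((cnt_mono fun z hz => ⟨hz.1, hz.2.2⟩).trans (e2 x c)).trans ?_
      nlinarith [mul_le_mul_of_nonneg_left (h.ok.one_le_g (A.pt x)) tk]
    · rw [cnt_zero fun z hz => h.ok.tp _ _ hz.2.2 (c.trans (e3 z hz.1).symm)]
      exact mul_nonneg tk (by linarith [h.ok.one_le_g (A.pt x)])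
  · rw [sub_zero, abs_of_nonneg (cnt_nonneg _)]
    by_cases cx : A.pt x = 1
    · exact (cnt_mono fun z hz => ⟨hz.1, hz.2.1⟩).trans (e2 x cx)
    by_cases cy : A.pt y = 1
    · exact (cnt_mono fun z hz => ⟨hz.1, hz.2.2⟩).trans (e2 y cy)
    rw [cnt_zero]
    · exact tk
    rintro z ⟨a, b, c⟩
    have a1 := e3 z a
    have b1 := h.ok.tp _ _ b
    have c1 := h.ok.tp _ _ c
    have d1 := h.ok.tp _ _ hxy
    rw [a1] at b1 c1
    rcases fin3 (A.pt x) with e | e | e <;> rcases fin3 (A.pt y) with f | f | f <;> simp_all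

theorem case1 (h : A.DG k) {ρc ρ1 : ℝ} (h2 : ρ1 ≤ 1 / 16) (h3 : 1 ≤ ρc * k)
    {X : V → Prop} (hX : ∀ u, X u → A.pt u = 0) (hc : 4 * (A.g 1 * (ρc * k)) ≤ cnt X)
    (α : Type) [Fintype α] (q : V → α → ℝ) (Lc L0 : α → Prop) (hq : IsP q)
    (hB : ∀ B, A.pt B = 2 → ¬ (A.pt B ≠ 2 ∨ ∀ u, X u → A.G u B) → pl q B Lc = 0)
    (hu : ∀ u, A.pt u = 0 → pl q u (fun x => ¬ L0 x) ≤ 2 * ρ1) :
    Pr q (fun ω => cnt (fun u => A.pt u = 0 ∧ L0 (ω u) ∧
      ∀ B, A.pt B = 2 → Lc (ω B) → A.G u B) < A.g 1 * (ρc * k)) ≤ 1 / 4 := by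
  have g1 := h.ok.g1
  have m0 : 1 ≤ A.g 1 * (ρc * k) := one_le_mul_of_one_le_of_one_le g1 h3
  have m1 : 0 < cnt X / 2 := by linarith
  have p1 := markov_cnt hq X (fun x => ¬ L0 x) (fun u a => hu u (hX u a)) m1
  have p2 := Pr_exists_le_card hq
    (fs fun B => A.pt B = 2 ∧ ¬ (A.pt B ≠ 2 ∨ ∀ u, X u → A.G u B)) (fun B ω => Lc (ω B))
    (c := 0) fun B a => by
      rw [Pr_coord hq, hB B (mem_fs.1 a).1 (mem_fs.1 a).2]
  refine (Pr_le_add hq (fun ω a => ?_) p1 p2).trans ?_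
  · by_contra b
    obtain ⟨b1, b2⟩ := not_or.1 b
    have c1 := cnt_split X fun x => L0 (ω x)
    have c2 : cnt (fun x => X x ∧ L0 (ω x)) ≤ cnt (fun u => A.pt u = 0 ∧ L0 (ω u) ∧
        ∀ B, A.pt B = 2 → Lc (ω B) → A.G u B) := by
      refine cnt_mono fun u d => ⟨hX u d.1, d.2, fun B e f => ?_⟩
      by_contra g
      refine b2 ⟨B, mem_fs.2 ⟨e, ?_⟩, f⟩
      rintro (i | i)
      · exact i e
      · exact g (i u d.1)
    linarith
  · rw [mul_zero, add_zero, div_le_iff₀ m1]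
    nlinarith

/-- rows adjacent to all vertices of `T` -/
def XT (A : Amb V) (T : Finset V) (u : V) : Prop := A.pt u = 0 ∧ ∀ B ∈ T, A.G u B

/-- the letter `B` cuts down the common neighbourhood of `T` too much -/
def Bad (A : Amb V) (b : ℝ) (T : Finset V) (B : V) : Prop :=
  A.pt B = 2 ∧ B ∉ T ∧ b ≤ cnt (XT A T) ∧ cnt (fun u => XT A T u ∧ A.G u B) < cnt (XT A T) / 4

theorem bad_le (h : A.DG k) {b : ℝ} (hb : 0 < b) (T : Finset V) :
    cnt (Bad A b T) ≤ 16 * k / b := by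
  have k0 : 0 ≤ k := by linarith [h.k1]
  by_cases hx : b ≤ cnt (XT A T)
  swap
  · rw [cnt_zero fun B a => hx a.2.2.1]; positivity
  have h1 := (h.op 0 (by decide)).vec (X := fs (XT A T)) (Y := fs (Bad A b T))
    (fun x a => ⟨trivial, (mem_fs.1 a).1⟩) (fun x a => ⟨trivial, (mem_fs.1 a).1⟩) fun _ => 1
  rw [Real.sq_sqrt k0] at h1
  simp only [mul_one, one_pow, sum_const, nsmul_eq_mul] at h1
  change _ ≤ k * cnt (XT A T) at h1
  have h2 : cnt (Bad A b T) * (cnt (XT A T) / 4) ^ 2 ≤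
      ∑ y ∈ fs (Bad A b T), (∑ x ∈ fs (XT A T), A.am x y) ^ 2 := by
    refine le_sum_fs fun B a => ?_
    have e : ∑ x ∈ fs (XT A T), A.am x B =
        cnt (fun u => XT A T u ∧ A.G u B) - cnt (XT A T) * (1 - A.p) := by
      rw [cnt_and_eq_sum, sum_congr rfl (g := fun x => ind (A.G x B) - (1 - A.p)) fun x c => by
        unfold Amb.am; rw [if_pos (mem_fs.1 c).1], sum_sub_distrib, sum_const, nsmul_eq_mul]
      rfl
    rw [e, ← neg_sq (_ - _)]
    refine pow_le_pow_left₀ (by linarith) ?_ 2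
    have a1 := a.2.2.2
    nlinarith [h.ok.ph]
  obtain ⟨x, hx'⟩ : ∃ x, x = cnt (XT A T) := ⟨_, rfl⟩
  rw [← hx'] at h1 h2 hx
  have x0 : 0 < x := by linarith
  have y0 := cnt_nonneg (Bad A b T)
  rw [le_div_iff₀ hb]
  have h3 : cnt (Bad A b T) * x ≤ 16 * k := by
    refine le_of_mul_le_mul_right ?_ x0
    nlinarith
  nlinarith [mul_le_mul_of_nonneg_left hx y0]

theorem pr_bad (h : A.DG k) {b ρ : ℝ} (hb : 0 < b) (h0 : 0 ≤ ρ) {α : Type} [Fintype α]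
    {q : V → α → ℝ} {Lc : α → Prop} (hq : IsP q) (hB : ∀ B, A.pt B = 2 → pl q B Lc ≤ ρ) :
    Pr q (fun ω => ∃ T ∈ (fs fun B => A.pt B = 2).powerset, ∃ B ∈ fs (Bad A b T),
      Lc (ω B) ∧ ∀ i ∈ T, Lc (ω i)) ≤
      Real.exp (ρ * cnt fun B => A.pt B = 2) * (16 * k / b * ρ) := by
  classical
  have k0 : 0 ≤ k := by linarith [h.k1]
  refine (Pr_exists_le hq _ _).trans ?_
  have e1 : ∀ T ∈ (fs fun B => A.pt B = 2).powerset,
      Pr q (fun ω => ∃ B ∈ fs (Bad A b T), Lc (ω B) ∧ ∀ i ∈ T, Lc (ω i)) ≤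
        (∏ _i ∈ T, ρ) * (16 * k / b * ρ) := by
    intro T hT
    have e2 := Pr_exists_le_card hq (fs (Bad A b T))
      (fun B ω => Lc (ω B) ∧ ∀ i ∈ T, Lc (ω i)) (c := ρ * ∏ _i ∈ T, ρ) fun B a => by
        have a1 := mem_fs.1 a
        rw [Pr_congr (Q := fun ω => ∀ i ∈ insert B T, Lc (ω i)) fun ω => by simp,
          Pr_all hq _ fun _ => Lc, prod_insert a1.2.1]
        refine mul_le_mul (hB B a1.1) (prod_le_prod (fun i _ => pl_nonneg hq _ _) fun i hi =>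
          hB i ((mem_fs (P := fun B => A.pt B = 2)).1 (mem_powerset.1 hT hi))) (prod_nonneg fun i _ => pl_nonneg hq _ _) h0
    refine e2.trans ?_
    have e3 : (0 : ℝ) ≤ ρ * ∏ _i ∈ T, ρ := mul_nonneg h0 (prod_nonneg fun _ _ => h0)
    refine (mul_le_mul_of_nonneg_right (bad_le h hb T) e3).trans (le_of_eq ?_)
    ring
  refine (sum_le_sum e1).trans ?_
  rw [← sum_mul, ← prod_one_add]
  refine mul_le_mul_of_nonneg_right ?_ (by positivity)
  unfold cnt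
  rw [prod_const, mul_comm, Real.exp_nat_mul]
  exact pow_le_pow_left₀ (by linarith) (by linarith [Real.add_one_le_exp ρ]) _

theorem grow (h : A.DG k) {t : ℕ} {S : Finset V} (hS : ∀ B ∈ S, A.pt B = 2) (ht : S.card ≤ t)
    (hb : ∀ T ⊆ S, ∀ B ∈ S, ¬ Bad A (k * A.g 1 / 4 ^ t) T B) :
    k * A.g 1 / 4 ^ t ≤ cnt (XT A S) := by
  classical
  have n0 : 0 ≤ k * A.g 1 := mul_nonneg (by linarith [h.k1]) (by linarith [h.ok.g1])
  have mono : ∀ T ⊆ S, k * A.g 1 / 4 ^ t ≤ k * A.g 1 / 4 ^ T.card := fun T hT =>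
    div_le_div_of_nonneg_left n0 (by positivity)
      (pow_le_pow_right₀ (by norm_num) ((card_le_card hT).trans ht))
  have key : ∀ T ⊆ S, k * A.g 1 / 4 ^ T.card ≤ cnt (XT A T) := by
    intro T
    induction T using Finset.induction_on with
    | empty =>
      intro _
      rw [card_empty, pow_zero, div_one, ← gz0, ← h.sz 0]
      exact cnt_mono fun u a => ⟨a, by simp⟩
    | insert B T hB ih =>
      intro hT
      have hT' : T ⊆ S := (subset_insert _ _).trans hT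
      have hB' : B ∈ S := hT (mem_insert_self _ _)
      have a1 := ih hT'
      have a2 : cnt (XT A T) / 4 ≤ cnt (fun u => XT A T u ∧ A.G u B) := by
        by_contra c
        exact hb T hT' B hB' ⟨hS B hB', hB, (mono T hT').trans a1, not_le.1 c⟩
      have a3 : cnt (fun u => XT A T u ∧ A.G u B) ≤ cnt (XT A (insert B T)) :=
        cnt_mono fun u c => ⟨c.1.1, fun B' d => by
          rcases mem_insert.1 d with rfl | d
          · exact c.2
          · exact c.1.2 B' d⟩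
      rw [card_insert_of_notMem hB, pow_succ, ← div_div]
      linarith
  exact (mono S Subset.rfl).trans (key S Subset.rfl)

theorem exp_le (t : ℕ) : Real.exp (t / 16) ≤ 3 ^ t := by
  have h1 : Real.exp (t / 16) ≤ Real.exp (t * 1) :=
    Real.exp_le_exp.2 (by have : (0 : ℝ) ≤ t := Nat.cast_nonneg t; linarith)
  rw [Real.exp_nat_mul] at h1
  exact h1.trans (pow_le_pow_left₀ (Real.exp_pos _).le (by linarith [Real.exp_one_lt_d9]) _)

theorem case2 (h : A.DG k) {ρc ρ1 : ℝ} (h0 : 0 < ρc) (h1 : ρc ≤ ρ1) {t : ℕ}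
    (ht : 64 * (ρc * k) / A.p ≤ t) (ht' : 1000 * 12 ^ t * ρ1 ≤ 1)
    (α : Type) [Fintype α] (q : V → α → ℝ) (Lc L0 : α → Prop) (hq : IsP q)
    (hB : ∀ B, A.pt B = 2 → pl q B Lc ≤ 2 * ρc)
    (hu : ∀ u, A.pt u = 0 → pl q u (fun x => ¬ L0 x) ≤ 2 * ρ1) :
    Pr q (fun ω => cnt (fun u => A.pt u = 0 ∧ L0 (ω u) ∧
      ∀ B, A.pt B = 2 → Lc (ω B) → A.G u B) < A.g 1 * (ρc * k)) ≤ 1 / 4 := by
  have k0 : 0 < k := by linarith [h.k1]
  have g1 := h.ok.g1
  have p0 := h.ok.p0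
  have r1 : 0 < ρ1 := by linarith
  have n0 : 0 < k * A.g 1 := by positivity
  have t0 : (0 : ℝ) < t := lt_of_lt_of_le (by positivity) ht
  have v1 : 2 * ρc * cnt (fun B => A.pt B = 2) ≤ t / 16 := by
    rw [h.sz 2, gz2]
    have a1 : A.g 0 * A.g 1 ≤ 1 / A.p * 2 :=
      mul_le_mul h.ok.g0_le h.ok.g1' (by linarith) (by positivity)
    have a2 : 64 * (ρc * k) / A.p = 32 * (ρc * k) * (1 / A.p * 2) := by ring
    have a3 := mul_le_mul_of_nonneg_left a1 (mul_pos h0 k0).le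
    linarith
  have w0 : (0 : ℝ) < 4 ^ t := by positivity
  have w1 : (12 : ℝ) ^ t = 3 ^ t * 4 ^ t := by rw [← mul_pow]; norm_num
  have w2 : (1 : ℝ) ≤ 3 ^ t := one_le_pow₀ (by norm_num)
  have p1 := markov_cnt hq (fun u => A.pt u = 0) (fun x => ¬ L0 x) hu
    (M := 32 * ρ1 * (k * A.g 1)) (by positivity)
  have p2 := markov_cnt hq (fun B => A.pt B = 2) Lc hB t0
  have p3 := pr_bad h (b := k * A.g 1 / 4 ^ t) (by positivity) (by linarith) hq hB
  have q1 : cnt (fun u => A.pt u = 0) * (2 * ρ1) / (32 * ρ1 * (k * A.g 1)) = 1 / 16 := by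
    rw [h.sz 0, gz0]; field_simp; norm_num
  have q2 : cnt (fun B => A.pt B = 2) * (2 * ρc) / t ≤ 1 / 16 := by
    rw [div_le_iff₀ t0]; linarith
  have q3 : Real.exp (2 * ρc * cnt fun B => A.pt B = 2) *
      (16 * k / (k * A.g 1 / 4 ^ t) * (2 * ρc)) ≤ 1 / 16 := by
    have a1 : 16 * k / (k * A.g 1 / 4 ^ t) ≤ 16 * 4 ^ t := by
      rw [div_le_iff₀ (by positivity)]
      have : 16 * 4 ^ t * (k * A.g 1 / 4 ^ t) = 16 * (k * A.g 1) := by field_simp
      rw [this]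
      nlinarith
    have a2 := (Real.exp_le_exp.2 v1).trans (exp_le t)
    calc _ ≤ 3 ^ t * (16 * 4 ^ t * (2 * ρ1)) := by gcongr
      _ = 32 * (12 ^ t * ρ1) := by rw [w1]; ring
      _ ≤ 1 / 16 := by linarith
  refine (Pr_le_add hq (fun ω a => ?_) (p1.trans q1.le)
    (Pr_le_add hq (fun _ a => a) (p2.trans q2) (p3.trans q3))).trans (by norm_num)
  by_contra b
  push Not at b
  obtain ⟨b1, b2, b3⟩ := b
  have c1 := grow h (t := t) (S := fs fun B => A.pt B = 2 ∧ Lc (ω B))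
    (fun B d => (mem_fs.1 d).1) (Nat.cast_le.1 b2.le) fun T hT B d e => by
      obtain ⟨i, f, g⟩ := b3 T (mem_powerset.2 fun i f => mem_fs.2 (mem_fs.1 (hT f)).1) B
        (mem_fs.2 e) (mem_fs.1 d).2
      exact g (mem_fs.1 (hT f)).2
  have c2 : cnt (XT A (fs fun B => A.pt B = 2 ∧ Lc (ω B))) ≤
      cnt (fun u => A.pt u = 0 ∧ L0 (ω u) ∧ ∀ B, A.pt B = 2 → Lc (ω B) → A.G u B) +
        cnt (fun u => A.pt u = 0 ∧ ¬ L0 (ω u)) := by
    refine cnt_le_add fun u d => ?_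
    by_cases e : L0 (ω u)
    · exact Or.inl ⟨d.1, e, fun B f g => d.2 B (mem_fs.2 ⟨f, g⟩)⟩
    · exact Or.inr ⟨d.1, e⟩
  have c3 : 33 * ρ1 * (k * A.g 1) ≤ k * A.g 1 / 4 ^ t := by
    rw [le_div_iff₀ w0]
    have d1 : 4 ^ t * ρ1 ≤ 12 ^ t * ρ1 := by
      rw [w1]; nlinarith [mul_pos w0 r1]
    have d2 : 33 * (4 ^ t * ρ1) ≤ 1 := by nlinarith [mul_pos w0 r1]
    nlinarith [mul_le_mul_of_nonneg_right d2 n0.le]
  nlinarith [mul_le_mul_of_nonneg_right h1 n0.le]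

end CellP

open CellP in
theorem cell : S_Cell := by
  intro V _ A k ρc ρ1 τ h h0 h1 h2 h3 hτ hc
  have k0 : 0 < k := by linarith [h.k1]
  have g1 := h.ok.g1
  have g1' := h.ok.g1'
  rcases hc with hc | ⟨t, ht, ht'⟩
  · have m0 : 1 ≤ A.g 1 * (ρc * k) := one_le_mul_of_one_le_of_one_le g1 h3
    have m1 := Nat.ceil_lt_add_one (a := 4 * (A.g 1 * (ρc * k))) (by linarith)
    have m2 : A.g 1 * (ρc * k) ≤ k * A.g 1 / 16 := by
      nlinarith [mul_le_mul_of_nonneg_right (h1.trans h2) (mul_pos k0 (by linarith : 0 < A.g 1)).le]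
    obtain ⟨X, hX, hX'⟩ := exists_sub_cnt (P := fun u => A.pt u = 0)
      (n := ⌈4 * (A.g 1 * (ρc * k))⌉₊) (by rw [h.sz 0, gz0]; linarith)
    refine ⟨fun z => A.pt z ≠ 2 ∨ ∀ u, X u → A.G u z, fun z a => Or.inl a, fam_miss h hX ?_,
      fun α _ q Lc L0 hq hB hu => case1 h h2 h3 hX (by rw [hX']; exact Nat.le_ceil _) α q Lc L0
        hq (fun B a => (hB B a).2) hu⟩
    have m3 : cnt X ≤ 9 * (ρc * k) := by
      rw [hX']
      nlinarith [mul_le_mul_of_nonneg_right g1' (by linarith : 0 ≤ ρc * k)]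
    have p0 := h.ok.p0
    nlinarith [mul_le_mul_of_nonneg_right m3 p0.le, mul_nonneg (by linarith : 0 ≤ ρc * k) p0.le]
  · have tk : 0 ≤ τ * k := mul_nonneg hτ k0.le
    refine ⟨fun _ => True, fun _ _ => trivial, ⟨fun j => ?_, fun x j _ _ => ?_,
      fun x y j _ _ _ _ _ => ?_⟩, fun α _ q Lc L0 hq hB hu =>
        case2 h h0 h1 ht ht' α q Lc L0 hq (fun B a => (hB B a).1) hu⟩
    · rw [cnt_zero fun z a => a.1 trivial, zero_mul, sub_zero, abs_zero]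
      exact mul_nonneg tk (by linarith [h.ok.one_le_gz j])
    · rw [cnt_zero fun z a => a.1 trivial, zero_mul, sub_zero, abs_zero]
      exact mul_nonneg tk (by linarith [h.ok.one_le_g (A.pt x)])
    · rw [cnt_zero fun z a => a.1 trivial, sub_zero, abs_zero]
      exact tk

end Pool.Agent.P.MP_77d020_co.L
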