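import Pool.Agent.P.MP_77d020_co.L.Prob

/-! Iteration of the correction rounds. -/

namespace Pool.Agent.P.MP_77d020_co.L

open Finset

namespace CoreP

variable {V : Type} {U W L : Finset V} {H : V → V → Prop} {D p κ : ℝ} {α β c : V → V → ℝ}

theorem comp {ψ ψ' : V → V → V → ℝ} {α1 β1 c1 α2 β2 c2 : V → V → ℝ}
    (h : Cor U W L H ψ α β c α1 β1 c1) (h' : Cor U W L H ψ' α1 β1 c1 α2 β2 c2) :
    Cor U W L H (fun u w B => ψ u w B + ψ' u w B) α β c α2 β2 c2 := by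
  refine ⟨fun u hu w hw e => ?_, fun u hu B hB e => ?_, fun w hw B hB e => ?_⟩
  · rw [h'.c0 u hu w hw e, h.c0 u hu w hw e]
    simp only [mul_add, sum_add_distrib]; ring
  · rw [h'.c1 u hu B hB e, h.c1 u hu B hB e]
    simp only [mul_add, sum_add_distrib]; ring
  · rw [h'.c2 w hw B hB e, h.c2 w hw B hB e]
    simp only [mul_add, sum_add_distrib]; ring

/-- the state after some rounds -/
def Inv (U W L : Finset V) (H : V → V → Prop) (D : ℝ) (α β c : V → V → ℝ) (S T M : ℝ) : Prop :=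
  ∃ (ψ : V → V → V → ℝ) (α' β' : V → V → ℝ) (a b P Q : ℝ), Bal U W L H α' β' (fun _ _ => 0) ∧
    Cor U W L H ψ α β c α' β' (fun _ _ => 0) ∧ 0 ≤ a ∧ 0 ≤ b ∧ 0 ≤ P ∧ 0 ≤ Q ∧ a + b ≤ S ∧
    P + 30 * Q ≤ T * √D ∧ (∀ u ∈ U, ∀ w ∈ W, |α' u w| ≤ a) ∧ (∀ u ∈ U, ∀ B ∈ L, |β' u B| ≤ b) ∧
    (∀ u ∈ U, ∑ w ∈ W, α' u w ^ 2 ≤ P ^ 2) ∧ (∀ u ∈ U, ∑ B ∈ L, β' u B ^ 2 ≤ Q ^ 2) ∧
    ∀ u ∈ U, ∀ w ∈ W, ∀ B ∈ L, |ψ u w B| ≤ M / D

theorem step (h1 : S_RAlg) (h2 : S_RSup) (h3 : S_RL2) (bc : BC U W L H D p κ)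
    {S T M S' T' M' : ℝ} (h : Inv U W L H D α β c S T M)
    (hS : (1 + 4 * p + 46 * κ) * S ≤ S' ∨ 0.4 * T + S / 4 ≤ S') (hT : T / 2 ≤ T')
    (hM : M + 5 * S ≤ M') : Inv U W L H D α β c S' T' M' := by
  obtain ⟨ψ, α', β', a, b, P, Q, i1, i2, a0, b0, P0, Q0, i3, i4, i5, i6, i7, i8, i9⟩ := h
  obtain ⟨-, -, r1, r2⟩ := h1 V U W L H D p κ α' β' bc i1
  obtain ⟨s1, s2, s3⟩ := h2 V U W L H D p κ α' β' a b bc i1 a0 b0 i5 i6
  obtain ⟨l1, l2, l3⟩ := h3 V U W L H D p κ α' β' a P Q bc i1 a0 P0 Q0 i5 i7 i8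
  have k0 := bc.k0
  have k1 := bc.k1
  have p0 := bc.p0.le
  have d0 := bc.d0
  have sd : 0 < √D := Real.sqrt_pos.2 d0
  have e1 : κ * P ≤ 1 / 10 ^ 4 * P := mul_le_mul_of_nonneg_right k1 P0
  have e2 : κ * a ≤ 1 / 10 ^ 4 * a := mul_le_mul_of_nonneg_right k1 a0
  have e3 : κ * b ≤ 1 / 10 ^ 4 * b := mul_le_mul_of_nonneg_right k1 b0
  have e4 : T / 2 * √D ≤ T' * √D := mul_le_mul_of_nonneg_right hT sd.le
  refine ⟨_, _, _, min ((1 + 4 * p + 40 * κ) * a + (1 + 6 * κ) * b)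
    (3 * (4 * Q + 4 * κ * P) / √D + 8 * κ * a), 5 * κ * (a + b), 12 * Q + 20 * κ * P,
    (9 * Q + 18 * κ * P) / 100, r1, comp i2 r2, le_min (by positivity) (by positivity),
    by positivity, by positivity, by positivity, ?_, by linarith,
    fun u hu w hw => le_min (s1 u hu w hw) (l3 u hu w hw), s2, l1, fun u hu => (l2 u hu).trans ?_,
    fun u hu w hw B hB => ?_⟩
  · rcases hS with hS | hS
    · have e5 : (1 + 4 * p + 46 * κ) * (a + b) ≤ (1 + 4 * p + 46 * κ) * S :=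
        mul_le_mul_of_nonneg_left i3 (by positivity)
      have e6 := min_le_left ((1 + 4 * p + 40 * κ) * a + (1 + 6 * κ) * b)
        (3 * (4 * Q + 4 * κ * P) / √D + 8 * κ * a)
      have e7 : 0 ≤ p * b := by positivity
      have e8 : 0 ≤ κ * a := by positivity
      have e9 : 0 ≤ κ * b := by positivity
      linarith
    · have e5 : 3 * (4 * Q + 4 * κ * P) / √D ≤ 0.4 * T := by
        rw [div_le_iff₀ sd]; linarith
      have e6 := min_le_right ((1 + 4 * p + 40 * κ) * a + (1 + 6 * κ) * b)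
        (3 * (4 * Q + 4 * κ * P) / √D + 8 * κ * a)
      linarith
  · have := mul_le_mul_of_nonneg_right k1 (sq_nonneg (9 * Q + 18 * κ * P))
    rw [div_pow]; linarith
  · refine (abs_add_le _ _).trans ((add_le_add (i9 u hu w hw B hB) (s3 u hu w hw B hB)).trans ?_)
    rw [← add_div]
    exact div_le_div_of_nonneg_right (by linarith) d0.le

theorem sum_le {s : Finset V} {f z : V → ℝ} {t m : ℝ} (f0 : ∀ x, 0 ≤ f x) (hm : 0 ≤ m)
    (hz : ∀ x ∈ s, |z x| ≤ m) (ht : ∑ x ∈ s, f x ≤ t) : |∑ x ∈ s, f x * z x| ≤ t * m := by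
  refine (abs_sum_le_sum_abs _ _).trans (le_trans (sum_le_sum fun x hx => ?_)
    ((sum_mul s f m).ge.trans (mul_le_mul_of_nonneg_right ht hm)))
  rw [abs_mul, abs_of_nonneg (f0 x)]
  exact mul_le_mul_of_nonneg_left (hz x hx) (f0 x)

theorem sq_sum_le {s : Finset V} {z : V → ℝ} {m n : ℝ} (hz : ∀ x ∈ s, |z x| ≤ m)
    (hn : (s.card : ℝ) ≤ n) : ∑ x ∈ s, z x ^ 2 ≤ n * m ^ 2 := by
  refine (sum_le_card_nsmul s _ (m ^ 2) fun x hx => ?_).trans ?_
  · exact sq_le_sq' (abs_le.1 (hz x hx)).1 (abs_le.1 (hz x hx)).2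
  · rw [nsmul_eq_mul]
    exact mul_le_mul_of_nonneg_right hn (sq_nonneg m)

theorem start (bc : BC U W L H D p κ) (bal : Bal U W L H α β c) {A g : ℝ} (hA : 0 ≤ A)
    (g0 : 0 ≤ g) (hg : 1 ≤ g ^ 2 * p) (ha : ∀ u ∈ U, ∀ w ∈ W, |α u w| ≤ A)
    (hb : ∀ u ∈ U, ∀ B ∈ L, |β u B| ≤ A) (hc : ∀ w ∈ W, ∀ B ∈ L, |c w B| ≤ A) :
    Inv U W L H D α β c (4.2 * A) (114 * A * g) (2 * A) := by
  have k0 := bc.k0
  have k1 := bc.k1
  have d0 := bc.d0
  have kd : κ * D ≤ 1 / 10 ^ 4 * D := mul_le_mul_of_nonneg_right k1 d0.le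
  obtain ⟨z, hz⟩ : ∃ z : V → V → ℝ, ∀ w B, z w B = c w B / tC U H w B := ⟨_, fun _ _ => rfl⟩
  have z1 : ∀ w ∈ W, ∀ B ∈ L, ind (H w B) * z w B = z w B ∧ tC U H w B * z w B = c w B ∧
      |z w B| ≤ 1.01 * A / D := fun w hw B hB => by
    by_cases e : H w B
    · have t := (abs_le.1 (bc.t2 w hw B hB e)).1
      have t0 : 0 < tC U H w B := by linarith
      refine ⟨by rw [ind_pos e, one_mul], by rw [hz, mul_div_cancel₀ _ t0.ne'], ?_⟩
      rw [hz, abs_div, abs_of_pos t0, div_le_div_iff₀ t0 d0]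
      have e1 := mul_le_mul_of_nonneg_right (hc w hw B hB) d0.le
      have e2 : A * (0.999 * D) ≤ A * tC U H w B := mul_le_mul_of_nonneg_left (by linarith) hA
      have e3 : 0 ≤ A * D := by positivity
      linarith
    · rw [hz, bal.s2 w hw B hB e]
      simp only [zero_div, mul_zero, abs_zero, true_and]
      positivity
  have e0 : ∀ u, ∀ w ∈ W, ∑ B ∈ L, ind (H u B) * ind (H w B) * z w B =
      ∑ B ∈ L, ind (H u B) * z w B := fun u w hw =>
    sum_congr rfl fun B hB => by rw [mul_assoc, (z1 w hw B hB).1]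
  have e1 : ∀ u, ∀ B ∈ L, ∑ w ∈ W, ind (H u w) * ind (H w B) * z w B =
      ∑ w ∈ W, ind (H u w) * z w B := fun u B hB =>
    sum_congr rfl fun w hw => by rw [mul_assoc, (z1 w hw B hB).1]
  have m0 : 0 ≤ 1.01 * A / D := by positivity
  have m1 : 1.01 * D * (1.01 * A / D) ≤ 1.1 * A := by
    rw [show 1.01 * D * (1.01 * A / D) = 1.01 * 1.01 * A by field_simp]; linarith
  have b0 : ∀ u ∈ U, ∀ w ∈ W,
      |α u w - ind (H u w) * ∑ B ∈ L, ind (H u B) * z w B| ≤ 2.1 * A := fun u hu w hw => by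
    by_cases e : H u w
    · have t := (abs_le.1 (bc.t0 u hu w hw e)).2
      have := sum_le (t := 1.01 * D) (fun B => mul_nonneg (ind_nonneg (H u B)) (ind_nonneg (H w B)))
        m0 (fun B hB => (z1 w hw B hB).2.2) (le_trans (b := tA L H u w) le_rfl (by linarith))
      rw [ind_pos e, one_mul, ← e0 u w hw]
      exact (abs_sub _ _).trans (by linarith [ha u hu w hw])
    · rw [ind_neg e, zero_mul, sub_zero]
      linarith [ha u hu w hw]
  have b1 : ∀ u ∈ U, ∀ B ∈ L,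
      |β u B - ind (H u B) * ∑ w ∈ W, ind (H u w) * z w B| ≤ 2.1 * A := fun u hu B hB => by
    by_cases e : H u B
    · have t := (abs_le.1 (bc.t1 u hu B hB e)).2
      have := sum_le (t := 1.01 * D) (fun w => mul_nonneg (ind_nonneg (H u w)) (ind_nonneg (H w B)))
        m0 (fun w hw => (z1 w hw B hB).2.2) (le_trans (b := tB W H u B) le_rfl (by linarith))
      rw [ind_pos e, one_mul, ← e1 u B hB]
      exact (abs_sub _ _).trans (by linarith [hb u hu B hB])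
    · rw [ind_neg e, zero_mul, sub_zero]
      linarith [hb u hu B hB]
  have dp : D / p ≤ g ^ 2 * D := by
    rw [div_le_iff₀ bc.p0]
    have := mul_le_mul_of_nonneg_right hg d0.le
    linarith
  have x0 : 0 ≤ A ^ 2 * (g ^ 2 * D) := by positivity
  refine ⟨fun _ => z, fun u w => α u w - ind (H u w) * ∑ B ∈ L, ind (H u B) * z w B,
    fun u B => β u B - ind (H u B) * ∑ w ∈ W, ind (H u w) * z w B, 2.1 * A, 2.1 * A,
    3 * (A * g * √D), 3.7 * (A * g * √D), ⟨fun u hu w hw e => ?_, fun u hu B hB e => ?_,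
      fun _ _ _ _ _ => rfl, fun u hu => ?_, fun w hw => ?_, fun B hB => ?_⟩,
    ⟨fun u _ w hw e => by rw [e0 u w hw, ind_pos e, one_mul],
      fun u _ B hB e => by rw [e1 u B hB, ind_pos e, one_mul], fun w hw B hB _ => ?_⟩,
    by positivity, by positivity, by positivity, by positivity, by linarith, by linarith, b0, b1,
    fun u hu => ?_, fun u hu => ?_, fun _ _ w hw B hB => (z1 w hw B hB).2.2.trans
      (div_le_div_of_nonneg_right (by linarith) d0.le)⟩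
  · rw [bal.s0 u hu w hw e, ind_neg e, zero_mul, sub_zero]
  · rw [bal.s1 u hu B hB e, ind_neg e, zero_mul, sub_zero]
  · rw [sum_sub_distrib, sum_sub_distrib, bal.bU u hu]
    simp only [mul_sum]
    rw [sum_comm]
    exact congrArg _ (sum_congr rfl fun _ _ => sum_congr rfl fun _ _ => by ring)
  · rw [sum_sub_distrib, bal.bW w hw, sum_const_zero, sub_eq_zero]
    simp only [mul_sum]
    rw [sum_comm]
    refine sum_congr rfl fun B hB => ?_
    rw [← (z1 w hw B hB).2.1, tC, sum_mul]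
    exact sum_congr rfl fun _ _ => by ring
  · rw [sum_sub_distrib, bal.bL B hB, sum_const_zero, sub_eq_zero]
    simp only [mul_sum]
    rw [sum_comm]
    refine sum_congr rfl fun w hw => ?_
    rw [← (z1 w hw B hB).2.1, tC, sum_mul]
    exact sum_congr rfl fun _ _ => by ring
  · rw [← sum_mul, ← (z1 w hw B hB).2.1, tC, sub_self]
  · refine (sq_sum_le (n := 2 * (g ^ 2 * D)) (b0 u hu) ?_).trans ?_
    · linarith [bc.cW, mul_div_assoc 2 D p]
    · simp only [mul_pow, Real.sq_sqrt d0.le]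
      linarith
  · refine (sq_sum_le (n := 3 * (g ^ 2 * D)) (b1 u hu) ?_).trans ?_
    · linarith [bc.cL, mul_div_assoc 3 D p]
    · simp only [mul_pow, Real.sq_sqrt d0.le]
      linarith

theorem exists_j {J : ℕ} (p0 : 0 < p) (h : 1 ≤ 4 ^ J * p) :
    ∃ j : ℕ, j ≤ J ∧ 1 ≤ 4 ^ j * p ∧ p * j ≤ 1 := by
  have hex : ∃ j : ℕ, 1 ≤ 4 ^ j * p := ⟨J, h⟩
  refine ⟨Nat.find hex, Nat.find_min' hex h, Nat.find_spec hex, ?_⟩
  rcases e : Nat.find hex with _ | j
  · simp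
  · have h1 := not_le.1 (Nat.find_min hex (show j < Nat.find hex by omega))
    have h2 : ((j + 1 : ℕ) : ℝ) ≤ 4 ^ j := by
      exact_mod_cast Nat.lt_pow_self (show 1 < 4 by norm_num)
    have := mul_le_mul_of_nonneg_left h2 p0.le
    linarith

theorem pow_le {x : ℝ} {i j : ℕ} (x0 : 0 ≤ x) (h : x * j ≤ 5) (hi : i ≤ j) :
    (1 + x) ^ i ≤ 190 := by
  have h1 : (1 + x) ^ i ≤ Real.exp x ^ i :=
    pow_le_pow_left₀ (by linarith) (by linarith [Real.add_one_le_exp x]) i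
  have h2 : x * i ≤ x * j := mul_le_mul_of_nonneg_left (Nat.cast_le.2 hi) x0
  have h3 : Real.exp 1 ^ 5 ≤ 2.8 ^ 5 :=
    pow_le_pow_left₀ (Real.exp_pos 1).le (by linarith [Real.exp_one_lt_d9]) 5
  rw [← Real.exp_nat_mul] at h1 h3
  have h4 : Real.exp (i * x) ≤ Real.exp ((5 : ℕ) * 1) := Real.exp_le_exp.2 (by push_cast; linarith)
  exact h1.trans (h4.trans (h3.trans (by norm_num)))

end CoreP

open CoreP

theorem core (h1 : S_RAlg) (h2 : S_RSup) (h3 : S_RL2) : S_Core := by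
  intro V U W L H D p κ α β c A τ J bc bal hJ hκ hA hτ ha hb hc
  obtain ⟨j, j1, j2, j3⟩ := exists_j bc.p0 hJ
  have k0 := bc.k0
  have p0 := bc.p0.le
  have jJ : (j : ℝ) ≤ J := Nat.cast_le.2 j1
  have hx : (4 * p + 46 * κ) * j ≤ 5 := by
    have := mul_le_mul_of_nonneg_left jJ k0
    have : 0 ≤ κ * J := by positivity
    linarith
  have hp : ∀ i ≤ j, (1 + (4 * p + 46 * κ)) ^ i * (4.2 * A) ≤ 800 * A := fun i hi => by
    have := mul_le_mul_of_nonneg_right (pow_le (by positivity) hx hi) hA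
    linarith
  have ph1 : ∀ i ≤ j, Inv U W L H D α β c ((1 + (4 * p + 46 * κ)) ^ i * (4.2 * A))
      (114 * A * 2 ^ j / 2 ^ i) (2 * A + 4000 * A * i) := by
    intro i
    induction i with
    | zero =>
      intro _
      simpa using start (g := 2 ^ j) bc bal hA (by positivity)
        (by rw [← pow_mul, mul_comm j, pow_mul]; norm_num; exact j2) ha hb hc
    | succ i ih =>
      intro hi
      refine step h1 h2 h3 bc (ih (by omega)) (Or.inl (le_of_eq (by ring)))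
        (le_of_eq (by rw [pow_succ, div_div])) ?_
      have := hp i (by omega)
      push_cast
      linarith
  have ph2 : ∀ i : ℕ, ∃ S ≤ 800 * A * (1 / 2) ^ i, Inv U W L H D α β c S (114 * A * (1 / 2) ^ i)
      (2 * A + 4000 * A * j + 8000 * A * (1 - (1 / 2) ^ i)) := by
    intro i
    induction i with
    | zero => exact ⟨_, by simpa using hp j le_rfl, by simpa using ph1 j le_rfl⟩
    | succ i ih =>
      obtain ⟨S, hS, ih⟩ := ih
      have : 0 ≤ A * (1 / 2) ^ i := by positivity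
      exact ⟨_, le_rfl, step h1 h2 h3 bc ih (Or.inr (by rw [pow_succ]; linarith))
        (le_of_eq (by ring)) (by rw [pow_succ]; linarith)⟩
  obtain ⟨i, hi⟩ := exists_pow_lt_of_lt_one (x := τ / (800 * A + 1)) (y := 1 / 2)
    (by positivity) (by norm_num)
  obtain ⟨S, hS, ψ, α', β', a, b, P, Q, -, i2, a0, b0, -, -, i3, -, i5, i6, -, -, i9⟩ := ph2 i
  rw [lt_div_iff₀ (by positivity)] at hi
  have y0 : (0 : ℝ) ≤ (1 / 2) ^ i := by positivity
  have y1 : 0 ≤ A * (1 / 2) ^ i := by positivity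
  refine ⟨ψ, α', β', i2, fun u hu w hw B hB => (i9 u hu w hw B hB).trans
    (div_le_div_of_nonneg_right ?_ bc.d0.le), fun u hu w hw => (i5 u hu w hw).trans (by linarith),
    fun u hu B hB => (i6 u hu B hB).trans (by linarith)⟩
  have e1 := mul_le_mul_of_nonneg_left jJ hA
  have e2 : 0 ≤ A * J := by positivity
  linarith

end Pool.Agent.P.MP_77d020_co.L
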