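import Pool.Agent.P.MP_77d020_co.L.Prob
import Pool.Agent.P.MP_77d020_co.Design

/-! The tripartite graph of a symmetric design with a fixed block. -/

set_option linter.unusedSectionVars false

namespace Pool.Agent.P.MP_77d020_co.L

open Finset

namespace DGP

theorem cnt_left {α β : Type} [Fintype α] [Fintype β] {Q : α ⊕ β → Prop} {Q1 : α → Prop}
    (h1 : ∀ x, Q (Sum.inl x) ↔ Q1 x) (h2 : ∀ y, ¬ Q (Sum.inr y)) : cnt Q = cnt Q1 := by
  rw [cnt_eq_sum, cnt_eq_sum, Fintype.sum_sum_type, sum_eq_zero (fun y _ => ind_neg (h2 y)),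
    add_zero]
  exact sum_congr rfl fun x _ => ind_congr (h1 x)

theorem cnt_right {α β : Type} [Fintype α] [Fintype β] {Q : α ⊕ β → Prop} {Q2 : β → Prop}
    (h1 : ∀ x, ¬ Q (Sum.inl x)) (h2 : ∀ y, Q (Sum.inr y) ↔ Q2 y) : cnt Q = cnt Q2 := by
  rw [cnt_eq_sum, cnt_eq_sum, Fintype.sum_sum_type, sum_eq_zero (fun y _ => ind_neg (h1 y)),
    zero_add]
  exact sum_congr rfl fun x _ => ind_congr (h2 x)

variable {P : Type} [Fintype P] [DecidableEq P]

/-- The counting facts of a symmetric design, as real sums. -/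
structure Des (Blk : Finset (Finset P)) (n lam : ℝ) : Prop where
  nb : (Blk.card : ℝ) = Fintype.card P
  sz : ∀ B ∈ Blk, ∑ x, ind (x ∈ B) = n
  rep : ∀ x, ∑ B ∈ Blk, ind (x ∈ B) = n
  pair : ∀ x y, x ≠ y → ∑ B ∈ Blk, ind (x ∈ B) * ind (y ∈ B) = lam

variable {Blk : Finset (Finset P)} {n lam : ℝ}

theorem Des.lin (h : Des Blk n lam) (F : P → ℝ) :
    ∑ B ∈ Blk, ∑ x, ind (x ∈ B) * F x = n * ∑ x, F x := by
  rw [sum_comm, mul_sum]
  exact sum_congr rfl fun x _ => by rw [← sum_mul, h.rep]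

theorem Des.quad (h : Des Blk n lam) (F : P → ℝ) :
    ∑ B ∈ Blk, (∑ x, ind (x ∈ B) * F x) ^ 2 =
      (n - lam) * ∑ x, F x ^ 2 + lam * (∑ x, F x) ^ 2 := by
  have e1 : ∀ B : Finset P, (∑ x, ind (x ∈ B) * F x) ^ 2 =
      ∑ x, ∑ y, ind (x ∈ B) * ind (y ∈ B) * (F x * F y) := fun B => by
    rw [sq, sum_mul_sum]
    exact sum_congr rfl fun x _ => sum_congr rfl fun y _ => by ring
  have e2 : ∀ x y, ∑ B ∈ Blk, ind (x ∈ B) * ind (y ∈ B) * (F x * F y) =
      (if x = y then (n - lam) * (F x * F y) else 0) + lam * (F x * F y) := fun x y => by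
    rw [← sum_mul]
    by_cases hxy : x = y
    · subst hxy
      simp only [ind_mul_self, h.rep, if_true]
      ring
    · rw [h.pair x y hxy, if_neg hxy, zero_add]
  simp only [e1]
  rw [sum_comm, sq (∑ x, F x), sum_mul_sum, mul_sum, mul_sum, ← sum_add_distrib]
  refine sum_congr rfl fun x _ => ?_
  rw [sum_comm]
  simp only [e2, sum_add_distrib, sum_ite_eq, mem_univ, if_true, mul_sum, sq]

theorem Des.fisher (h : Des Blk n lam) (x : P) :
    lam * (Fintype.card P - 1) = n * (n - 1) := by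
  have h1 := h.quad (fun _ => 1)
  simp only [mul_one, one_pow, sum_const, card_univ, nsmul_eq_mul] at h1
  rw [sum_congr rfl (fun B hB => by rw [h.sz B hB]), sum_const, nsmul_eq_mul, h.nb] at h1
  have hN : (0 : ℝ) < Fintype.card P := by exact_mod_cast Fintype.card_pos_iff.2 ⟨x⟩
  refine mul_left_cancel₀ hN.ne' ?_
  linarith

theorem Des.meet (h : Des Blk n lam) (x0 : P) {B0 B : Finset P} (h0 : B0 ∈ Blk)
    (hB : B ∈ Blk.erase B0) : ∑ x, ind (x ∈ B) * ind (x ∈ B0) = lam := by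
  have h1 := h.lin fun x => ind (x ∈ B0)
  have h2 := h.quad fun x => ind (x ∈ B0)
  have h3 := h.fisher x0
  simp only [ind_sq, h.sz B0 h0] at h1 h2
  rw [← add_sum_erase _ _ h0] at h1 h2
  simp only [ind_mul_self, h.sz B0 h0] at h1 h2
  have h4 : ((Blk.erase B0).card : ℝ) = Fintype.card P - 1 := by
    rw [← h.nb, ← card_erase_add_one h0]; push_cast; ring
  have h5 : ∑ B ∈ Blk.erase B0, (∑ x, ind (x ∈ B) * ind (x ∈ B0) - lam) ^ 2 = 0 := by
    have e : ∀ t : ℝ, (t - lam) ^ 2 = t ^ 2 - 2 * lam * t + lam ^ 2 := fun t => by ring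
    simp only [e, sum_add_distrib, sum_sub_distrib, ← mul_sum, sum_const, nsmul_eq_mul, h4]
    have a1 : ∑ B ∈ Blk.erase B0, ∑ x, ind (x ∈ B) * ind (x ∈ B0) = n * n - n := by linarith
    have a2 : ∑ B ∈ Blk.erase B0, (∑ x, ind (x ∈ B) * ind (x ∈ B0)) ^ 2 =
        (n - lam) * n + lam * n ^ 2 - n ^ 2 := by linarith
    rw [a1, a2]
    linear_combination lam * h3
  have h6 := (sum_eq_zero_iff_of_nonneg fun _ _ => sq_nonneg _).1 h5 B hB
  exact sub_eq_zero.1 (pow_eq_zero_iff two_ne_zero |>.1 h6)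

theorem Des.op (h : Des Blk n lam) (x0 : P) (hl : lam ≤ n) (F : P → ℝ) :
    ∑ B ∈ Blk, (∑ x, (ind (x ∈ B) - n / Fintype.card P) * F x) ^ 2 ≤
      (n - lam) * ∑ x, F x ^ 2 := by
  have hN : (0 : ℝ) < Fintype.card P := by exact_mod_cast Fintype.card_pos_iff.2 ⟨x0⟩
  have h3 := h.fisher x0
  have e : ∀ B : Finset P, (∑ x, (ind (x ∈ B) - n / Fintype.card P) * F x) ^ 2 =
      (∑ x, ind (x ∈ B) * F x) ^ 2 -
        2 * (n / Fintype.card P * ∑ x, F x) * (∑ x, ind (x ∈ B) * F x) +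
        (n / Fintype.card P * ∑ x, F x) ^ 2 := fun B => by
    simp only [sub_mul, sum_sub_distrib, ← mul_sum]
    ring
  simp only [e, sum_add_distrib, sum_sub_distrib, ← mul_sum, sum_const, nsmul_eq_mul, h.nb,
    h.quad, h.lin]
  generalize (Fintype.card P : ℝ) = N at *
  generalize ∑ x, F x = s
  have h4 : lam ≤ n ^ 2 / N := by
    rw [le_div_iff₀ hN]; nlinarith
  have h5 : lam * s ^ 2 - 2 * (n / N * s) * (n * s) + N * (n / N * s) ^ 2 =
      (lam - n ^ 2 / N) * s ^ 2 := by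
    field_simp; ring
  have h6 : (lam - n ^ 2 / N) * s ^ 2 ≤ 0 :=
    mul_nonpos_of_nonpos_of_nonneg (by linarith) (sq_nonneg _)
  linarith

/-- The vertex set. -/
abbrev VV (Blk : Finset (Finset P)) (B0 : Finset P) : Type := P ⊕ {B // B ∈ Blk.erase B0}

/-- The parts. -/
def pt (Blk : Finset (Finset P)) (B0 : Finset P) : VV Blk B0 → Fin 3
  | Sum.inl x => if x ∈ B0 then 0 else 1
  | Sum.inr _ => 2

/-- The graph. -/
def G (Blk : Finset (Finset P)) (B0 : Finset P) : VV Blk B0 → VV Blk B0 → Prop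
  | Sum.inl x, Sum.inl y => (x ∈ B0 ↔ y ∉ B0)
  | Sum.inl x, Sum.inr B => (x ∈ B0 ↔ x ∉ B.1)
  | Sum.inr B, Sum.inl x => (x ∈ B0 ↔ x ∉ B.1)
  | Sum.inr _, Sum.inr _ => False

/-- The ambient structure. -/
noncomputable def amb (Blk : Finset (Finset P)) (B0 : Finset P) (n lam : ℝ) : Amb (VV Blk B0) where
  pt := pt Blk B0
  G := G Blk B0
  p := n / Fintype.card P
  g := ![(Fintype.card P - n) / (n - lam), n / (n - lam), 1]

variable {B0 : Finset P}

theorem cnt_sub (Q : Finset P → Prop) :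
    cnt (fun B : {B // B ∈ Blk.erase B0} => Q B.1) = ∑ B ∈ Blk.erase B0, ind (Q B) := by
  rw [cnt_eq_sum]
  exact sum_coe_sort (Blk.erase B0) fun B => ind (Q B)

theorem sum_er (h0 : B0 ∈ Blk) (F : Finset P → ℝ) :
    ∑ B ∈ Blk.erase B0, F B = ∑ B ∈ Blk, F B - F B0 := by
  rw [← add_sum_erase _ _ h0]; ring

theorem Des.c_rows (h : Des Blk n lam) (h0 : B0 ∈ Blk) : cnt (fun x : P => x ∈ B0) = n := by
  rw [cnt_eq_sum, h.sz B0 h0]

theorem Des.c_cols (h : Des Blk n lam) (h0 : B0 ∈ Blk) :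
    cnt (fun x : P => x ∉ B0) = Fintype.card P - n := by
  simp only [cnt_eq_sum, ind_not, sum_sub_distrib, h.sz B0 h0]
  simp

theorem Des.c_let (h : Des Blk n lam) (h0 : B0 ∈ Blk) :
    cnt (fun _ : {B // B ∈ Blk.erase B0} => True) = Fintype.card P - 1 := by
  rw [cnt_sub (fun _ => True), sum_er h0]
  simp [ind_pos, h.nb]

theorem Des.c_row_let (h : Des Blk n lam) (h0 : B0 ∈ Blk) {u : P} (hu : u ∈ B0) :
    cnt (fun B : {B // B ∈ Blk.erase B0} => u ∉ B.1) = Fintype.card P - n := by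
  rw [cnt_sub (fun B => u ∉ B), sum_er h0]
  simp only [ind_not, sum_sub_distrib, h.rep, ind_pos hu]
  simp [h.nb]

theorem Des.c_col_let (h : Des Blk n lam) (h0 : B0 ∈ Blk) {w : P} (hw : w ∉ B0) :
    cnt (fun B : {B // B ∈ Blk.erase B0} => w ∈ B.1) = n := by
  rw [cnt_sub (fun B => w ∈ B), sum_er h0, h.rep, ind_neg hw, sub_zero]

theorem Des.c_let_row (h : Des Blk n lam) (x0 : P) (h0 : B0 ∈ Blk) {B : Finset P}
    (hB : B ∈ Blk.erase B0) : cnt (fun x : P => x ∈ B0 ∧ x ∉ B) = n - lam := by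
  rw [← h.meet x0 h0 hB, ← h.sz B0 h0, cnt_eq_sum, ← sum_sub_distrib]
  exact sum_congr rfl fun x _ => by rw [ind_and, ind_not]; ring

theorem Des.c_let_col (h : Des Blk n lam) (x0 : P) (h0 : B0 ∈ Blk) {B : Finset P}
    (hB : B ∈ Blk.erase B0) : cnt (fun x : P => x ∉ B0 ∧ x ∈ B) = n - lam := by
  rw [← h.meet x0 h0 hB, ← h.sz B (mem_of_mem_erase hB), cnt_eq_sum, ← sum_sub_distrib]
  exact sum_congr rfl fun x _ => by rw [ind_and, ind_not]; ring

theorem Des.c_rc (h : Des Blk n lam) (h0 : B0 ∈ Blk) {u w : P} (hu : u ∈ B0) (hw : w ∉ B0) :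
    cnt (fun B : {B // B ∈ Blk.erase B0} => u ∉ B.1 ∧ w ∈ B.1) = n - lam := by
  rw [cnt_sub (fun B => u ∉ B ∧ w ∈ B), sum_er h0, ind_neg (fun a => hw a.2), sub_zero,
    ← h.pair u w (fun e => hw (e ▸ hu)), ← h.rep w, ← sum_sub_distrib]
  exact sum_congr rfl fun x _ => by rw [ind_and, ind_not]; ring

theorem sy : Sy (G Blk B0) := by
  rintro (x | B) (y | B') a
  · simp only [G] at a ⊢; tauto
  · exact a
  · exact a
  · exact a

theorem tp : Tp (pt Blk B0) (G Blk B0) := by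
  rintro (x | B) (y | B') a
  · simp only [G] at a
    by_cases hx : x ∈ B0
    · simp [pt, hx, a.1 hx]
    · have hy : y ∈ B0 := by tauto
      simp [pt, hx, hy]
  · by_cases hx : x ∈ B0 <;> simp [pt, hx]
  · by_cases hx : y ∈ B0 <;> simp [pt, hx]
  · exact a.elim

theorem Des.ok (h : Des Blk n lam) (x0 : P) (h1 : lam + 2 < n) (h2 : 2 * n ≤ Fintype.card P)
    (h3 : 0 ≤ lam) : (amb Blk B0 n lam).Ok := by
  have hf := h.fisher x0
  have hk : 0 < n - lam := by linarith
  have hn : 0 < n := by linarith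
  have hN : (0 : ℝ) < Fintype.card P := by linarith
  refine ⟨sy, tp, ?_, div_pos hn hN, ?_, rfl, ?_, ?_, ?_, ?_, ?_⟩
  · rintro (x | B) (y | B') a b
    · by_cases hx : x ∈ B0 <;> by_cases hy : y ∈ B0 <;> simp_all [amb, pt, G]
    · simp [amb, pt] at b
    · simp [amb, pt] at a
    · simp [amb, pt] at a
  · change n / Fintype.card P ≤ 1 / 2
    rw [div_le_div_iff₀ hN two_pos]; linarith
  · change 1 ≤ n / (n - lam)
    rw [le_div_iff₀ hk]; linarith
  · change n / (n - lam) ≤ 2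
    rw [div_le_iff₀ hk]
    by_contra hc
    nlinarith
  · change n / (n - lam) ≤ (Fintype.card P - n) / (n - lam)
    gcongr; linarith
  · change n / Fintype.card P * ((Fintype.card P - n) / (n - lam)) ≤ 1
    rw [div_mul_div_comm, div_le_one (mul_pos hN hk)]
    nlinarith
  · change (1 - n / Fintype.card P) * (n / (n - lam)) =
      n / Fintype.card P * ((Fintype.card P - n) / (n - lam))
    field_simp

theorem Des.fam (h : Des Blk n lam) (x0 : P) (h0 : B0 ∈ Blk) (h1 : lam + 2 < n) :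
    (amb Blk B0 n lam).Fam (fun _ => True) (fun _ => True) (fun _ => n - lam) 0 := by
  have hf := h.fisher x0
  have hk : n - lam ≠ 0 := by linarith
  have g0 : (n - lam) * ((Fintype.card P - n) / (n - lam)) = Fintype.card P - n := by field_simp
  have g1 : (n - lam) * (n / (n - lam)) = n := by field_simp
  have g2 : (n - lam) * ((Fintype.card P - n) / (n - lam) * (n / (n - lam))) =
      Fintype.card P - 1 := by
    field_simp
    linear_combination hf
  refine ⟨fun j => ?_, fun x j _ hj => ?_, fun x y j _ _ hxy _ _ => ?_⟩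
  · rw [zero_mul, abs_nonpos_iff, sub_eq_zero]
    rcases fin3 j with rfl | rfl | rfl
    · refine (cnt_left (fun x => ?_) fun y => ?_).trans ((h.c_rows h0).trans g1.symm)
      · simp [amb, pt]
      · simp [amb, pt]
    · refine (cnt_left (fun x => ?_) fun y => ?_).trans ((h.c_cols h0).trans g0.symm)
      · simp [amb, pt]
      · simp [amb, pt]
    · refine (cnt_right (fun x => ?_) fun y => ?_).trans ((h.c_let h0).trans g2.symm)
      · by_cases hx : x ∈ B0 <;> simp [amb, pt, hx]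
      · simp [amb, pt]
  · rw [zero_mul, abs_nonpos_iff, sub_eq_zero]
    rcases x with x | B
    · by_cases hx : x ∈ B0
      · have e : (amb Blk B0 n lam).pt (Sum.inl x) = 0 := by simp [amb, pt, hx]
        rw [e] at hj ⊢
        rcases fin3 j with rfl | rfl | rfl
        · exact (hj rfl).elim
        · refine (cnt_left (fun z => ?_) fun y => ?_).trans ((h.c_cols h0).trans g0.symm)
          · simp [amb, pt, G, hx]
          · simp [amb, pt]
        · refine (cnt_right (fun z => ?_) fun y => ?_).trans ((h.c_row_let h0 hx).trans g0.symm)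
          · by_cases hz : z ∈ B0 <;> simp [amb, pt, hz]
          · simp [amb, pt, G, hx]
      · have e : (amb Blk B0 n lam).pt (Sum.inl x) = 1 := by simp [amb, pt, hx]
        rw [e] at hj ⊢
        rcases fin3 j with rfl | rfl | rfl
        · refine (cnt_left (fun z => ?_) fun y => ?_).trans ((h.c_rows h0).trans g1.symm)
          · simp [amb, pt, G, hx]
          · simp [amb, pt]
        · exact (hj rfl).elim
        · refine (cnt_right (fun z => ?_) fun y => ?_).trans ((h.c_col_let h0 hx).trans g1.symm)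
          · by_cases hz : z ∈ B0 <;> simp [amb, pt, hz]
          · simp [amb, pt, G, hx]
    · have e : (amb Blk B0 n lam).pt (Sum.inr B) = 2 := rfl
      rw [e] at hj ⊢
      rcases fin3 j with rfl | rfl | rfl
      · refine (cnt_left (fun z => ?_) fun y => ?_).trans
          ((h.c_let_row x0 h0 B.2).trans (mul_one _).symm)
        · by_cases hz : z ∈ B0 <;> simp [amb, pt, G, hz]
        · simp [amb, pt]
      · refine (cnt_left (fun z => ?_) fun y => ?_).trans
          ((h.c_let_col x0 h0 B.2).trans (mul_one _).symm)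
        · by_cases hz : z ∈ B0 <;> simp [amb, pt, G, hz]
        · simp [amb, pt]
      · exact (hj rfl).elim
  · rw [abs_nonpos_iff, sub_eq_zero]
    have k1 : ∀ x y : P, x ∈ B0 → y ∉ B0 →
        cnt (fun z => G Blk B0 (Sum.inl x) z ∧ G Blk B0 (Sum.inl y) z) = n - lam := by
      intro x y hx hy
      refine (cnt_right (fun z => ?_) fun z => ?_).trans (h.c_rc h0 hx hy)
      · simp [G, hx, hy]
      · simp [G, hx, hy]
    have k2 : ∀ (x : P) (B : {B // B ∈ Blk.erase B0}),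
        cnt (fun z => G Blk B0 (Sum.inl x) z ∧ G Blk B0 (Sum.inr B) z) = n - lam := by
      intro x B
      by_cases hx : x ∈ B0
      · refine (cnt_left (fun z => ?_) fun z => ?_).trans (h.c_let_col x0 h0 B.2)
        · by_cases hz : z ∈ B0 <;> simp [G, hx, hz]
        · simp [G]
      · refine (cnt_left (fun z => ?_) fun z => ?_).trans (h.c_let_row x0 h0 B.2)
        · by_cases hz : z ∈ B0 <;> simp [G, hx, hz]
        · simp [G]
    rcases x with x | B <;> rcases y with y | B'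
    · have hxy' : x ∈ B0 ↔ y ∉ B0 := hxy
      by_cases hx : x ∈ B0
      · exact (cnt_congr fun z => by simp [amb]).trans (k1 x y hx (hxy'.1 hx))
      · exact (cnt_congr fun z => by simp [amb, and_comm]).trans (k1 y x (by tauto) hx)
    · exact (cnt_congr fun z => by simp [amb]).trans (k2 x B')
    · exact (cnt_congr fun z => by simp [amb, and_comm]).trans (k2 y B)
    · exact hxy.elim

theorem Des.ops (h : Des Blk n lam) (x0 : P) (h1 : lam + 2 < n) :
    (amb Blk B0 n lam).Ops (fun _ => True) (√(n - lam)) := by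
  intro j hj f k
  rw [Real.sq_sqrt (by linarith), sum_comm]
  have e1 : ∀ y, ∑ x ∈ fs (fun x => True ∧ (amb Blk B0 n lam).pt x = j),
      (amb Blk B0 n lam).am x y * f x * k y =
      (∑ x ∈ fs (fun x => True ∧ (amb Blk B0 n lam).pt x = j),
        (amb Blk B0 n lam).am x y * f x) * k y := fun y => by rw [sum_mul]
  simp only [e1]
  refine (sum_mul_sq_le_sq_mul_sq _ _ _).trans (mul_le_mul_of_nonneg_right ?_
    (sum_nonneg fun _ _ => sq_nonneg _))
  -- the function on the points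
  let F : P → ℝ := fun x =>
    ind (pt Blk B0 (Sum.inl x) = j) * ((if x ∈ B0 then -1 else 1) * f (Sum.inl x))
  have hj2 : ∀ B, ¬ (True ∧ (amb Blk B0 n lam).pt (Sum.inr B) = j) := fun B a => hj a.2.symm
  have e2 : ∑ x ∈ fs (fun x => True ∧ (amb Blk B0 n lam).pt x = j), f x ^ 2 = ∑ x, F x ^ 2 := by
    rw [sum_fs, Fintype.sum_sum_type, sum_eq_zero
      (s := (univ : Finset {B // B ∈ Blk.erase B0}))
      (fun B _ => by rw [ind_neg (hj2 B), zero_mul]), add_zero]
    refine sum_congr rfl fun x _ => ?_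
    simp only [F, mul_pow, ind_sq, true_and, amb]
    by_cases hx : x ∈ B0 <;> simp [hx]
  have e3 : ∀ B : {B // B ∈ Blk.erase B0},
      ∑ x ∈ fs (fun x => True ∧ (amb Blk B0 n lam).pt x = j),
        (amb Blk B0 n lam).am x (Sum.inr B) * f x =
      ∑ x, (ind (x ∈ B.1) - n / Fintype.card P) * F x := fun B => by
    rw [sum_fs, Fintype.sum_sum_type, sum_eq_zero
      (s := (univ : Finset {B // B ∈ Blk.erase B0}))
      (fun B _ => by rw [ind_neg (hj2 B), zero_mul]), add_zero]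
    refine sum_congr rfl fun x _ => ?_
    simp only [F, true_and, amb, Amb.am, G]
    by_cases hx : x ∈ B0
    · simp only [pt, hx, if_true, true_iff, ind_not]
      ring
    · have : (1 : Fin 3) ≠ 0 := by decide
      simp only [pt, hx, if_false, false_iff, not_not, this]
      ring
  rw [e2, sum_fs, Fintype.sum_sum_type, sum_eq_zero (s := univ) (fun x _ => by
    rw [ind_neg (by by_cases hx : x ∈ B0 <;> simp [amb, pt, hx]), zero_mul]), zero_add]
  refine le_trans ?_ (h.op x0 (by linarith) F)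
  calc _ = ∑ B : {B // B ∈ Blk.erase B0},
        (∑ x, (ind (x ∈ B.1) - n / Fintype.card P) * F x) ^ 2 :=
        sum_congr rfl fun B _ => by rw [e3, ind_pos ⟨trivial, rfl⟩, one_mul]
    _ = ∑ B ∈ Blk.erase B0, (∑ x, (ind (x ∈ B) - n / Fintype.card P) * F x) ^ 2 :=
        sum_coe_sort (Blk.erase B0) fun B => (∑ x, (ind (x ∈ B) - n / Fintype.card P) * F x) ^ 2
    _ ≤ _ := sum_le_sum_of_subset_of_nonneg (erase_subset _ _) fun _ _ _ => sq_nonneg _

theorem conv (h : Dec (G Blk B0)) : ∃ f : P → P → Finset P,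
    (∀ j : P, j ∉ B0 → B0.image (fun i => f i j) = Blk.filter (fun B => j ∈ B)) ∧
    (∀ i ∈ B0, (univ.filter (fun j => j ∉ B0)).image (fun j => f i j)
      = Blk.filter (fun B => B ≠ B0 ∧ i ∉ B)) := by
  obtain ⟨Tr, a, b, c, d⟩ := h
  have e12 : ∀ {x y z}, Tr x y z → G Blk B0 x y := fun h => (d _ _).2 ⟨_, h⟩
  have e13 : ∀ {x y z}, Tr x y z → G Blk B0 x z := fun h => e12 (b _ _ _ h)
  have e23 : ∀ {x y z}, Tr x y z → G Blk B0 y z := fun h => e13 (a _ _ _ h)
  have key : ∀ i j : P, ∃ B : Finset P, i ∈ B0 → j ∉ B0 →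
      ∃ hB : B ∈ Blk.erase B0, Tr (Sum.inl i) (Sum.inl j) (Sum.inr ⟨B, hB⟩) := by
    intro i j
    by_cases hij : i ∈ B0 ∧ j ∉ B0
    · obtain ⟨z, hz⟩ := (d (Sum.inl i) (Sum.inl j)).1 (iff_of_true hij.1 hij.2)
      rcases z with z | B
      · have h1 : i ∈ B0 ↔ z ∉ B0 := e13 hz
        have h2 : j ∈ B0 ↔ z ∉ B0 := e23 hz
        tauto
      · exact ⟨B.1, fun _ _ => ⟨B.2, hz⟩⟩
    · exact ⟨∅, fun h1 h2 => (hij ⟨h1, h2⟩).elim⟩
  choose f hf using key
  have uq : ∀ i j (B : {B // B ∈ Blk.erase B0}), i ∈ B0 → j ∉ B0 →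
      Tr (Sum.inl i) (Sum.inl j) (Sum.inr B) → f i j = B.1 := by
    intro i j B hi hj h
    obtain ⟨hB, h'⟩ := hf i j hi hj
    exact congrArg Subtype.val (Sum.inr.inj (c _ _ _ _ h' h))
  refine ⟨f, fun j hj => ?_, fun i hi => ?_⟩
  · ext B
    simp only [mem_image, mem_filter]
    constructor
    · rintro ⟨i, hi, rfl⟩
      obtain ⟨hB, h'⟩ := hf i j hi hj
      have h2 : j ∈ B0 ↔ j ∉ f i j := e23 h'
      exact ⟨mem_of_mem_erase hB, by tauto⟩
    · rintro ⟨hB, hjB⟩
      have hB' : B ∈ Blk.erase B0 := mem_erase.2 ⟨fun e => hj (e ▸ hjB), hB⟩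
      obtain ⟨z, hz⟩ := (d (Sum.inl j) (Sum.inr ⟨B, hB'⟩)).1
        (iff_of_false hj (not_not.2 hjB))
      rcases z with z | B'
      · have h1 : j ∈ B0 ↔ z ∉ B0 := e13 hz
        have hz0 : z ∈ B0 := by tauto
        exact ⟨z, hz0, uq z j ⟨B, hB'⟩ hz0 hj (a _ _ _ (b _ _ _ hz))⟩
      · exact (e23 hz).elim
  · ext B
    simp only [mem_image, mem_filter, mem_univ, true_and]
    constructor
    · rintro ⟨j, hj, rfl⟩
      obtain ⟨hB, h'⟩ := hf i j hi hj
      have h2 : i ∈ B0 ↔ i ∉ f i j := e13 h'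
      exact ⟨mem_of_mem_erase hB, ne_of_mem_erase hB, h2.1 hi⟩
    · rintro ⟨hB, hne, hiB⟩
      have hB' : B ∈ Blk.erase B0 := mem_erase.2 ⟨hne, hB⟩
      obtain ⟨z, hz⟩ := (d (Sum.inl i) (Sum.inr ⟨B, hB'⟩)).1 (iff_of_true hi hiB)
      rcases z with z | B'
      · have h1 : i ∈ B0 ↔ z ∉ B0 := e13 hz
        exact ⟨z, h1.1 hi, uq i z ⟨B, hB'⟩ hi (h1.1 hi) (b _ _ _ hz)⟩
      · exact (e23 hz).elim

end DGP

open DGP in
theorem dg : S_DG := by
  intro P _ _ Blk n lam hb hk hl h1 h2 B0 h0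
  have hr := replication hb hk hl (by omega)
  have h : Des Blk (n : ℝ) lam := by
    refine ⟨by exact_mod_cast hb, fun B hB => ?_, fun x => ?_, fun x y hxy => ?_⟩
    · rw [← cnt_eq_sum, cnt_mem, hk B hB]
    · rw [← card_filter_eq_sum_ind, hr]
    · simp only [← ind_and]
      rw [← card_filter_eq_sum_ind, hl x y hxy]
  obtain ⟨x0, -⟩ : B0.Nonempty := card_pos.1 (by rw [hk B0 h0]; omega)
  have h1' : (lam : ℝ) + 2 < n := by exact_mod_cast h1
  have h2' : 2 * (n : ℝ) ≤ Fintype.card P := by exact_mod_cast h2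
  have h3 : (0 : ℝ) ≤ lam := Nat.cast_nonneg _
  have hf := h.fisher x0
  have hl1 : (1 : ℝ) ≤ lam := by
    rcases Nat.eq_zero_or_pos lam with e | e
    · rw [e] at hf h1'
      simp only [Nat.cast_zero, zero_mul, zero_add] at hf h1'
      nlinarith
    · exact_mod_cast e
  have ok : (amb Blk B0 (n : ℝ) lam).Ok := h.ok x0 h1' h2' h3
  have hN : (0 : ℝ) < Fintype.card P := by linarith
  have hk0 : (0 : ℝ) < n - lam := by linarith
  refine ⟨VV Blk B0, inferInstance, amb Blk B0 n lam,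
    ⟨ok, by linarith, h.fam x0 h0 h1', h.ops x0 h1', ?_, ?_⟩, conv⟩
  · have g1 : (n : ℝ) / (n - lam) ≤ 2 := ok.g1'
    rw [div_le_iff₀ hk0] at g1
    change 1 ≤ 2 * ((n : ℝ) - lam) * (n / Fintype.card P)
    rw [← mul_div_assoc, le_div_iff₀ hN]
    nlinarith
  · change 1 - 1 / ((n : ℝ) - lam) ≤ n / Fintype.card P * ((Fintype.card P - n) / (n - lam))
    have e : (n : ℝ) / Fintype.card P * ((Fintype.card P - n) / (n - lam)) =
        1 - 1 / Fintype.card P := by
      field_simp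
      linear_combination hf
    rw [e]
    have : 1 / (Fintype.card P : ℝ) ≤ 1 / (n - lam) :=
      one_div_le_one_div_of_le hk0 (by linarith)
    linarith

end Pool.Agent.P.MP_77d020_co.L
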