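import Pool.Agent.P.MP_77d020_co.L.Prob

/-! Random dropping of cells. -/

namespace Pool.Agent.P.MP_77d020_co.L

open Finset

namespace DropP

variable {ι : Type} [Fintype ι]

theorem ch {I : Type*} (s : Finset I) (c : I → ι) (hc : Set.InjOn c s) {π μ a : ℝ} (h0 : 0 ≤ π)
    (h1 : π ≤ 1) (hs : (s.card : ℝ) ≤ μ) (ha : 0 ≤ a) (ha' : a ≤ 2 * μ) :
    Pr (bern fun _ : ι => π)
      (fun ω => a < |∑ i ∈ s, ind (ω (c i) = true) - π * s.card|) ≤
      2 * Real.exp (-(a ^ 2 / (4 * μ))) := by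
  have hq : IsP (bern fun _ : ι => π) := bern_isP (fun _ => h0) fun _ => h1
  have e : ∑ i ∈ s, pl (bern fun _ : ι => π) (c i) (fun b => b = true) = π * s.card := by
    simp only [pl_bern, sum_const, nsmul_eq_mul, mul_comm]
  have := chernoff_coord hq s c (fun b => b = true) (fun _ => True) (fun _ => False)
    (Dep.const _ _) hc (fun _ _ h => h) (μ := μ) (a := a)
    (by rw [e]; nlinarith [Nat.cast_nonneg (α := ℝ) s.card]) ha ha'
  rw [e, Pr_true hq, one_mul] at this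
  simpa only [true_and] using this

theorem fam {κ I : Type*} (T : Finset κ) (s : κ → Finset I) (c : κ → I → ι)
    (hc : ∀ t, Function.Injective (c t)) {π μ a lg : ℝ} (h0 : 0 ≤ π) (h1 : π ≤ 1)
    (hs : ∀ t ∈ T, ((s t).card : ℝ) ≤ μ) (ha : 0 ≤ a) (ha' : a ≤ 2 * μ) (hl : 1 ≤ lg)
    (hT : (T.card : ℝ) ≤ Real.exp (2 * lg)) (h25 : 25 * lg ≤ a ^ 2 / (4 * μ)) :
    Pr (bern fun _ : ι => π)
      (fun ω => ∃ t ∈ T, a < |∑ i ∈ s t, ind (ω (c t i) = true) - π * (s t).card|) ≤ 1 / 8 := by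
  have hq : IsP (bern fun _ : ι => π) := bern_isP (fun _ => h0) fun _ => h1
  refine (Pr_exists_le_card hq T _ (c := 2 * Real.exp (-(25 * lg))) fun t ht => ?_).trans ?_
  · refine (ch (s t) (c t) (hc t).injOn h0 h1 (hs t ht) ha ha').trans ?_
    gcongr
  · have e1 : Real.exp (2 * lg) * Real.exp (-(25 * lg)) = (Real.exp (23 * lg))⁻¹ := by
      rw [← Real.exp_add, ← Real.exp_neg]; congr 1; ring
    have e2 : 23 * lg + 1 ≤ Real.exp (23 * lg) := Real.add_one_le_exp _
    have e3 : (Real.exp (23 * lg))⁻¹ ≤ 1 / 16 := by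
      rw [inv_eq_one_div]
      exact one_div_le_one_div_of_le (by norm_num) (by linarith)
    have e4 := mul_le_mul_of_nonneg_right hT (Real.exp_pos (-(25 * lg))).le
    linarith

theorem sum_pow_le {V : Type} [DecidableEq V] (S : Finset V) {y : ℝ} (hy : 0 ≤ y)
    (h : S.card * y ≤ 1 / 10) : ∑ X ∈ S.powerset.erase ∅, y ^ X.card ≤ 1 / 4 := by
  have e1 : ∑ X ∈ S.powerset, y ^ X.card = (1 + y) ^ S.card := by
    have := prod_one_add (s := S) (f := fun _ => y)
    simpa only [prod_const] using this.symm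
  have e2 := add_sum_erase S.powerset (fun X => y ^ X.card) (empty_mem_powerset S)
  simp only [card_empty, pow_zero] at e2
  have e3 : (1 + y) ^ S.card ≤ Real.exp (S.card * y) := by
    rw [Real.exp_nat_mul]
    gcongr
    linarith [Real.add_one_le_exp y]
  have e4 : Real.exp (S.card * y) ≤ Real.exp (1 / 10) := by gcongr
  have e5 : Real.exp (1 / 10) ≤ 1 / (1 - 1 / 10) :=
    Real.exp_bound_div_one_sub_of_interval (by norm_num) (by norm_num)
  linarith

theorem rect {V : Type} [Fintype V] [DecidableEq V] (U W : Finset V) {π r lg : ℝ} (h0 : 0 ≤ π)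
    (h1 : π ≤ 1) (hl : 1 ≤ lg) (hr : 10 ^ 5 * lg ≤ r) (hU : (U.card : ℝ) ≤ Real.exp lg)
    (hW : (W.card : ℝ) ≤ Real.exp lg) :
    Pr (bern fun _ : V × V => π)
      (fun ω => ∃ p ∈ U.powerset.erase ∅ ×ˢ W.powerset.erase ∅, (p.1.card : ℝ) ≤ 2 * r ∧
        (p.2.card : ℝ) ≤ 2 * r ∧ r / 25 * max (p.1.card : ℝ) p.2.card <
          |∑ i ∈ p.1 ×ˢ p.2, ind (ω i = true) - π * (p.1 ×ˢ p.2).card|) ≤ 1 / 8 := by
  have hq : IsP (bern fun _ : V × V => π) := bern_isP (fun _ => h0) fun _ => h1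
  have hr0 : 0 < r := by nlinarith
  set y := Real.exp (-(r / 10 ^ 4)) with hy
  have hy0 : 0 ≤ y := (Real.exp_pos _).le
  have hsm : ∀ S : Finset V, (S.card : ℝ) ≤ Real.exp lg → S.card * y ≤ 1 / 10 := fun S hS => by
    have e1 : Real.exp lg * y ≤ (Real.exp (9 * lg))⁻¹ := by
      rw [hy, ← Real.exp_add, ← Real.exp_neg]
      gcongr
      linarith
    have e2 : 9 * lg + 1 ≤ Real.exp (9 * lg) := Real.add_one_le_exp _
    have e3 : (Real.exp (9 * lg))⁻¹ ≤ 1 / 10 := by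
      rw [inv_eq_one_div]
      exact one_div_le_one_div_of_le (by norm_num) (by linarith)
    have e4 := mul_le_mul_of_nonneg_right hS hy0
    linarith
  refine (Pr_exists_le hq _ _).trans
    ((sum_le_sum (g := fun p => 2 * (y ^ p.1.card * y ^ p.2.card)) fun p hp => ?_).trans ?_)
  · obtain ⟨X, Y⟩ := p
    by_cases hXY : (X.card : ℝ) ≤ 2 * r ∧ (Y.card : ℝ) ≤ 2 * r
    swap
    · rw [Pr_zero hq fun ω h => hXY ⟨h.1, h.2.1⟩]; positivity
    have hX : (1 : ℝ) ≤ X.card := by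
      exact_mod_cast card_pos.2 (nonempty_iff_ne_empty.2 (ne_of_mem_erase (mem_product.1 hp).1))
    have hY0 : (0 : ℝ) ≤ Y.card := Nat.cast_nonneg _
    set m : ℝ := max (X.card : ℝ) Y.card with hm
    have hm1 : (X.card : ℝ) ≤ m := le_max_left _ _
    have hm2 : (Y.card : ℝ) ≤ m := le_max_right _ _
    have hm0 : 0 < m := by linarith
    refine (Pr_mono hq fun ω h => h.2.2).trans
      ((ch (X ×ˢ Y) id (Set.injOn_id _) h0 h1 (μ := 2 * r * m) ?_ (by positivity)
        (by nlinarith [mul_pos hr0 hm0])).trans ?_)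
    · rw [card_product]; push_cast
      exact mul_le_mul hXY.1 hm2 hY0 (by positivity)
    · have e : (r / 25 * m) ^ 2 / (4 * (2 * r * m)) = r * m / 5000 := by field_simp; ring
      rw [e, ← pow_add, hy, ← Real.exp_nat_mul]
      gcongr
      push_cast
      nlinarith
  · rw [← mul_sum, sum_product]
    simp only [← mul_sum]
    rw [← sum_mul]
    have a1 := sum_pow_le U hy0 (hsm U hU)
    have a2 := sum_pow_le W hy0 (hsm W hW)
    have b2 : 0 ≤ ∑ X ∈ W.powerset.erase ∅, y ^ X.card := sum_nonneg fun _ _ => by positivity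
    have := mul_le_mul a1 a2 b2 (by norm_num)
    linarith

end DropP

open DropP in
theorem drop : S_Drop := by
  classical
  intro V _ A Vs Uc Wc π e μ r lg ok hU hW h0 h1 hVs hl hUμ hWμ hB he heμ hlg hr
  have hq : IsP (bern fun _ : V × V => π) := bern_isP (fun _ => h0) fun _ => h1
  have hμ : 0 < μ := by linarith
  have hg : 1 ≤ A.g 0 := ok.one_le_g 0
  have hUc : cnt Uc ≤ Real.exp lg := (cnt_mono fun u h => (hU u h).1).trans hVs
  have hWc : cnt Wc ≤ Real.exp lg := (cnt_mono fun u h => (hW u h).1).trans hVs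
  have hLc : cnt (fun B => Vs B ∧ A.pt B = 2) ≤ Real.exp lg :=
    (cnt_mono fun u h => h.1).trans hVs
  have hex : Real.exp lg ≤ Real.exp (2 * lg) := by gcongr; linarith
  have hex2 : Real.exp lg * Real.exp lg = Real.exp (2 * lg) := by rw [← Real.exp_add, two_mul]
  have h25 : 25 * lg ≤ e ^ 2 / (4 * μ) := by rw [le_div_iff₀ (by positivity)]; linarith
  have hprod : ∀ P : V → Prop, cnt P ≤ Real.exp lg →
      (((fs fun B => Vs B ∧ A.pt B = 2) ×ˢ fs P).card : ℝ) ≤ Real.exp (2 * lg) := fun P hP => by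
    rw [card_product, ← hex2]; push_cast
    exact mul_le_mul hLc hP (cnt_nonneg P) (Real.exp_pos _).le
  have p1 := fam (fs Uc) (fun _ => fs Wc) (fun u w => (u, w))
    (fun _ => Prod.mk_right_injective _) h0 h1 (μ := μ * A.g 0) (a := e * A.g 0)
    (fun _ _ => hWμ) (by positivity) (by nlinarith) hl (hUc.trans hex) (by
      have : (e * A.g 0) ^ 2 / (4 * (μ * A.g 0)) = e ^ 2 / (4 * μ) * A.g 0 := by field_simp
      rw [this]; nlinarith)
  have p2 := fam (fs Wc) (fun _ => fs Uc) (fun w u => (u, w))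
    (fun _ => Prod.mk_left_injective _) h0 h1 (fun _ _ => hUμ) he.le heμ hl (hWc.trans hex) h25
  have p3 := fam ((fs fun B => Vs B ∧ A.pt B = 2) ×ˢ fs Uc)
    (fun t => fs fun w => Wc w ∧ A.G t.1 w) (fun t w => (t.2, w))
    (fun _ => Prod.mk_right_injective _) h0 h1
    (fun t ht => by
      have := mem_fs.1 (mem_product.1 ht).1
      exact hB t.1 this.1 this.2) he.le heμ hl (hprod _ hUc) h25
  have p4 := fam ((fs fun B => Vs B ∧ A.pt B = 2) ×ˢ fs Wc)
    (fun t => fs fun u => Uc u ∧ A.G t.1 u) (fun t u => (u, t.2))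
    (fun _ => Prod.mk_left_injective _) h0 h1
    (fun t _ => (cnt_mono fun u h => h.1).trans hUμ) he.le heμ hl (hprod _ hWc) h25
  have p5 := rect (fs Uc) (fs Wc) h0 h1 hl hr hUc hWc
  have p := Pr_le_add hq (fun _ h => h) p1 (Pr_le_add hq (fun _ h => h) p2
    (Pr_le_add hq (fun _ h => h) p3 (Pr_le_add hq (fun _ h => h) p4 p5)))
  obtain ⟨ω, hω⟩ := exists_not_of_Pr_lt hq (p.trans_lt (by norm_num))
  simp only [not_or, not_exists, not_and, not_lt] at hω
  obtain ⟨q1, q2, q3, q4, q5⟩ := hω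
  refine ⟨fun u w => ω (u, w) = true, fun u hu => ?_, fun w hw => ?_, fun B u hB1 hB2 hu => ?_,
    fun B w hB1 hB2 hw => ?_, fun X Y hX hY hX2 hY2 => ?_⟩
  · rw [cnt_and_eq_sum]; exact q1 u (mem_fs.2 hu)
  · rw [cnt_and_eq_sum]; exact q2 w (mem_fs.2 hw)
  · rw [cnt_congr fun w => and_assoc.symm, cnt_and_eq_sum]
    exact q3 (B, u) (mem_product.2 ⟨mem_fs.2 ⟨hB1, hB2⟩, mem_fs.2 hu⟩)
  · rw [cnt_congr fun w => and_assoc.symm, cnt_and_eq_sum]
    exact q4 (B, w) (mem_product.2 ⟨mem_fs.2 ⟨hB1, hB2⟩, mem_fs.2 hw⟩)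
  · have hr0 : 0 < r := by nlinarith
    have hm : (0 : ℝ) ≤ max (X.card : ℝ) Y.card := le_max_of_le_left (Nat.cast_nonneg _)
    by_cases hX0 : X = ∅
    · subst hX0; simp only [eb, sum_empty]; positivity
    by_cases hY0 : Y = ∅
    · subst hY0; simp only [eb, sum_empty, sum_const_zero]; positivity
    have := q5 (X, Y) (mem_product.2
      ⟨mem_erase.2 ⟨hX0, mem_powerset.2 fun u hu => mem_fs.2 (hX u hu)⟩,
        mem_erase.2 ⟨hY0, mem_powerset.2 fun w hw => mem_fs.2 (hY w hw)⟩⟩) hX2 hY2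
    rw [sum_product, card_product] at this
    push_cast at this
    have h2 := (abs_le.1 this).2
    unfold eb
    linarith

end Pool.Agent.P.MP_77d020_co.L
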