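import Pool.Agent.P.MP_77d020_co.L.Prob

/-! Probability that a random vertex set fails to have the expected counts. -/

namespace Pool.Agent.P.MP_77d020_co.L

open Finset

namespace FamPrP

variable {V α : Type} [Fintype V] [Fintype α] {q : V → α → ℝ}

theorem mean (hq : IsP q) {LZ : α → Prop} {Y S : V → Prop} {b k ρ τ e sc : ℝ} (hk : 1 ≤ k)
    (hZ : ∀ z, pl q z LZ ≤ ρ) (hb0 : 0 ≤ b) (hb : b ≤ ρ * k)
    (hY : ∀ z, S z → Y z → |pl q z LZ - b / k| ≤ e / (4 * k)) (hτ : ρ * τ ≤ e / 4) (he : 0 < e)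
    (hρ : 0 ≤ ρ) (hsc : 0 ≤ sc) (hS : cnt S = k * sc)
    (hSY : cnt (fun z => ¬ Y z ∧ S z) ≤ τ * sc) :
    |∑ z ∈ fs S, pl q z LZ - b * sc| ≤ e * sc / 2 := by
  have hk0 : 0 < k := by linarith
  have hc : ((fs S).card : ℝ) = k * sc := hS
  have e1 : ∑ z ∈ fs S, pl q z LZ - b * sc = ∑ z ∈ fs S, (pl q z LZ - b / k) := by
    rw [sum_sub_distrib, sum_const, nsmul_eq_mul, hc]
    field_simp
  have e2 : ∀ z ∈ fs S, |pl q z LZ - b / k| ≤ e / (4 * k) + ρ * ind (¬ Y z) := by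
    intro z hz
    by_cases h : Y z
    · rw [ind_neg (not_not.2 h), mul_zero, add_zero]
      exact hY z (mem_fs.1 hz) h
    · rw [ind_pos h, mul_one]
      have h1 : b / k ≤ ρ := by rwa [div_le_iff₀ hk0]
      have h2 : 0 ≤ b / k := by positivity
      have h3 : 0 ≤ e / (4 * k) := by positivity
      have h4 := pl_nonneg hq z LZ
      have h5 := hZ z
      rw [abs_le]
      constructor <;> linarith
  have e3 : ∑ z ∈ fs S, ind (¬ Y z) ≤ τ * sc := by
    rw [← cnt_and_eq_sum]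
    exact (cnt_mono fun z hz => ⟨hz.2, hz.1⟩).trans hSY
  rw [e1]
  refine (abs_sum_le_sum_abs _ _).trans ((sum_le_sum e2).trans ?_)
  rw [sum_add_distrib, sum_const, nsmul_eq_mul, hc, ← mul_sum]
  have e4 : k * sc * (e / (4 * k)) = e * sc / 4 := by field_simp
  have e5 := mul_le_mul_of_nonneg_left e3 hρ
  have e6 := mul_le_mul_of_nonneg_right hτ hsc
  rw [e4]
  nlinarith

theorem test (hq : IsP q) {LZ : α → Prop} {Y S : V → Prop} {b k ρ τ e sc : ℝ} (hk : 1 ≤ k)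
    (hZ : ∀ z, pl q z LZ ≤ ρ) (hb0 : 0 ≤ b) (hb : b ≤ ρ * k)
    (hY : ∀ z, S z → Y z → |pl q z LZ - b / k| ≤ e / (4 * k)) (hτ : ρ * τ ≤ e / 4) (he : 0 < e)
    (he' : e ≤ 4 * ρ * k) (hsc : 1 ≤ sc) (hS : cnt S = k * sc)
    (hSY : cnt (fun z => ¬ Y z ∧ S z) ≤ τ * sc) (C : (V → α) → Prop) (SC : V → Prop)
    (hC : Dep C SC) (hd : ∀ z, S z → ¬ SC z) :
    Pr q (fun ω => C ω ∧ e * sc < |cnt (fun z => LZ (ω z) ∧ S z) - b * sc|) ≤
      Pr q C * (2 * Real.exp (-(e ^ 2 / (16 * ρ * k)))) := by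
  have hk0 : 0 < k := by linarith
  have hρ : 0 < ρ := by
    by_contra h
    have : ρ * k ≤ 0 := mul_nonpos_of_nonpos_of_nonneg (not_lt.1 h) hk0.le
    linarith
  have hm := mean hq hk hZ hb0 hb hY hτ he hρ.le (by linarith) hS hSY
  have hμ : ∑ z ∈ fs S, pl q (id z) LZ ≤ ρ * k * sc := by
    have := sum_fs_le (P := S) (f := fun z => pl q z LZ) fun z _ => hZ z
    rw [hS] at this
    simp only [id]
    linarith
  have h := chernoff_coord hq (fs S) id LZ C SC hC (Set.injOn_id _)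
    (fun z hz => hd z (mem_fs.1 hz)) hμ (a := e * sc / 2) (by positivity) (by nlinarith)
  refine (Pr_mono hq fun ω hω => ?_).trans (h.trans ?_)
  · refine ⟨hω.1, ?_⟩
    have h1 := hω.2
    have h2 : cnt (fun z => LZ (ω z) ∧ S z) = ∑ z ∈ fs S, ind (LZ (ω z)) := by
      rw [← cnt_and_eq_sum]
      exact cnt_congr fun z => and_comm
    rw [h2] at h1
    have h3 := abs_sub_le (∑ z ∈ fs S, ind (LZ (ω z))) (∑ z ∈ fs S, pl q z LZ) (b * sc)
    simp only [id]
    linarith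
  · refine mul_le_mul_of_nonneg_left ?_ (Pr_nonneg hq C)
    have e1 : (e * sc / 2) ^ 2 / (4 * (ρ * k * sc)) = e ^ 2 / (16 * ρ * k) * sc := by
      field_simp
      norm_num
    have e2 : 0 ≤ e ^ 2 / (16 * ρ * k) := by positivity
    rw [e1]
    gcongr
    nlinarith

end FamPrP

open FamPrP in
theorem fampr : S_FamPr := by
  intro V α _ _ A q LA LZ Y a k ρ τ e hA hq hLA hLZ ha hY hτ hρτ he he'
  set E := Real.exp (-(e ^ 2 / (16 * ρ * k))) with hE
  have hE0 : 0 < E := Real.exp_pos _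
  have hk := hA.k1
  have hρ : 0 ≤ ρ := by
    by_contra h
    have : ρ * k ≤ 0 := mul_nonpos_of_nonpos_of_nonneg (not_le.1 h).le (by linarith)
    linarith
  have p0 : ∀ j : Fin 3, Pr q (fun ω => e * A.gz j <
      |cnt (fun z => LZ (ω z) ∧ A.pt z = j) - a j * A.gz j|) ≤ 2 * E := by
    intro j
    have h1 := hτ.f0 j
    rw [zero_mul, sub_zero] at h1
    have := test hq hk hLZ (ha j).1 (ha j).2 (S := fun z => A.pt z = j)
      (fun z hz h => hz ▸ hY z h) hρτ he he' (hA.ok.one_le_gz j) (hA.sz j)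
      ((le_abs_self _).trans h1) (fun _ => True) (fun _ => False) (Dep.const _ _) fun _ _ h => h
    simpa [Pr_true hq] using this
  have p1 : ∀ t : V × Fin 3, Pr q (fun ω => t.2 ≠ A.pt t.1 ∧ LA (ω t.1) ∧ e * A.g (A.pt t.1) <
      |cnt (fun z => LZ (ω z) ∧ A.pt z = t.2 ∧ A.G t.1 z) - a t.2 * A.g (A.pt t.1)|) ≤
      ρ * (2 * E) := by
    rintro ⟨x, j⟩
    by_cases hj : j ≠ A.pt x
    · have h1 := hτ.f1 x j trivial hj
      rw [zero_mul, sub_zero] at h1
      have := test hq hk hLZ (ha j).1 (ha j).2 (S := fun z => A.pt z = j ∧ A.G x z)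
        (fun z hz h => hz.1 ▸ hY z h) hρτ he he' (hA.ok.one_le_g (A.pt x)) (hA.dg x hj)
        ((le_abs_self _).trans h1) (fun ω => LA (ω x)) (fun z => z = x) (Dep.coord LA rfl)
        fun z hz h => (hA.ok.tp.ne hz.2) h.symm
      rw [Pr_coord hq] at this
      refine (Pr_mono hq fun ω h => h.2).trans (this.trans ?_)
      exact mul_le_mul_of_nonneg_right (hLA x) (by positivity)
    · rw [Pr_zero hq fun ω h => hj h.1]
      positivity
  have p2 : ∀ t : V × V × Fin 3, Pr q (fun ω => (A.G t.1 t.2.1 ∧ t.2.2 ≠ A.pt t.1 ∧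
      t.2.2 ≠ A.pt t.2.1) ∧ (LA (ω t.1) ∧ LA (ω t.2.1)) ∧ e <
      |cnt (fun z => LZ (ω z) ∧ A.G t.1 z ∧ A.G t.2.1 z) - a t.2.2|) ≤ ρ * ρ * (2 * E) := by
    rintro ⟨x, y, j⟩
    by_cases hj : A.G x y ∧ j ≠ A.pt x ∧ j ≠ A.pt y
    · have h1 := hτ.f2 x y j trivial trivial hj.1 hj.2.1 hj.2.2
      rw [sub_zero] at h1
      have := test hq hk hLZ (ha j).1 (ha j).2 (S := fun z => A.G x z ∧ A.G y z) (sc := 1)
        (fun z hz h => third_unique (hA.ok.tp x y hj.1) (hA.ok.tp x z hz.1).symm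
          (hA.ok.tp y z hz.2).symm hj.2.1 hj.2.2 ▸ hY z h) hρτ he he' le_rfl
        (by rw [mul_one]; exact hA.tri hj.1) (by rw [mul_one]; exact (le_abs_self _).trans h1)
        (fun ω => LA (ω x) ∧ LA (ω y)) (fun z => z = x ∨ z = y)
        ((Dep.coord LA (S := fun z => z = x ∨ z = y) (Or.inl rfl)).and
          (Dep.coord LA (S := fun z => z = x ∨ z = y) (Or.inr rfl)))
        fun z hz h => h.elim (fun h => hA.ok.tp.ne hz.1 h.symm) fun h => hA.ok.tp.ne hz.2 h.symm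
      rw [Pr_two hq (hA.ok.tp.ne hj.1), mul_one, mul_one] at this
      refine (Pr_mono hq fun ω h => h.2).trans (this.trans ?_)
      exact mul_le_mul_of_nonneg_right
        (mul_le_mul (hLA x) (hLA y) (pl_nonneg hq _ _) hρ) (by positivity)
    · rw [Pr_zero hq fun ω h => hj h.1]
      positivity
  have q0 := Pr_exists_le_card hq univ _ fun j _ => p0 j
  have q1 := Pr_exists_le_card hq univ _ fun t _ => p1 t
  have q2 := Pr_exists_le_card hq univ _ fun t _ => p2 t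
  refine (Pr_le_add hq (fun ω h => ?_) q0 (Pr_le_add hq (fun ω h => h) q1 q2)).trans ?_
  · by_contra hc
    push Not at hc
    obtain ⟨c0, c1, c2⟩ := hc
    exact h ⟨fun j => c0 j (mem_univ _), fun x j hx hj => c1 (x, j) (mem_univ _) hj hx,
      fun x y j hx hy hxy h1 h2 => c2 (x, y, j) (mem_univ _) ⟨hxy, h1, h2⟩ ⟨hx, hy⟩⟩
  · simp only [card_univ, Fintype.card_prod, Fintype.card_fin]
    push_cast
    have h1 : 0 ≤ ρ * (Fintype.card V : ℝ) * E := by positivity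
    nlinarith

end Pool.Agent.P.MP_77d020_co.L
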