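import Pool.Agent.P.MP_77d020_co.L.Prob
import Pool.Agent.P.MP_77d020_co.Design

/-! From the decomposition theorem to the arrangement. -/

namespace Pool.Agent.P.MP_77d020_co.L

open Finset

theorem card_le_sq {P : Type} [Fintype P] [DecidableEq P] {Blk : Finset (Finset P)} {k lam : ℕ}
    (hb : Blk.card = Fintype.card P) (hk : ∀ B ∈ Blk, B.card = k)
    (hl : ∀ x y : P, x ≠ y → (Blk.filter (fun B => x ∈ B ∧ y ∈ B)).card = lam)
    (h : lam + 2 < k) (hn : 2 * k ≤ Fintype.card P) : Fintype.card P ≤ 4 * (k - lam) ^ 2 := by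
  obtain ⟨x⟩ : Nonempty P := Fintype.card_pos_iff.1 (by omega)
  have key := card_mul_eq_card_mul (s := Blk.filter (fun B => x ∈ B)) (t := univ.erase x)
    (fun B y => y ∈ B) (m := k - 1) (n := lam) (fun B hB => by
      rw [mem_filter] at hB
      have : bipartiteAbove (fun B y => y ∈ B) (univ.erase x) B = B.erase x := by
        ext y; simp [bipartiteAbove]
      rw [this, card_erase_of_mem hB.2, hk B hB.1]) fun y hy => by
      rw [← hl x y (ne_of_mem_erase hy).symm]
      congr 1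
      ext B; simp [bipartiteBelow, and_assoc]
  rw [card_erase_of_mem (mem_univ x), card_univ, replication hb hk hl (by omega)] at key
  obtain ⟨n, rfl⟩ : ∃ n, k = lam + n + 1 := ⟨k - lam - 1, by omega⟩
  obtain ⟨N, hN⟩ : ∃ N, Fintype.card P = N + 1 := ⟨Fintype.card P - 1, by omega⟩
  rw [hN] at key hn ⊢
  rw [show lam + n + 1 - lam = n + 1 by omega]
  simp only [Nat.add_sub_cancel] at key
  have h1 : 1 ≤ lam := by
    rcases Nat.eq_zero_or_pos lam with rfl | h1
    · have : 0 < (0 + n + 1) * (0 + n) := Nat.mul_pos (by omega) (by omega)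
      omega
    · exact h1
  have h2 : lam ≤ n + 1 := by
    by_contra h2
    nlinarith
  nlinarith

theorem final (h1 : S_DG) (h2 : S_Vortex) (h3 : S_Main) :
    ∃ v0 : ℕ, ∀ (P : Type) [Fintype P] [DecidableEq P] (Blk : Finset (Finset P)) (k lam : ℕ),
      Blk.card = Fintype.card P → (∀ B ∈ Blk, B.card = k) →
      (∀ x y : P, x ≠ y → (Blk.filter (fun B => x ∈ B ∧ y ∈ B)).card = lam) →
      lam + 2 < k → v0 ≤ Fintype.card P → ∀ B0 ∈ Blk, Arrangeable Blk B0 := by
  obtain ⟨η0, p0, h3⟩ := h3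
  obtain ⟨k0, h2⟩ := h2 η0 p0
  have key : ∀ (P : Type) [Fintype P] [DecidableEq P] (Blk : Finset (Finset P)) (k lam : ℕ),
      Blk.card = Fintype.card P → (∀ B ∈ Blk, B.card = k) →
      (∀ x y : P, x ≠ y → (Blk.filter (fun B => x ∈ B ∧ y ∈ B)).card = lam) →
      lam + 2 < k → 4 * ⌈k0⌉₊ ^ 2 ≤ Fintype.card P → 2 * k ≤ Fintype.card P →
      ∀ B0 ∈ Blk, Arrangeable Blk B0 := by
    intro P _ _ Blk k lam hb hk hl h hv hn B0 h0
    obtain ⟨V, _, A, dg, conv⟩ := h1 P Blk k lam hb hk hl h hn B0 h0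
    have hk0 : k0 ≤ (k : ℝ) - lam := by
      have a := hv.trans (card_le_sq hb hk hl h hn)
      have b : ⌈k0⌉₊ ≤ k - lam := by
        by_contra b
        nlinarith
      have c : ((⌈k0⌉₊ : ℕ) : ℝ) ≤ (k - lam : ℕ) := Nat.cast_le.2 b
      rw [Nat.cast_sub (by omega)] at c
      exact (Nat.le_ceil k0).trans c
    obtain ⟨l, Vt, Qt, S, a, π, D, ε, η, vx⟩ := h2 V A _ dg hk0
    exact conv (h3 V A l Vt Qt S a π D ε η vx dg.imb)
  refine ⟨4 * ⌈k0⌉₊ ^ 2, fun P _ _ Blk k lam hb hk hl h hv B0 h0 => ?_⟩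
  by_cases hn : 2 * k ≤ Fintype.card P
  · exact key P Blk k lam hb hk hl h hv hn B0 h0
  have hr := replication hb hk hl (by omega)
  have hkN : k ≤ Fintype.card P := hk B0 h0 ▸ card_le_univ B0
  have cmp : ∀ x y : P, x ≠ y → ((Blk.image compl).filter (fun B => x ∈ B ∧ y ∈ B)).card + 2 * k =
      Fintype.card P + lam := by
    intro x y hxy
    rw [filter_image, card_image_of_injective _ compl_injective]
    have e1 := card_filter_add_card_filter_not (s := Blk) (fun B => x ∈ B ∨ y ∈ B)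
    have e2 := card_union_add_card_inter (Blk.filter (fun B => x ∈ B))
      (Blk.filter (fun B => y ∈ B))
    rw [← filter_or, ← filter_and, hr, hr, hl x y hxy] at e2
    have e3 : Blk.filter (fun B => x ∈ Bᶜ ∧ y ∈ Bᶜ) = Blk.filter (fun B => ¬ (x ∈ B ∨ y ∈ B)) := by
      ext B; simp
    rw [e3]; omega
  obtain ⟨x, y, hxy⟩ := Fintype.exists_pair_of_one_lt_card (α := P) (by omega)
  have := cmp x y hxy
  refine Arrangeable.of_compl (key P _ (Fintype.card P - k) (Fintype.card P + lam - 2 * k) ?_ ?_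
    (fun x y hxy => by have := cmp x y hxy; omega) (by omega) hv (by omega) _
    (mem_image_of_mem _ h0))
  · rw [card_image_of_injective _ compl_injective, hb]
  · intro B hB
    obtain ⟨C, hC, rfl⟩ := mem_image.1 hB
    rw [card_compl, hk C hC]

end Pool.Agent.P.MP_77d020_co.L
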