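import Pool.Agent.P.MP_77d020_co.L.Prob

/-! The derandomised greedy lemma, disjoint perfect matchings, and the final Koenig step. -/

namespace Pool.Agent.P.MP_77d020_co.L

open Finset

namespace GreedyP

theorem exp_le_one_add {c : ℝ} (h0 : 0 ≤ c) (h1 : c ≤ 1) : Real.exp (c * Real.log 2) ≤ 1 + c := by
  have h := convexOn_exp.2 (Set.mem_univ (Real.log 2)) (Set.mem_univ 0) h0
    (sub_nonneg.2 h1) (by ring)
  simp only [smul_eq_mul, mul_zero, add_zero, Real.exp_zero, mul_one,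
    Real.exp_log (show (0 : ℝ) < 2 by norm_num)] at h
  linarith

theorem load {I : Type} (t : Finset I) (c a : I → ℝ) (lg A : ℝ)
    (hc : ∀ j ∈ t, 0 ≤ c j ∧ c j ≤ 1) (hA : ∑ j ∈ t, a j ≤ A)
    (h : ∏ j ∈ t, ((1 + c j) * Real.exp (-a j)) ≤ Real.exp lg) :
    ∑ j ∈ t, c j ≤ 1.45 * (A + lg) := by
  have h1 : Real.exp (∑ j ∈ t, (c j * Real.log 2 + -a j)) ≤ Real.exp lg := by
    refine le_trans ?_ h
    rw [Real.exp_sum]
    refine prod_le_prod (fun j _ => (Real.exp_pos _).le) fun j hj => ?_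
    rw [Real.exp_add]
    exact mul_le_mul_of_nonneg_right (exp_le_one_add (hc j hj).1 (hc j hj).2) (Real.exp_pos _).le
  rw [Real.exp_le_exp, sum_add_distrib, ← sum_mul, sum_neg_distrib] at h1
  have h2 : 0 ≤ ∑ j ∈ t, c j := sum_nonneg fun j hj => (hc j hj).1
  have h3 := Real.log_two_gt_d9
  nlinarith

/-- Hall's theorem in bijection form. -/
theorem hall_bij {V : Type} (X Y : Finset V) (E : V → V → Prop) (hc : X.card = Y.card)
    (H : ∀ A ⊆ X, ∀ B ⊆ Y, (∀ x ∈ A, ∀ y ∈ Y, E x y → y ∈ B) → A.card ≤ B.card) :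
    ∃ f : V → V, Set.BijOn f X Y ∧ ∀ x ∈ X, E x (f x) := by
  classical
  obtain ⟨g, hg, hg'⟩ := (all_card_le_biUnion_card_iff_existsInjective'
    fun x : X => Y.filter (E x)).1 fun s => by
      rw [← card_map (Function.Embedding.subtype _)]
      refine H _ (fun x hx => ?_) _ (fun y hy => ?_) fun x hx y hy hxy => ?_
      · obtain ⟨x', -, rfl⟩ := mem_map.1 hx
        exact x'.2
      · obtain ⟨x', -, h⟩ := mem_biUnion.1 hy
        exact (mem_filter.1 h).1
      · obtain ⟨x', hx', rfl⟩ := mem_map.1 hx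
        exact mem_biUnion.2 ⟨x', hx', mem_filter.2 ⟨hy, hxy⟩⟩
  let f : V → V := fun x => if h : x ∈ X then g ⟨x, h⟩ else x
  have hf : ∀ x (h : x ∈ X), f x = g ⟨x, h⟩ := fun x h => dif_pos h
  have h1 : Set.MapsTo f X Y := fun x hx => by
    rw [hf x hx]
    exact (mem_filter.1 (hg' ⟨x, hx⟩)).1
  have h2 : Set.InjOn f X := fun x hx x' hx' e => by
    rw [hf x hx, hf x' hx'] at e
    exact congrArg Subtype.val (hg e)
  refine ⟨f, ⟨h1, h2, surjOn_of_injOn_of_card_le f h1 h2 hc.ge⟩, fun x hx => ?_⟩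
  rw [hf x hx]
  exact (mem_filter.1 (hg' ⟨x, hx⟩)).2

theorem sum_ind_sub {V : Type} {Y B : Finset V} {P : V → Prop} (hB : B ⊆ Y)
    (h : ∀ y ∈ Y, P y → y ∈ B) : ∑ y ∈ Y, ind (P y) = ∑ y ∈ B, ind (P y) :=
  (sum_subset hB fun y hy hy' => ind_neg fun a => hy' (h y hy a)).symm

theorem sum_ind_le_one {V : Type} {Y : Finset V} {P : V → Prop}
    (h : ∀ y ∈ Y, ∀ y' ∈ Y, P y → P y' → y = y') : ∑ y ∈ Y, ind (P y) ≤ 1 := by
  classical
  rw [← card_filter_eq_sum_ind]
  exact_mod_cast card_le_one.2 fun a ha b hb =>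
    h a (mem_filter.1 ha).1 b (mem_filter.1 hb).1 (mem_filter.1 ha).2 (mem_filter.1 hb).2

theorem arith {π n a b e : ℝ} (hπ : 0 < π) (ha : 0 < a) (h1 : a * (0.7 * (π * n)) ≤ e)
    (h2 : e ≤ π * a * b + π * n / 10 * a) : 0.6 * n ≤ b := by
  have h3 : π * a * (0.6 * n) ≤ π * a * b := by nlinarith
  exact le_of_mul_le_mul_left h3 (mul_pos hπ ha)

/-- One perfect matching. -/
theorem one_pm {V : Type} (X Y : Finset V) (E : V → V → Prop) (π n : ℝ) (hπ : 0 < π)
    (_hn : 0 < n) (hc : X.card = Y.card) (hX : (X.card : ℝ) ≤ 1.1 * n)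
    (h1 : ∀ x ∈ X, 0.7 * (π * n) ≤ ∑ y ∈ Y, ind (E x y))
    (h2 : ∀ y ∈ Y, 0.7 * (π * n) ≤ ∑ x ∈ X, ind (E x y))
    (h3 : ∀ X' ⊆ X, ∀ Y' ⊆ Y,
      eb E X' Y' ≤ π * X'.card * Y'.card + π * n / 10 * max (X'.card : ℝ) Y'.card) :
    ∃ f : V → V, Set.BijOn f X Y ∧ ∀ x ∈ X, E x (f x) := by
  classical
  refine hall_bij X Y E hc fun A hA B hB hAB => ?_
  by_contra hlt
  have hlt' : B.card < A.card := not_le.1 hlt
  have c1 : (X \ A).card + A.card = X.card := card_sdiff_add_card_eq_card hA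
  have c2 : (Y \ B).card + B.card = Y.card := card_sdiff_add_card_eq_card hB
  have hlt2 : (X \ A).card < (Y \ B).card := by omega
  have r1 : (B.card : ℝ) < A.card := by exact_mod_cast hlt'
  have r2 : ((X \ A).card : ℝ) < (Y \ B).card := by exact_mod_cast hlt2
  have r3 : ((X \ A).card : ℝ) + A.card = X.card := by exact_mod_cast c1
  have k1 : 0.6 * n ≤ B.card := by
    have e1 := h3 A hA B hB
    rw [max_eq_left r1.le] at e1
    refine arith hπ ((Nat.cast_nonneg _).trans_lt r1) ?_ e1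
    rw [← nsmul_eq_mul, ← sum_const]
    refine sum_le_sum fun x hx => (h1 x (hA hx)).trans (le_of_eq ?_)
    exact sum_ind_sub hB (hAB x hx)
  have k2 : 0.6 * n ≤ (X \ A).card := by
    have e1 := h3 (X \ A) sdiff_subset (Y \ B) sdiff_subset
    rw [max_eq_right r2.le, mul_right_comm π] at e1
    refine arith hπ ((Nat.cast_nonneg _).trans_lt r2) ?_ e1
    unfold eb
    rw [sum_comm, ← nsmul_eq_mul, ← sum_const]
    refine sum_le_sum fun y hy => (h2 y (mem_sdiff.1 hy).1).trans (le_of_eq ?_)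
    exact sum_ind_sub sdiff_subset fun x hx hxy => mem_sdiff.2
      ⟨hx, fun hxA => (mem_sdiff.1 hy).2 (hAB x hxA y (mem_sdiff.1 hy).1 hxy)⟩
  linarith

theorem ind_split {K : ℕ} (P : Prop) (Q : Fin K → Prop) :
    ind P ≤ ind (P ∧ ∀ i, ¬ Q i) + ∑ i, ind (Q i) := by
  have h0 : 0 ≤ ∑ i, ind (Q i) := sum_nonneg fun _ _ => ind_nonneg _
  refine ind_le (add_nonneg (ind_nonneg _) h0) fun hP => ?_
  by_cases h : ∀ i, ¬ Q i
  · rw [ind_pos ⟨hP, h⟩]
    linarith
  · obtain ⟨i, hi⟩ := not_forall.1 h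
    have h1 : ind (Q i) ≤ ∑ i, ind (Q i) :=
      single_le_sum (f := fun i => ind (Q i)) (fun _ _ => ind_nonneg _) (mem_univ i)
    rw [ind_pos (not_not.1 hi)] at h1
    linarith [ind_nonneg (P ∧ ∀ i, ¬ Q i)]

theorem sum_split {V : Type} {K : ℕ} (Y : Finset V) (P : V → Prop) (Q : Fin K → V → Prop)
    (h : ∀ i, ∀ y ∈ Y, ∀ y' ∈ Y, Q i y → Q i y' → y = y') :
    ∑ y ∈ Y, ind (P y) ≤ ∑ y ∈ Y, ind (P y ∧ ∀ i, ¬ Q i y) + K := by
  refine (sum_le_sum fun y _ => ind_split (P y) fun i => Q i y).trans ?_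
  rw [sum_add_distrib, sum_comm]
  gcongr
  refine (sum_le_sum fun i _ => sum_ind_le_one (h i)).trans ?_
  simp

theorem TE_cases {V : Type} {a b c x y : V} (h1 : a ≠ b) (h2 : a ≠ c) (h : TE a b c x y) :
    (x = a ∨ x = b ∨ x = c) ∧ (y = a ∨ y = b ∨ y = c) ∧ (x ≠ a ∨ y ≠ a) := by
  rcases h with ⟨rfl, rfl⟩ | ⟨rfl, rfl⟩ | ⟨rfl, rfl⟩ | ⟨rfl, rfl⟩ | ⟨rfl, rfl⟩ | ⟨rfl, rfl⟩ <;>
    simp [h1.symm, h2.symm]

theorem prop_aux {Z M a a' b b' p q : Prop} (h : M → Z) :
    ((Z ∧ ¬ M) ∨ (a ∧ p) ∨ (b ∧ q)) ∨ M ∨ (a' ∧ p) ∨ (b' ∧ q) ↔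
      Z ∨ ((a' ∨ a) ∧ p) ∨ ((b' ∨ b) ∧ q) := by
  tauto

theorem konig_fin {V : Type} [Fintype V] (pt : V → Fin 3) (C : V → Prop) (s : Finset V) :
    ∀ Z : V → V → Prop, Sy Z → Tp pt Z → (∀ x y, Z x y → C x ∧ pt x ≠ 0) →
      (∀ u ∈ s, pt u = 0) → (∀ x, C x → pt x ≠ 0 → cnt (Z x) = s.card) →
      Dec (fun x y => Z x y ∨ Ab pt (fun u => u ∈ s) C x y) := by
  classical
  induction s using Finset.induction_on with
  | empty =>
    intro Z _ _ hZ _ hr
    refine Dec.empty fun x y h => ?_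
    rcases h with h | h | h
    · have h1 := hr x (hZ x y h).1 (hZ x y h).2
      have h2 := one_le_cnt (P := Z x) h
      rw [h1] at h2
      norm_num at h2
    · simpa using h.1
    · simpa using h.1
  | insert u s hu ih =>
    intro Z hsy htp hZ hs hr
    rw [card_insert_of_notMem hu] at hr
    push_cast at hr
    have hu0 : pt u = 0 := hs u (mem_insert_self _ _)
    set X : Finset V := fs fun x => C x ∧ pt x = 1 with hXd
    set Y : Finset V := fs fun x => C x ∧ pt x = 2 with hYd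
    have mX : ∀ x, x ∈ X ↔ C x ∧ pt x = 1 := fun x => mem_fs
    have mY : ∀ x, x ∈ Y ↔ C x ∧ pt x = 2 := fun x => mem_fs
    have f01 : (0 : Fin 3) ≠ 1 := by decide
    have f02 : (0 : Fin 3) ≠ 2 := by decide
    have f12 : (1 : Fin 3) ≠ 2 := by decide
    have dX : ∀ x ∈ X, ∑ y ∈ Y, ind (Z x y) = s.card + 1 := by
      intro x hx
      obtain ⟨hx1, hx2⟩ := (mX x).1 hx
      rw [← hr x hx1 (by rw [hx2]; exact f01.symm), sum_ind_eq_cnt]
      refine cnt_congr fun y => ⟨fun a => a.2, fun a => ⟨(mY y).2 ⟨(hZ y x (hsy _ _ a)).1, ?_⟩, a⟩⟩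
      rcases fin3 (pt y) with h | h | h
      · exact ((hZ y x (hsy _ _ a)).2 h).elim
      · exact (htp x y a (hx2.trans h.symm)).elim
      · exact h
    have dY : ∀ y ∈ Y, ∑ x ∈ X, ind (Z x y) = s.card + 1 := by
      intro y hy
      obtain ⟨hy1, hy2⟩ := (mY y).1 hy
      rw [← hr y hy1 (by rw [hy2]; exact f02.symm), sum_ind_eq_cnt]
      refine cnt_congr fun x => ⟨fun a => hsy _ _ a.2,
        fun a => ⟨(mX x).2 ⟨(hZ x y (hsy _ _ a)).1, ?_⟩, hsy _ _ a⟩⟩
      rcases fin3 (pt x) with h | h | h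
      · exact ((hZ x y (hsy _ _ a)).2 h).elim
      · exact h
      · exact (htp y x a (hy2.trans h.symm)).elim
    have hpos : (0 : ℝ) < s.card + 1 := by positivity
    have hc : X.card = Y.card := by
      have e1 : ∑ x ∈ X, ∑ y ∈ Y, ind (Z x y) = X.card * ((s.card : ℝ) + 1) := by
        rw [sum_congr rfl dX, sum_const, nsmul_eq_mul]
      have e2 : ∑ x ∈ X, ∑ y ∈ Y, ind (Z x y) = Y.card * ((s.card : ℝ) + 1) := by
        rw [sum_comm, sum_congr rfl dY, sum_const, nsmul_eq_mul]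
      exact_mod_cast mul_right_cancel₀ hpos.ne' (e1.symm.trans e2)
    obtain ⟨f, hf, hfZ⟩ := hall_bij X Y Z hc fun A hA B hB hAB => by
      have e1 : ∑ x ∈ A, ∑ y ∈ B, ind (Z x y) = A.card * ((s.card : ℝ) + 1) := by
        rw [← nsmul_eq_mul, ← sum_const]
        exact sum_congr rfl fun x hx => (sum_ind_sub hB (hAB x hx)).symm.trans (dX x (hA hx))
      have e2 : ∑ x ∈ A, ∑ y ∈ B, ind (Z x y) ≤ B.card * ((s.card : ℝ) + 1) := by
        rw [sum_comm, ← nsmul_eq_mul, ← sum_const]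
        refine sum_le_sum fun y hy => le_trans ?_ (dY y (hB hy)).le
        exact sum_le_sum_of_subset_of_nonneg hA fun _ _ _ => ind_nonneg _
      exact_mod_cast le_of_mul_le_mul_right (e1.ge.trans e2) hpos
    have pX : ∀ x ∈ X, pt x = 1 := fun x hx => ((mX x).1 hx).2
    have pf : ∀ x ∈ X, pt (f x) = 2 := fun x hx => ((mY _).1 (hf.mapsTo hx)).2
    have cf : ∀ x ∈ X, C (f x) := fun x hx => ((mY _).1 (hf.mapsTo hx)).1
    let M : V → V → Prop := fun x y => (x ∈ X ∧ y = f x) ∨ (y ∈ X ∧ x = f y)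
    have hMZ : ∀ x y, M x y → Z x y := by
      rintro x y (⟨h, rfl⟩ | ⟨h, rfl⟩)
      · exact hfZ x h
      · exact hsy _ _ (hfZ y h)
    have hM1 : ∀ x, C x → pt x ≠ 0 → cnt (fun y => Z x y ∧ M x y) = 1 := by
      intro x hx hx0
      have key : ∃ y0, ∀ y, M x y ↔ y = y0 := by
        rcases fin3 (pt x) with h | h | h
        · exact (hx0 h).elim
        · refine ⟨f x, fun y => ⟨?_, fun e => Or.inl ⟨(mX x).2 ⟨hx, h⟩, e⟩⟩⟩
          rintro (⟨-, e⟩ | ⟨hy, e⟩)
          · exact e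
          · exact (f12 (h.symm.trans (e ▸ pf y hy))).elim
        · obtain ⟨w, hw, e⟩ := hf.surjOn ((mY x).2 ⟨hx, h⟩)
          refine ⟨w, fun y => ⟨?_, fun e' => Or.inr ⟨e' ▸ hw, by rw [e', e]⟩⟩⟩
          rintro (⟨hx', -⟩ | ⟨hy, e'⟩)
          · exact (f12 ((pX x hx').symm.trans h)).elim
          · exact hf.injOn hy hw (e'.symm.trans e.symm)
      obtain ⟨y0, hy0⟩ := key
      have e : cnt (fun y => Z x y ∧ M x y) = cnt (fun y => y ∈ ({y0} : Finset V)) :=
        cnt_congr fun y => by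
          rw [mem_singleton, ← hy0]
          exact ⟨fun a => a.2, fun a => ⟨hMZ _ _ a, a⟩⟩
      rw [e, cnt_mem]
      simp
    have d1 := ih (fun x y => Z x y ∧ ¬ M x y)
      (fun x y a => ⟨hsy _ _ a.1, fun b => a.2 b.symm⟩) (htp.mono fun x y a => a.1)
      (fun x y a => hZ x y a.1) (fun v hv => hs v (mem_insert_of_mem hv)) fun x hx hx0 => by
        have h1 := cnt_split (Z x) (M x)
        rw [hr x hx hx0, hM1 x hx hx0] at h1
        linarith
    have n1 : ∀ w ∈ X, u ≠ w := fun w hw e => f01 (hu0.symm.trans (e ▸ pX w hw))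
    have n2 : ∀ w ∈ X, u ≠ f w := fun w hw e => f02 (hu0.symm.trans (e ▸ pf w hw))
    have n3 : ∀ w ∈ X, ∀ w' ∈ X, w ≠ f w' := fun w hw w' hw' e =>
      f12 ((pX w hw).symm.trans (e ▸ pf w' hw'))
    have d2 := Dec.iUnion (fun w => w ∈ X) (fun w => TE u w (f w))
      (fun w hw => Dec.tri (n1 w hw) (n2 w hw) (n3 w hw w hw)) fun w w' x y hw hw' a b => by
        obtain ⟨a1, a2, a3⟩ := TE_cases (n1 w hw) (n2 w hw) a
        obtain ⟨b1, b2, -⟩ := TE_cases (n1 w' hw') (n2 w' hw') b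
        have key : ∀ v, v ≠ u → (v = u ∨ v = w ∨ v = f w) → (v = u ∨ v = w' ∨ v = f w') →
            w = w' := by
          intro v hv e e'
          rcases e.resolve_left hv with e | e <;> rcases e'.resolve_left hv with e' | e'
          · exact e.symm.trans e'
          · exact (n3 w hw w' hw' (e.symm.trans e')).elim
          · exact (n3 w' hw' w hw (e'.symm.trans e)).elim
          · exact hf.injOn hw hw' (e.symm.trans e')
        rcases a3 with h | h
        · exact key x h a1 b1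
        · exact key y h a2 b2
    have hT : ∀ x y, (∃ w, w ∈ X ∧ TE u w (f w) x y) ↔
        M x y ∨ (x = u ∧ C y ∧ pt y ≠ 0) ∨ (y = u ∧ C x ∧ pt x ≠ 0) := by
      intro x y
      have q1 : ∀ w ∈ X, C w ∧ pt w ≠ 0 := fun w hw =>
        ⟨((mX w).1 hw).1, by rw [pX w hw]; exact f01.symm⟩
      have q2 : ∀ w ∈ X, C (f w) ∧ pt (f w) ≠ 0 := fun w hw =>
        ⟨cf w hw, by rw [pf w hw]; exact f02.symm⟩
      have q3 : ∀ v, C v → pt v ≠ 0 → v ∈ X ∨ ∃ w ∈ X, f w = v := by
        intro v hv hv0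
        rcases fin3 (pt v) with h | h | h
        · exact (hv0 h).elim
        · exact Or.inl ((mX v).2 ⟨hv, h⟩)
        · exact Or.inr (hf.surjOn ((mY v).2 ⟨hv, h⟩))
      constructor
      · rintro ⟨w, hw, ⟨e1, e2⟩ | ⟨e1, e2⟩ | ⟨e1, e2⟩ | ⟨e1, e2⟩ | ⟨e1, e2⟩ | ⟨e1, e2⟩⟩
        · exact Or.inr (Or.inl ⟨e1, e2 ▸ q1 w hw⟩)
        · exact Or.inr (Or.inr ⟨e2, e1 ▸ q1 w hw⟩)
        · exact Or.inr (Or.inl ⟨e1, e2 ▸ q2 w hw⟩)
        · exact Or.inr (Or.inr ⟨e2, e1 ▸ q2 w hw⟩)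
        · exact Or.inl (Or.inl ⟨e1 ▸ hw, by rw [e1, e2]⟩)
        · exact Or.inl (Or.inr ⟨e2 ▸ hw, by rw [e1, e2]⟩)
      · rintro ((⟨h, e⟩ | ⟨h, e⟩) | ⟨e, h, h'⟩ | ⟨e, h, h'⟩)
        · exact ⟨x, h, by simp [TE, e]⟩
        · exact ⟨y, h, by simp [TE, e]⟩
        · rcases q3 y h h' with h2 | ⟨w, hw, e'⟩
          · exact ⟨y, h2, by simp [TE, e]⟩
          · exact ⟨w, hw, by simp [TE, e, e']⟩
        · rcases q3 x h h' with h2 | ⟨w, hw, e'⟩
          · exact ⟨x, h2, by simp [TE, e]⟩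
          · exact ⟨w, hw, by simp [TE, e, e']⟩
    have hs0 : ∀ v ∈ s, pt v = 0 := fun v hv => hs v (mem_insert_of_mem hv)
    refine (d1.union d2 fun x y a b => ?_).congr fun x y => ?_
    · rw [hT] at b
      rcases a with a | a | a
      · rcases b with b | b | b
        · exact a.2 b
        · exact (hZ x y a.1).2 (b.1 ▸ hu0)
        · exact (hZ y x (hsy _ _ a.1)).2 (b.1 ▸ hu0)
      · rcases b with b | b | b
        · exact (hZ x y (hMZ x y b)).2 (hs0 x a.1)
        · exact hu (b.1 ▸ a.1)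
        · exact a.2.2 (b.1 ▸ hu0)
      · rcases b with b | b | b
        · exact (hZ y x (hsy _ _ (hMZ x y b))).2 (hs0 y a.1)
        · exact a.2.2 (b.1 ▸ hu0)
        · exact hu (b.1 ▸ a.1)
    · rw [hT]
      simp only [Ab, mem_insert]
      exact prop_aux (hMZ x y)

end GreedyP

open GreedyP

theorem greedy : S_Greedy := by
  classical
  intro I O F s Fs c a Lb lg val cp hO hc ha hFs hLb step
  have hload : ∀ t ⊆ s, ∀ ch : I → O, (∀ j ∈ t, val j (ch j)) →
      ∑ f ∈ Fs, ∏ j ∈ t, ((1 + c j (ch j) f) * Real.exp (-a j f)) ≤ Fs.card →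
      ∀ f ∈ Fs, ∑ j ∈ t, c j (ch j) f ≤ Lb f := by
    intro t ht ch hv hΦ f hf
    refine le_trans (load t (fun j => c j (ch j) f) (fun j => a j f) lg _
      (fun j hj => hc j (ht hj) _ (hv j hj) f hf)
      (sum_le_sum_of_subset_of_nonneg ht fun j hj _ => ha j hj f hf) ?_) (hLb f hf)
    refine le_trans ?_ (hΦ.trans hFs)
    refine single_le_sum (f := fun f => ∏ j ∈ t, ((1 + c j (ch j) f) * Real.exp (-a j f)))
      (fun f' hf' => prod_nonneg fun j hj => mul_nonneg ?_ (Real.exp_pos _).le) hf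
    linarith [(hc j (ht hj) _ (hv j hj) f' hf').1]
  have main : ∀ t : Finset I, t ⊆ s → ∃ ch : I → O, (∀ j ∈ t, val j (ch j)) ∧
      (∀ j ∈ t, ∀ j' ∈ t, j ≠ j' → cp j (ch j) j' (ch j')) ∧
      ∑ f ∈ Fs, ∏ j ∈ t, ((1 + c j (ch j) f) * Real.exp (-a j f)) ≤ Fs.card := by
    intro t
    induction t using Finset.induction_on with
    | empty => exact fun _ => ⟨fun _ => hO.some, by simp, by simp, by simp⟩
    | insert i t hi ih =>
      intro hts
      have ht : t ⊆ s := (subset_insert _ _).trans hts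
      have his : i ∈ s := hts (mem_insert_self _ _)
      obtain ⟨ch, hv, hcp, hΦ⟩ := ih ht
      obtain ⟨Os, hne, hOs, hav⟩ := step t ht i his hi ch hv hcp (hload t ht ch hv hΦ)
      set P : F → ℝ := fun f => ∏ j ∈ t, ((1 + c j (ch j) f) * Real.exp (-a j f)) with hP
      have hP0 : ∀ f ∈ Fs, 0 ≤ P f := fun f hf => prod_nonneg fun j hj =>
        mul_nonneg (by linarith [(hc j (ht hj) _ (hv j hj) f hf).1]) (Real.exp_pos _).le
      obtain ⟨o, ho, hle⟩ := exists_le_of_sum_le (s := Os)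
        (f := fun o => ∑ f ∈ Fs, (1 + c i o f) * Real.exp (-a i f) * P f)
        (g := fun _ => (Fs.card : ℝ)) hne (by
          rw [sum_comm, sum_const, nsmul_eq_mul]
          refine le_trans ?_ (mul_le_mul_of_nonneg_left hΦ (Nat.cast_nonneg _))
          rw [mul_sum]
          refine sum_le_sum fun f hf => ?_
          rw [← sum_mul, ← sum_mul, sum_add_distrib, sum_const, nsmul_eq_mul, mul_one]
          refine mul_le_mul_of_nonneg_right ?_ (hP0 f hf)
          have h1 : (1 + a i f) * Real.exp (-a i f) ≤ 1 := by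
            rw [Real.exp_neg, ← div_eq_mul_inv, div_le_one (Real.exp_pos _), add_comm]
            exact Real.add_one_le_exp _
          calc ((Os.card : ℝ) + ∑ o ∈ Os, c i o f) * Real.exp (-a i f)
              ≤ (Os.card + Os.card * a i f) * Real.exp (-a i f) := by
                gcongr
                exact hav f hf
            _ = Os.card * ((1 + a i f) * Real.exp (-a i f)) := by ring
            _ ≤ Os.card * 1 := by gcongr
            _ = Os.card := mul_one _)
      have hup : ∀ j ∈ t, Function.update ch i o j = ch j := fun j hj =>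
        Function.update_of_ne (fun e : j = i => hi (e ▸ hj)) _ _
      refine ⟨Function.update ch i o, fun j hj => ?_, fun j hj j' hj' hjj => ?_, ?_⟩
      · rcases mem_insert.1 hj with rfl | hj
        · rw [Function.update_self]
          exact (hOs o ho).1
        · rw [hup j hj]
          exact hv j hj
      · rcases mem_insert.1 hj with rfl | hj1
        · rcases mem_insert.1 hj' with rfl | hj2
          · exact (hjj rfl).elim
          · rw [Function.update_self, hup j' hj2]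
            exact ((hOs o ho).2 j' hj2).1
        · rcases mem_insert.1 hj' with rfl | hj2
          · rw [Function.update_self, hup j hj1]
            exact ((hOs o ho).2 j hj1).2
          · rw [hup j hj1, hup j' hj2]
            exact hcp j hj1 j' hj2 hjj
      · refine le_trans (le_of_eq (sum_congr rfl fun f _ => ?_)) hle
        rw [prod_insert hi, Function.update_self]
        congr 1
        exact prod_congr rfl fun j hj => by rw [hup j hj]
  obtain ⟨ch, hv, hcp, hΦ⟩ := main s Subset.rfl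
  exact ⟨ch, hv, hcp, hload s Subset.rfl ch hv hΦ⟩

theorem pms : S_PMs := by
  intro V X Y E π n K hπ hn hc hX hK h1 h2 h3
  induction K with
  | zero => exact ⟨fun i => i.elim0, fun i => i.elim0, fun i => i.elim0, fun i => i.elim0⟩
  | succ K ih =>
    push_cast at hK
    obtain ⟨f, hf1, hf2, hf3⟩ := ih (by linarith)
    obtain ⟨g, hg1, hg2⟩ := one_pm X Y (fun x y => E x y ∧ ∀ i, ¬ f i x = y) π n hπ hn hc hX
      (fun x hx => by
        have := sum_split Y (E x) (fun i y => f i x = y) fun i y _ y' _ a b => a.symm.trans b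
        linarith [h1 x hx])
      (fun y hy => by
        have := sum_split X (fun x => E x y) (fun i x => f i x = y)
          fun i x hx x' hx' a b => (hf1 i).injOn hx hx' (a.trans b.symm)
        linarith [h2 y hy])
      fun X' hX' Y' hY' => (eb_mono (fun _ _ a => a.1) X' Y').trans (h3 X' hX' Y' hY')
    refine ⟨Fin.cons g f, fun i => ?_, fun i => ?_, fun i i' => ?_⟩
    · refine Fin.cases ?_ (fun i => ?_) i
      · exact hg1
      · exact hf1 i
    · refine Fin.cases ?_ (fun i => ?_) i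
      · exact fun x hx => (hg2 x hx).1
      · exact hf2 i
    · refine Fin.cases ?_ (fun i => ?_) i <;> refine Fin.cases ?_ (fun i' => ?_) i'
      · exact fun h => (h rfl).elim
      · exact fun _ x hx e => (hg2 x hx).2 i' e.symm
      · exact fun _ x hx e => (hg2 x hx).2 i e
      · exact fun h => hf3 i i' fun e => h (congrArg Fin.succ e)

theorem konig : S_Konig := by
  intro V _ pt S C Z h1 h2 h3 h4 h5
  refine (konig_fin pt C (fs S) Z h1 h2 h3 (fun u hu => h4 u (mem_fs.1 hu)) h5).congr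
    fun x y => ?_
  simp only [Ab, mem_fs]

end Pool.Agent.P.MP_77d020_co.L
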