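import Pool.Agent.P.MP_77d020_co.L.Prob

/-! The package of the last level. -/

namespace Pool.Agent.P.MP_77d020_co.L

open Finset

namespace LPlastP

variable {V : Type} [Fintype V] {A : Amb V}

theorem fam_add {T Z Z' Z'' : V → Prop} {a a' : Fin 3 → ℝ} {e e' : ℝ} (h : A.Fam T Z a e)
    (h' : A.Fam T Z' a' e') (hu : ∀ x, Z'' x ↔ Z x ∨ Z' x) (hd : ∀ x, Z x → ¬ Z' x) :
    A.Fam T Z'' (fun j => a j + a' j) (e + e') := by
  have key : ∀ P : V → Prop, cnt (fun z => Z'' z ∧ P z) =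
      cnt (fun z => Z z ∧ P z) + cnt (fun z => Z' z ∧ P z) := fun P =>
    cnt_eq_add (fun x => by rw [hu x]; tauto) fun x a b => hd x a.1 b.1
  refine ⟨fun j => ?_, fun x j hx hj => ?_, fun x y j hx hy hxy h1 h2 => ?_⟩
  · have a1 := abs_le.1 (h.f0 j)
    have a2 := abs_le.1 (h'.f0 j)
    rw [key, abs_le]
    constructor <;> linarith [a1.1, a1.2, a2.1, a2.2]
  · have a1 := abs_le.1 (h.f1 x j hx hj)
    have a2 := abs_le.1 (h'.f1 x j hx hj)
    rw [key, abs_le]
    constructor <;> linarith [a1.1, a1.2, a2.1, a2.2]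
  · have a1 := abs_le.1 (h.f2 x y j hx hy hxy h1 h2)
    have a2 := abs_le.1 (h'.f2 x y j hx hy hxy h1 h2)
    rw [key, abs_le]
    constructor <;> linarith [a1.1, a1.2, a2.1, a2.2]

theorem fam_shift (ok : A.Ok) {T Z : V → Prop} {a a' : Fin 3 → ℝ} {e d e' : ℝ}
    (h : A.Fam T Z a e) (hd : ∀ j, |a j - a' j| ≤ d) (he : e + d ≤ e') : A.Fam T Z a' e' := by
  have key : ∀ (c s : ℝ) (j : Fin 3), 1 ≤ s → |c - a j * s| ≤ e * s → |c - a' j * s| ≤ e' * s :=
    fun c s j hs h1 => by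
    have h0 : 0 ≤ s := by linarith
    have a1 := abs_le.1 h1
    have a2 := abs_le.1 (hd j)
    have a3 := mul_le_mul_of_nonneg_right a2.1 h0
    have a4 := mul_le_mul_of_nonneg_right a2.2 h0
    have a5 := mul_le_mul_of_nonneg_right he h0
    rw [abs_le]
    constructor <;> linarith [a1.1, a1.2]
  refine ⟨fun j => key _ _ j (ok.one_le_gz j) (h.f0 j),
    fun x j hx hj => key _ _ j (ok.one_le_g _) (h.f1 x j hx hj),
    fun x y j hx hy hxy h1 h2 => ?_⟩
  have := key _ 1 j le_rfl (by simpa using h.f2 x y j hx hy hxy h1 h2)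
  simpa using this

/-- The graph kept in the last cell. -/
def QQ (A : Amb V) (C : V → Prop) (K : V → V → Prop) (x y : V) : Prop :=
  A.G x y ∧ C x ∧ C y ∧ (A.pt x = 0 → A.pt y = 1 → K x y) ∧ (A.pt y = 0 → A.pt x = 1 → K y x)

/-- The scales of the last cell. -/
noncomputable def sc (A : Amb V) (r : ℝ) : Fin 3 → ℝ := ![r / 10 ^ 5, A.g 1 * r, r]

structure Cx (A : Amb V) (Vs C : V → Prop) (K : V → V → Prop) (r w : ℝ) : Prop where
  ok : A.Ok
  cs : ∀ x, C x → Vs x
  fc : A.Fam Vs C (sc A r) (4 * w)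
  w1 : 1 ≤ w
  wr : 10 ^ 8 * w ≤ r
  pk : r * (1 - A.p * A.g 0) ≤ w
  eq : cnt (fun x => C x ∧ A.pt x = 1) = cnt (fun x => C x ∧ A.pt x = 2)
  k1 : ∀ u, C u ∧ A.pt u = 0 → |cnt (fun y => (C y ∧ A.pt y = 1) ∧ K u y) -
    (1 - A.p) * cnt (fun y => C y ∧ A.pt y = 1)| ≤ w * A.g 0
  k2 : ∀ y, C y ∧ A.pt y = 1 → |cnt (fun u => (C u ∧ A.pt u = 0) ∧ K u y) -
    (1 - A.p) * cnt (fun u => C u ∧ A.pt u = 0)| ≤ w
  k3 : ∀ B u, Vs B → A.pt B = 2 → C u ∧ A.pt u = 0 →
    |cnt (fun y => (C y ∧ A.pt y = 1) ∧ A.G B y ∧ K u y) -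
      (1 - A.p) * cnt (fun y => (C y ∧ A.pt y = 1) ∧ A.G B y)| ≤ w
  k4 : ∀ B y, Vs B → A.pt B = 2 → C y ∧ A.pt y = 1 →
    |cnt (fun u => (C u ∧ A.pt u = 0) ∧ A.G B u ∧ K u y) -
      (1 - A.p) * cnt (fun u => (C u ∧ A.pt u = 0) ∧ A.G B u)| ≤ w

variable {Vs C : V → Prop} {K : V → V → Prop} {r w : ℝ}

omit [Fintype V] in
theorem sc_le (ok : A.Ok) (hr : 0 ≤ r) (j : Fin 3) : r / 10 ^ 5 ≤ sc A r j ∧ sc A r j ≤ 2 * r := by
  have h1 := mul_le_mul_of_nonneg_right ok.g1 hr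
  have h2 := mul_le_mul_of_nonneg_right ok.g1' hr
  rcases fin3 j with rfl | rfl | rfl <;>
    simp only [sc, Matrix.cons_val_zero, Matrix.cons_val_one, Matrix.cons_val] <;>
    constructor <;> linarith

omit [Fintype V] in
theorem qq_sy (ok : A.Ok) : Sy (QQ A C K) :=
  fun x y h => ⟨ok.sy x y h.1, h.2.2.1, h.2.1, h.2.2.2.2, h.2.2.2.1⟩

omit [Fintype V] in
theorem qq_of_two {x y : V} (h : A.G x y) (hx : C x) (hy : C y) (h2 : A.pt x = 2 ∨ A.pt y = 2) :
    QQ A C K x y := by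
  refine ⟨h, hx, hy, fun a b => ?_, fun a b => ?_⟩ <;> rcases h2 with h2 | h2 <;> simp_all

omit [Fintype V] in
theorem qq_of_K (ok : A.Ok) {x y : V} (hx : C x ∧ A.pt x = 0) (hy : C y ∧ A.pt y = 1)
    (h : K x y) : QQ A C K x y :=
  ⟨ok.cpl x y hx.2 hy.2, hx.1, hy.1, fun _ _ => h, fun a _ => by simp [hy.2] at a⟩

theorem Cx.r0 (h : Cx A Vs C K r w) : 0 < r := by linarith [h.w1, h.wr]

/-- Counts seen from a letter. -/
theorem Cx.letter (h : Cx A Vs C K r w) {B : V} (hB : Vs B) (h2 : A.pt B = 2) {j : Fin 3}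
    (hj : j ≠ 2) : |cnt (fun y => (C y ∧ A.pt y = j) ∧ A.G B y) - sc A r j| ≤ 4 * w := by
  have := h.fc.f1 B j hB (h2 ▸ hj)
  rw [h2, h.ok.g2, mul_one, mul_one] at this
  simpa only [and_assoc] using this

theorem Cx.low3 (h : Cx A Vs C K r w) {B u : V} (hB : Vs B) (h2 : A.pt B = 2)
    (hu : C u ∧ A.pt u = 0) :
    (1 - A.p) * sc A r 1 - 5 * w ≤ cnt (fun y => (C y ∧ A.pt y = 1) ∧ A.G B y ∧ K u y) := by
  have a1 := (abs_le.1 (h.k3 B u hB h2 hu)).1
  have a2 := (abs_le.1 (h.letter hB h2 (j := 1) (by decide))).1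
  have a3 := h.ok.p0
  have a4 := h.ok.ph
  have a5 := h.w1
  nlinarith

theorem Cx.low4 (h : Cx A Vs C K r w) {B y : V} (hB : Vs B) (h2 : A.pt B = 2)
    (hy : C y ∧ A.pt y = 1) :
    (1 - A.p) * sc A r 0 - 5 * w ≤ cnt (fun u => (C u ∧ A.pt u = 0) ∧ A.G B u ∧ K u y) := by
  have a1 := (abs_le.1 (h.k4 B y hB h2 hy)).1
  have a2 := (abs_le.1 (h.letter hB h2 (j := 0) (by decide))).1
  have a3 := h.ok.p0
  have a4 := h.ok.ph
  have a5 := h.w1
  nlinarith

theorem Cx.l5 (h : Cx A Vs C K r w) {x y : V} {j : Fin 3} (hx : Vs x) (hy : C y) (hxy : A.G x y)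
    (h1 : j ≠ A.pt x) (h2 : j ≠ A.pt y) {t : ℝ} (ht : t ≤ 1) (ht2 : A.pt x = 2 → t = 1 - A.p) :
    0.98 * sc A r j * t ≤ cnt (fun z => C z ∧ ¬ False ∧ A.G x z ∧ QQ A C K y z) := by
  have hs := (sc_le h.ok h.r0.le j).1
  have a4 := h.ok.ph
  have a5 := h.w1
  have a6 := h.wr
  have hne := h.ok.tp x y hxy
  have hb : 1 / 2 * sc A r j ≤ (1 - A.p) * sc A r j :=
    mul_le_mul_of_nonneg_right (by linarith) (by linarith)
  by_cases hx2 : A.pt x = 2
  · rw [ht2 hx2]
    rcases fin3 (A.pt y) with hy0 | hy1 | hy2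
    · obtain rfl : j = 1 := by
        rw [hx2] at h1; rw [hy0] at h2; clear hs hb; revert j; decide
      refine le_trans ?_ ((h.low3 hx hx2 ⟨hy, hy0⟩).trans (cnt_mono fun z hz =>
        ⟨hz.1.1, not_false, hz.2.1, qq_of_K h.ok ⟨hy, hy0⟩ hz.1 hz.2.2⟩))
      linarith
    · obtain rfl : j = 0 := by
        rw [hx2] at h1; rw [hy1] at h2; clear hs hb; revert j; decide
      refine le_trans ?_ ((h.low4 hx hx2 ⟨hy, hy1⟩).trans (cnt_mono fun z hz =>
        ⟨hz.1.1, not_false, hz.2.1, qq_sy h.ok _ _ (qq_of_K h.ok hz.1 ⟨hy, hy1⟩ hz.2.2)⟩))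
      linarith
    · exact absurd (hx2.trans hy2.symm) hne
  · have a1 := (abs_le.1 (h.fc.f2 x y j hx (h.cs y hy) hxy h1 h2)).1
    have a2 : 0.98 * sc A r j * t ≤ 0.98 * sc A r j * 1 :=
      mul_le_mul_of_nonneg_left ht (by linarith)
    refine le_trans (by linarith) (cnt_mono (P := fun z => C z ∧ A.G x z ∧ A.G y z) fun z hz =>
      ⟨hz.1, not_false, hz.2.1, qq_of_two hz.2.2 hy hz.1 ?_⟩)
    have b1 := h.ok.tp _ _ hz.2.1
    have b2 := h.ok.tp _ _ hz.2.2
    revert hne hx2 b1 b2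
    generalize A.pt x = i1
    generalize A.pt y = i2
    generalize A.pt z = i3
    revert i1 i2 i3
    decide

theorem Cx.f3 (h : Cx A Vs C K r w) {u y : V} (hu : C u) (h0 : A.pt u = 0) (hy : C y)
    (huy : A.G u y) : 0.95 * r ≤ cnt (fun z => QQ A C K u z ∧ QQ A C K y z) := by
  have a5 := h.w1
  have a6 := h.wr
  rcases fin3 (A.pt y) with hy0 | hy1 | hy2
  · exact absurd (h0.trans hy0.symm) (h.ok.tp u y huy)
  · have a1 := (abs_le.1 (h.fc.f2 u y 2 (h.cs u hu) (h.cs y hy) huy (by rw [h0]; decide)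
      (by rw [hy1]; decide))).1
    have e : sc A r 2 = r := rfl
    refine le_trans (by linarith) (cnt_mono (P := fun z => C z ∧ A.G u z ∧ A.G y z) fun z hz => ?_)
    have b1 := h.ok.tp _ _ hz.2.1
    have b2 := h.ok.tp _ _ hz.2.2
    have hz2 : A.pt z = 2 := by
      rw [h0] at b1
      rw [hy1] at b2
      revert b1 b2
      generalize A.pt z = i3
      revert i3
      decide
    exact ⟨qq_of_two hz.2.1 hu hz.1 (Or.inr hz2), qq_of_two hz.2.2 hy hz.1 (Or.inr hz2)⟩
  · refine le_trans ?_ ((h.low3 (h.cs y hy) hy2 ⟨hu, h0⟩).trans (cnt_mono fun z hz =>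
      ⟨qq_of_K h.ok ⟨hu, h0⟩ hz.1 hz.2.2, qq_of_two hz.2.1 hy hz.1.1 (Or.inl hy2)⟩))
    have e : (1 - A.p) * sc A r 1 = r * (A.p * A.g 0) := by
      rw [← h.ok.pg']
      change (1 - A.p) * (A.g 1 * r) = _
      ring
    have := h.pk
    linarith

theorem deg_qq {x : V} (hx : C x) {j : Fin 3} (h2 : A.pt x = 2 ∨ j = 2) :
    deg A.pt (QQ A C K) x j = cnt (fun z => C z ∧ A.pt z = j ∧ A.G x z) :=
  cnt_congr fun _ => ⟨fun a => ⟨a.2.2.2.1, a.1, a.2.1⟩,
    fun a => ⟨a.2.1, qq_of_two a.2.2 hx a.1 (h2.imp id fun e => a.2.1.trans e)⟩⟩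

theorem Cx.bal (h : Cx A Vs C K r w) {S : V → Prop} (hS : ∀ u, S u → A.pt u = 0 ∧ ¬ C u)
    (hc : |cnt S - (A.g 1 - 1 / 10 ^ 5) * r| ≤ 1) (x : V) :
    |imb A.pt (Ab A.pt S C) x + imb A.pt (QQ A C K) x| ≤ 11 * w * A.g (A.pt x) := by
  have a3 := h.ok.p0
  have a4 := h.ok.ph
  have a5 := h.w1
  have a7 := h.pk
  have a8 := h.ok.pg
  have a9 := h.r0
  have hg := h.ok.one_le_g (A.pt x)
  have hc' := abs_le.1 hc
  have hpk : 0 ≤ r * (1 - A.p * A.g 0) := mul_nonneg a9.le (by linarith)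
  by_cases hx : C x
  · have hxS : ¬ S x := fun a => (hS x a).2 hx
    have hv := h.cs x hx
    have d0 : A.pt x ≠ 0 → deg A.pt (Ab A.pt S C) x 0 = cnt S := fun h0 =>
      cnt_congr fun z => ⟨fun a => a.2.elim (fun b => (hxS b.1).elim) fun b => b.1,
        fun a => ⟨(hS z a).1, Or.inr ⟨a, hx, h0⟩⟩⟩
    have d1 : ∀ j, j ≠ 0 → deg A.pt (Ab A.pt S C) x j = 0 := fun j hj =>
      cnt_zero fun z a => a.2.elim (fun b => hxS b.1) fun b => hj (a.1.symm.trans (hS z b.1).1)
    rcases fin3 (A.pt x) with h0 | h1 | h2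
    · have e1 : deg A.pt (QQ A C K) x 1 = cnt (fun y => (C y ∧ A.pt y = 1) ∧ K x y) :=
        cnt_congr fun z => ⟨fun a => ⟨⟨a.2.2.2.1, a.1⟩, a.2.2.2.2.1 h0 a.1⟩,
          fun a => ⟨a.1.2, qq_of_K h.ok ⟨hx, h0⟩ a.1 a.2⟩⟩
      have b1 := abs_le.1 (h.k1 x ⟨hx, h0⟩)
      have b2 := abs_le.1 (h.fc.f0 1)
      have b3 := abs_le.1 (h.fc.f1 x 2 hv (by rw [h0]; decide))
      unfold imb
      rw [h0] at b3 hg ⊢
      rw [show (0 : Fin 3) + 1 = 1 from rfl, show (0 : Fin 3) + 2 = 2 from rfl, d1 1 (by decide),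
        d1 2 (by decide), e1, deg_qq hx (Or.inr rfl)]
      have e2 : sc A r 2 = r := rfl
      have e3 : A.gz 1 = A.g 0 := rfl
      have e4 : (1 - A.p) * (sc A r 1 * A.g 0) = r * (A.p * A.g 0) * A.g 0 := by
        rw [← h.ok.pg']
        change (1 - A.p) * (A.g 1 * r * A.g 0) = _
        ring
      rw [e2] at b3
      rw [e3] at b2
      have c0 : 0 ≤ A.g 0 := by linarith
      have c1 := mul_le_mul_of_nonneg_left b2.1 (show 0 ≤ 1 - A.p by linarith)
      have c2 := mul_le_mul_of_nonneg_left b2.2 (show 0 ≤ 1 - A.p by linarith)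
      have c3 := mul_le_mul_of_nonneg_right a7 c0
      have c4 := mul_nonneg hpk c0
      have c5 : 0 ≤ w * A.g 0 := mul_nonneg (by linarith) c0
      have c6 := mul_nonneg a3.le c5
      rw [abs_le]
      constructor <;> linarith [b1.1, b1.2, b3.1, b3.2]
    · have e1 : deg A.pt (QQ A C K) x 0 = cnt (fun u => (C u ∧ A.pt u = 0) ∧ K u x) :=
        cnt_congr fun z => ⟨fun a => ⟨⟨a.2.2.2.1, a.1⟩, a.2.2.2.2.2 a.1 h1⟩,
          fun a => ⟨a.1.2, qq_sy h.ok _ _ (qq_of_K h.ok a.1 ⟨hx, h1⟩ a.2)⟩⟩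
      have b1 := abs_le.1 (h.k2 x ⟨hx, h1⟩)
      have b2 := abs_le.1 (h.fc.f0 0)
      have b3 := abs_le.1 (h.fc.f1 x 2 hv (by rw [h1]; decide))
      have d0' := d0 (by rw [h1]; decide)
      unfold imb
      rw [h1] at b3 hg ⊢
      rw [show (1 : Fin 3) + 1 = 2 from rfl, show (1 : Fin 3) + 2 = 0 from rfl, d0',
        d1 2 (by decide), e1, deg_qq hx (Or.inr rfl)]
      have e2 : sc A r 2 = r := rfl
      have e3 : A.gz 0 = A.g 1 := rfl
      have e4 : (1 - A.p) * (sc A r 0 * A.g 1) = r * (A.p * A.g 0) / 10 ^ 5 := by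
        rw [← h.ok.pg']
        change (1 - A.p) * (r / 10 ^ 5 * A.g 1) = _
        ring
      rw [e2] at b3
      rw [e3] at b2
      have c0 : 0 ≤ A.g 1 := by linarith
      have c1 := mul_le_mul_of_nonneg_left b2.1 (show 0 ≤ 1 - A.p by linarith)
      have c2 := mul_le_mul_of_nonneg_left b2.2 (show 0 ≤ 1 - A.p by linarith)
      have c5 : w * 1 ≤ w * A.g 1 := mul_le_mul_of_nonneg_left hg (by linarith)
      have c6 := mul_nonneg a3.le (show 0 ≤ w * A.g 1 by linarith)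
      rw [abs_le]
      constructor <;> linarith [b1.1, b1.2, b3.1, b3.2, hc'.1, hc'.2]
    · have b2 := abs_le.1 (h.fc.f1 x 0 hv (by rw [h2]; decide))
      have b3 := abs_le.1 (h.fc.f1 x 1 hv (by rw [h2]; decide))
      have d0' := d0 (by rw [h2]; decide)
      have q0 := deg_qq (K := K) hx (j := 0) (Or.inl h2)
      have q1 := deg_qq (K := K) hx (j := 1) (Or.inl h2)
      unfold imb
      rw [h2] at b2 b3 ⊢
      rw [show (2 : Fin 3) + 1 = 0 from rfl, show (2 : Fin 3) + 2 = 1 from rfl, d0',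
        d1 1 (by decide), q0, q1]
      have e2 : sc A r 0 = r / 10 ^ 5 := rfl
      have e3 : sc A r 1 = A.g 1 * r := rfl
      rw [h.ok.g2] at b2 b3 ⊢
      rw [e2] at b2
      rw [e3] at b3
      rw [abs_le]
      constructor <;> linarith [b2.1, b2.2, b3.1, b3.2, hc'.1, hc'.2]
  · have hn : 0 ≤ 11 * w * A.g (A.pt x) := mul_nonneg (by linarith) (by linarith)
    rw [imb_zero (H := QQ A C K) fun y a => hx a.2.1, add_zero]
    by_cases hxS : S x
    · have d1 : ∀ j, j ≠ 0 → deg A.pt (Ab A.pt S C) x j = cnt (fun y => C y ∧ A.pt y = j) :=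
        fun j hj => cnt_congr fun z => ⟨fun a => ⟨a.2.elim (fun b => b.2.1)
          fun b => (hx b.2.1).elim, a.1⟩, fun a => ⟨a.2, Or.inl ⟨hxS, a.1, a.2 ▸ hj⟩⟩⟩
      unfold imb at *
      rw [(hS x hxS).1] at hn ⊢
      rwa [show (0 : Fin 3) + 1 = 1 from rfl, show (0 : Fin 3) + 2 = 2 from rfl, d1 1 (by decide),
        d1 2 (by decide), h.eq, sub_self, abs_zero]
    · rwa [imb_zero fun y a => a.elim (fun b => hxS b.1) fun b => hx b.2.1, abs_zero]

theorem eb_le_op {c : ℝ} (h : A.Ops Vs c) (hc : 0 ≤ c) {j : Fin 3} (hj : j ≠ 2) {X Y : Finset V}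
    (hX : ∀ x ∈ X, Vs x ∧ A.pt x = j) (hY : ∀ y ∈ Y, Vs y ∧ A.pt y = 2) :
    eb A.G X Y ≤ (if j = 0 then 1 - A.p else A.p) * X.card * Y.card +
      c * max (X.card : ℝ) Y.card := by
  have h1 := (abs_le.1 ((h j hj).disc hc hX hY)).2
  have e : ∑ x ∈ X, ∑ y ∈ Y, A.am x y =
      eb A.G X Y - (if j = 0 then 1 - A.p else A.p) * X.card * Y.card := by
    rw [sum_congr rfl fun x hx => sum_congr rfl fun y _ =>
      show A.am x y = ind (A.G x y) - (if j = 0 then 1 - A.p else A.p) by rw [← (hX x hx).2]; rfl]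
    simp only [eb, sum_sub_distrib, sum_const, nsmul_eq_mul]
    ring
  linarith

end LPlastP

open LPlastP

theorem lplast (h : S_Drop) : S_LPlast := by
  refine ⟨1 / 10 ^ 8, by norm_num, ?_⟩
  intro V _ A Vb l lab k D ε η dg hl hb h0 h1 e0 eh dl hk lg cb F F0 F1 F2 op
  have ok := dg.ok
  have eη : ε ≤ η := eh.trans (by nlinarith)
  have e1 : ε ≤ 1 / 10 ^ 8 := eη.trans h1
  have hD : 0 < D := (mul_pos_iff_of_pos_left (pow_pos e0 600)).1 (lt_of_lt_of_le one_pos dl)
  have step : ∀ a b : ℕ, a < b → 10 ^ 8 * (ε ^ b * D) ≤ ε ^ a * D := fun a b hab => by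
    have a1 : ε ^ b ≤ ε ^ a * ε := by
      rw [← pow_succ]; exact pow_le_pow_of_le_one e0.le (by linarith) hab
    have a2 : ε ^ a * ε ≤ ε ^ a * (1 / 10 ^ 8) := mul_le_mul_of_nonneg_left e1 (by positivity)
    have a3 := mul_le_mul_of_nonneg_right (a1.trans a2) hD.le
    linarith
  have hη : 1 / η ≤ ε ^ 599 * D := by
    rw [div_le_iff₀ h0]
    have a1 : ε ^ 599 * D * ε ≤ ε ^ 599 * D * η := mul_le_mul_of_nonneg_left eη (by positivity)
    have a2 : ε ^ 599 * D * ε = ε ^ 600 * D := by ring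
    linarith
  have hη1 : 1 ≤ 1 / η := by rw [le_div_iff₀ h0]; linarith
  have s1 := step 53 600 (by norm_num)
  have s2 := step 53 60 (by norm_num)
  have s3 := step 1 53 (by norm_num)
  have s4 := step 50 53 (by norm_num)
  have s5 := step 47 53 (by norm_num)
  have s6 := step 4 599 (by norm_num)
  have s7 := step 1 599 (by norm_num)
  have s8 := step 4 5 (by norm_num)
  have s9 := step 1 5 (by norm_num)
  have s10 := step 0 1 (by norm_num)
  have s11 := step 106 600 (by norm_num)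
  have hw : ε ^ 52 * (ε * D) = ε ^ 53 * D := by ring
  have hw2 : (ε ^ 53 * D) ^ 2 = ε ^ 106 * D * D := by ring
  have hrη : ε * D ≤ η ^ 2 * D := mul_le_mul_of_nonneg_right eh hD.le
  have hp5 : 0 ≤ ε ^ 5 * D := by positivity
  have hp60 : 0 ≤ ε ^ 60 * D := by positivity
  have hp4 : 0 ≤ ε ^ 4 * D := by positivity
  have hdr : 100 * (1 / η) * (3 * (ε * D)) ≤ (ε ^ 53 * D) ^ 2 := by
    have a1 : ε * D / η ≤ η * D := by
      rw [div_le_iff₀ h0]; linarith
    have a2 : η * D ≤ 1 / 10 ^ 8 * D := mul_le_mul_of_nonneg_right h1 hD.le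
    have a3 : 1 * D ≤ ε ^ 106 * D * D := mul_le_mul_of_nonneg_right (by linarith) hD.le
    have a4 : 100 * (1 / η) * (3 * (ε * D)) = 300 * (ε * D / η) := by ring
    linarith
  rw [pow_one] at s3 s7 s9 s10
  rw [pow_zero, one_mul] at s10
  rw [mul_assoc 2, hw] at F2
  rw [sub_mul, one_mul, hw] at F1
  have hpk : ε * D * (1 - A.p * A.g 0) ≤ ε := by
    have a1 : 1 - A.p * A.g 0 ≤ 1 / D :=
      (by linarith [dg.pl] : _ ≤ 1 / k).trans (one_div_le_one_div_of_le hD hk)
    have a2 := mul_le_mul_of_nonneg_left a1 (show 0 ≤ ε * D by positivity)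
    have a3 : ε * D * (1 / D) = ε := by field_simp
    linarith
  generalize ε ^ 53 * D = w at *
  generalize ε ^ 60 * D = e at *
  have hw1 : 1 ≤ w := by linarith
  have hr : 0 < ε * D := by positivity
  have g0 := ok.one_le_g 0
  have g1 := ok.g1
  have g1' := ok.g1'
  have pg := ok.pg
  have hpl : 1 - ε ≤ A.p * A.g 0 := by
    have a1 : ε * D * (1 - A.p * A.g 0) ≤ ε * D * ε := by
      refine hpk.trans ?_
      have := mul_le_mul_of_nonneg_right (show 1 ≤ ε * D by linarith) e0.le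
      linarith
    have := le_of_mul_le_mul_left a1 hr
    linarith
  -- the extra letters
  obtain ⟨T, hT, hTc⟩ : ∃ T : V → Prop, (∀ x, T x → lab x = l + 2 ∧ A.pt x = 2) ∧
      cnt (fun x => lab x = l + 1 ∧ A.pt x = 1) =
        cnt (fun x => lab x = l + 1 ∧ A.pt x = 2) + cnt T := by
    have b1 := abs_le.1 (F1.f0 1)
    have b2 := abs_le.1 (F1.f0 2)
    have b3 := abs_le.1 (F2.f0 2)
    simp only [Amb.gz, Matrix.cons_val_zero, Matrix.cons_val_one, Matrix.cons_val] at b1 b2 b3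
    have c1 : e * A.g 0 * 1 ≤ e * A.g 0 * A.g 1 :=
      mul_le_mul_of_nonneg_left g1 (mul_nonneg hp60 (by linarith))
    have c2 : 3 * e * (A.g 0 * A.g 1) ≤ w * (A.g 0 * A.g 1) :=
      mul_le_mul_of_nonneg_right (by linarith) (mul_nonneg (by linarith) (by linarith))
    have c3 : 0 ≤ e * A.g 0 := mul_nonneg hp60 (by linarith)
    have hle : cnt (fun x => lab x = l + 1 ∧ A.pt x = 2) ≤
        cnt (fun x => lab x = l + 1 ∧ A.pt x = 1) := by linarith [b1.1, b2.2]
    have hcast : (((fs fun x => lab x = l + 1 ∧ A.pt x = 1).card -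
        (fs fun x => lab x = l + 1 ∧ A.pt x = 2).card : ℕ) : ℝ) =
        cnt (fun x => lab x = l + 1 ∧ A.pt x = 1) - cnt (fun x => lab x = l + 1 ∧ A.pt x = 2) :=
      Nat.cast_sub (Nat.cast_le.1 hle)
    obtain ⟨T, t1, t2⟩ := exists_sub_cnt (P := fun x => lab x = l + 2 ∧ A.pt x = 2)
      (hcast.le.trans (by linarith [b1.2, b2.1, b3.1]))
    exact ⟨T, t1, by rw [t2, hcast]; ring⟩
  obtain ⟨C, hC⟩ : ∃ C : V → Prop, ∀ x, C x ↔ lab x = l + 1 ∨ T x := ⟨_, fun _ => Iff.rfl⟩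
  have hC1 : ∀ x, C x → l + 1 ≤ lab x := fun x hx =>
    ((hC x).1 hx).elim (fun a => a.ge) fun a => by have := (hT x a).1; omega
  have hCs : ∀ x, C x → l ≤ lab x := fun x hx => by have := hC1 x hx; omega
  have F2z : A.Fam (fun x => l ≤ lab x) (fun x => lab x = l + 2) (fun _ => 0) (e + 2 * w) :=
    fam_shift ok F2 (d := 2 * w) (fun j => by
      rcases fin3 j with rfl | rfl | rfl <;>
        simp only [Matrix.cons_val_zero, Matrix.cons_val_one, Matrix.cons_val, sub_zero] <;>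
        rw [abs_le] <;> constructor <;> linarith) le_rfl
  have FC : A.Fam (fun x => l ≤ lab x) C (sc A (ε * D)) (4 * w) :=
    fam_shift ok (fam_add F1 (F2z.zero_mono fun x hx => (hT x hx).1) hC
      fun x a b => by have := (hT x b).1; omega) (d := w) (fun j => by
      rcases fin3 j with rfl | rfl | rfl <;>
        simp only [sc, Matrix.cons_val_zero, Matrix.cons_val_one, Matrix.cons_val] <;>
        rw [abs_le] <;> constructor <;> linarith) (by linarith)
  have FN : A.Fam (fun x => l ≤ lab x) (fun x => l ≤ lab x ∧ ¬ C x) (fun _ => D) (4 * w) :=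
    fam_shift ok (fam_add F0 (F2z.zero_mono (Z' := fun x => lab x = l + 2 ∧ ¬ T x)
      fun x hx => hx.1) (fun x => by
        have a1 := hl x
        have a2 : T x → lab x = l + 2 := fun a => (hT x a).1
        rw [hC x]
        by_cases a3 : T x
        · have := a2 a3
          simp only [a3, or_true, not_true, and_false, or_false, false_iff]
          omega
        · simp only [a3, or_false, not_false_iff, and_true]
          omega)
      fun x a b => by have := b.1; omega) (d := 0) (fun j => by simp) (by linarith)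
  have hsc := sc_le ok hr.le
  have FS : A.Fam (fun x => l ≤ lab x) (fun x => l ≤ lab x) (fun _ => D) (10 * η ^ 2 * D) :=
    fam_shift ok (fam_add FN FC (fun x => by have := hCs x; tauto) fun x a b => a.2 b)
      (d := 2 * (ε * D)) (fun j => by
        rw [add_sub_cancel_left, abs_le]
        constructor <;> linarith [(hsc j).1, (hsc j).2]) (by linarith)
  have cs : cnt (fun x => l ≤ lab x) ≤ Real.exp (1 / η) := by
    refine (F.cnt_le ok (b := 2 * D) (fun _ => by linarith) (by linarith)).trans (le_trans ?_ lg)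
    exact le_of_eq (by ring)
  have c0 : cnt (fun u => C u ∧ A.pt u = 0) ≤ ε * D / 10 ^ 4 := by
    have b1 := (abs_le.1 (FC.f0 0)).2
    have e2 : sc A (ε * D) 0 = ε * D / 10 ^ 5 := rfl
    have e3 : A.gz 0 = A.g 1 := rfl
    rw [e2, e3] at b1
    have := mul_le_mul_of_nonneg_left g1' (show 0 ≤ ε * D / 10 ^ 5 + 4 * w by linarith)
    linarith
  obtain ⟨K, k1, k2, k3, k4, k5⟩ := h V A (fun x => l ≤ lab x) (fun u => C u ∧ A.pt u = 0)
    (fun u => C u ∧ A.pt u = 1) (1 - A.p) w (3 * (ε * D)) (ε ^ 4 * D) (1 / η) ok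
    (fun u hu => ⟨hCs u hu.1, hu.2⟩) (fun u hu => ⟨hCs u hu.1, hu.2⟩) (by linarith [ok.ph])
    (by linarith [ok.p0]) cs hη1 (by linarith) (by
      have b1 := (abs_le.1 (FC.f0 1)).2
      have e3 : A.gz 1 = A.g 0 := rfl
      rw [e3] at b1
      have := mul_le_mul_of_nonneg_right
        (show sc A (ε * D) 1 + 4 * w ≤ 3 * (ε * D) by linarith [(hsc 1).2]) (show 0 ≤ A.g 0 by linarith)
      linarith) (fun B hB h2 => by
      have b1 := (abs_le.1 (FC.f1 B 1 hB (by rw [h2]; decide))).2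
      rw [h2, ok.g2] at b1
      simp only [and_assoc]
      linarith [(hsc 1).2]) (by linarith) (by linarith) hdr (by linarith)
  have heq : cnt (fun x => C x ∧ A.pt x = 1) = cnt (fun x => C x ∧ A.pt x = 2) := by
    rw [cnt_congr (Q := fun x => lab x = l + 1 ∧ A.pt x = 1) fun x => ?_, hTc]
    · refine (cnt_eq_add (fun x => ?_) fun x a b => by have := (hT x b).1; omega).symm
      have := hT x
      rw [hC x]
      tauto
    · rw [hC x]
      refine ⟨fun a => ⟨a.1.resolve_right fun b => ?_, a.2⟩, fun a => ⟨Or.inl a.1, a.2⟩⟩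
      have := (hT x b).2.symm.trans a.2
      simp at this
  have cx : Cx A (fun x => l ≤ lab x) C K (ε * D) w :=
    ⟨ok, hCs, FC, hw1, s3, by linarith, heq, k1, k2, k3, k4⟩
  have hπ : ∀ i, 0.48 ≤ ![A.p, 1 - A.p, 1 - A.p] i * A.g i ∧
      ![A.p, 1 - A.p, 1 - A.p] i * A.g i ≤ 1 := fun i => by
    have a1 := ok.pg'
    have a2 := ok.g2
    have a3 := ok.p0
    have a4 := ok.ph
    rcases fin3 i with rfl | rfl | rfl <;>
      simp only [Matrix.cons_val_zero, Matrix.cons_val_one, Matrix.cons_val] <;>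
      (try rw [a2]) <;> constructor <;> linarith
  have up : ∀ x y, l ≤ lab x → l ≤ lab y → A.G x y →
      cnt (fun z => C z ∧ A.G x z ∧ A.G y z) ≤ 3 * (ε * D) := fun x y hx hy hxy => by
    obtain ⟨j, j1, j2⟩ := exists_third (ok.tp x y hxy)
    linarith [(abs_le.1 (FC.f2 x y j hx hy hxy j1 j2)).2, (hsc j).2]
  have big : ∀ (n : ℕ) (c : ℝ) (i : Fin 3), c * w ≤ ε ^ n * D →
      c * w * A.g i ≤ ε ^ n * A.g i * D := fun n c i hc => by
    have := mul_le_mul_of_nonneg_right hc (show 0 ≤ A.g i by linarith [ok.one_le_g i])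
    linarith
  refine ⟨C, QQ A C K, sc A (ε * D), ![A.p, 1 - A.p, 1 - A.p], hC1, ?_, ?_, heq,
    fun S hS hc x => (cx.bal hS hc x).trans (big 47 11 _ (by linarith))⟩
  · refine
      { ok := ok
        s21 := fun x a => a.elim
        s1s := hCs
        ssb := hb
        qsy := qq_sy ok
        qG := fun x y a => ⟨a.1, a.2.1, a.2.2.1⟩
        e0 := e0
        h0 := h0
        eh := eh
        dl := dl
        nat := ⟨FS, op.mono (fun _ a => a) hp5 (by linarith), by linarith [sq_nonneg η]⟩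
        cb := cb
        cs := cs
        cp := le_trans (div_le_div_of_nonneg_right (by linarith) ok.p0.le) lg
        al := fun j => by linarith [(hsc j).1]
        au := fun j => by linarith [(hsc j).2]
        p0 := fun i => ?_
        pl := fun i => (hπ i).1
        pu := fun i => (hπ i).2
        l1 := fun x j hx _ hj => ?_
        l2 := fun x hx => ?_
        l3 := fun x y hx hy hxy => by linarith [up x y hx hy hxy]
        l4 := fun x y j hx _ hy _ hxy j1 j2 => ?_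
        l4' := fun x y j hx hy hxy j1 j2 => ?_
        l5 := fun x y j hx _ hy hxy j1 j2 => cx.l5 hx hy hxy j1 j2 (hπ _).2 fun h2 => by
          rw [h2, ok.g2, mul_one]; rfl
        l6 := fun i X Y hX hY cX cY => ?_
        l7 := fun x y hx hy hxy => ?_ }
    · have a3 := ok.p0
      have a4 := ok.ph
      rcases fin3 i with rfl | rfl | rfl <;>
        simp only [Matrix.cons_val_zero, Matrix.cons_val_one, Matrix.cons_val] <;> linarith
    · simp only [not_false_iff, true_and]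
      exact (FC.f1 x j hx hj).trans (big 50 4 _ (by linarith))
    · have b1 := abs_le.1 (FN.f1 x _ (hCs x hx) (add_one_ne _))
      have b2 := abs_le.1 (FN.f1 x _ (hCs x hx) (add_two_ne _))
      have e2 : ∀ j, deg A.pt (fun y z => l ≤ lab z ∧ ¬ C z ∧ A.G y z) x j =
          cnt (fun z => (l ≤ lab z ∧ ¬ C z) ∧ A.pt z = j ∧ A.G x z) :=
        fun j => cnt_congr fun z => by tauto
      refine le_trans ?_ (big 50 8 _ (by linarith))
      unfold imb
      rw [e2, e2, abs_le]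
      constructor <;> linarith [b1.1, b1.2, b2.1, b2.2]
    · simp only [not_false_iff, true_and]
      linarith [(abs_le.1 (FC.f2 x y j hx hy hxy j1 j2)).1, (hsc j).1]
    · simp only [not_false_iff, true_and]
      linarith [(abs_le.1 (FC.f2 x y j hx hy hxy j1 j2)).2, (hsc j).1]
    · have hm : ε ^ 5 * D * max (X.card : ℝ) Y.card ≤ ε ^ 4 * D / 25 * max (X.card : ℝ) Y.card :=
        mul_le_mul_of_nonneg_right (by linarith) (by positivity)
      have hG := eb_mono (H := QQ A C K) (H' := A.G) (fun x y a => a.1) X Y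
      rcases fin3 i with rfl | rfl | rfl
      · have := eb_le_op op hp5 (j := 1) (by decide) (fun x hx => ⟨hCs x (hX x hx).1, (hX x hx).2⟩)
          fun y hy => ⟨hCs y (hY y hy).1, (hY y hy).2⟩
        rw [if_neg (by decide)] at this
        simp only [Matrix.cons_val_zero]
        linarith
      · have := eb_le_op op hp5 (j := 0) (by decide) (fun x hx => ⟨hCs x (hY x hx).1, (hY x hx).2⟩)
          fun y hy => ⟨hCs y (hX y hy).1, (hX y hy).2⟩
        rw [if_pos rfl, eb_comm ok.sy, max_comm] at this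
        simp only [Matrix.cons_val_zero, Matrix.cons_val_one]
        linarith
      · rw [ok.g2] at cX cY
        refine le_trans (sum_le_sum fun x hx => sum_le_sum fun y hy => ind_mono fun a =>
          a.2.2.2.1 (hX x hx).2 (hY y hy).2) (k5 X Y hX hY (by linarith) (by linarith))
    · obtain ⟨j, j1, j2⟩ := exists_third (ok.tp x y hxy)
      linarith [(abs_le.1 (F.f2 x y j hx (hb y hy) hxy j1 j2)).2]
  · refine
      { ok := ok
        r0 := by linarith
        pl := by linarith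
        lg := ?_
        f1 := c0
        f2 := fun u hu hu0 => ?_
        f3 := fun u y hu hu0 hy huy => cx.f3 hu hu0 hy huy
        f3' := fun u y hu _ hy huy => by linarith [up u y (hCs u hu) (hCs y hy) huy]
        f4 := (op.mono hCs hp5 (by linarith)) 1 (by decide)
        qG := fun x y a => ⟨a.1, a.2.1, a.2.2.1⟩ }
    · have a1 : cnt C ^ 2 ≤ Real.exp (1 / η) ^ 2 :=
        pow_le_pow_left₀ (cnt_nonneg _) ((cnt_mono hCs).trans cs) 2
      have a2 : (2 : ℝ) ≤ Real.exp 1 := by linarith [Real.add_one_le_exp (1 : ℝ)]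
      have a3 : Real.exp 1 * Real.exp (1 / η) ^ 2 ≤ Real.exp (ε * D / 100) := by
        rw [sq, ← Real.exp_add, ← Real.exp_add]
        exact Real.exp_le_exp.2 (by linarith)
      exact (mul_le_mul a2 a1 (by positivity) (by positivity)).trans a3
    · have b1 := (abs_le.1 (FC.f1 u 2 (hCs u hu) (by rw [hu0]; decide))).2
      have e2 : sc A (ε * D) 2 = ε * D := rfl
      rw [hu0, e2] at b1
      have := mul_le_mul_of_nonneg_right (show 4 * w ≤ 0.1 * (ε * D) by linarith)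
        (show 0 ≤ A.g 0 by linarith)
      linarith

end Pool.Agent.P.MP_77d020_co.L
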