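import Pool.Agent.P.MP_77d020_co.L.Prob

/-! Small corrections that balance the indicator of a nearly balanced graph. -/

noncomputable section

namespace Pool.Agent.P.MP_77d020_co.L

open Finset

namespace LemEP

/-- prescribed row and column sums on a dense bipartite graph -/
theorem alg {V : Type} (U W : Finset V) (h : V → V → ℝ) (h0 : ∀ u w, 0 ≤ h u w)
    (h1 : ∀ u w, h u w ≤ 1) (r c : V → ℝ) {a b m : ℝ} (hm : 0 < m) (ha : 0 ≤ a)
    (hsum : ∑ u ∈ U, r u = ∑ w ∈ W, c w) (hd : ∀ w ∈ W, 0 < ∑ u ∈ U, h u w)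
    (hc : ∀ w ∈ W, |c w| ≤ a * ∑ u ∈ U, h u w)
    (hcod : ∀ u ∈ U, ∀ u' ∈ U, m ≤ ∑ w ∈ W, h u w * h u' w) (hr : ∀ u ∈ U, |r u| ≤ b * m)
    (hW : ∀ u ∈ U, ∑ w ∈ W, h u w ≤ 2 * m) :
    ∃ x : V → V → ℝ, (∀ u ∈ U, ∀ w ∈ W, |x u w| ≤ a + 2 * (b + 2 * a)) ∧
      (∀ u ∈ U, ∑ w ∈ W, h u w * x u w = r u) ∧ ∀ w ∈ W, ∑ u ∈ U, h u w * x u w = c w := by
  obtain ⟨y, hy⟩ : ∃ y : V → ℝ, ∀ w, y w = c w / ∑ u ∈ U, h u w := ⟨_, fun _ => rfl⟩
  obtain ⟨s, hs⟩ : ∃ s : V → ℝ, ∀ u, s u = r u - ∑ w ∈ W, h u w * y w := ⟨_, fun _ => rfl⟩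
  obtain ⟨k, hk⟩ : ∃ k : V → V → ℝ, ∀ u u', k u u' = ∑ w ∈ W, h u w * h u' w :=
    ⟨_, fun _ _ => rfl⟩
  have hks : ∀ u u', k u u' = k u' u := fun u u' => by simp only [hk, mul_comm]
  have hya : ∀ w ∈ W, |y w| ≤ a := fun w hw => by
    rw [hy, abs_div, abs_of_pos (hd w hw), div_le_iff₀ (hd w hw)]
    exact hc w hw
  have hyc : ∀ w ∈ W, ∑ u ∈ U, h u w * y w = c w := fun w hw => by
    rw [← sum_mul, hy, mul_div_cancel₀ _ (hd w hw).ne']
  have hs0 : ∑ u ∈ U, s u = 0 := by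
    simp only [hs]
    rw [sum_sub_distrib, sum_comm, sum_congr rfl hyc, hsum, sub_self]
  have hsb : ∀ u ∈ U, |s u| ≤ (b + 2 * a) * m := fun u hu => by
    have e1 : |∑ w ∈ W, h u w * y w| ≤ ∑ w ∈ W, h u w * a :=
      (abs_sum_le_sum_abs _ _).trans (sum_le_sum fun w hw => by
        rw [abs_mul, abs_of_nonneg (h0 u w)]
        exact mul_le_mul_of_nonneg_left (hya w hw) (h0 u w))
    rw [← sum_mul] at e1
    have e2 := mul_le_mul_of_nonneg_right (hW u hu) ha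
    have e3 := abs_sub (r u) (∑ w ∈ W, h u w * y w)
    rw [hs]
    linarith [hr u hu]
  refine ⟨fun u w => y w + ∑ u' ∈ U, h u' w * ((s u - s u') / (U.card * k u u')),
    fun u hu w hw => ?_, fun u hu => ?_, fun w hw => ?_⟩
  · have hU : (0 : ℝ) < U.card := by exact_mod_cast card_pos.2 ⟨u, hu⟩
    have e1 : ∀ u' ∈ U, |h u' w * ((s u - s u') / (U.card * k u u'))| ≤
        2 * (b + 2 * a) / U.card := fun u' hu' => by
      have e2 : m ≤ k u u' := hk u u' ▸ hcod u hu u' hu'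
      have e3 : 0 < k u u' := hm.trans_le e2
      have e4 := abs_sub (s u) (s u')
      have e5 : 0 ≤ b + 2 * a :=
        nonneg_of_mul_nonneg_left ((abs_nonneg _).trans (hsb u hu)) hm
      rw [abs_mul, abs_of_nonneg (h0 u' w)]
      refine (mul_le_of_le_one_left (abs_nonneg _) (h1 u' w)).trans ?_
      rw [abs_div, abs_of_pos (mul_pos hU e3), mul_comm, ← div_div]
      refine div_le_div_of_nonneg_right ?_ hU.le
      rw [div_le_iff₀ e3]
      nlinarith [hsb u hu, hsb u' hu']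
    have e6 := (abs_sum_le_sum_abs _ _).trans (sum_le_card_nsmul _ _ _ e1)
    rw [nsmul_eq_mul, mul_div_cancel₀ _ hU.ne'] at e6
    exact (abs_add_le _ _).trans (add_le_add (hya w hw) e6)
  · have hU : (U.card : ℝ) ≠ 0 := by exact_mod_cast (card_pos.2 ⟨u, hu⟩).ne'
    have e1 : ∀ u' ∈ U, ∑ w ∈ W, h u w * (h u' w * ((s u - s u') / (U.card * k u u'))) =
        (s u - s u') / U.card := fun u' hu' => by
      have e3 : k u u' ≠ 0 := (hm.trans_le (hk u u' ▸ hcod u hu u' hu')).ne'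
      simp only [← mul_assoc]
      rw [← sum_mul, ← hk]
      field_simp
    simp only [mul_add, sum_add_distrib, mul_sum]
    rw [sum_comm, sum_congr rfl e1, ← sum_div, sum_sub_distrib, hs0, sum_const, nsmul_eq_mul,
      sub_zero, mul_div_cancel_left₀ _ hU, hs]
    ring
  · simp only [mul_add, sum_add_distrib, mul_sum]
    have e1 : ∑ u ∈ U, ∑ u' ∈ U, h u w * (h u' w * ((s u - s u') / (U.card * k u u'))) =
        -∑ u ∈ U, ∑ u' ∈ U, h u w * (h u' w * ((s u - s u') / (U.card * k u u'))) := by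
      conv_lhs => rw [sum_comm]
      simp only [← sum_neg_distrib]
      refine sum_congr rfl fun u _ => sum_congr rfl fun u' _ => ?_
      rw [hks u' u]
      ring
    rw [hyc w hw]
    linarith

variable {V : Type} [Fintype V] {A : Amb V} {Vs : V → Prop} {H : V → V → Prop} {D η : ℝ}

theorem lost (ok : A.Ok) (hD : 0 < D) (hη : η ^ 2 ≤ 1 / 10 ^ 6) (nt : A.Nt Vs D (10 * η ^ 2))
    (st : St A.G Vs (fun x z => Vs z ∧ ¬ H x z) (30 * η ^ 2 * D)) {x : V} (hx : Vs x)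
    {j : Fin 3} (hj : j ≠ A.pt x) :
    cnt (fun z => (Vs z ∧ A.pt z = j ∧ A.G x z) ∧ ¬ H x z) ≤ A.g (A.pt x) * D / 1000 := by
  obtain ⟨i, hi1, hi2⟩ := exists_third hj
  have e := sum_cnt_comm (fun z => (Vs z ∧ A.pt z = j ∧ A.G x z) ∧ ¬ H x z)
    (fun y => Vs y ∧ A.pt y = i ∧ A.G x y) fun z y => A.G y z
  have e1 := le_sum_fs (P := fun z => (Vs z ∧ A.pt z = j ∧ A.G x z) ∧ ¬ H x z)
    (f := fun z => cnt fun y => (Vs y ∧ A.pt y = i ∧ A.G x y) ∧ A.G y z) (b := D / 2)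
    fun z ⟨⟨h1, h2, h3⟩, _⟩ => by
      have e2 := (abs_le.1 (nt.fam.f2 x z i hx h1 h3 hi2 (h2 ▸ hi1))).1
      refine le_trans (by nlinarith) ((cnt_mono (P := fun y => Vs y ∧ A.G x y ∧ A.G z y) ?_))
      rintro y ⟨h5, h6, h7⟩
      exact ⟨⟨h5, third_unique hj (h2 ▸ (ok.tp _ _ h7).symm) (ok.tp _ _ h6).symm hi1 hi2, h6⟩,
        ok.sy _ _ h7⟩
  have e3 := sum_fs_le (P := fun y => Vs y ∧ A.pt y = i ∧ A.G x y)
    (f := fun y => cnt fun z => ((Vs z ∧ A.pt z = j ∧ A.G x z) ∧ ¬ H x z) ∧ A.G y z)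
    (b := 30 * η ^ 2 * D) fun y ⟨h1, _, h3⟩ =>
      (cnt_mono fun z ⟨⟨⟨h4, _, h5⟩, h6⟩, h7⟩ => ⟨h5, h7, h4, h6⟩).trans (st x y hx h1 h3)
  have e4 := (abs_le.1 (nt.fam.f1 x i hx hi2)).2
  have hg := ok.one_le_g (A.pt x)
  rw [e] at e1
  have e5 := e1.trans e3
  generalize cnt (fun z => (Vs z ∧ A.pt z = j ∧ A.G x z) ∧ ¬ H x z) = l at e5 ⊢
  have e6 : cnt (fun y => Vs y ∧ A.pt y = i ∧ A.G x y) ≤ 2 * (A.g (A.pt x) * D) := by
    have : 0 < A.g (A.pt x) * D := by positivity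
    nlinarith
  have e7 : cnt (fun y => Vs y ∧ A.pt y = i ∧ A.G x y) * (30 * η ^ 2 * D) ≤
      2 * (A.g (A.pt x) * D) * (30 / 10 ^ 6 * D) :=
    mul_le_mul e6 (by nlinarith) (by positivity) (by positivity)
  refine le_of_mul_le_mul_right ((e5.trans e7).trans ?_) (half_pos hD)
  have : 0 < A.g (A.pt x) * D * D := by positivity
  nlinarith

theorem deg_eq (hH : ∀ x y, H x y → A.G x y ∧ Vs x ∧ Vs y) (x : V) (j : Fin 3) :
    deg A.pt H x j = ∑ y ∈ fs fun y => Vs y ∧ A.pt y = j, ind (H x y) := by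
  rw [← cnt_and_eq_sum]
  exact cnt_congr fun y => ⟨fun h => ⟨⟨(hH _ _ h.2).2.2, h.1⟩, h.2⟩, fun h => ⟨h.1.2, h.2⟩⟩

theorem deg_bd (ok : A.Ok) (hD : 0 < D) (hη : η ^ 2 ≤ 1 / 10 ^ 6) (nt : A.Nt Vs D (10 * η ^ 2))
    (hH : ∀ x y, H x y → A.G x y ∧ Vs x ∧ Vs y)
    (st : St A.G Vs (fun x z => Vs z ∧ ¬ H x z) (30 * η ^ 2 * D)) {x : V} (hx : Vs x)
    {j : Fin 3} (hj : j ≠ A.pt x) :
    0.9 * (A.g (A.pt x) * D) ≤ ∑ y ∈ fs fun y => Vs y ∧ A.pt y = j, ind (H x y) ∧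
      ∑ y ∈ fs fun y => Vs y ∧ A.pt y = j, ind (H x y) ≤ 1.1 * (A.g (A.pt x) * D) := by
  have e1 := lost ok hD hη nt st hx hj
  have e2 := abs_le.1 (nt.fam.f1 x j hx hj)
  have e3 := cnt_split (fun z => Vs z ∧ A.pt z = j ∧ A.G x z) (H x)
  have e4 : cnt (fun z => (Vs z ∧ A.pt z = j ∧ A.G x z) ∧ H x z) =
      ∑ y ∈ fs fun y => Vs y ∧ A.pt y = j, ind (H x y) := by
    rw [← cnt_and_eq_sum]
    exact cnt_congr fun y => ⟨fun h => ⟨⟨h.1.1, h.1.2.1⟩, h.2⟩,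
      fun h => ⟨⟨h.1.1, h.1.2, (hH _ _ h.2).1⟩, h.2⟩⟩
  have e5 := cnt_nonneg fun z => (Vs z ∧ A.pt z = j ∧ A.G x z) ∧ ¬ H x z
  have hg := ok.one_le_g (A.pt x)
  have : 0 < A.g (A.pt x) * D := by positivity
  rw [← e4]
  constructor <;> nlinarith [e2.1, e2.2]

theorem cod_bd (ok : A.Ok) (hD : 0 < D) (hη : η ^ 2 ≤ 1 / 10 ^ 6) (nt : A.Nt Vs D (10 * η ^ 2))
    (st : St A.G Vs (fun x z => Vs z ∧ ¬ H x z) (30 * η ^ 2 * D)) {u u' : V} (hu : Vs u)
    (hu0 : A.pt u = 0) (hu' : Vs u') (hu0' : A.pt u' = 0) :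
    0.9 * (A.g 0 * D) ≤ ∑ w ∈ fs fun y => Vs y ∧ A.pt y = 1, ind (H u w) * ind (H u' w) := by
  have e1 := lost ok hD hη nt st hu (j := 1) (by rw [hu0]; decide)
  have e2 := lost ok hD hη nt st hu' (j := 1) (by rw [hu0']; decide)
  rw [hu0] at e1
  rw [hu0'] at e2
  have e3 : |cnt (fun z => Vs z ∧ A.pt z = 1) - D * A.g 0| ≤ 10 * η ^ 2 * D * A.g 0 :=
    nt.fam.f0 1
  have e4 := cnt_le_add3 (P := fun z => Vs z ∧ A.pt z = 1)
    (Q := fun z => (Vs z ∧ A.pt z = 1) ∧ H u z ∧ H u' z)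
    (R := fun z => (Vs z ∧ A.pt z = 1 ∧ A.G u z) ∧ ¬ H u z)
    (T := fun z => (Vs z ∧ A.pt z = 1 ∧ A.G u' z) ∧ ¬ H u' z) fun z hz => by
      have := ok.cpl u z hu0 hz.2
      have := ok.cpl u' z hu0' hz.2
      tauto
  rw [cnt_and_eq_sum (fun z => Vs z ∧ A.pt z = 1)] at e4
  simp only [ind_and] at e4
  have hg := ok.one_le_g 0
  have : 0 < A.g 0 * D := by positivity
  nlinarith [(abs_le.1 e3).1]

end LemEP

open LemEP in
theorem lemE : S_LemE := by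
  classical
  intro V _ A Vs H D η δ ok hD hη nt sy hH st hδ him
  have hs : ∀ x y, ind (H x y) = ind (H y x) := fun x y => ind_congr ⟨sy x y, sy y x⟩
  have hdeg := fun {x : V} (hx : Vs x) {j : Fin 3} (hj : j ≠ A.pt x) =>
    deg_bd ok hD hη nt hH st hx hj
  simp only [imb, deg_eq hH] at him
  have hcod := fun {u u' : V} (hu : Vs u) (hu0 : A.pt u = 0) (hu' : Vs u') (hu0' : A.pt u' = 0) =>
    cod_bd ok hD hη nt st hu hu0 hu' hu0'
  have mU : ∀ {x}, x ∈ fs (fun y => Vs y ∧ A.pt y = 0) → Vs x ∧ A.pt x = 0 := fun h => by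
    simpa using h
  have mW : ∀ {x}, x ∈ fs (fun y => Vs y ∧ A.pt y = 1) → Vs x ∧ A.pt x = 1 := fun h => by
    simpa using h
  have mL : ∀ {x}, x ∈ fs (fun y => Vs y ∧ A.pt y = 2) → Vs x ∧ A.pt x = 2 := fun h => by
    simpa using h
  have iU : ∀ {x}, x ∈ fs (fun y => Vs y ∧ A.pt y = 0) →
      |∑ y ∈ fs fun y => Vs y ∧ A.pt y = 1, ind (H x y) -
        ∑ y ∈ fs fun y => Vs y ∧ A.pt y = 2, ind (H x y)| ≤ δ * A.g 0 * D := fun {x} h => by
    have := him x (mU h).1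
    rwa [(mU h).2] at this
  have iW : ∀ {x}, x ∈ fs (fun y => Vs y ∧ A.pt y = 1) →
      |∑ y ∈ fs fun y => Vs y ∧ A.pt y = 0, ind (H y x) -
        ∑ y ∈ fs fun y => Vs y ∧ A.pt y = 2, ind (H x y)| ≤ δ * A.g 1 * D := fun {x} h => by
    have := him x (mW h).1
    rw [(mW h).2, abs_sub_comm] at this
    simp only [hs _ x]
    exact this
  have iL : ∀ {x}, x ∈ fs (fun y => Vs y ∧ A.pt y = 2) →
      |∑ y ∈ fs fun y => Vs y ∧ A.pt y = 0, ind (H y x) -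
        ∑ y ∈ fs fun y => Vs y ∧ A.pt y = 1, ind (H y x)| ≤ δ * A.g 2 * D := fun {x} h => by
    have := him x (mL h).1
    rw [(mL h).2] at this
    simp only [hs _ x]
    exact this
  have dUW := fun {x} (h : x ∈ fs (fun y => Vs y ∧ A.pt y = 0)) =>
    (hdeg (mU h).1 (j := 1) (by rw [(mU h).2]; decide)).2.trans_eq (by rw [(mU h).2])
  have dUL := fun {x} (h : x ∈ fs (fun y => Vs y ∧ A.pt y = 0)) =>
    (hdeg (mU h).1 (j := 2) (by rw [(mU h).2]; decide)).2.trans_eq (by rw [(mU h).2])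
  have dWU : ∀ {x}, x ∈ fs (fun y => Vs y ∧ A.pt y = 1) → 0.9 * (A.g 1 * D) ≤
      ∑ y ∈ fs fun y => Vs y ∧ A.pt y = 0, ind (H y x) := fun {x} h => by
    have := (hdeg (mW h).1 (j := 0) (by rw [(mW h).2]; decide)).1
    rw [(mW h).2] at this
    simpa only [hs _ x] using this
  have dLU : ∀ {x}, x ∈ fs (fun y => Vs y ∧ A.pt y = 2) → 0.9 * (A.g 2 * D) ≤
      ∑ y ∈ fs fun y => Vs y ∧ A.pt y = 0, ind (H y x) := fun {x} h => by
    have := (hdeg (mL h).1 (j := 0) (by rw [(mL h).2]; decide)).1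
    rw [(mL h).2] at this
    simpa only [hs _ x] using this
  have hcod' : ∀ u ∈ fs (fun y => Vs y ∧ A.pt y = 0), ∀ u' ∈ fs (fun y => Vs y ∧ A.pt y = 0),
      0.9 * (A.g 0 * D) ≤ ∑ w ∈ fs fun y => Vs y ∧ A.pt y = 1, ind (H u w) * ind (H u' w) :=
    fun u hu u' hu' => hcod (mU hu).1 (mU hu).2 (mU hu').1 (mU hu').2
  clear him hdeg hcod mU mW mL
  generalize fs (fun y => Vs y ∧ A.pt y = 0) = U at *
  generalize fs (fun y => Vs y ∧ A.pt y = 1) = W at *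
  generalize fs (fun y => Vs y ∧ A.pt y = 2) = L at *
  have g0 : 0 < A.g 0 * D := mul_pos (one_pos.trans_le (ok.one_le_g 0)) hD
  have g1 : 0 < A.g 1 * D := mul_pos (one_pos.trans_le (ok.one_le_g 1)) hD
  have g2 : 0 < A.g 2 * D := mul_pos (one_pos.trans_le (ok.one_le_g 2)) hD
  obtain ⟨y, hy⟩ : ∃ y : V → ℝ, ∀ B, y B =
      (∑ u ∈ U, ind (H u B) - ∑ w ∈ W, ind (H w B)) / ∑ u ∈ U, ind (H u B) := ⟨_, fun _ => rfl⟩
  have hy1 : ∀ B ∈ L, |y B| ≤ 2 * δ := fun B hB => by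
    have e : 0 < ∑ u ∈ U, ind (H u B) := lt_of_lt_of_le (by positivity) (dLU hB)
    rw [hy, abs_div, abs_of_pos e, div_le_iff₀ e]
    nlinarith [iL hB, dLU hB, mul_nonneg hδ g2.le]
  have hy2 : ∀ B ∈ L, ∑ u ∈ U, (ind (H u B) - ind (H u B) * y B) = ∑ w ∈ W, ind (H w B) :=
    fun B hB => by
      have e : 0 < ∑ u ∈ U, ind (H u B) := lt_of_lt_of_le (by positivity) (dLU hB)
      rw [sum_sub_distrib, ← sum_mul, hy, mul_div_cancel₀ _ e.ne', sub_sub_cancel]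
  obtain ⟨x, hx1, hx2, hx3⟩ := alg U W (fun u w => ind (H u w)) (fun _ _ => ind_nonneg _)
    (fun _ _ => ind_le_one _)
    (fun u => ∑ w ∈ W, ind (H u w) - ∑ B ∈ L, (ind (H u B) - ind (H u B) * y B))
    (fun w => ∑ u ∈ U, ind (H u w) - ∑ B ∈ L, ind (H w B)) (a := 2 * δ) (b := 4 * δ)
    (m := 0.9 * (A.g 0 * D)) (by positivity) (by positivity)
    (by
      rw [sum_sub_distrib, sum_sub_distrib, sum_comm, sum_comm (s := U) (t := L),
        sum_congr rfl hy2, sum_comm (s := L)])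
    (fun w hw => lt_of_lt_of_le (by positivity) (dWU hw))
    (fun w hw => by nlinarith [iW hw, dWU hw, mul_nonneg hδ g1.le]) hcod'
    (fun u hu => by
      have e1 : |∑ B ∈ L, ind (H u B) * y B| ≤ ∑ B ∈ L, ind (H u B) * (2 * δ) :=
        (abs_sum_le_sum_abs _ _).trans (sum_le_sum fun B hB => by
          rw [abs_mul, abs_of_nonneg (ind_nonneg _)]
          exact mul_le_mul_of_nonneg_left (hy1 B hB) (ind_nonneg _))
      rw [← sum_mul] at e1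
      rw [sum_sub_distrib, ← sub_add]
      refine (abs_add_le _ _).trans ?_
      nlinarith [iU hu, dUL hu, mul_nonneg hδ g0.le])
    (fun u hu => by linarith [dUW hu])
  have hb : ∀ (P : Prop) (t : ℝ), |t| ≤ 40 * δ → |ind P * t| ≤ 40 * δ := fun P t ht => by
    rw [abs_mul, abs_of_nonneg (ind_nonneg _)]
    exact (mul_le_of_le_one_left (abs_nonneg _) (ind_le_one _)).trans ht
  refine ⟨fun u w => if u ∈ U ∧ w ∈ W then ind (H u w) * x u w else 0,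
    fun u B => if B ∈ L then ind (H u B) * y B else 0, fun u w => ?_, fun u B => ?_,
    fun u _ w _ h => ?_, fun u _ B _ h => ?_, fun w _ B _ h => ind_neg h, fun u hu => ?_,
    fun w hw => ?_, fun B hB => ?_⟩
  · dsimp only
    split_ifs with h
    · exact hb _ _ ((hx1 u h.1 w h.2).trans (by linarith))
    · rw [abs_zero]; positivity
  · dsimp only
    split_ifs with h
    · exact hb _ _ ((hy1 B h).trans (by linarith))
    · rw [abs_zero]; positivity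
  · simp [ind_neg h]
  · simp [ind_neg h]
  · rw [sum_congr rfl (g := fun w => ind (H u w) - ind (H u w) * x u w)
      fun w hw => by simp [hu, hw], sum_sub_distrib, hx2 u hu, sub_sub_cancel]
    exact sum_congr rfl fun B hB => by simp [hB]
  · rw [sum_congr rfl (g := fun u => ind (H u w) - ind (H u w) * x u w)
      fun u hu => by simp [hu, hw], sum_sub_distrib, hx3 w hw, sub_sub_cancel]
  · simp only [if_pos hB]
    exact hy2 B hB

end Pool.Agent.P.MP_77d020_co.L
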