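import Pool.Agent.P.MP_77d020_co.L.Prob

/-! The final cell and the induction over the levels. -/

namespace Pool.Agent.P.MP_77d020_co.L

open Finset

namespace MainP

variable {V : Type} [Fintype V] {pt : V → Fin 3} {S C : V → Prop}

omit [Fintype V] in
theorem Ab_sy : Sy (Ab pt S C) := fun _ _ h => h.symm

theorem imb_Ab_out (hS : ∀ u, S u → pt u = 0)
    (he : cnt (fun x => C x ∧ pt x = 1) = cnt (fun x => C x ∧ pt x = 2)) {x : V} (hx : ¬ C x) :
    imb pt (Ab pt S C) x = 0 := by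
  by_cases h : S x
  · unfold imb deg
    rw [hS x h, sub_eq_zero]
    refine ((cnt_congr fun y => ?_).trans he).trans (cnt_congr fun y => ?_)
    · simp only [Ab, h, hx, zero_add]
      constructor
      · rintro ⟨a, b⟩; simp_all
      · rintro ⟨a, b⟩; simp [a, b]
    · simp only [Ab, h, hx, zero_add]
      constructor
      · rintro ⟨a, b⟩; simp [a, b]
      · rintro ⟨a, b⟩; simp_all
  · exact imb_zero fun y a => by rcases a with a | a; exacts [h a.1, hx a.2.1]

theorem deg_Ab_in (hS : ∀ u, S u → pt u = 0) {x : V} (hx : C x) (h0 : pt x ≠ 0) (j : Fin 3) :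
    deg pt (Ab pt S C) x j = if j = 0 then cnt S else 0 := by
  have h : ¬ S x := fun a => h0 (hS x a)
  unfold deg
  split_ifs with hj
  · refine cnt_congr fun y => ?_
    simp only [Ab, h, hx, hj]
    exact ⟨fun a => by simpa [h0] using a.2, fun a => ⟨hS y a, by simp [a, h0]⟩⟩
  · refine cnt_zero fun y a => ?_
    rcases a.2 with b | b
    · exact h b.1
    · exact hj (a.1.symm.trans (hS y b.1))

end MainP

open MainP in
theorem fin (h1 : S_Step4) (h2 : S_Konig) : S_Fin := by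
  intro V _ A C S Q H r fp hS sy hH st bal
  have ok := fp.ok
  have tpH : Tp A.pt H := ok.tp.mono fun x y a => (hH x y a).1
  have r0 := fp.r0
  have pl := fp.pl
  have pg := ok.pg
  have e1 : A.p * (r * A.g 0) = A.p * A.g 0 * r := by ring
  have row : ∀ u, C u → A.pt u = 0 → imb A.pt H u = 0 := by
    intro u hu h0
    have := bal u
    rwa [imb_zero (H := Ab A.pt S C) fun y a => by
      rcases a with a | a
      exacts [(hS u a.1).2 hu, a.2.2 h0], add_zero] at this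
  obtain ⟨Us, usy, usub, udec, -⟩ := h1 V A.pt C (fun x => C x ∧ A.pt x = 0)
    (fun x y => H x y ∧ (A.pt x = 0 ∨ A.pt y = 0)) (fun x y => H x y ∧ A.pt x ≠ 0 ∧ A.pt y ≠ 0)
    (fun _ => A.p) (fun _ => r * A.g 0) r (r / 10 ^ 4) 0 (r / 100) (fun _ _ _ => False)
    (fun x y a => ⟨sy _ _ a.1, a.2.symm⟩) (fun x y a => ⟨sy _ _ a.1, a.2.2, a.2.1⟩)
    (tpH.mono fun _ _ a => a.1) (tpH.mono fun _ _ a => a.1)
    (fun x y a => by
      have b := hH x y a.1
      have c := tpH x y a.1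
      refine ⟨b.2.1, fun d e => c (d.2.trans e.2.symm), fun d => ⟨b.2.1, ?_⟩⟩
      exact a.2.resolve_right fun e => d ⟨b.2.2, e⟩)
    (fun x y a b => a.2.1 b.2)
    (fun x hx => (imb_congr fun y => by simp [hx.2]).trans (row x hx.1 hx.2))
    (fun _ => ok.p0) (fun _ => by rw [e1]; nlinarith)
    (fun x j hx => by
      have k2 : deg A.pt H x 2 ≤ 1.1 * (r * A.g 0) :=
        (cnt_mono fun y a => ⟨(hH _ _ a.2).2.2, a.1, (hH _ _ a.2).1⟩).trans (fp.f2 x hx.1 hx.2)
      have k1 := row x hx.1 hx.2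
      unfold imb at k1
      rw [hx.2] at k1
      have k0 := deg_self tpH x
      rw [hx.2] at k0
      have k3 : 0 ≤ deg A.pt H x 2 := cnt_nonneg _
      refine le_trans (b := deg A.pt H x j) (cnt_mono fun y a => ⟨a.1, a.2.1⟩) ?_
      rcases fin3 j with rfl | rfl | rfl
      · linarith
      · simp only [zero_add] at k1; linarith
      · exact k2)
    (fun x z hx hz => by
      have b := hH x z hz.1
      have hz0 : A.pt z ≠ 0 := fun e => tpH x z hz.1 (hx.2.trans e.symm)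
      constructor
      · have k1 := fp.f3 x z hx.1 hx.2 b.2.2 b.1
        have k2 := st x z hx.1 b.2.2 b.1
        have k3 := st z x b.2.2 hx.1 (ok.sy _ _ b.1)
        have k4 := cnt_le_add3 (P := fun z' => Q x z' ∧ Q z z')
          (Q := fun z' => (H x z' ∧ (A.pt x = 0 ∨ A.pt z' = 0)) ∧ H z z' ∧ A.pt z ≠ 0 ∧ A.pt z' ≠ 0)
          (R := fun z' => A.G x z' ∧ A.G z z' ∧ Q x z' ∧ ¬ H x z')
          (T := fun z' => A.G z z' ∧ A.G x z' ∧ Q z z' ∧ ¬ H z z') fun z' a => by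
            have g1 := (fp.qG _ _ a.1).1
            have g2 := (fp.qG _ _ a.2).1
            by_cases c1 : H x z'
            · by_cases c2 : H z z'
              · exact Or.inl ⟨⟨c1, Or.inl hx.2⟩, c2, hz0,
                  fun e => ok.tp x z' g1 (hx.2.trans e.symm)⟩
              · exact Or.inr (Or.inr ⟨g2, g1, a.2, c2⟩)
            · exact Or.inr (Or.inl ⟨g1, g2, a.1, c1⟩)
        rw [e1]
        nlinarith
      · exact (cnt_mono fun z' a => ⟨(hH _ _ a.1.1).2.2, (hH _ _ a.1.1).1, (hH _ _ a.2.1).1⟩).trans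
          (fp.f3' x z hx.1 hx.2 b.2.2 b.1))
    (fun x hx X Y hX hY => by
      have hX' : ∀ z ∈ X, C z ∧ A.pt z = 1 := fun z hz =>
        ⟨(hH _ _ (hX z hz).1.1).2.2, by rw [(hX z hz).2, hx.2]; rfl⟩
      have hY' : ∀ z ∈ Y, C z ∧ A.pt z = 2 := fun z hz =>
        ⟨(hH _ _ (hY z hz).1.1).2.2, by rw [(hY z hz).2, hx.2]; rfl⟩
      have k1 := (abs_le.1 (fp.f4.disc (by linarith) hX' hY')).2
      have k2 : ∑ x ∈ X, ∑ y ∈ Y, A.am x y = eb A.G X Y - A.p * X.card * Y.card := by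
        rw [sum_congr rfl (g := fun x => ∑ y ∈ Y, ind (A.G x y) - Y.card * A.p) fun z hz => by
          simp [Amb.am, (hX' z hz).2, sum_sub_distrib], sum_sub_distrib]
        simp only [eb, sum_const, nsmul_eq_mul]; ring
      have k3 := eb_mono (H := fun x y => H x y ∧ A.pt x ≠ 0 ∧ A.pt y ≠ 0) (H' := A.G)
        (fun x y a => (hH _ _ a.1).1) X Y
      have k4 : (0 : ℝ) ≤ max (X.card : ℝ) Y.card := by positivity
      have k5 : r / 25 ≤ A.p * (r * A.g 0) / 10 := by rw [e1]; nlinarith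
      nlinarith)
    (fun z z' a => (cnt_mono fun x b => ⟨(hH _ _ b.1.1).2.1,
      b.1.2.resolve_right a.2.1⟩).trans fp.f1)
    (by positivity) le_rfl fp.lg le_rfl r0 le_rfl (fun _ _ _ _ => (cnt_zero fun _ a => a).le)
  have tpU : Tp A.pt fun x y => (H x y ∧ (A.pt x = 0 ∨ A.pt y = 0)) ∨ Us x y :=
    tpH.mono fun x y a => a.elim (fun a => a.1) fun a => (usub _ _ a).1
  have kon := h2 V A.pt S C (fun x y => (H x y ∧ A.pt x ≠ 0 ∧ A.pt y ≠ 0) ∧ ¬ Us x y)
    (fun x y a => ⟨⟨sy _ _ a.1.1, a.1.2.2, a.1.2.1⟩, fun b => a.2 (usy _ _ b)⟩)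
    (tpH.mono fun _ _ a => a.1.1) (fun x y a => ⟨(hH _ _ a.1.1).2.1, a.1.2.1⟩)
    (fun u hu => (hS u hu).1) fun x hx h0 => by
      have k1 := imb_eq_add (pt := A.pt) (G := H)
        (H := fun x y => (H x y ∧ (A.pt x = 0 ∨ A.pt y = 0)) ∨ Us x y)
        (H' := fun x y => (H x y ∧ A.pt x ≠ 0 ∧ A.pt y ≠ 0) ∧ ¬ Us x y) (x := x)
        (fun y => by have := usub x y; tauto) fun y a b => by tauto
      rw [udec.imb tpU, zero_add] at k1
      have k2 := bal x
      rw [k1] at k2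
      unfold imb at k2
      simp only [deg_Ab_in (fun u hu => (hS u hu).1) hx h0] at k2
      have k3 : deg A.pt (fun x y => (H x y ∧ A.pt x ≠ 0 ∧ A.pt y ≠ 0) ∧ ¬ Us x y) x 0 = 0 :=
        cnt_zero fun y a => a.2.1.2.2 a.1
      have k4 := deg_self (tpH.mono
        (H' := fun x y => (H x y ∧ A.pt x ≠ 0 ∧ A.pt y ≠ 0) ∧ ¬ Us x y) fun _ _ a => a.1.1) x
      have k5 : ∀ Z : V → V → Prop, cnt (Z x) =
          deg A.pt Z x 0 + deg A.pt Z x 1 + deg A.pt Z x 2 := fun Z => by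
        rw [cnt_parts A.pt]
        simp only [deg, and_comm]
      rw [k5 fun x y => (H x y ∧ A.pt x ≠ 0 ∧ A.pt y ≠ 0) ∧ ¬ Us x y]
      generalize (fun x y => (H x y ∧ A.pt x ≠ 0 ∧ A.pt y ≠ 0) ∧ ¬ Us x y) = Z at k2 k3 k4
      rcases fin3 (A.pt x) with h | h | h
      · exact (h0 h).elim
      · rw [h] at k2 k4
        simp only [show (1 : Fin 3) + 1 = 2 from rfl, show (1 : Fin 3) + 2 = 0 from rfl,
          show (2 : Fin 3) ≠ 0 by decide, if_true, if_false] at k2
        linarith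
      · rw [h] at k2 k4
        simp only [show (2 : Fin 3) + 1 = 0 from rfl, show (2 : Fin 3) + 2 = 1 from rfl,
          show (1 : Fin 3) ≠ 0 by decide, if_true, if_false] at k2
        linarith
  refine (udec.union kon fun x y a b => ?_).congr fun x y => ?_
  · rcases b with b | b
    · have := usub x y; tauto
    · have c := hH x y (a.elim (fun a => a.1) fun a => (usub _ _ a).1)
      rcases b with b | b
      exacts [(hS _ b.1).2 c.2.1, (hS _ b.1).2 c.2.2]
  · have := usub x y; tauto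

open MainP in
theorem main (h1 : S_Res) (h2 : S_CD) (h3 : S_Fin) : S_Main := by
  obtain ⟨η1, p1, h1⟩ := h1
  obtain ⟨η2, p2, h2⟩ := h2
  refine ⟨min (min η1 η2) (1 / 10), by positivity, ?_⟩
  intro V _ A l Vt Qt S a π D ε η vx bal
  have ok := vx.fp.ok
  have chain : ∀ j i, i ≤ j → j ≤ l + 2 → ∀ x, Vt j x → Vt i x := by
    intro j
    induction j with
    | zero => intro i hi _ x hx; exact Nat.le_zero.1 hi ▸ hx
    | succ j ih =>
      intro i hi hj x hx
      rcases hi.eq_or_lt with rfl | hi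
      · exact hx
      refine ih i (by omega) (by omega) x ?_
      rcases (show j ≤ l ∨ j = l + 1 by omega) with h | rfl
      · exact (vx.lp j h).s1s x hx
      · exact (vx.vend x hx).elim
  have hS0 : ∀ u, S u → A.pt u = 0 := fun u hu => (vx.s0 u hu).1
  have hSV : ∀ i, 1 ≤ i → i ≤ l + 2 → ∀ u, S u → ¬ Vt i u := fun i a b u hu c =>
    (vx.s0 u hu).2 (chain i 1 a b u c)
  let Inv : ℕ → (V → V → Prop) → (V → V → Prop) → Prop := fun i R H =>
    Sy H ∧ (∀ x y, H x y → A.G x y ∧ Vt i x ∧ Vt i y) ∧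
      (∀ x y, A.G x y → Vt (i + 1) x → Vt (i + 1) y → H x y) ∧ (∀ x y, R x y → H x y) ∧
      St A.G (Vt i) (fun x z => Vt i z ∧ ¬ H x z) (15 * η i ^ 2 * D i) ∧
      (∀ x, imb A.pt H x + imb A.pt (Ab A.pt S (Vt (l + 1))) x = 0) ∧
      ∀ x y, H x y → ¬ Ab A.pt S (Vt (l + 1)) x y
  have step : ∀ i ≤ l, ∀ R' : V → V → Prop, Sy R' → (∀ x y, R' x y → Vt (i + 2) x ∨ Vt (i + 2) y) →
      (∀ x y j, Vt i x → ¬ Vt (i + 1) x → Vt (i + 1) y → A.G x y → j ≠ A.pt x → j ≠ A.pt y →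
        cnt (fun z => Vt (i + 1) z ∧ ¬ Vt (i + 2) z ∧ A.G x z ∧ A.G y z ∧ R' y z) ≤ a i j / 4) →
      ∃ R, A.RP (Vt (i - 1)) (Vt i) (Vt (i + 1)) (Vt (i + 2)) (Qt i) R R' (π i) (D i) (ε i) ∧
        ∀ H, Inv i R H → ∃ H' : V → V → Prop, Sy H' ∧
          (∀ x y, H' x y → H x y ∧ Vt (i + 1) x ∧ Vt (i + 1) y) ∧
          (∀ x y, Qt i x y → Vt (i + 2) x → Vt (i + 2) y → H' x y) ∧
          (∀ x y, Qt i x y → R' x y → H' x y) ∧
          St A.G (Vt (i + 1)) (fun x z => Qt i x z ∧ ¬ H' x z) (ε i ^ 2 * D i) ∧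
          (∀ x, imb A.pt H' x + imb A.pt (Ab A.pt S (Vt (l + 1))) x = 0) ∧
          (Dec (fun x y => H' x y ∨ Ab A.pt S (Vt (l + 1)) x y) →
            Dec fun x y => H x y ∨ Ab A.pt S (Vt (l + 1)) x y) := by
    intro i hi R' sy' hR' hst
    have lp := vx.lp i hi
    have he := vx.eta i hi
    obtain ⟨R, rp⟩ := h1 V A _ _ _ _ _ R' _ _ _ _ _ lp
      (he.trans ((min_le_left _ _).trans (min_le_left _ _))) hst
    refine ⟨R, rp, fun H ⟨i1, i2, i3, i4, i5, i6, i7⟩ => ?_⟩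
    obtain ⟨H', k1, k2, k3, k4, k5, k6⟩ := h2 V A _ _ _ _ _ R R' H _ _ _ _ _ lp
      (he.trans ((min_le_left _ _).trans (min_le_right _ _))) rp sy' hR' i1 i2
      (fun x y h => i3 x y (lp.qG x y h).1 (lp.qG x y h).2.1 (lp.qG x y h).2.2) i4 i5
      (fun x hx => by
        have := vx.ab i hi x hx
        rwa [show imb A.pt H x - imb A.pt (Qt i) x =
          -(imb A.pt (Ab A.pt S (Vt (l + 1))) x + imb A.pt (Qt i) x) by linarith [i6 x], abs_neg])
      (fun x _ hx => by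
        have := i6 x
        rwa [imb_Ab_out hS0 vx.eq fun c => hx (chain _ _ (by omega) (by omega) x c),
          add_zero] at this)
    refine ⟨H', k1, k2, k4, k5, k6, fun x => ?_, fun d => ?_⟩
    · have e1 := k3.imb (ok.tp.mono fun x y a => (i2 x y a.1).1) x
      rw [imb_sub fun y a => (k2 x y a).1] at e1
      linarith [i6 x]
    · refine (k3.union d fun x y a b => ?_).congr fun x y => ?_
      · exact b.elim a.2 (i7 x y a.1)
      · have := k2 x y; tauto
  have key : ∀ n i, i + n = l → ∃ R R', A.RP (Vt (i - 1)) (Vt i) (Vt (i + 1)) (Vt (i + 2)) (Qt i)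
      R R' (π i) (D i) (ε i) ∧
      ∀ H, Inv i R H → Dec fun x y => H x y ∨ Ab A.pt S (Vt (l + 1)) x y := by
    intro n
    induction n with
    | zero =>
      intro i hi
      obtain rfl : i = l := hi
      have lp := vx.lp i le_rfl
      have hD : 0 < ε i * D i := by linarith [vx.fp.r0]
      obtain ⟨R, rp, h⟩ := step i le_rfl (fun _ _ => False) (fun _ _ a => a) (fun _ _ a => a.elim)
        fun x y j _ _ _ _ _ _ => by
          rw [cnt_zero fun z a => a.2.2.2.2]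
          linarith [lp.al j, div_pos hD (show (0 : ℝ) < 10 ^ 6 by norm_num)]
      refine ⟨R, _, rp, fun H hH => ?_⟩
      obtain ⟨H', k1, k2, -, -, k5, k6, k7⟩ := h H hH
      refine k7 (h3 V A _ S _ H' _ vx.fp
        (fun u hu => ⟨hS0 u hu, hSV _ (by omega) (by omega) u hu⟩) k1
        (fun x y a => ⟨(hH.2.1 x y (k2 x y a).1).1, (k2 x y a).2⟩)
        (k5.mono (fun _ a => a) (fun _ _ _ _ a => a) ?_) k6)
      have e1 := (vx.eta i le_rfl).trans (min_le_right _ _)
      have e2 : ε i ≤ 1 / 40 := by nlinarith [lp.eh, lp.h0]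
      nlinarith
    | succ n ih =>
      intro i hi
      have hil : i < l := by omega
      obtain ⟨R', R'', rp', h'⟩ := ih (i + 1) (by omega)
      obtain ⟨R, rp, h⟩ := step i hil.le R' rp'.sy
        (fun x y a => (rp'.sub x y a).2.elim (fun b => Or.inr b.2.2.1) fun b => Or.inl b.2.2.1)
        fun x y j hx _ _ hxy _ _ => by
          have e1 := vx.k2 i hil j
          have lp := vx.lp (i + 1) hil
          by_cases hy : Vt (i + 2) y
          · have := rp'.r7 x y hx hy hxy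
            refine ((cnt_mono fun z a => ⟨a.2.2.1, a.2.2.2⟩).trans this).trans (by linarith)
          · rw [cnt_zero]
            · have : 0 < D (i + 1) := (pos_iff_pos_of_mul_pos
                (zero_lt_one.trans_le lp.dl)).1 (pow_pos lp.e0 _)
              linarith
            · intro z a
              rcases (rp'.sub y z a.2.2.2.2).2 with b | b
              exacts [a.2.1 b.2.2.1, hy b.2.2.1]
      refine ⟨R, _, rp, fun H hH => ?_⟩
      obtain ⟨H', k1, k2, k3, k4, k5, k6, k7⟩ := h H hH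
      have c21 := (vx.lp i hil.le).s21
      refine k7 (h' H' ⟨k1, fun x y a => ⟨(hH.2.1 x y (k2 x y a).1).1, (k2 x y a).2⟩,
        fun x y a b c => k3 x y ((vx.qn i hil x y).2 ⟨a, c21 x b, c21 y c⟩) b c,
        fun x y a => k4 x y ((vx.qn i hil x y).2 ⟨(rp'.sub x y a).1, ?_⟩) a,
        k5.mono (fun _ a => a) (fun x z hx g a => ⟨(vx.qn i hil x z).2 ⟨g, hx, a.1⟩, a.2⟩)
          (vx.k1 i hil), k6, fun x y a => hH.2.2.2.2.2.2 x y (k2 x y a).1⟩)
      rcases (rp'.sub x y a).2 with b | b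
      exacts [⟨b.1, c21 y b.2.2.1⟩, ⟨c21 x b.2.2.1, b.1⟩]
  obtain ⟨R, R', rp, h⟩ := key l 0 (zero_add l)
  have abG : ∀ x y, Ab A.pt S (Vt (l + 1)) x y → A.G x y := by
    have : ∀ x y, S x → Vt (l + 1) y → A.pt y ≠ 0 → A.G x y := fun x y a b c => by
      rcases fin3 (A.pt y) with h | h | h
      exacts [(c h).elim, ok.cpl x y (hS0 x a) h, vx.sG x y a b h]
    rintro x y (a | a)
    exacts [this x y a.1 a.2.1 a.2.2, ok.sy _ _ (this y x a.1 a.2.1 a.2.2)]
  have lp := vx.lpos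
  refine (h (fun x y => A.G x y ∧ ¬ Ab A.pt S (Vt (l + 1)) x y)
    ⟨fun x y a => ⟨ok.sy _ _ a.1, fun b => a.2 (Ab_sy _ _ b)⟩,
      fun x y a => ⟨a.1, vx.v0 x, vx.v0 y⟩, fun x y a b c => ⟨a, ?_⟩,
      fun x y a => ⟨(rp.sub x y a).1, ?_⟩,
      vx.st.mono (fun _ _ => trivial) (fun x z _ g a => not_not.1 fun b => a.2 ⟨g, b⟩) le_rfl, fun x => ?_,
      fun x y a => a.2⟩).congr fun x y => ⟨fun a => a.elim (fun a => a.1) (abG x y),
        fun a => (em (Ab A.pt S (Vt (l + 1)) x y)).symm.imp_left fun b => ⟨a, b⟩⟩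
  · rintro (d | d)
    exacts [(vx.s0 x d.1).2 b, (vx.s0 y d.1).2 c]
  · have c2 := chain (l + 1) 2 (by omega) (by omega)
    rcases (rp.sub x y a).2 with b | b <;> rintro (d | d)
    exacts [b.2.2.2 (c2 y d.2.1), (vx.s0 y d.1).2 b.2.2.1, (vx.s0 x d.1).2 b.2.2.1,
      b.2.2.2 (c2 x d.2.1)]
  · rw [imb_sub (abG x), bal x]; ring

end Pool.Agent.P.MP_77d020_co.L
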