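import Pool.Agent.P.MP_77d020_co.L.MatA

/-! Operator norm of a random sum of rank one matrices by the trace method. -/

namespace Pool.Agent.P.MP_77d020_co.L

open Finset Matrix

namespace MatP

variable {ι κ α : Type} [Fintype ι] [DecidableEq ι] [Fintype κ] [DecidableEq κ] [Fintype α]

theorem upd_nonneg {w : κ → ℝ} (hw : ∀ j, 0 ≤ w j) (j i : κ) : 0 ≤ Function.update w j 0 i := by
  by_cases h : i = j
  · rw [h, Function.update_self]
  · rw [Function.update_of_ne h]; exact hw i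

theorem one_step {q : κ → α → ℝ} {L : α → Prop} {a : κ → ι → ℝ} {ρ t x : ℝ} (hq : IsP q)
    (hρ : 0 ≤ ρ) (ht : 0 ≤ t) (hx : 0 ≤ x) (j : κ) (hl : pl q j L ≤ ρ) (ha : ∑ i, a j i ^ 2 ≤ t)
    (r : ℕ) :
    Ex q (fun ω => ind (L (ω j)) * qf (Mx a (fun j => ind (L (ω j))) x ^ r) (a j)) ≤
      ρ * Ex q (fun ω => qf (Mx a (fun j => ind (L (ω j))) (x + t) ^ r) (a j)) := by
  let g : (κ → α) → ℝ := fun ω =>
    qf (Mx a (Function.update (fun j => ind (L (ω j))) j 0) (x + t) ^ r) (a j)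
  have hps : ∀ (ω : κ → α) (y : ℝ), 0 ≤ y →
      PS (Mx a (Function.update (fun j => ind (L (ω j))) j 0) y) := fun ω y hy =>
    ps_Mx (upd_nonneg (fun _ => ind_nonneg _) j) hy
  have h1 : Ex q (fun ω => ind (L (ω j)) * qf (Mx a (fun j => ind (L (ω j))) x ^ r) (a j)) ≤
      Ex q (fun ω => ind (L (ω j)) * g ω) := by
    refine Ex_mono hq fun ω => ?_
    by_cases h : L (ω j)
    · rw [ind_pos h, one_mul, one_mul, Mx_split j, ind_pos h, one_smul]
      have := up (hps ω x hx) ha r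
      rwa [Mx_shift] at this
    · rw [ind_neg h, zero_mul, zero_mul]
  have h2 : Ex q (fun ω => ind (L (ω j)) * g ω) = pl q j L * Ex q g := by
    rw [Ex_mul_indep hq (S := fun i => i = j) (S' := fun i => i ≠ j)
      (fun ω ω' h => by rw [h j rfl]) ?_ fun i a b => b a]
    · rw [← Pr_coord hq]; rfl
    · intro ω ω' h
      have : Function.update (fun j => ind (L (ω j))) j 0 =
          Function.update (fun j => ind (L (ω' j))) j 0 := by
        funext i
        by_cases hi : i = j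
        · rw [hi, Function.update_self, Function.update_self]
        · rw [Function.update_of_ne hi, Function.update_of_ne hi, h i hi]
      simp only [g, this]
  have h3 : Ex q g ≤ Ex q (fun ω => qf (Mx a (fun j => ind (L (ω j))) (x + t) ^ r) (a j)) := by
    refine Ex_mono hq fun ω => ?_
    rw [Mx_split (w := fun j => ind (L (ω j))) j]
    by_cases h : L (ω j)
    · rw [ind_pos h, one_smul]
      exact low (hps ω _ (add_nonneg hx ht)) _ r
    · rw [ind_neg h, zero_smul, add_zero]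
  have h4 : 0 ≤ Ex q g := Ex_nonneg hq fun ω => (hps ω _ (add_nonneg hx ht)).pow_nonneg r _
  rw [h2] at h1
  exact h1.trans (mul_le_mul hl h3 h4 hρ)

theorem moment {q : κ → α → ℝ} {L : α → Prop} {a : κ → ι → ℝ} {k ρ t : ℝ} (hq : IsP q)
    (hk0 : 0 ≤ k) (hρ : 0 ≤ ρ) (ht : 0 ≤ t) (hl : ∀ j, pl q j L ≤ ρ)
    (ha : ∀ j, ∑ i, a j i ^ 2 ≤ t)
    (hk : ∀ f : ι → ℝ, ∑ j, (∑ i, a j i * f i) ^ 2 ≤ k * ∑ i, f i ^ 2) (r : ℕ) :
    ∀ x : ℝ, 0 ≤ x → Ex q (fun ω => trace (Mx a (fun j => ind (L (ω j))) x ^ r)) ≤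
      Fintype.card ι * (ρ * k + x + t * r) ^ r := by
  induction r with
  | zero => intro x _; simp [Ex_const hq]
  | succ r ih =>
    intro x hx
    simp only [trace_succ]
    rw [Ex_add, Ex_mul_left, Ex_sum]
    have h1 : ∑ j, Ex q (fun ω => ind (L (ω j)) * qf (Mx a (fun j => ind (L (ω j))) x ^ r) (a j)) ≤
        ρ * (k * Ex q (fun ω => trace (Mx a (fun j => ind (L (ω j))) (x + t) ^ r))) := by
      refine (sum_le_sum fun j _ => one_step hq hρ ht hx j (hl j) (ha j) r).trans ?_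
      rw [← mul_sum, ← Ex_sum, ← Ex_mul_left k]
      exact mul_le_mul_of_nonneg_left (Ex_mono hq fun ω =>
        sum_qf_le hk (ps_Mx (fun _ => ind_nonneg _) (add_nonneg hx ht)) r) hρ
    have h2 := ih x hx
    have h3 := ih (x + t) (add_nonneg hx ht)
    have hc : (0 : ℝ) ≤ Fintype.card ι := Nat.cast_nonneg _
    have hr : (0 : ℝ) ≤ r := Nat.cast_nonneg _
    have e : ρ * k + (x + t) + t * r = ρ * k + x + t * ((r + 1 : ℕ) : ℝ) := by push_cast; ring
    rw [e] at h3
    have h4 : (ρ * k + x + t * r) ^ r ≤ (ρ * k + x + t * ((r + 1 : ℕ) : ℝ)) ^ r := by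
      gcongr
      exact Nat.le_succ r
    have h5 : 0 ≤ (ρ * k + x + t * ((r + 1 : ℕ) : ℝ)) ^ r := by positivity
    have h6 : 0 ≤ t * ((r + 1 : ℕ) : ℝ) := by positivity
    rw [pow_succ]
    generalize (ρ * k + x + t * ((r + 1 : ℕ) : ℝ)) ^ r = B at *
    have h7 := mul_le_mul_of_nonneg_left (h2.trans (mul_le_mul_of_nonneg_left h4 hc)) hx
    have h8 := mul_le_mul_of_nonneg_left (mul_le_mul_of_nonneg_left h3 hk0) hρ
    have h9 := mul_nonneg (mul_nonneg hc h5) h6
    nlinarith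

theorem col_le {V : Type} [Fintype V] {A : Amb V} (ok : A.Ok) {Z : V → Prop} {j : Fin 3}
    (hj : j ≠ 2) {b : ℝ} (hb : 0 ≤ b) (h1 : cnt (fun x => Z x ∧ A.pt x = j) ≤ b * A.gz j) {B : V}
    (h2 : cnt (fun x => Z x ∧ A.pt x = j ∧ A.G B x) ≤ b) :
    ∑ x ∈ fs (fun x => Z x ∧ A.pt x = j), A.am x B ^ 2 ≤ 2 * b := by
  have p0 := ok.p0
  have ph := ok.ph
  rcases fin3 j with rfl | rfl | rfl
  · refine (sum_fs_le (b := 1) fun x hx => ?_).trans ?_
    · rw [Amb.am, if_pos hx.2]
      have := ind_nonneg (A.G x B)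
      have := ind_le_one (A.G x B)
      nlinarith
    · have := ok.g1'
      have e : A.gz 0 = A.g 1 := rfl
      rw [e] at h1
      nlinarith
  · have e : A.gz 1 = A.g 0 := rfl
    rw [e] at h1
    refine (sum_le_sum (g := fun x => ind (A.G B x) + A.p ^ 2) fun x hx => ?_).trans ?_
    · have hx' := (mem_fs.1 hx).2
      rw [Amb.am, if_neg (by rw [hx']; decide)]
      by_cases h : A.G x B
      · rw [ind_pos h, ind_pos (ok.sy _ _ h)]; nlinarith
      · rw [ind_neg h]; nlinarith [ind_nonneg (A.G B x)]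
    · rw [sum_add_distrib, ← cnt_and_eq_sum, sum_const, nsmul_eq_mul]
      have h3 : cnt (fun x => (Z x ∧ A.pt x = 1) ∧ A.G B x) ≤ b :=
        (cnt_congr fun x => and_assoc).trans_le h2
      have h4 : ((fs fun x => Z x ∧ A.pt x = 1).card : ℝ) * A.p ^ 2 ≤ b * A.g 0 * A.p ^ 2 :=
        mul_le_mul_of_nonneg_right h1 (sq_nonneg _)
      have h5 := mul_le_mul_of_nonneg_left ok.pg (mul_nonneg hb p0.le)
      nlinarith
  · exact absurd rfl hj

end MatP

open MatP in
theorem mat : S_Mat := by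
  classical
  intro ι κ α _ _ _ q L a k ρ t c n hq hk0 hρ ht hc hl ha hk
  have h := moment hq hk0 hρ ht hl ha hk n 0 le_rfl
  have hc2 : 0 < (c ^ 2) ^ n := by positivity
  have hps : ∀ ω : κ → α, PS (Mx a (fun j => ind (L (ω j))) 0) := fun ω =>
    ps_Mx (fun _ => ind_nonneg _) le_rfl
  refine (Pr_mono hq ?_).trans ((Pr_markov hq (fun ω => (hps ω).trace_nonneg n) hc2).trans ?_)
  · rintro ω ⟨f, hf⟩
    refine (hps ω).le_trace (sq_nonneg c) (f := f) ?_ n
    rwa [qf_Mx, zero_mul, zero_add]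
  · rw [div_pow, ← mul_div_assoc]
    rw [add_zero] at h
    exact div_le_div_of_nonneg_right h hc2.le

open MatP in
theorem oppr (h : S_Mat) : S_OpPr := by
  classical
  intro V α _ _ A q L k ρ c n j hA hq hρ hl hj hc hn hcc
  have ok := hA.ok
  have k0 : 0 ≤ k := by linarith [hA.k1]
  have p0 := ok.p0
  have hb : 0 ≤ 4 * ρ * k := by positivity
  refine Ex_le_of_fix hq (fun x => A.pt x = j) fun x => ?_
  change Pr q (fun y => _) ≤ _
  have eX : ∀ (y : V → α) (i : V), (L (if A.pt i = j then x i else y i) ∧ A.pt i = j) ↔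
      (L (x i) ∧ A.pt i = j) := fun y i =>
    ⟨fun a => ⟨by simpa [a.2] using a.1, a.2⟩, fun a => ⟨by simpa [a.2] using a.1, a.2⟩⟩
  by_cases h1 : cnt (fun i => L (x i) ∧ A.pt i = j) ≤ 4 * ρ * k * A.gz j
  swap
  · rw [Pr_zero hq fun y hy => h1 ((cnt_congr (eX y)).symm.trans_le hy.1)]
    positivity
  let X : Finset V := fs fun i => L (x i) ∧ A.pt i = j
  let Y : V → Prop := fun B => A.pt B = 2 ∧ ∑ i ∈ X, A.am i B ^ 2 ≤ 2 * (4 * ρ * k)
  let a : V → X → ℝ := fun B i => ind (Y B) * A.am i B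
  have hm := h X V α q L a k ρ (2 * (4 * ρ * k)) c n hq k0 hρ (by positivity) hc hl ?_ ?_
  · refine (Pr_mono hq ?_).trans (hm.trans ?_)
    · rintro y ⟨-, h2, h3⟩
      by_contra h4
      push Not at h4
      refine h3 fun f g => ?_
      rw [fs_congr (eX y)]
      change (∑ i ∈ X, _) ^ 2 ≤ c ^ 2 * (∑ i ∈ X, _) * _
      have h5 := h4 fun i => f i
      rw [sum_coe_sort X fun i => f i ^ 2] at h5
      set Z := fs fun B => L (if A.pt B = j then x B else y B) ∧ A.pt B = 2 with hZ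
      have h6 : ∑ B ∈ Z, (∑ i ∈ X, A.am i B * f i) ^ 2 ≤
          ∑ B, ind (L (y B)) * (∑ i : X, a B i * f i) ^ 2 := by
        refine le_trans (sum_le_sum fun B hB => ?_) (sum_le_sum_of_subset_of_nonneg (subset_univ Z)
          fun B _ _ => mul_nonneg (ind_nonneg _) (sq_nonneg _))
        obtain ⟨b1, b2⟩ := mem_fs.1 hB
        have b3 : ¬ A.pt B = j := fun e => hj (e.symm.trans b2)
        have b4 : Y B := ⟨b2, col_le ok hj hb h1 ((cnt_congr fun i => by
          rw [← and_assoc, ← and_assoc, eX y i]).trans_le (h2 B b1 b2))⟩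
        rw [if_neg b3] at b1
        simp only [a, ind_pos b1, ind_pos b4, one_mul]
        rw [sum_coe_sort X fun i => A.am i B * f i]
      rw [sum_comm]
      simp only [← sum_mul]
      exact (sum_mul_sq_le_sq_mul_sq _ _ _).trans
        (mul_le_mul_of_nonneg_right (h6.trans h5) (sum_nonneg fun _ _ => sq_nonneg _))
    · have c1 : (Fintype.card X : ℝ) ≤ 8 * ρ * k / A.p := by
        rw [Fintype.card_coe]
        refine le_trans h1 ?_
        have g : A.gz j ≤ 2 / A.p := by
          have a1 := ok.g0_le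
          have a2 := ok.g0
          have a3 : 1 / A.p ≤ 2 / A.p := by gcongr; norm_num
          rcases fin3 j with rfl | rfl | rfl
          · exact (a2.trans a1).trans a3
          · exact a1.trans a3
          · exact absurd rfl hj
        calc 4 * ρ * k * A.gz j ≤ 4 * ρ * k * (2 / A.p) := by gcongr
          _ = _ := by ring
      have hn' : (1 : ℝ) ≤ n := by exact_mod_cast hn
      have c2 : (ρ * k + 2 * (4 * ρ * k) * n) / c ^ 2 ≤ Real.exp (-1) := by
        have e3 : (1 / 3 : ℝ) ≤ Real.exp (-1) := by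
          rw [Real.exp_neg, one_div]
          exact inv_anti₀ (Real.exp_pos 1) (by linarith [Real.exp_one_lt_d9])
        refine le_trans ?_ e3
        rw [div_le_iff₀ (by positivity)]
        have := mul_le_mul_of_nonneg_left hn' (mul_nonneg hρ k0)
        nlinarith
      have c3 : Real.exp (-(n : ℝ)) = Real.exp (-1) ^ n := by
        rw [← Real.exp_nat_mul]; congr 1; ring
      rw [c3]
      gcongr
  · intro B
    by_cases hB : Y B
    · simp only [a, ind_pos hB, one_mul]
      rw [sum_coe_sort X fun i => A.am i B ^ 2]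
      exact hB.2
    · simp only [a, ind_neg hB, zero_mul]
      simpa using hb
  · intro f
    let f' : V → ℝ := fun i => if hi : i ∈ X then f ⟨i, hi⟩ else 0
    have ef : ∀ i : X, f i = f' i := fun i => by simp [f']
    have h2 := (hA.op j hj).vec (X := X) (Y := fs Y) (fun i hi => ⟨trivial, (mem_fs.1 hi).2⟩)
      (fun B hB => ⟨trivial, (mem_fs.1 hB).1⟩) f'
    rw [Real.sq_sqrt k0, sum_fs] at h2
    simp only [ef]
    rw [sum_coe_sort X fun i => f' i ^ 2]
    refine le_trans (le_of_eq (sum_congr rfl fun B _ => ?_)) h2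
    simp only [a, mul_assoc]
    rw [← mul_sum, mul_pow, ind_sq, sum_coe_sort X fun i => A.am i B * f' i]

end Pool.Agent.P.MP_77d020_co.L
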