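import Pool.Agent.P.MP_77d020_co.L.Prob

/-! The numerical parameters of the vortex. -/

namespace Pool.Agent.P.MP_77d020_co.L

open Finset

namespace ParP

theorem sq_le_exp {y : ℝ} (hy : 0 ≤ y) : y ^ 2 / 2 ≤ Real.exp y := by
  have := Real.pow_div_factorial_le_exp y hy 2
  simpa using this

theorem lin_le_exp {y : ℝ} (h : 16 * 80000 ^ 2 ≤ Real.exp y) : 80000 * y ≤ Real.exp y / 2 := by
  have hw : Real.exp y = Real.exp (y / 2) ^ 2 := by
    rw [← Real.exp_nat_mul]; congr 1; push_cast; ring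
  have h1 : y / 2 + 1 ≤ Real.exp (y / 2) := Real.add_one_le_exp _
  have h0 : 0 < Real.exp (y / 2) := Real.exp_pos _
  have h2 : 4 * 80000 ≤ Real.exp (y / 2) := by
    by_contra hc
    push Not at hc
    nlinarith
  rw [hw]
  nlinarith

theorem core (η0 p Z : ℝ) (y : ℕ → ℝ) (l : ℕ) (hy : ∀ i, y (i + 1) = (1 - 2 / 80000) * y i)
    (hy0 : 0 ≤ y 0) (hη : 0 < η0) (hp : 0 < p) (hZ : Z ≤ Real.exp (y (l + 1)))
    (h1 : 1 / η0 ≤ Z) (h2 : 16 * 80000 ^ 2 ≤ Z) (h3 : 2 * Real.log (8 / p) ≤ Z)
    (hreg : 320 * p * Real.exp (320000 * y (l + 2)) ≤ 1 ∨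
      ∃ t : ℕ, 64 * Real.exp (160000 * y (l + 2)) / p ≤ t ∧
        1000 * 12 ^ t * Real.exp (-2 * y 0) ≤ 1) :
    PP η0 (Real.exp (80000 * y 0)) p (l + 1) (fun i => Real.exp (80000 * y i))
      (fun i => Real.exp (if i < l + 1 then -2 * y i else -120 * y l))
      (fun i => Real.exp (-y i)) := by
  have hnn : ∀ i, 0 ≤ y i := by
    intro i
    induction i with
    | zero => exact hy0
    | succ i ih => rw [hy]; positivity
  have hanti : Antitone y := antitone_nat_of_succ_le fun i => by
    rw [hy]; have := hnn i; linarith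
  have hZ' : ∀ i ≤ l + 1, Z ≤ Real.exp (y i) := fun i hi =>
    hZ.trans (Real.exp_le_exp.2 (hanti hi))
  have hlg : ∀ i ≤ l + 1, 8 * Real.exp (80000 * y i) / p ≤ Real.exp (Real.exp (y i)) := by
    intro i hi
    have e : 8 * Real.exp (80000 * y i) / p = Real.exp (Real.log (8 / p) + 80000 * y i) := by
      rw [Real.exp_add, Real.exp_log (by positivity)]; ring
    rw [e, Real.exp_le_exp]
    have := lin_le_exp (h2.trans (hZ' i hi))
    have := hZ' i hi
    linarith
  have hl1 := hy l
  have hl2 := hy (l + 1)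
  have hl0 := hnn l
  refine ⟨by omega, rfl, fun i _ => Real.exp_pos _, fun i hi => ?_, fun i _ => Real.exp_pos _,
    fun i hi => ?_, fun i hi => ?_, fun i hi => ?_, fun i hi => ?_, fun i hi => ?_,
    fun i hi => ?_, fun i hi => ?_, ?_⟩
  · have := h1.trans (hZ' i hi)
    rw [Real.exp_neg, inv_le_comm₀ (Real.exp_pos _) hη]
    simpa using this
  · rw [← Real.exp_nat_mul, Real.exp_le_exp]
    split_ifs with h
    · push_cast; linarith
    · obtain rfl : i = l + 1 := by omega
      push_cast; linarith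
  · rw [← Real.exp_nat_mul, ← Real.exp_add]
    apply Real.one_le_exp
    have := hnn i
    split_ifs with h
    · push_cast; linarith
    · obtain rfl : i = l + 1 := by omega
      push_cast; linarith
  · rw [one_div, ← Real.exp_neg, neg_neg]
    exact hlg i hi
  · rw [if_pos hi, ← Real.exp_add, hy]; congr 1; ring
  · rw [if_pos hi, ← Real.exp_nat_mul, Real.exp_le_exp, hy]
    have := hnn i
    push_cast; linarith
  · refine (hlg i hi.le).trans ?_
    rw [one_div, ← Real.exp_neg, Real.exp_le_exp, Real.exp_le_exp]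
    have := hnn i
    have := hy i
    split_ifs with h
    · linarith
    · obtain rfl : i = l := by omega
      linarith
  · rw [if_neg (lt_irrefl _), if_pos hi, ← Real.exp_nat_mul, ← Real.exp_add, ← Real.exp_add]
    have h8 : (8 : ℝ) ≤ Real.exp (y l) := le_trans (by norm_num) (h2.trans (hZ' l (by omega)))
    have hi' : y l ≤ y i := hanti (by omega)
    calc 8 * Real.exp (-120 * y l + 80000 * y (l + 1))
        ≤ Real.exp (y l) * Real.exp (-120 * y l + 80000 * y (l + 1)) := by gcongr
      _ = Real.exp (y l + (-120 * y l + 80000 * y (l + 1))) := (Real.exp_add _ _).symm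
      _ ≤ _ := by rw [Real.exp_le_exp]; push_cast; linarith
  · simp only [if_neg (lt_irrefl (l + 1)), if_pos (Nat.succ_pos l)]
    rcases hreg with h | ⟨t, ht, ht'⟩
    · left
      rw [← Real.exp_nat_mul, ← Real.exp_add]
      have e : Real.exp (-120 * y l + 80000 * y (l + 1)) ≤
          Real.exp (320000 * y (l + 2)) * Real.exp (((60 : ℕ) : ℝ) * (-120 * y l)) := by
        rw [← Real.exp_add, Real.exp_le_exp]; push_cast; linarith
      have e0 := Real.exp_pos (((60 : ℕ) : ℝ) * (-120 * y l))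
      calc 320 * Real.exp (-120 * y l + 80000 * y (l + 1)) * p
          ≤ 320 * (Real.exp (320000 * y (l + 2)) *
            Real.exp (((60 : ℕ) : ℝ) * (-120 * y l))) * p := by gcongr
        _ = (320 * p * Real.exp (320000 * y (l + 2))) *
            Real.exp (((60 : ℕ) : ℝ) * (-120 * y l)) := by ring
        _ ≤ 1 * Real.exp (((60 : ℕ) : ℝ) * (-120 * y l)) := by gcongr
        _ = _ := one_mul _
    · right
      refine ⟨t, le_trans ?_ ht, ht'⟩
      rw [← Real.exp_add]
      gcongr
      linarith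

end ParP

open ParP in
theorem par : S_Par := by
  intro η0 hη
  obtain ⟨M, hM⟩ : ∃ M : ℝ, M = 1 / η0 + 16 * 80000 ^ 2 := ⟨_, rfl⟩
  have hη' : 0 < 1 / η0 := by positivity
  have hM0 : 16 * 80000 ^ 2 ≤ M := by linarith
  obtain ⟨X, hX⟩ : ∃ X : ℝ, X = M + 384 * 80000 ^ 2 := ⟨_, rfl⟩
  obtain ⟨t, ht⟩ := exists_nat_ge (8 * Real.exp (160000 * (M + 2 * X)) * Real.exp X)
  obtain ⟨T, hT⟩ : ∃ T : ℝ, T = 1000 * 12 ^ t + 8 * (M + 200000) := ⟨_, rfl⟩
  have ht0 : (0 : ℝ) < 1000 * 12 ^ t := by positivity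
  refine ⟨Real.exp (80000 * T), fun k p hk hp hp2 hkp => ?_⟩
  have hk0 : 0 < k := (Real.exp_pos _).trans_le hk
  obtain ⟨y0, hy0⟩ : ∃ y0 : ℝ, y0 = Real.log k / 80000 := ⟨_, rfl⟩
  have hke : Real.exp (80000 * y0) = k := by
    rw [hy0, mul_div_cancel₀ _ (by norm_num), Real.exp_log hk0]
  have hTy : T ≤ y0 := by
    rw [← hke, Real.exp_le_exp] at hk; linarith
  have hy00 : 0 < y0 := by linarith
  obtain ⟨x, hx⟩ : ∃ x : ℝ, x = Real.log (8 / p) := ⟨_, rfl⟩
  have hxe : Real.exp x = 8 / p := by rw [hx, Real.exp_log (by positivity)]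
  have hx0 : 0 ≤ x := by
    rw [hx]; apply Real.log_nonneg; rw [le_div_iff₀ hp]; linarith
  have hx1 : x ≤ 80000 * y0 + 15 := by
    have h16 : (16 : ℝ) ≤ Real.exp 15 := by have := Real.add_one_le_exp 15; linarith
    rw [← Real.exp_le_exp, hxe, Real.exp_add, hke, div_le_iff₀ hp]
    nlinarith [mul_pos hk0 hp]
  let y : ℕ → ℝ := fun i => (1 - 2 / 80000) ^ i * y0
  have hy : ∀ i, y (i + 1) = (1 - 2 / 80000) * y i := fun i => by
    simp only [y, pow_succ]; ring
  have hyz : y 0 = y0 := by simp [y]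
  have hnn : ∀ i, 0 ≤ y i := fun i => by simp only [y]; positivity
  have hex : ∃ j, Real.exp (y (j + 2)) < M + 2 * x := by
    obtain ⟨n, hn⟩ := exists_pow_lt_of_lt_one (x := 1 / y0) (y := (1 - 2 / 80000 : ℝ))
      (by positivity) (by norm_num)
    refine ⟨n, ?_⟩
    have h1 : y n < 1 := by rwa [lt_div_iff₀ hy00] at hn
    have h2 : y (n + 2) ≤ 1 := by
      rw [hy, hy]; have := hnn n; linarith
    have h3 : Real.exp 1 < 3 := Real.exp_one_lt_d9.trans (by norm_num)
    have := Real.exp_le_exp.2 h2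
    linarith
  have hone : M + 2 * x ≤ Real.exp (y 1) := by
    have h1 : y0 / 2 ≤ y 1 := by rw [hy, hyz]; linarith
    have h2 := sq_le_exp (y := y0 / 2) (by positivity)
    have h3 := Real.exp_le_exp.2 h1
    have h4 : 8 * (M + 200000) ≤ y0 := by linarith
    nlinarith
  classical
  have hl := Nat.find_spec hex
  have hZ : M + 2 * x ≤ Real.exp (y (Nat.find hex + 1)) := by
    rcases h : Nat.find hex with _ | j
    · exact hone
    · exact not_lt.1 (Nat.find_min hex (m := j) (by omega))
  generalize Nat.find hex = l at hl hZ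
  have := core η0 p (M + 2 * x) y l hy (hnn 0) hη hp hZ (by linarith) (by linarith)
    (by rw [← hx]; linarith) ?_
  · rw [hyz, hke] at this
    exact ⟨_, _, _, _, this⟩
  have hz := hnn (l + 2)
  generalize y (l + 2) = z at hl hz
  have hpx : p = 8 * Real.exp (-x) := by
    rw [Real.exp_neg, hxe]; field_simp
  rcases le_total X x with h | h
  · left
    have h1 := sq_le_exp hz
    have h2 : z ^ 2 ≤ 6 * x := by linarith
    have h3 : 640000 * z ≤ x := by
      by_contra hc
      push Not at hc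
      nlinarith
    have h4 : (2560 : ℝ) ≤ Real.exp (x / 2) := by
      have := Real.add_one_le_exp (x / 2); linarith
    calc 320 * p * Real.exp (320000 * z)
        = 2560 * (Real.exp (-x) * Real.exp (320000 * z)) := by rw [hpx]; ring
      _ ≤ Real.exp (x / 2) * (Real.exp (-x) * Real.exp (320000 * z)) := by gcongr
      _ = Real.exp (x / 2 + (-x + 320000 * z)) := by rw [Real.exp_add, Real.exp_add]
      _ ≤ 1 := Real.exp_le_one_iff.2 (by linarith)
  · right
    refine ⟨t, le_trans ?_ ht, ?_⟩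
    · have h1 := Real.add_one_le_exp z
      calc 64 * Real.exp (160000 * z) / p = 8 * Real.exp (160000 * z) * Real.exp x := by
            rw [hxe]; ring
        _ ≤ _ := by gcongr; linarith
    · rw [hyz]
      have h1 := Real.add_one_le_exp (2 * y0)
      calc 1000 * 12 ^ t * Real.exp (-2 * y0)
          ≤ Real.exp (2 * y0) * Real.exp (-2 * y0) := by gcongr; linarith
        _ = 1 := by rw [← Real.exp_add]; simp

end Pool.Agent.P.MP_77d020_co.L
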