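import Pool.Agent.P.MP_77d020_co.L.Prob

/-! Weighted random greedy packing, derandomised by exponential potentials. -/

namespace Pool.Agent.P.MP_77d020_co.L

open Finset

namespace RGP

theorem step_exp {ι : Type} (s : Finset ι) (p L : ι → ℝ) {x c h b θ k : ℝ}
    (hp : ∀ i ∈ s, 0 ≤ p i) (h1 : ∑ i ∈ s, p i = 1) (hL : ∀ i ∈ s, 0 ≤ L i ∧ L i ≤ b)
    (b0 : 0 ≤ b) (hc : c ≤ 1 / 2) (hθ : 2 * |θ| * b ≤ 1)
    (lo : c * x - h ≤ ∑ i ∈ s, p i * L i) (hi : ∑ i ∈ s, p i * L i ≤ c * x)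
    (hk : 2 * |θ| * h + 4 * θ ^ 2 * b * (c * x) ≤ k) :
    ∑ i ∈ s, p i * Real.exp (θ * ((x - L i) / (1 - c))) ≤ Real.exp (θ * x + k) := by
  have hc1 : 0 < 1 - c := by linarith
  obtain ⟨r, hr⟩ : ∃ r, r = θ / (1 - c) := ⟨_, rfl⟩
  have e0 : θ = r * (1 - c) := by rw [hr]; field_simp
  have r2 : |r| ≤ 2 * |θ| := by
    rw [e0, abs_mul, abs_of_pos hc1]
    nlinarith [abs_nonneg r]
  have r3 : r ^ 2 ≤ 4 * θ ^ 2 := by
    rw [← sq_abs r, ← sq_abs θ]
    nlinarith [abs_nonneg r]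
  have e1 : ∀ i ∈ s, p i * Real.exp (θ * ((x - L i) / (1 - c))) ≤
      Real.exp (r * x) * (p i + (r ^ 2 * b - r) * (p i * L i)) := by
    intro i hi
    obtain ⟨l0, l1⟩ := hL i hi
    have h2 : |-(r * L i)| ≤ 1 := by
      rw [abs_neg, abs_mul, abs_of_nonneg l0]
      exact le_trans (mul_le_mul r2 l1 l0 (by positivity)) hθ
    have h3 := (abs_le.1 (Real.abs_exp_sub_one_sub_id_le h2)).2
    have h4 : θ * ((x - L i) / (1 - c)) = r * x + -(r * L i) := by
      rw [hr]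
      field_simp
      ring
    have h5 : Real.exp (-(r * L i)) ≤ 1 + (r ^ 2 * b - r) * L i := by
      nlinarith [mul_le_mul_of_nonneg_left l1 (mul_nonneg (sq_nonneg r) l0)]
    rw [h4, Real.exp_add]
    have := mul_le_mul_of_nonneg_left h5 (mul_nonneg (Real.exp_pos (r * x)).le (hp i hi))
    linarith
  refine (sum_le_sum e1).trans ?_
  rw [← mul_sum, sum_add_distrib, ← mul_sum, h1]
  have m0 : 0 ≤ ∑ i ∈ s, p i * L i := sum_nonneg fun i hi => mul_nonneg (hp i hi) (hL i hi).1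
  generalize ∑ i ∈ s, p i * L i = m at *
  refine (mul_le_mul_of_nonneg_left (add_comm _ (1 : ℝ) ▸ Real.add_one_le_exp _)
    (Real.exp_pos _).le).trans ?_
  rw [← Real.exp_add, Real.exp_le_exp]
  have h6 : r * (c * x - m) ≤ 2 * |θ| * h :=
    (mul_le_mul_of_nonneg_right (le_abs_self r) (by linarith)).trans
      (mul_le_mul r2 (by linarith) (by linarith) (by positivity))
  have h7 : r ^ 2 * b * m ≤ 4 * θ ^ 2 * b * (c * x) := by gcongr
  have h8 : θ * x = r * x - r * (c * x) := by rw [e0]; ring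
  nlinarith

variable {E T : Type} [DecidableEq E] {Ev : Finset E} {Ts : Finset T} {ed : T → Finset E}
  {φ : T → ℝ} {ω : ℝ}

/-- The hypergraph. -/
structure Hy (Ev : Finset E) (Ts : Finset T) (ed : T → Finset E) (φ : T → ℝ) (ω : ℝ) : Prop where
  h : ∀ t ∈ Ts, ed t ⊆ Ev ∧ (ed t).card = 3 ∧ 0 ≤ φ t ∧ φ t ≤ ω
  lin : ∀ t ∈ Ts, ∀ t' ∈ Ts, t ≠ t' → (ed t ∩ ed t').card ≤ 1
  pos : 0 ≤ ω

/-- The weight of the triples at `e` whose other vertices are alive. -/
noncomputable def W (Ts : Finset T) (ed : T → Finset E) (φ : T → ℝ) (Al : Finset E) (e : E) : ℝ :=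
  ∑ t ∈ Ts, ind (e ∈ ed t ∧ (ed t).erase e ⊆ Al) * φ t

theorem Hy.two (H : Hy Ev Ts ed φ ω) {a b : E} (hab : a ≠ b) (P : T → Prop)
    (hP : ∀ t, P t → a ∈ ed t ∧ b ∈ ed t) : ∑ t ∈ Ts, ind (P t) * φ t ≤ ω := by
  by_cases h : ∃ t ∈ Ts, P t
  · obtain ⟨t, ht, h1⟩ := h
    rw [sum_eq_single_of_mem t ht, ind_pos h1, one_mul]
    · exact (H.h t ht).2.2.2
    · intro t' ht' hne
      rw [ind_neg, zero_mul]
      intro h2
      have := H.lin t' ht' t ht hne
      exact hab (card_le_one.1 this a (mem_inter.2 ⟨(hP _ h2).1, (hP _ h1).1⟩) b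
        (mem_inter.2 ⟨(hP _ h2).2, (hP _ h1).2⟩))
  · push Not at h
    rw [sum_eq_zero fun t ht => by rw [ind_neg (h t ht), zero_mul]]
    exact H.pos

theorem Hy.W_nonneg (H : Hy Ev Ts ed φ ω) (Al : Finset E) (e : E) : 0 ≤ W Ts ed φ Al e :=
  sum_nonneg fun t ht => mul_nonneg (ind_nonneg _) (H.h t ht).2.2.1

/-- A distribution of moves: `K i` dies, `D i` dies without being covered. -/
structure Mv (Ts : Finset T) (ed : T → Finset E) (Al : Finset E) (c h d : ℝ) {ι : Type}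
    (s : Finset ι) (p : ι → ℝ) (K D : ι → Finset E) : Prop where
  p0 : ∀ i ∈ s, 0 ≤ p i
  p1 : ∑ i ∈ s, p i = 1
  sub : ∀ i ∈ s, K i ⊆ Al
  k3 : ∀ i ∈ s, (K i).card ≤ 3
  d1 : ∀ i ∈ s, (D i).card ≤ 1
  alt : ∀ i ∈ s, K i = D i ∨ ∃ t ∈ Ts, K i = ed t
  one : ∀ a ∈ Al, ∑ i ∈ s, p i * ind (a ∈ K i) = c
  two : ∀ a b, a ≠ b → ∑ i ∈ s, p i * ind (a ∈ K i ∧ b ∈ K i) ≤ h
  dum : ∀ a, ∑ i ∈ s, p i * ind (a ∈ D i) ≤ d

theorem Hy.moves (H : Hy Ev Ts ed φ ω) {Al : Finset E} {c Q d r : ℝ} (c0 : 0 ≤ c) (hQ : 0 < Q)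
    (d0 : 0 ≤ d) (hc : c * Al.card ≤ 1) (hr : ω / Q ≤ r)
    (hX : ∀ e ∈ Al, 1 - d ≤ W Ts ed φ Al e / Q ∧ W Ts ed φ Al e / Q ≤ 1) :
    ∃ (ι : Type) (s : Finset ι) (p : ι → ℝ) (K D : ι → Finset E),
      Mv Ts ed Al c (c * r) (c * d) s p K D := by
  classical
  have key : ∀ a ∈ Al, ∑ t ∈ Ts.filter (fun t => ed t ⊆ Al), φ t * ind (a ∈ ed t)
      = W Ts ed φ Al a := by
    intro a ha
    rw [sum_filter_eq_sum_ind]
    refine sum_congr rfl fun t _ => ?_
    rw [mul_comm (φ t), ← mul_assoc, ← ind_and]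
    congr 1
    refine ind_congr ⟨fun h => ⟨h.2, (erase_subset _ _).trans h.1⟩, fun h => ⟨?_, h.1⟩⟩
    rw [← insert_erase h.1]
    exact insert_subset ha h.2
  have sing : ∀ (f : E → ℝ) (a : E), ∑ e ∈ Al, f e * ind (a ∈ ({e} : Finset E))
      = if a ∈ Al then f a else 0 := by
    intro f a
    rw [← sum_ite_eq]
    refine sum_congr rfl fun e _ => ?_
    by_cases h : a = e
    · rw [ind_pos (mem_singleton.2 h), if_pos h, mul_one]
    · rw [ind_neg (fun h1 => h (mem_singleton.1 h1)), if_neg h, mul_zero]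
  refine ⟨Option (T ⊕ E), insertNone ((Ts.filter fun t => ed t ⊆ Al).disjSum Al),
    fun i => i.elim (1 - (∑ t ∈ Ts.filter (fun t => ed t ⊆ Al), c / Q * φ t +
      ∑ e ∈ Al, c * (1 - W Ts ed φ Al e / Q))) (Sum.elim (fun t => c / Q * φ t)
        fun e => c * (1 - W Ts ed φ Al e / Q)),
    fun i => i.elim ∅ (Sum.elim ed fun e => {e}),
    fun i => i.elim ∅ (Sum.elim (fun _ => ∅) fun e => {e}), ?_, ?_, ?_, ?_, ?_, ?_, ?_, ?_, ?_⟩
  · rintro (_ | t | e) hi
    · have h1 : ∑ t ∈ Ts.filter (fun t => ed t ⊆ Al), φ t ≤ ∑ a ∈ Al, W Ts ed φ Al a := by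
        rw [← sum_congr rfl key, sum_comm]
        refine sum_le_sum fun t ht => ?_
        obtain ⟨h1, h2⟩ := mem_filter.1 ht
        rw [← mul_sum, ← card_filter_eq_sum_ind, filter_mem_eq_inter, inter_eq_right.2 h2,
          (H.h t h1).2.1]
        have := (H.h t h1).2.2.1
        push_cast
        linarith
      have h2 : ∑ e ∈ Al, c * (1 - W Ts ed φ Al e / Q)
          = c * Al.card - c / Q * ∑ a ∈ Al, W Ts ed φ Al a := by
        rw [mul_sum, card_eq_sum_ones, Nat.cast_sum, mul_sum, ← sum_sub_distrib]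
        exact sum_congr rfl fun e _ => by push_cast; ring
      have h3 := mul_le_mul_of_nonneg_left h1 (div_nonneg c0 hQ.le)
      simp only [Option.elim, ← mul_sum (a := c / Q), h2]
      linarith
    · simp only [some_mem_insertNone, inl_mem_disjSum, mem_filter] at hi
      exact mul_nonneg (div_nonneg c0 hQ.le) (H.h t hi.1).2.2.1
    · simp only [some_mem_insertNone, inr_mem_disjSum] at hi
      exact mul_nonneg c0 (sub_nonneg.2 (hX e hi).2)
  · simp [sum_insertNone, sum_disjSum]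
  · rintro (_ | t | e) hi <;> simp_all
  · rintro (_ | t | e) hi
    · simp
    · simp only [some_mem_insertNone, inl_mem_disjSum, mem_filter] at hi
      exact (H.h t hi.1).2.1.le
    · simp
  · rintro (_ | t | e) hi <;> simp
  · rintro (_ | t | e) hi
    · exact Or.inl rfl
    · simp only [some_mem_insertNone, inl_mem_disjSum, mem_filter] at hi
      exact Or.inr ⟨t, hi.1, rfl⟩
    · exact Or.inl rfl
  · intro a ha
    simp only [sum_insertNone, sum_disjSum, Option.elim, Sum.elim_inl, Sum.elim_inr, sing,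
      if_pos ha, mul_assoc, ← mul_sum, key a ha, ind_neg (notMem_empty a)]
    field_simp
    ring
  · intro a b hab
    simp only [sum_insertNone, sum_disjSum, Option.elim, Sum.elim_inl, Sum.elim_inr]
    have h0 : ∀ e : E, ind (a ∈ ({e} : Finset E) ∧ b ∈ ({e} : Finset E)) = 0 := fun e =>
      ind_neg fun h => hab ((mem_singleton.1 h.1).trans (mem_singleton.1 h.2).symm)
    simp only [h0, ind_neg fun h : a ∈ (∅ : Finset E) ∧ b ∈ (∅ : Finset E) => notMem_empty a h.1,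
      mul_zero, sum_const_zero, zero_add, add_zero]
    have := mul_le_mul_of_nonneg_left (H.two hab (fun t => ed t ⊆ Al ∧ a ∈ ed t ∧ b ∈ ed t)
      fun t h => h.2) (div_nonneg c0 hQ.le)
    rw [mul_sum, div_mul_comm, mul_comm] at this
    rw [sum_filter_eq_sum_ind]
    refine le_trans (le_of_eq (sum_congr rfl fun t _ => ?_))
      (this.trans (mul_le_mul_of_nonneg_left hr c0))
    rw [ind_and (ed t ⊆ Al)]
    ring
  · intro a
    simp only [sum_insertNone, sum_disjSum, Option.elim, Sum.elim_inl, Sum.elim_inr, sing,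
      ind_neg (notMem_empty a), mul_zero, sum_const_zero, zero_add]
    split_ifs with ha
    · exact mul_le_mul_of_nonneg_left (by linarith [(hX a ha).1]) c0
    · positivity

variable {Al : Finset E} {c h d : ℝ} {ι : Type} {s : Finset ι} {p : ι → ℝ} {K D : ι → Finset E}

theorem card_ind (Z K : Finset E) : ((Z ∩ K).card : ℝ) = ∑ a ∈ Z, ind (a ∈ K) := by
  rw [← card_filter_eq_sum_ind, filter_mem_eq_inter]

theorem Mv.stepX (M : Mv Ts ed Al c h d s p K D) (H : Hy Ev Ts ed φ ω) (e : E) {Q b θ k : ℝ}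
    (hQ : 0 < Q) (c0 : 0 ≤ c) (h0 : 0 ≤ h) (hc : c ≤ 1 / 4) (hb : 3 * ω / Q ≤ b)
    (hX : W Ts ed φ Al e / Q ≤ 1) (hθ : 2 * |θ| * b ≤ 1)
    (hk : 2 * |θ| * h + 4 * θ ^ 2 * b * (2 * c) ≤ k) :
    ∑ i ∈ s, p i * Real.exp (θ * (W Ts ed φ (Al \ K i) e / (Q * (1 - 2 * c)))) ≤
      Real.exp (θ * (W Ts ed φ Al e / Q) + k) := by
  let L : ι → ℝ := fun i => ∑ t ∈ Ts, ind (e ∈ ed t ∧ (ed t).erase e ⊆ Al) * φ t *
    ind (∃ a ∈ (ed t).erase e, a ∈ K i)
  have e1 : ∀ i, W Ts ed φ (Al \ K i) e = W Ts ed φ Al e - L i := by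
    intro i
    simp only [W, L, ← sum_sub_distrib]
    refine sum_congr rfl fun t _ => ?_
    rw [← mul_one_sub, ← ind_not, mul_right_comm, ← ind_and]
    congr 1
    refine ind_congr ?_
    simp only [subset_sdiff, disjoint_left, and_assoc, not_exists, not_and]
  have e2 : ∑ i ∈ s, p i * (L i / Q) = (∑ t ∈ Ts, ind (e ∈ ed t ∧ (ed t).erase e ⊆ Al) * φ t *
      ∑ i ∈ s, p i * ind (∃ a ∈ (ed t).erase e, a ∈ K i)) / Q := by
    simp only [L, mul_sum, sum_div]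
    rw [sum_comm]
    exact sum_congr rfl fun t _ => sum_congr rfl fun i _ => by ring
  have e3 : ∀ t ∈ Ts, e ∈ ed t ∧ (ed t).erase e ⊆ Al →
      2 * c - h ≤ ∑ i ∈ s, p i * ind (∃ a ∈ (ed t).erase e, a ∈ K i) ∧
      ∑ i ∈ s, p i * ind (∃ a ∈ (ed t).erase e, a ∈ K i) ≤ 2 * c := by
    intro t ht h1
    obtain ⟨a, b, hab, h2⟩ := card_eq_two.1 (show ((ed t).erase e).card = 2 by
      rw [card_erase_of_mem h1.1, (H.h t ht).2.1])
    rw [h2] at h1 ⊢
    have h3 : ∑ i ∈ s, p i * ind (∃ x ∈ ({a, b} : Finset E), x ∈ K i) = ∑ i ∈ s, p i * ind (a ∈ K i)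
        + ∑ i ∈ s, p i * ind (b ∈ K i) - ∑ i ∈ s, p i * ind (a ∈ K i ∧ b ∈ K i) := by
      rw [← sum_add_distrib, ← sum_sub_distrib]
      refine sum_congr rfl fun i _ => ?_
      by_cases ha : a ∈ K i <;> by_cases hb : b ∈ K i <;> simp [ind, ha, hb]
    have h4 : 0 ≤ ∑ i ∈ s, p i * ind (a ∈ K i ∧ b ∈ K i) :=
      sum_nonneg fun i hi => mul_nonneg (M.p0 i hi) (ind_nonneg _)
    rw [h3, M.one a (h1.2 (by simp)), M.one b (h1.2 (by simp))]
    constructor <;> linarith [M.two a b hab]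
  have e4 : ∀ (u : ℝ) (f : T → ℝ), (∀ t ∈ Ts, e ∈ ed t ∧ (ed t).erase e ⊆ Al → f t ≤ u) →
      ∑ t ∈ Ts, ind (e ∈ ed t ∧ (ed t).erase e ⊆ Al) * φ t * f t ≤ W Ts ed φ Al e * u := by
    intro u f hf
    rw [W, sum_mul]
    refine sum_le_sum fun t ht => ?_
    by_cases h1 : e ∈ ed t ∧ (ed t).erase e ⊆ Al
    · exact mul_le_mul_of_nonneg_left (hf t ht h1) (mul_nonneg (ind_nonneg _) (H.h t ht).2.2.1)
    · simp [ind_neg h1]
  have w0 := H.pos
  have b0 : 0 ≤ b := le_trans (by positivity) hb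
  have := step_exp s p (fun i => L i / Q) (x := W Ts ed φ Al e / Q) (c := 2 * c) (h := h)
    (b := b) (θ := θ) (k := k) M.p0 M.p1 (fun i hi => ⟨div_nonneg (sum_nonneg fun t ht =>
      mul_nonneg (mul_nonneg (ind_nonneg _) (H.h t ht).2.2.1) (ind_nonneg _)) hQ.le,
      le_trans ?_ hb⟩) b0 (by linarith) hθ ?_ ?_ (le_trans (add_le_add le_rfl
        (mul_le_mul_of_nonneg_left (mul_le_of_le_one_right (by positivity) hX) (by positivity))) hk)
  · refine le_trans (le_of_eq (sum_congr rfl fun i _ => ?_)) this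
    rw [e1, ← sub_div, div_div]
  · refine div_le_div_of_nonneg_right ?_ hQ.le
    calc L i ≤ ∑ t ∈ Ts, ∑ a ∈ K i, ind (e ∈ ed t ∧ a ∈ (ed t).erase e) * φ t := by
          refine sum_le_sum fun t ht => ?_
          rw [← sum_mul, mul_right_comm, ← ind_and]
          refine mul_le_mul_of_nonneg_right (ind_le (sum_nonneg fun _ _ => ind_nonneg _) ?_)
            (H.h t ht).2.2.1
          rintro ⟨h1, a, h2, h3⟩
          exact le_trans (ind_pos ⟨h1.1, h2⟩).ge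
            (single_le_sum (f := fun a => ind (e ∈ ed t ∧ a ∈ (ed t).erase e))
              (fun _ _ => ind_nonneg _) h3)
      _ ≤ ∑ a ∈ K i, ω := by
          rw [sum_comm]
          refine sum_le_sum fun a _ => ?_
          by_cases ha : e = a
          · simpa [ha, ind] using w0
          · exact H.two ha _ fun t h => ⟨h.1, mem_of_mem_erase h.2⟩
      _ ≤ 3 * ω := by
          rw [sum_const, nsmul_eq_mul]
          exact mul_le_mul_of_nonneg_right (by exact_mod_cast M.k3 i hi) w0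
  · have h1 := e4 (-(2 * c - h)) (fun t => -∑ i ∈ s, p i * ind (∃ a ∈ (ed t).erase e, a ∈ K i))
      fun t ht h1 => neg_le_neg (e3 t ht h1).1
    simp only [mul_neg, sum_neg_distrib, neg_le_neg_iff] at h1
    refine le_trans ?_ (e2 ▸ div_le_div_of_nonneg_right h1 hQ.le)
    rw [mul_div_right_comm]
    nlinarith
  · rw [e2, mul_comm (2 * c), ← mul_div_right_comm]
    exact div_le_div_of_nonneg_right (e4 _ _ fun t ht h1 => (e3 t ht h1).2) hQ.le

theorem Mv.stepY (M : Mv Ts ed Al c h d s p K D) (Z : Finset E) {R b θ k : ℝ} (hR : 0 < R)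
    (c0 : 0 ≤ c) (hc : c ≤ 1 / 4) (hb : 3 / R ≤ b) (hY : ((Al ∩ Z).card : ℝ) / R ≤ 2)
    (hθ : 2 * |θ| * b ≤ 1) (hk : 4 * θ ^ 2 * b * (2 * c) ≤ k) :
    ∑ i ∈ s, p i * Real.exp (θ * ((((Al \ K i) ∩ Z).card : ℝ) / (R * (1 - c)))) ≤
      Real.exp (θ * ((Al ∩ Z).card / R) + k) := by
  have b0 : 0 ≤ b := le_trans (by positivity) hb
  have e2 : ∑ i ∈ s, p i * (((Al ∩ Z ∩ K i).card : ℝ) / R) = c * ((Al ∩ Z).card / R) := by
    simp only [card_ind (Al ∩ Z), ← mul_div_assoc, ← sum_div, mul_sum]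
    rw [sum_comm, sum_congr rfl fun a ha => M.one a (mem_inter.1 ha).1, sum_const, nsmul_eq_mul,
      mul_comm]
  have := step_exp s p (fun i => ((Al ∩ Z ∩ K i).card : ℝ) / R) (x := (Al ∩ Z).card / R) (c := c)
    (h := 0) (b := b) (θ := θ) (k := k) M.p0 M.p1 (fun i hi => ⟨by positivity, le_trans ?_ hb⟩)
    b0 (by linarith) hθ (by rw [e2, sub_zero]) e2.le (le_trans (by
      rw [mul_zero, zero_add, mul_comm 2 c]
      gcongr) hk)
  · refine le_trans (le_of_eq (sum_congr rfl fun i _ => ?_)) this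
    rw [← sub_div, div_div, ← card_sdiff_add_card_inter (Al ∩ Z) (K i), inter_comm (Al \ K i),
      ← inter_sdiff_assoc, inter_comm Z]
    push_cast
    rw [add_sub_cancel_right]
  · exact div_le_div_of_nonneg_right
      (by exact_mod_cast (card_le_card inter_subset_right).trans (M.k3 i hi)) hR.le

theorem Mv.stepN (M : Mv Ts ed Al c h d s p K D) (Z Dm : Finset E) {k : ℝ}
    (hk : 2 * (Z.card * d) ≤ k) :
    ∑ i ∈ s, p i * Real.exp ((Z ∩ (Dm ∪ D i)).card) ≤ Real.exp ((Z ∩ Dm).card + k) := by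
  have e1 : ∀ i ∈ s, p i * Real.exp ((Z ∩ (Dm ∪ D i)).card) ≤
      Real.exp ((Z ∩ Dm).card) * (p i + 2 * ∑ a ∈ Z, p i * ind (a ∈ D i)) := by
    intro i hi
    have h1 : ((Z ∩ (Dm ∪ D i)).card : ℝ) ≤ (Z ∩ Dm).card + (Z ∩ D i).card := by
      rw [inter_union_distrib_left]
      exact_mod_cast card_union_le _ _
    have h2 : Real.exp ((Z ∩ D i).card) ≤ 1 + 2 * (Z ∩ D i).card := by
      have h3 := (card_le_card (inter_subset_right (s₁ := Z))).trans (M.d1 i hi)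
      interval_cases (Z ∩ D i).card
      · simp
      · have := Real.exp_one_lt_d9
        push_cast
        linarith
    have h4 := (Real.exp_le_exp.2 h1).trans (Real.exp_add _ _ ▸
      mul_le_mul_of_nonneg_left h2 (Real.exp_pos ((Z ∩ Dm).card : ℝ)).le)
    rw [← mul_sum, ← card_ind]
    nlinarith [mul_le_mul_of_nonneg_left h4 (M.p0 i hi)]
  refine (sum_le_sum e1).trans ?_
  rw [← mul_sum, sum_add_distrib, M.p1, ← mul_sum, sum_comm, Real.exp_add]
  refine mul_le_mul_of_nonneg_left (le_trans ?_ (Real.add_one_le_exp k)) (Real.exp_pos _).le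
  have := sum_le_sum fun a (_ : a ∈ Z) => M.dum a
  rw [sum_const, nsmul_eq_mul] at this
  linarith

theorem pot (g : ι → ℝ) {x k : ℝ} (u : ℝ) (t : ℕ)
    (h : ∑ i ∈ s, p i * Real.exp (g i) ≤ Real.exp (x + k)) :
    ∑ i ∈ s, p i * Real.exp (g i + (u - k * (t + 1 : ℕ))) ≤ Real.exp (x + (u - k * t)) := by
  simp only [Real.exp_add (g _), ← mul_assoc, ← sum_mul]
  refine (mul_le_mul_of_nonneg_right h (Real.exp_pos _).le).trans (le_of_eq ?_)
  rw [← Real.exp_add]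
  congr 1
  push_cast
  ring

theorem par {γ c : ℝ} (h0 : 0 < γ) (h1 : γ ≤ 1 / 100) (c0 : 0 < c) (hc : c ≤ 1 / 4) :
    ∃ n : ℕ, (1 - c) ^ n ≤ γ / 4 ∧ γ ^ 5 ≤ (1 - 2 * c) ^ n ∧ c * n ≤ 4 / γ := by
  classical
  have ex : ∃ n : ℕ, (1 - c) ^ n ≤ γ / 4 :=
    (exists_pow_lt_of_lt_one (by positivity) (by linarith)).imp fun _ => le_of_lt
  obtain ⟨m, hm⟩ := Nat.exists_eq_succ_of_ne_zero (n := Nat.find ex) fun e => by
    have := Nat.find_spec ex
    rw [e, pow_zero] at this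
    linarith
  have h2 : γ / 4 < (1 - c) ^ m := not_le.1 (Nat.find_min ex (by omega))
  refine ⟨m + 1, by simpa [hm] using Nat.find_spec ex, ?_, ?_⟩
  · have h3 : γ / 8 ≤ (1 - c) ^ (m + 1) := by
      rw [pow_succ]
      nlinarith
    calc γ ^ 5 = γ ^ 3 * (γ * γ) := by ring
      _ ≤ γ ^ 3 * (1 / 512) := by
          gcongr
          nlinarith
      _ = (γ / 8) ^ 3 := by ring
      _ ≤ ((1 - c) ^ (m + 1)) ^ 3 := by gcongr
      _ = ((1 - c) ^ 3) ^ (m + 1) := by rw [← pow_mul, ← pow_mul, mul_comm]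
      _ ≤ (1 - 2 * c) ^ (m + 1) :=
          pow_le_pow_left₀ (pow_nonneg (by linarith) _) (by nlinarith [mul_pos c0 c0]) _
  · have h3 := one_add_mul_le_pow (show (-2 : ℝ) ≤ c by linarith) m
    have h4 : (1 - c) ^ m * (1 + c) ^ m ≤ 1 := by
      rw [← mul_pow]
      exact pow_le_one₀ (by nlinarith) (by nlinarith)
    have h5 : γ / 4 * (1 + m * c) ≤ 1 :=
      (mul_le_mul h2.le h3 (by positivity) (pow_nonneg (by linarith) _)).trans h4
    rw [le_div_iff₀ h0]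
    push_cast
    nlinarith

/-- The state comes from a matching. -/
def Good (Ev : Finset E) (Ts : Finset T) (ed : T → Finset E) (Al Dm : Finset E) : Prop :=
  Al ⊆ Ev ∧ ∃ M ⊆ Ts, (∀ t ∈ M, ∀ t' ∈ M, t ≠ t' → Disjoint (ed t) (ed t')) ∧
    (∀ t ∈ M, Disjoint (ed t) Al) ∧ ∀ e ∈ Ev, e ∈ Al ∨ e ∈ Dm ∨ e ∈ M.biUnion ed

theorem Good.step {Dm : Finset E} (G : Good Ev Ts ed Al Dm) (M : Mv Ts ed Al c h d s p K D)
    {i : ι} (hi : i ∈ s) : Good Ev Ts ed (Al \ K i) (Dm ∪ D i) := by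
  classical
  obtain ⟨h1, N, h2, h3, h4, h5⟩ := G
  refine ⟨sdiff_subset.trans h1, ?_⟩
  rcases M.alt i hi with h6 | ⟨t, ht, h6⟩
  · refine ⟨N, h2, h3, fun t ht => (h4 t ht).mono_right sdiff_subset, fun e he => ?_⟩
    have := h5 e he
    simp only [h6, mem_sdiff, mem_union]
    tauto
  · have h7 : ∀ u ∈ N, Disjoint (ed u) (ed t) := fun u hu =>
      (h4 u hu).mono_right (h6 ▸ M.sub i hi)
    refine ⟨insert t N, insert_subset ht h2, fun u hu v hv huv => ?_, fun u hu => ?_,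
      fun e he => ?_⟩
    · rcases mem_insert.1 hu with rfl | hu' <;> rcases mem_insert.1 hv with rfl | hv'
      exacts [absurd rfl huv, (h7 v hv').symm, h7 u hu', h3 u hu' v hv' huv]
    · rcases mem_insert.1 hu with rfl | hu
      exacts [h6 ▸ disjoint_sdiff, (h4 u hu).mono_right sdiff_subset]
    · have := h5 e he
      simp only [h6, mem_sdiff, mem_union, biUnion_insert]
      tauto

end RGP

open RGP

theorem rg : S_RG := by
  intro E T F _ Ev Ts Fs ed φ Z γ ω s g0 g1 hω w0 hs h1 h2 h3 hE hF hZ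
  have H : Hy Ev Ts ed φ ω := ⟨h1, h2, w0.le⟩
  have s0 : 0 < s := (mul_pos_iff_of_pos_left w0).1 (by linarith)
  obtain ⟨c, hc⟩ : ∃ c : ℝ, c = 1 / (Ev.card + 4) := ⟨_, rfl⟩
  have c0 : 0 < c := by rw [hc]; positivity
  have c2 : c * (Ev.card + 4) = 1 := by rw [hc]; field_simp
  have c1 : c ≤ 1 / 4 := by linarith [mul_nonneg c0.le (Nat.cast_nonneg (α := ℝ) Ev.card)]
  obtain ⟨n, n1, n2, n3⟩ := par g0 g1 c0 c1
  obtain ⟨θ, hθ⟩ : ∃ θ : ℝ, θ = 1 / γ ^ 5 := ⟨_, rfl⟩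
  have θ0 : 0 < θ := by rw [hθ]; positivity
  have gp : ∀ k : ℕ, γ ^ (k + 1) ≤ γ / 100 ^ k := fun k => by
    rw [pow_succ', div_eq_mul_inv, ← inv_pow, ← one_div]
    gcongr
  have d0 : 0 < γ ^ 3 := by positivity
  have d1 : γ ^ 3 ≤ 1 / 100 := by linarith [gp 2]
  have t1 : 4 / γ + 4 ≤ θ * (γ ^ 3 / 2) := by
    rw [hθ]
    field_simp
    nlinarith
  have t2 : ∀ x : ℝ, |x| = θ → 2 * |x| * (3 * γ ^ 15) ≤ 1 ∧
      2 * |x| * (c * γ ^ 15) + 4 * x ^ 2 * (3 * γ ^ 15) * (2 * c) ≤ c * γ := fun x hx => by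
    have e1 : θ * γ ^ 15 = γ ^ 10 := by rw [hθ]; field_simp
    have e2 : θ ^ 2 * γ ^ 15 = γ ^ 5 := by rw [hθ]; field_simp
    rw [← sq_abs x, hx]
    exact ⟨by linarith [gp 9], by
      linarith [mul_le_mul_of_nonneg_left (gp 9) c0.le, mul_le_mul_of_nonneg_left (gp 4) c0.le,
        mul_pos c0 g0, congrArg (c * ·) e1, congrArg (c * ·) e2]⟩
  have a1 := abs_of_pos θ0
  let X : ℕ → Finset E → E → ℝ := fun t Al e =>
    W Ts ed φ Al e / ((1 + 2 * γ ^ 3) * (1 - 2 * c) ^ t)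
  let Y : ℕ → Finset E → F → ℝ := fun t Al f => (Al ∩ Z f).card / (s * (1 - c) ^ t)
  let P1 : ℕ → Finset E → E → ℝ := fun t Al e =>
    Real.exp (θ * X t Al e + (-θ * (1 - γ ^ 3 / 2) - 4 / γ - c * γ * t))
  let P2 : ℕ → Finset E → E → ℝ := fun t Al e =>
    Real.exp (-θ * X t Al e + (θ * (1 - 3 * γ ^ 3) - 4 / γ - c * γ * t))
  let P3 : ℕ → Finset E → F → ℝ := fun t Al f =>
    Real.exp (θ * Y t Al f + (-θ - 4 / γ - c * γ * t))
  let P4 : ℕ → Finset E → F → ℝ := fun t Dm f =>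
    Real.exp ((Z f ∩ Dm).card + (-(4 / γ) - 7 * γ ^ 3 * c * s * t))
  let Φ : ℕ → Finset E → Finset E → ℝ := fun t Al Dm =>
    ∑ e ∈ Ev, (P1 t Al e + P2 t Al e) + ∑ f ∈ Fs, (P3 t Al f + P4 t Dm f)
  have bd : ∀ t ≤ n, ∀ Al Dm, Φ t Al Dm < 1 → (∀ e ∈ Ev, 1 - 7 * γ ^ 3 / 2 ≤ X t Al e ∧
      X t Al e ≤ 1) ∧ ∀ f ∈ Fs, Y t Al f ≤ 2 ∧ ((Z f ∩ Dm).card : ℝ) ≤ 4 / γ + 28 * γ ^ 2 * s := by
    intro t ht Al Dm h
    have p12 : ∀ e ∈ Ev, 0 ≤ P1 t Al e + P2 t Al e := fun e _ => by positivity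
    have p34 : ∀ f ∈ Fs, 0 ≤ P3 t Al f + P4 t Dm f := fun e _ => by positivity
    have k1 : c * t * γ ≤ 4 := by
      rw [← le_div_iff₀ g0]
      exact le_trans (by gcongr) n3
    have lt : ∀ x y : ℝ, Real.exp x + Real.exp y < 1 → x < 0 ∧ y < 0 := fun x y h =>
      ⟨Real.exp_lt_one_iff.1 (by linarith [Real.exp_pos y]),
        Real.exp_lt_one_iff.1 (by linarith [Real.exp_pos x])⟩
    refine ⟨fun e he => ?_, fun f hf => ?_⟩
    · obtain ⟨a, b⟩ := lt _ _ (((single_le_sum p12 he).trans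
        (le_add_of_nonneg_right (sum_nonneg p34))).trans_lt h)
      exact ⟨le_of_mul_le_mul_left (by linarith) θ0, le_of_mul_le_mul_left (by linarith) θ0⟩
    · obtain ⟨a, b⟩ := lt _ _ (((single_le_sum p34 hf).trans
        (le_add_of_nonneg_left (sum_nonneg p12))).trans_lt h)
      refine ⟨le_of_mul_le_mul_left (by linarith [mul_le_mul_of_nonneg_left d1 θ0.le]) θ0, ?_⟩
      linarith [mul_le_mul_of_nonneg_left k1 (show 0 ≤ 7 * γ ^ 2 * s by positivity)]
  have main : ∀ t ≤ n, ∃ Al Dm, Good Ev Ts ed Al Dm ∧ Φ t Al Dm < 1 := by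
    intro t
    induction t with
    | zero =>
      refine fun _ => ⟨Ev, ∅, ⟨subset_rfl, ∅, empty_subset _, by simp, by simp,
        fun e he => Or.inl he⟩, ?_⟩
      have e1 : ∀ e ∈ Ev, P1 0 Ev e + P2 0 Ev e ≤ 2 * Real.exp (-(4 / γ)) := fun e he => by
        have e2 : W Ts ed φ Ev e = ∑ t ∈ Ts.filter (fun t => e ∈ ed t), φ t := by
          rw [sum_filter_eq_sum_ind]
          exact sum_congr rfl fun t ht => by
            rw [ind_congr (and_iff_left ((erase_subset _ _).trans (h1 t ht).1))]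
        obtain ⟨a, b⟩ := abs_le.1 (h3 e he)
        have x1 : X 0 Ev e ≤ 1 - γ ^ 3 / 2 := by
          simp only [X, e2, pow_zero, mul_one]
          rw [div_le_iff₀ (by positivity)]
          linarith [mul_le_mul_of_nonneg_left d1 d0.le]
        have x2 : 1 - 3 * γ ^ 3 ≤ X 0 Ev e := by
          simp only [X, e2, pow_zero, mul_one]
          rw [le_div_iff₀ (by positivity)]
          linarith [mul_pos d0 d0]
        rw [two_mul]
        refine add_le_add (Real.exp_le_exp.2 ?_) (Real.exp_le_exp.2 ?_) <;> push_cast <;>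
          linarith [mul_le_mul_of_nonneg_left x1 θ0.le, mul_le_mul_of_nonneg_left x2 θ0.le]
      have e2 : ∀ f ∈ Fs, P3 0 Ev f + P4 0 ∅ f ≤ 2 * Real.exp (-(4 / γ)) := fun f hf => by
        have x1 : Y 0 Ev f ≤ 1 := by
          simp only [Y, pow_zero, mul_one]
          rw [div_le_one s0, inter_eq_right.2 (hZ f hf).1]
          exact (hZ f hf).2
        rw [two_mul]
        refine add_le_add (Real.exp_le_exp.2 ?_) (Real.exp_le_exp.2 (by simp))
        push_cast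
        linarith [mul_le_mul_of_nonneg_left x1 θ0.le]
      refine (add_le_add (sum_le_sum e1) (sum_le_sum e2)).trans_lt ?_
      rw [sum_const, sum_const, nsmul_eq_mul, nsmul_eq_mul]
      have e3 : Real.exp (3 / γ) * Real.exp (-(4 / γ)) * Real.exp (1 / γ) = 1 := by
        rw [← Real.exp_add, ← Real.exp_add, Real.exp_eq_one_iff]
        ring
      have e4 : 100 ≤ Real.exp (1 / γ) := by
        have := Real.add_one_le_exp (1 / γ)
        have : 100 ≤ 1 / γ := by rw [le_div_iff₀ g0]; linarith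
        linarith
      have e5 := Real.exp_pos (-(4 / γ))
      linarith [mul_le_mul_of_nonneg_left e4 (mul_pos (Real.exp_pos (3 / γ)) e5).le,
        mul_le_mul_of_nonneg_right hE e5.le, mul_le_mul_of_nonneg_right hF e5.le]
    | succ t ih =>
      intro ht
      obtain ⟨Al, Dm, G, h⟩ := ih (by omega)
      obtain ⟨b1, b2⟩ := bd t (by omega) Al Dm h
      have q1 : γ ^ 5 ≤ (1 - 2 * c) ^ t :=
        n2.trans (pow_le_pow_of_le_one (by linarith) (by linarith) (by omega))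
      have q0 : 0 < γ ^ 5 := by positivity
      have q2 : γ ^ 5 ≤ (1 + 2 * γ ^ 3) * (1 - 2 * c) ^ t := by
        linarith [mul_nonneg d0.le (q0.le.trans q1)]
      have q3 : γ ^ 5 ≤ (1 - c) ^ t := q1.trans (pow_le_pow_left₀ (by linarith) (by linarith) _)
      have r0 : ∀ q, γ ^ 5 ≤ q → ω / q ≤ γ ^ 15 := fun q hq => by
        rw [div_le_iff₀ (q0.trans_le hq)]
        exact hω.trans ((by ring : γ ^ 20 = γ ^ 15 * γ ^ 5) ▸ by gcongr)
      obtain ⟨ι, S, p, K, D, M⟩ := H.moves (Al := Al) (d := 7 * γ ^ 3 / 2) c0.le (q0.trans_le q2)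
        (by positivity) (by
          have : (Al.card : ℝ) ≤ Ev.card := by exact_mod_cast card_le_card G.1
          linarith [mul_le_mul_of_nonneg_left this c0.le]) (r0 _ q2) fun e he => b1 e (G.1 he)
      have sX : ∀ x, |x| = θ → ∀ e ∈ Ev, ∑ i ∈ S, p i * Real.exp (x * X (t + 1) (Al \ K i) e) ≤
          Real.exp (x * X t Al e + c * γ) := fun x hx e he => by
        simp only [X, pow_succ _ t, ← mul_assoc]
        exact M.stepX H e (q0.trans_le q2) c0.le (by positivity) c1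
          (by rw [mul_div_assoc]; linarith [r0 _ q2]) (b1 e he).2 (t2 x hx).1 (t2 x hx).2
      have sY : ∀ f ∈ Fs, ∑ i ∈ S, p i * Real.exp (θ * Y (t + 1) (Al \ K i) f) ≤
          Real.exp (θ * Y t Al f + c * γ) := fun f hf => by
        simp only [Y, pow_succ _ t, ← mul_assoc]
        refine M.stepY (Z f) (mul_pos s0 (q0.trans_le q3)) c0.le c1 ?_ (b2 f hf).1 (t2 θ a1).1
          (le_trans (le_add_of_nonneg_left (by positivity)) (t2 θ a1).2)
        have := r0 _ q3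
        rw [div_le_iff₀ (q0.trans_le q3)] at this
        rw [div_le_iff₀ (mul_pos s0 (q0.trans_le q3))]
        linarith [mul_le_mul_of_nonneg_right this s0.le]
      have key : ∑ i ∈ S, p i * Φ (t + 1) (Al \ K i) (Dm ∪ D i) ≤ Φ t Al Dm := by
        simp only [Φ, mul_add, mul_sum, sum_add_distrib]
        refine add_le_add (add_le_add ?_ ?_) (add_le_add ?_ ?_) <;> rw [sum_comm] <;>
          refine sum_le_sum fun x hx => pot _ _ t ?_
        exacts [sX θ a1 x hx, sX (-θ) (by rw [abs_neg, a1]) x hx, sY x hx, M.stepN _ _ (by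
          linarith [mul_le_mul_of_nonneg_right (hZ x hx).2 (mul_pos c0 d0).le])]
      obtain ⟨i, hi, h4⟩ := exists_lt_of_sum_lt ((key.trans_lt h).trans_eq M.p1.symm)
      exact ⟨_, _, G.step M hi, lt_of_mul_lt_mul_left (by rwa [mul_one]) (M.p0 i hi)⟩
  obtain ⟨Al, Dm, ⟨-, M, m1, m2, -, m3⟩, h⟩ := main n le_rfl
  refine ⟨M, m1, m2, fun f hf => ?_⟩
  obtain ⟨b1, b2⟩ := (bd n le_rfl Al Dm h).2 f hf
  have e1 : ((Z f \ M.biUnion ed).card : ℝ) ≤ (Al ∩ Z f).card + (Z f ∩ Dm).card := by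
    norm_cast
    refine le_trans (card_le_card fun e he => ?_) (card_union_le _ _)
    have := m3 e ((hZ f hf).1 (mem_sdiff.1 he).1)
    simp only [mem_sdiff, mem_union, mem_inter] at he ⊢
    tauto
  rw [div_le_iff₀ (mul_pos s0 (pow_pos (by linarith) _))] at b1
  have e2 : 4 / γ ≤ γ * s / 5 := by
    rw [div_le_iff₀ g0]
    have e3 : γ ^ 20 * s ≤ γ ^ 2 * (1 / 20) * s := by
      rw [show γ ^ 20 = γ ^ 2 * γ ^ 18 by ring]
      gcongr
      linarith [gp 17]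
    linarith [mul_le_mul_of_nonneg_right hω s0.le]
  linarith [mul_le_mul_of_nonneg_left n1 s0.le, mul_le_mul_of_nonneg_left g1 (mul_pos g0 s0).le]

end Pool.Agent.P.MP_77d020_co.L
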