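import Pool.Agent.P.MP_77d020_co.L.Prob

/-! The `l2` bounds for one round of the correction step. -/

namespace Pool.Agent.P.MP_77d020_co.L

open Finset

namespace RL2P

section general

variable {ι ι' : Type} {s : Finset ι} {f g r e : ι → ℝ} {a b : ℝ}

/-- bound for the Euclidean norm -/
def Bd (s : Finset ι) (f : ι → ℝ) (c : ℝ) : Prop := 0 ≤ c ∧ ∑ i ∈ s, f i ^ 2 ≤ c ^ 2

theorem ssq (s : Finset ι) (f : ι → ℝ) : 0 ≤ ∑ i ∈ s, f i ^ 2 := sum_nonneg fun _ _ => sq_nonneg _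

theorem Bd.sub (hf : Bd s f a) (hg : Bd s g b) : Bd s (fun i => f i - g i) (a + b) := by
  have h1 := sum_mul_sq_le_sq_mul_sq s f g
  have h2 : |∑ i ∈ s, f i * g i| ≤ a * b := abs_le_of_sq_le_sq (h1.trans (by
    rw [mul_pow]
    exact mul_le_mul hf.2 hg.2 (ssq _ _) (sq_nonneg _))) (mul_nonneg hf.1 hg.1)
  have h3 : ∑ i ∈ s, (f i - g i) ^ 2 =
      ∑ i ∈ s, f i ^ 2 - 2 * ∑ i ∈ s, f i * g i + ∑ i ∈ s, g i ^ 2 := by
    simp only [mul_sum, ← sum_add_distrib, ← sum_sub_distrib]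
    exact sum_congr rfl fun i _ => by ring
  refine ⟨add_nonneg hf.1 hg.1, ?_⟩
  have := (abs_le.1 h2).1
  have := hf.2
  have := hg.2
  rw [h3]
  linarith [add_sq a b]

theorem Bd.of_eq (hf : Bd s f a) (h : ∀ i ∈ s, g i = f i) (hab : a ≤ b) : Bd s g b :=
  ⟨hf.1.trans hab, (sum_congr rfl fun i hi => by rw [h i hi]).trans_le
    (hf.2.trans (pow_le_pow_left₀ hf.1 hab 2))⟩

theorem cs {N : ℝ} (he : ∀ i, 0 ≤ e i) (hg : ∀ i, 0 ≤ g i)
    (h : ∀ i ∈ s, r i ^ 2 ≤ e i * g i) (hN : ∑ i ∈ s, e i ≤ N) :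
    (∑ i ∈ s, r i) ^ 2 ≤ N * ∑ i ∈ s, g i :=
  (sum_sq_le_sum_mul_sum_of_sq_le_mul s (fun i _ => he i) (fun i _ => hg i) h).trans
    (mul_le_mul_of_nonneg_right hN (sum_nonneg fun i _ => hg i))

theorem cs1 {N : ℝ} (hg : ∀ i, 0 ≤ g i) (h : ∀ i ∈ s, r i ^ 2 ≤ g i) (hN : (s.card : ℝ) ≤ N) :
    (∑ i ∈ s, r i) ^ 2 ≤ N * ∑ i ∈ s, g i :=
  cs (e := fun _ => 1) (fun _ => zero_le_one) hg (fun i hi => by simpa using h i hi)
    (by simpa using hN)

theorem op {t : Finset ι'} {k : ι → ι' → ℝ} {c : ℝ} (hc : 0 ≤ c)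
    (h : ∀ y : ι' → ℝ, (∑ i ∈ s, ∑ j ∈ t, k i j * y j) ^ 2 ≤ c * ∑ j ∈ t, y j ^ 2) :
    ∑ j ∈ t, (∑ i ∈ s, k i j) ^ 2 ≤ c := by
  have h1 := h fun j => ∑ i ∈ s, k i j
  rw [sum_comm] at h1
  simp only [← sum_mul, ← sq] at h1
  rcases (ssq t fun j => ∑ i ∈ s, k i j).eq_or_lt with h0 | h0
  · rwa [← h0]
  · rw [sq] at h1
    exact le_of_mul_le_mul_right h1 h0

theorem ind_sq_le (E : Prop) (x : ℝ) : (ind E * x) ^ 2 ≤ x ^ 2 := by
  rw [mul_pow, ind_sq]
  exact mul_le_of_le_one_left (sq_nonneg _) (ind_le_one _)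

/-- division by a count which is close to `D` on edges -/
structure Dv (D κ : ℝ) (E : Prop) (a t : ℝ) : Prop where
  d0 : 0 < D
  k0 : 0 ≤ κ
  k1 : κ ≤ 1 / 10 ^ 4
  on : E → |t - D| ≤ κ * D
  off : ¬ E → a = 0

variable {D κ t : ℝ} {E : Prop}

theorem Dv.ind (h : Dv D κ E a t) : ind E * (a / t) = a / t := by
  by_cases hE : E
  · rw [ind_pos hE, one_mul]
  · rw [h.off hE, zero_div, mul_zero]

theorem Dv.inv (h : Dv D κ E a t) (hE : E) : 0 < t ∧ t⁻¹ ≤ 1.001 / D := by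
  have h1 := (abs_le.1 (h.on hE)).1
  have h2 := mul_le_mul_of_nonneg_right h.k1 h.d0.le
  have h3 := h.d0
  have h4 : 0 < t := by linarith
  refine ⟨h4, ?_⟩
  rw [inv_eq_one_div, div_le_div_iff₀ h4 h3]
  linarith

theorem Dv.sq (h : Dv D κ E a t) : (a / t) ^ 2 ≤ (1.001 / D) ^ 2 * a ^ 2 := by
  by_cases hE : E
  · obtain ⟨h1, h2⟩ := h.inv hE
    rw [div_eq_inv_mul, mul_pow]
    gcongr
  · simp [h.off hE]

theorem Dv.sq' (h : Dv D κ E a t) :
    (a / t) ^ 2 ≤ L.ind E * ((1.001 / D) ^ 2 * a ^ 2) := by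
  rw [← h.ind, mul_pow, ind_sq]
  exact mul_le_mul_of_nonneg_left h.sq (ind_nonneg _)

theorem Dv.dif (h : Dv D κ E a t) :
    (a / t - a / D) ^ 2 ≤ L.ind E * ((κ * (1.001 / D)) ^ 2 * a ^ 2) := by
  by_cases hE : E
  · obtain ⟨h1, h2⟩ := h.inv hE
    have h3 := h.d0
    have h4 : a / t - a / D = -((t - D) / D * t⁻¹ * a) := by field_simp; ring
    have h5 : ((t - D) / D) ^ 2 ≤ κ ^ 2 := by
      rw [div_pow, div_le_iff₀ (by positivity), ← mul_pow, ← sq_abs]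
      exact pow_le_pow_left₀ (abs_nonneg _) (h.on hE) 2
    rw [ind_pos hE, one_mul, h4, neg_sq, mul_pow, mul_pow, mul_pow]
    gcongr
  · simp [h.off hE, ind_neg hE]

theorem Dv.dif' (h : Dv D κ E a t) : (a / t - a / D) ^ 2 ≤ (κ * (1.001 / D)) ^ 2 * a ^ 2 :=
  h.dif.trans (mul_le_of_le_one_left (by positivity) (ind_le_one _))

theorem num (hD : 0 < D) (k1 : κ ≤ 1 / 10 ^ 4) :
    (1 + κ) * D * (1.001 / D) ^ 2 ≤ 1.01 ^ 2 / D := by
  have : (1 + κ) * D * (1.001 / D) ^ 2 = (1 + κ) * 1.001 ^ 2 / D := by field_simp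
  rw [this]
  gcongr ?_ / _
  linarith

end general

variable {V : Type} {U W L : Finset V} {H : V → V → Prop} {D p κ : ℝ} {α β c : V → V → ℝ}
  {A P Q : ℝ}

theorem dvA (hB : BC U W L H D p κ) (hb : Bal U W L H α β c) {u w : V} (hu : u ∈ U) (hw : w ∈ W) :
    Dv D κ (H u w) (α u w) (tA L H u w) :=
  ⟨hB.d0, hB.k0, hB.k1, hB.t0 u hu w hw, hb.s0 u hu w hw⟩

theorem dvB (hB : BC U W L H D p κ) (hb : Bal U W L H α β c) {u B : V} (hu : u ∈ U) (hl : B ∈ L) :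
    Dv D κ (H u B) (β u B) (tB W H u B) :=
  ⟨hB.d0, hB.k0, hB.k1, hB.t1 u hu B hl, hb.s1 u hu B hl⟩

theorem dvC (hB : BC U W L H D p κ) (hb : Bal U W L H α β c) {w B : V} (hw : w ∈ W) (hl : B ∈ L) :
    Dv D κ (H w B) (c w B) (tC U H w B) :=
  ⟨hB.d0, hB.k0, hB.k1, hB.t2 w hw B hl, hb.s2 w hw B hl⟩

theorem step1 (hB : BC U W L H D p κ) (hb : Bal U W L H α β fun _ _ => 0) {u : V} (hu : u ∈ U)
    (hP : Bd W (α u) P) (hQ : Bd L (β u) Q) : Bd L (rb1 W L H α β u) (4 * Q + 4 * κ * P) := by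
  have d0 := hB.d0
  have p0 := hB.p0
  have k0 := hB.k0
  have P0 := hP.1
  have Q0 := hQ.1
  have hL : (L.card : ℝ) * p ≤ 3 * D := (le_div_iff₀ p0).1 hB.cL
  have hW : (W.card : ℝ) * p ≤ 2 * D := (le_div_iff₀ p0).1 hB.cW
  have h1 : Bd L (fun B => ∑ w ∈ W, ind (H u w) * ind (H u B) * (ind (H w B) - p) * rx L H α u w)
      (1.001 * κ * P) := by
    refine ⟨by positivity, op (sq_nonneg _) fun y => (hB.o1 u hu _ y).trans ?_⟩
    refine mul_le_mul_of_nonneg_right ?_ (ssq _ _)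
    have : ∑ w ∈ W, rx L H α u w ^ 2 ≤ (1.001 / D) ^ 2 * P ^ 2 :=
      (sum_le_sum fun w hw => (dvA hB hb hu hw).sq).trans (by
        rw [← mul_sum]
        exact mul_le_mul_of_nonneg_left hP.2 (sq_nonneg _))
    exact (mul_le_mul_of_nonneg_left this (sq_nonneg _)).trans_eq (by field_simp)
  have h0 : ∀ x b : ℝ, 0 ≤ b → L.card * (p * x) ^ 2 ≤ b ^ 2 →
      Bd L (fun B => ind (H u B) * (p * x)) b := fun x b h0 h => ⟨h0,
    (sum_le_sum fun B _ => ind_sq_le _ _).trans (by rwa [sum_const, nsmul_eq_mul])⟩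
  have h2 := h0 ((∑ w ∈ W, α u w) / D) (3 * Q) (by positivity) (by
    have a1 : (∑ B ∈ L, β u B) ^ 2 ≤ L.card * Q ^ 2 :=
      (cs1 (fun _ => sq_nonneg _) (fun _ _ => le_rfl) le_rfl).trans
        (mul_le_mul_of_nonneg_left hQ.2 (Nat.cast_nonneg _))
    rw [hb.bU u hu]
    calc _ = L.card * p ^ 2 / D ^ 2 * (∑ B ∈ L, β u B) ^ 2 := by ring
      _ ≤ L.card * p ^ 2 / D ^ 2 * (L.card * Q ^ 2) := by gcongr
      _ = (L.card * p / D * Q) ^ 2 := by ring
      _ ≤ (3 * D / D * Q) ^ 2 := by gcongr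
      _ = _ := by field_simp)
  have h3 := h0 (∑ w ∈ W, (rx L H α u w - α u w / D)) (2.5 * κ * P) (by positivity) (by
    have a1 := cs1 (fun w => by positivity) (fun w hw => (dvA hB hb hu hw).dif') le_rfl
    rw [← mul_sum] at a1
    have a2 := hP.2
    calc _ = L.card * p ^ 2 * (∑ w ∈ W, (α u w / tA L H u w - α u w / D)) ^ 2 := by
          rw [mul_pow, mul_assoc]; rfl
      _ ≤ L.card * p ^ 2 * (W.card * ((κ * (1.001 / D)) ^ 2 * P ^ 2)) := by
          gcongr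
          exact a1.trans (by gcongr)
      _ = L.card * p * (W.card * p) * (κ * (1.001 / D) * P) ^ 2 := by ring
      _ ≤ 3 * D * (2 * D) * (κ * (1.001 / D) * P) ^ 2 := by gcongr
      _ = 6 * 1.001 ^ 2 * (κ * P) ^ 2 := by field_simp; ring
      _ ≤ 2.5 ^ 2 * (κ * P) ^ 2 := by gcongr ?_ * _; norm_num
      _ = _ := by ring)
  refine (((hQ.sub h1).sub h2).sub h3).of_eq (fun B _ => ?_) (by nlinarith [mul_nonneg k0 P0])
  have e : ∑ w ∈ W, ind (H u w) * ind (H u B) * (ind (H w B) - p) * rx L H α u w =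
      ind (H u B) * (∑ w ∈ W, ind (H w B) * rx L H α u w - p * ∑ w ∈ W, rx L H α u w) := by
    rw [mul_sum, ← sum_sub_distrib, mul_sum]
    refine sum_congr rfl fun w hw => ?_
    have := (dvA hB hb hu hw).ind
    unfold rx
    linear_combination ind (H u B) * (ind (H w B) - p) * this
  rw [rb1, e, sum_sub_distrib, ← sum_div]
  ring

theorem step2 (hB : BC U W L H D p κ) (hb : Bal U W L H α β fun _ _ => 0) {w : V} (hw : w ∈ W)
    {a : ℝ} (ha : Bd U (fun u => α u w) a) : Bd L (rc1 U L H α w) (4.1 * κ * a) := by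
  have d0 := hB.d0
  have k0 := hB.k0
  have a0 := ha.1
  have h1 : Bd L (fun B => -∑ u ∈ U, ind (H u w) * ind (H w B) * (ind (H u B) - (1 - p)) *
      rx L H α u w) (1.001 * κ * a) := by
    simp only [Bd, neg_sq]
    refine ⟨by positivity, op (sq_nonneg _) fun y => (hB.o2 w hw _ y).trans ?_⟩
    refine mul_le_mul_of_nonneg_right ?_ (ssq _ _)
    have : ∑ u ∈ U, rx L H α u w ^ 2 ≤ (1.001 / D) ^ 2 * a ^ 2 :=
      (sum_le_sum fun u hu => (dvA hB hb hu hw).sq).trans (by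
        rw [← mul_sum]
        exact mul_le_mul_of_nonneg_left ha.2 (sq_nonneg _))
    exact (mul_le_mul_of_nonneg_left this (sq_nonneg _)).trans_eq (by field_simp)
  have h2 : Bd L (fun B => ind (H w B) * ((1 - p) * ∑ u ∈ U, (rx L H α u w - α u w / D)))
      (3.01 * κ * a) := by
    refine ⟨by positivity, ?_⟩
    have a1 := cs1 (fun u => by positivity) (fun u hu => (dvA hB hb hu hw).dif') hB.cU
    rw [← mul_sum] at a1
    have a2 := ha.2
    have a3 : (1 - p) ^ 2 ≤ 1 := by nlinarith [hB.p0, hB.ph]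
    simp only [mul_pow, ind_sq, ← sum_mul]
    calc _ ≤ 3 * D * (1 * (3 * D * ((κ * (1.001 / D)) ^ 2 * a ^ 2))) := by
          gcongr
          · exact hB.dWL w hw
          · exact a1.trans (by gcongr)
      _ = 9 * 1.001 ^ 2 * (κ ^ 2 * a ^ 2) := by field_simp; ring
      _ ≤ 3.01 ^ 2 * (κ ^ 2 * a ^ 2) := by gcongr ?_ * _; norm_num
      _ = _ := by ring
  refine (h1.sub h2).of_eq (fun B _ => ?_) (by nlinarith [mul_nonneg k0 a0])
  have e : ∑ u ∈ U, ind (H u w) * ind (H w B) * (ind (H u B) - (1 - p)) * rx L H α u w =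
      ind (H w B) * (∑ u ∈ U, ind (H u B) * rx L H α u w - (1 - p) * ∑ u ∈ U, rx L H α u w) := by
    rw [mul_sum, ← sum_sub_distrib, mul_sum]
    refine sum_congr rfl fun u hu => ?_
    have := (dvA hB hb hu hw).ind
    unfold rx
    linear_combination ind (H w B) * (ind (H u B) - (1 - p)) * this
  rw [rc1, e, sum_sub_distrib, ← sum_div, hb.bW w hw, sum_const_zero]
  ring

theorem tri {ι : Type} {s : Finset ι} {E : Prop} {F G : ι → Prop} {y : ι → ℝ} {N : ℝ}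
    (hy : ∀ i ∈ s, ind (G i) * y i = y i) (hN : E → ∑ i ∈ s, ind (G i) * ind (F i) ≤ N) :
    (ind E * ∑ i ∈ s, ind (F i) * y i) ^ 2 ≤ ind E * (N * ∑ i ∈ s, ind (F i) * y i ^ 2) := by
  by_cases hE : E
  · rw [ind_pos hE, one_mul, one_mul]
    refine cs (fun i => mul_nonneg (ind_nonneg _) (ind_nonneg _))
      (fun i => mul_nonneg (ind_nonneg _) (sq_nonneg _)) (fun i hi => le_of_eq ?_) (hN hE)
    linear_combination -ind (F i) * ind (F i) * y i * hy i hi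
  · simp [ind_neg hE]

theorem up {t : ℝ} (h : |t - D| ≤ κ * D) : t ≤ (1 + κ) * D := by linarith [(abs_le.1 h).2]

theorem step3 (hB : BC U W L H D p κ) (hb : Bal U W L H α β c) (w : V) {B : V} (hl : B ∈ L) :
    (ind (H w B) * ∑ u ∈ U, ind (H u w) * (β u B / tB W H u B)) ^ 2 ≤
      ind (H w B) * (1.01 ^ 2 / D * ∑ u ∈ U, β u B ^ 2) := by
  rw [mul_pow, ind_sq]
  refine mul_le_mul_of_nonneg_left ((cs (fun _ => ind_nonneg _) (fun u => by positivity)
    (fun u hu => (ind_sq_le _ _).trans (dvB hB hb hu hl).sq') (hB.dBU B hl)).trans ?_)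
    (ind_nonneg _)
  rw [← mul_sum, ← mul_assoc]
  exact mul_le_mul_of_nonneg_right (num hB.d0 hB.k1) (ssq _ _)

/-- pointwise bound for a sum over the triangles on a cell -/
theorem cell (hB : BC U W L H D p κ) {E : Prop} {F G : V → Prop} {a t : V → ℝ}
    (h : ∀ B ∈ L, Dv D κ (G B) (a B) (t B))
    (hN : E → ∑ B ∈ L, ind (G B) * ind (F B) ≤ (1 + κ) * D) :
    (ind E * ∑ B ∈ L, ind (F B) * (a B / t B)) ^ 2 ≤ 1.01 ^ 2 / D * ∑ B ∈ L, a B ^ 2 := by
  have d0 := hB.d0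
  have k0 := hB.k0
  refine (tri (fun B hl => (h B hl).ind) hN).trans ((mul_le_of_le_one_left (mul_nonneg
    (by positivity) (sum_nonneg fun _ _ => mul_nonneg (ind_nonneg _) (sq_nonneg _)))
    (ind_le_one _)).trans ?_)
  refine (mul_le_mul_of_nonneg_left (sum_le_sum fun B hl =>
    (mul_le_of_le_one_left (sq_nonneg _) (ind_le_one _)).trans (h B hl).sq) (by positivity)).trans ?_
  rw [← mul_sum, ← mul_assoc]
  exact mul_le_mul_of_nonneg_right (num hB.d0 hB.k1) (ssq _ _)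

theorem step4 (hB : BC U W L H D p κ) (hb : Bal U W L H α β c) {u : V} (hu : u ∈ U) {b : ℝ}
    (h : Bd L (β u) b) :
    Bd W (fun w => -(ind (H u w) * ∑ B ∈ L, ind (H w B) * (β u B / tB W H u B))) (1.01 * b) := by
  have d0 := hB.d0
  have k0 := hB.k0
  have k1 := hB.k1
  have b0 := h.1
  simp only [Bd, neg_sq]
  refine ⟨by positivity, (sum_le_sum fun w hw => tri (fun B hl => (dvB hB hb hu hl).ind)
    fun hE => up (hB.t0 u hu w hw hE)).trans ?_⟩
  have e : ∑ w ∈ W, ind (H u w) * ((1 + κ) * D * ∑ B ∈ L, ind (H w B) * (β u B / tB W H u B) ^ 2) =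
      (1 + κ) * D * ∑ B ∈ L, tB W H u B * (β u B / tB W H u B) ^ 2 := by
    simp only [mul_left_comm (ind (H u _))]
    rw [← mul_sum]
    congr 1
    simp only [mul_sum, ← mul_assoc]
    rw [sum_comm]
    exact sum_congr rfl fun B _ => (sum_mul _ _ _).symm
  have a1 : ∀ B ∈ L, tB W H u B * (β u B / tB W H u B) ^ 2 ≤
      (1 + κ) * D * (1.001 / D) ^ 2 * β u B ^ 2 := fun B hl => by
    by_cases hE : H u B
    · rw [mul_assoc]
      exact mul_le_mul (up (hB.t1 u hu B hl hE)) (dvB hB hb hu hl).sq (sq_nonneg _) (by positivity)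
    · simp [hb.s1 u hu B hl hE]
  have a2 := h.2
  rw [e]
  calc _ ≤ (1 + κ) * D * ∑ B ∈ L, (1 + κ) * D * (1.001 / D) ^ 2 * β u B ^ 2 :=
        mul_le_mul_of_nonneg_left (sum_le_sum a1) (by positivity)
    _ ≤ (1 + κ) * D * ((1 + κ) * D * (1.001 / D) ^ 2 * b ^ 2) := by
        rw [← mul_sum]
        gcongr
    _ = ((1 + κ) * 1.001 * b) ^ 2 := by field_simp
    _ ≤ _ := by
        gcongr
        linarith

theorem step6 (hB : BC U W L H D p κ) (hb : Bal U W L H α (fun _ _ => 0) c) {u B : V} (hu : u ∈ U)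
    (hl : B ∈ L) : (ind (H u B) * ∑ w ∈ W, ind (H u w) * (c w B / tC U H w B)) ^ 2 ≤
      κ * 1.2 ^ 2 / D * ∑ w ∈ W, c w B ^ 2 := by
  have d0 := hB.d0
  have k0 := hB.k0
  have k1 := hB.k1
  have R0 := ssq W fun w => c w B
  by_cases hE : H u B
  swap
  · rw [ind_neg hE, zero_mul, sq, zero_mul]
    positivity
  have a1 := cs (fun _ => ind_nonneg _) (fun w => by positivity)
    (fun w hw => (dvC hB hb hw hl).dif) (hB.dBW B hl)
  have a2 := cs (r := fun w => (1 - ind (H u w)) * (c w B / tC U H w B))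
    (g := fun w => (1.001 / D) ^ 2 * c w B ^ 2)
    (fun w => mul_nonneg (ind_nonneg _) (sub_nonneg.2 (ind_le_one _))) (fun w => by positivity)
    (fun w hw => by
      rw [← ind_not, mul_pow, ind_sq, mul_comm (ind (H w B)), mul_assoc]
      exact mul_le_mul_of_nonneg_left (dvC hB hb hw hl).sq' (ind_nonneg _)) (hB.m3 u hu B hl hE)
  have e : ∑ w ∈ W, ind (H u w) * (c w B / tC U H w B) =
      ∑ w ∈ W, (c w B / tC U H w B - c w B / D) -
        ∑ w ∈ W, (1 - ind (H u w)) * (c w B / tC U H w B) := by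
    simp only [sub_mul, one_mul, sum_sub_distrib, ← sum_div, ← hb.bL B hl, sum_const_zero]
    ring
  rw [← mul_sum] at a1 a2
  rw [ind_pos hE, one_mul, e]
  generalize ∑ w ∈ W, (c w B / tC U H w B - c w B / D) = x at a1 ⊢
  generalize ∑ w ∈ W, (1 - ind (H u w)) * (c w B / tC U H w B) = y at a2 ⊢
  generalize ∑ w ∈ W, c w B ^ 2 = R at a1 a2 R0 ⊢
  calc (x - y) ^ 2 ≤ 5 * x ^ 2 + 1.25 * y ^ 2 := by nlinarith [sq_nonneg (2 * x + y / 2)]
    _ ≤ 5 * ((1 + κ) * D * ((κ * (1.001 / D)) ^ 2 * R)) +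
        1.25 * (κ * D * ((1.001 / D) ^ 2 * R)) := by gcongr
    _ = (5 * (1 + κ) * κ + 1.25) * 1.001 ^ 2 * (κ / D * R) := by field_simp
    _ ≤ 1.2 ^ 2 * (κ / D * R) := by
        gcongr ?_ * _
        nlinarith
    _ = _ := by ring

end RL2P

open RL2P in
theorem rl2 (h : S_RAlg) : S_RL2 := by
  intro V U W L H D p κ α β A P Q hB hb A0 P0 Q0 hA hP hQ
  obtain ⟨b1, b2, -, -⟩ := h V U W L H D p κ α β hB hb
  have d0 := hB.d0
  have k0 := hB.k0
  have k1 := hB.k1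
  obtain ⟨b, hb'⟩ : ∃ b, b = 4 * Q + 4 * κ * P := ⟨_, rfl⟩
  have b0 : 0 ≤ b := by rw [hb']; positivity
  have s1 : ∀ u ∈ U, Bd L (rb1 W L H α β u) b := fun u hu =>
    hb' ▸ step1 hB hb hu ⟨P0, hP u hu⟩ ⟨Q0, hQ u hu⟩
  obtain ⟨r, hr⟩ : ∃ r, r = √D := ⟨_, rfl⟩
  have r0 : 0 < r := hr ▸ Real.sqrt_pos.2 d0
  have r2 : D = r ^ 2 := by rw [hr, Real.sq_sqrt d0.le]
  have hU : ∀ {f : V → ℝ} {x : ℝ}, 0 ≤ x → (∀ u ∈ U, f u ≤ x) → ∑ u ∈ U, f u ≤ 3 * D * x :=
    fun h0 hf => (sum_le_card_nsmul _ _ _ hf).trans (by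
      rw [nsmul_eq_mul]
      exact mul_le_mul_of_nonneg_right hB.cU h0)
  have F1 : Bd (W ×ˢ L) (fun q => rc1 U L H α q.1 q.2) (7.2 * κ * r * P) := by
    refine ⟨by positivity, ?_⟩
    have a1 : ∀ w ∈ W, ∑ B ∈ L, rc1 U L H α w B ^ 2 ≤ (4.1 * κ) ^ 2 * ∑ u ∈ U, α u w ^ 2 :=
      fun w hw => (step2 hB hb hw ⟨Real.sqrt_nonneg _, (Real.sq_sqrt (ssq _ _)).ge⟩).2.trans_eq
        (by rw [mul_pow, Real.sq_sqrt (ssq _ _)])
    rw [sum_product]
    refine (sum_le_sum a1).trans ?_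
    rw [← mul_sum, sum_comm]
    refine (mul_le_mul_of_nonneg_left (hU (sq_nonneg _) hP) (sq_nonneg _)).trans ?_
    rw [r2]
    nlinarith [sq_nonneg (κ * r * P)]
  have R1 : ∀ w ∈ W, Bd L (rc1 U L H α w) (4.1 * κ * (1.75 * r * A)) := fun w hw =>
    step2 hB hb hw ⟨by positivity, (hU (sq_nonneg A) fun u hu =>
      sq_le_sq' (abs_le.1 (hA u hu w hw)).1 (abs_le.1 (hA u hu w hw)).2).trans (by
        rw [r2]
        nlinarith [sq_nonneg (r * A)])⟩
  have T : ∑ B ∈ L, 1.01 ^ 2 / D * ∑ u ∈ U, rb1 W L H α β u B ^ 2 ≤ 3.1 * b ^ 2 := by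
    rw [← mul_sum, sum_comm]
    refine (mul_le_mul_of_nonneg_left (hU (sq_nonneg _) fun u hu => (s1 u hu).2)
      (by positivity)).trans ?_
    rw [show 1.01 ^ 2 / D * (3 * D * b ^ 2) = 1.01 ^ 2 * 3 * b ^ 2 by field_simp]
    nlinarith [sq_nonneg b]
  have M : ∀ w, Bd L (fun B => ind (H w B) * ∑ u ∈ U, ind (H u w) * ry W L H α β u B) (1.8 * b) :=
    fun w => ⟨by positivity, (sum_le_sum fun B hl => (step3 hB b1 w hl).trans
      (mul_le_of_le_one_left (mul_nonneg (by positivity) (ssq _ _)) (ind_le_one _))).trans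
      (T.trans (by nlinarith [sq_nonneg b]))⟩
  have FM : Bd (W ×ˢ L) (fun q => ind (H q.1 q.2) * ∑ u ∈ U, ind (H u q.1) * ry W L H α β u q.2)
      (1.8 * r * b) := by
    refine ⟨by positivity, ?_⟩
    rw [sum_product_right]
    refine (sum_le_sum fun B hl => (sum_le_sum fun w _ => step3 hB b1 w hl).trans
      ((sum_mul _ _ _).symm.trans_le (mul_le_mul_of_nonneg_right (hB.dBW B hl)
        (mul_nonneg (by positivity) (ssq _ _))))).trans ?_
    rw [← mul_sum]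
    refine (mul_le_mul_of_nonneg_left T (by positivity)).trans ?_
    rw [r2]
    nlinarith [sq_nonneg (r * b), mul_le_mul_of_nonneg_right k1 (sq_nonneg (r * b))]
  obtain ⟨G, hG⟩ : ∃ G, G = 7.2 * κ * P + 1.8 * b := ⟨_, rfl⟩
  have G0 : 0 ≤ G := by rw [hG]; positivity
  have F2 : ∑ w ∈ W, ∑ B ∈ L, rc2 U W L H α β w B ^ 2 ≤ D * G ^ 2 := by
    have := (F1.sub FM).2
    rw [sum_product] at this
    exact this.trans_eq (by rw [r2, hG]; ring)
  have hn : ∀ u ∈ U, ∀ w ∈ W, (ind (H u w) * ∑ B ∈ L, ind (H u B) * rz U W L H α β w B) ^ 2 ≤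
      1.01 ^ 2 / D * ∑ B ∈ L, rc2 U W L H α β w B ^ 2 := fun u hu w hw =>
    cell hB (fun B hl => dvC hB b2 hw hl) fun hE => by
      simpa only [tA, mul_comm] using up (hB.t0 u hu w hw hE)
  have kP := mul_nonneg k0 P0
  refine ⟨fun u hu => ?_, fun u hu => ?_, fun u hu w hw => ?_⟩
  · have a1 : Bd W (fun w => ind (H u w) * ∑ B ∈ L, ind (H u B) * rz U W L H α β w B) (1.01 * G) :=
      ⟨by positivity, (sum_le_sum (hn u hu)).trans (by
        rw [← mul_sum]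
        exact (mul_le_mul_of_nonneg_left F2 (by positivity)).trans_eq (by field_simp))⟩
    exact (((step4 hB b1 hu (s1 u hu)).sub a1).of_eq (fun w _ => rfl) (by linarith)).2
  · simp only [rb3, neg_sq]
    refine (sum_le_sum fun B hl => step6 hB b2 hu hl).trans ?_
    rw [← mul_sum, sum_comm]
    refine (mul_le_mul_of_nonneg_left F2 (by positivity)).trans ?_
    rw [show κ * 1.2 ^ 2 / D * (D * G ^ 2) = κ * (1.2 * G) ^ 2 by field_simp]
    gcongr
    linarith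
  · have a1 : |ra2 W L H α β u w| ≤ 1.01 * b / r := by
      refine abs_le_of_sq_le_sq ?_ (by positivity)
      rw [ra2, neg_sq]
      refine (cell hB (fun B hl => dvB hB b1 hu hl) fun hE => up (hB.t0 u hu w hw hE)).trans ?_
      exact (mul_le_mul_of_nonneg_left (s1 u hu).2 (by positivity)).trans_eq
        (by rw [r2]; field_simp)
    have a2 : |ind (H u w) * ∑ B ∈ L, ind (H u B) * rz U W L H α β w B| ≤
        1.01 * (4.1 * κ * (1.75 * A) + 1.8 * (b / r)) := by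
      refine abs_le_of_sq_le_sq ((hn u hu w hw).trans ?_) (by positivity)
      exact (mul_le_mul_of_nonneg_left ((R1 w hw).sub (M w)).2 (by positivity)).trans_eq
        (by rw [r2]; field_simp)
    have a3 := abs_sub (ra2 W L H α β u w)
      (ind (H u w) * ∑ B ∈ L, ind (H u B) * rz U W L H α β w B)
    have a4 : 0 ≤ b / r := by positivity
    have a5 := mul_nonneg k0 A0
    rw [← hb', ← hr, ra3, mul_div_assoc]
    rw [mul_div_assoc] at a1
    linarith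

end Pool.Agent.P.MP_77d020_co.L
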