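import Pool.Agent.P.MP_77d020_co.L.Prob

/-! One round of pushes: algebra and sup bounds. -/

namespace Pool.Agent.P.MP_77d020_co.L

open Finset

namespace RSupP

section Div

variable {P : Prop} {r t D κ M : ℝ}

theorem ind_div (h0 : ¬ P → r = 0) : ind P * (r / t) = r / t := by
  by_cases h : P
  · rw [ind_pos h, one_mul]
  · rw [h0 h, zero_div, mul_zero]

theorem t_pos (hD : 0 < D) (k1 : κ ≤ 1 / 10 ^ 4) (h : |t - D| ≤ κ * D) : 0 < t := by
  have := (abs_le.1 h).1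
  nlinarith

theorem div_mul (hD : 0 < D) (k1 : κ ≤ 1 / 10 ^ 4) (h0 : ¬ P → r = 0)
    (h1 : P → |t - D| ≤ κ * D) : r / t * t = r := by
  by_cases h : P
  · exact div_mul_cancel₀ _ (t_pos hD k1 (h1 h)).ne'
  · rw [h0 h, zero_div, zero_mul]

theorem div_near (hD : 0 < D) (k1 : κ ≤ 1 / 10 ^ 4) (h0 : ¬ P → r = 0)
    (h1 : P → |t - D| ≤ κ * D) : |D * (r / t) - r| ≤ κ * (D * |r / t|) := by
  by_cases h : P
  · have e : D * (r / t) - r = (D - t) * (r / t) := by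
      rw [sub_mul, mul_comm t, div_mul hD k1 h0 h1]
    rw [e, abs_mul, abs_sub_comm, ← mul_assoc]
    exact mul_le_mul_of_nonneg_right (h1 h) (abs_nonneg _)
  · simp [h0 h]

theorem div_bd (hD : 0 < D) (k0 : 0 ≤ κ) (k1 : κ ≤ 1 / 10 ^ 4) (h0 : ¬ P → r = 0)
    (h1 : P → |t - D| ≤ κ * D) (hM : |r| ≤ M) : D * |r / t| ≤ ind P * ((1 + 2 * κ) * M) := by
  by_cases h : P
  · rw [ind_pos h, one_mul]
    have h2 := div_near hD k1 h0 h1
    have h3 : D * |r / t| ≤ |D * (r / t) - r| + |r| := by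
      rw [← abs_of_pos hD, ← abs_mul, abs_of_pos hD]
      have := abs_add_le (D * (r / t) - r) r
      rwa [sub_add_cancel] at this
    have h4 : 0 ≤ D * |r / t| := by positivity
    generalize D * |r / t| = X at *
    have h5 : (1 - κ) * X ≤ M := by linarith
    have h6 : (1 + 2 * κ) * ((1 - κ) * X) ≤ (1 + 2 * κ) * M := by gcongr
    have h7 : 0 ≤ κ * (1 - 2 * κ) * X := by
      have : 0 ≤ 1 - 2 * κ := by linarith
      positivity
    nlinarith
  · simp [h0 h, ind_neg h]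

theorem ind_mul_bd {X : ℝ} (hM : 0 ≤ M) (h : P → |X| ≤ M) : |ind P * X| ≤ M := by
  by_cases hP : P
  · rw [ind_pos hP, one_mul]; exact h hP
  · rw [ind_neg hP, zero_mul, abs_zero]; exact hM

end Div

section Sums

variable {V : Type} {S : Finset V} {x r g h : V → ℝ} {D κ M N N1 N2 R : ℝ}

theorem sum_bd (hD : 0 < D) (hM : 0 ≤ M) (hx : ∀ i ∈ S, D * |x i| ≤ g i * M)
    (hh : ∀ i ∈ S, 0 ≤ h i) (hN : ∑ i ∈ S, h i * g i ≤ N * D) :
    |∑ i ∈ S, h i * x i| ≤ N * M := by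
  refine le_of_mul_le_mul_left ?_ hD
  calc D * |∑ i ∈ S, h i * x i| ≤ D * ∑ i ∈ S, |h i * x i| := by
        gcongr; exact abs_sum_le_sum_abs _ _
    _ = ∑ i ∈ S, h i * (D * |x i|) := by
        rw [mul_sum]
        exact sum_congr rfl fun i hi => by rw [abs_mul, abs_of_nonneg (hh i hi)]; ring
    _ ≤ ∑ i ∈ S, h i * (g i * M) :=
        sum_le_sum fun i hi => mul_le_mul_of_nonneg_left (hx i hi) (hh i hi)
    _ = (∑ i ∈ S, h i * g i) * M := by
        rw [sum_mul]; exact sum_congr rfl fun i _ => by ring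
    _ ≤ N * D * M := by gcongr
    _ = D * (N * M) := by ring

theorem sum_bd2 (hD : 0 < D) (k0 : 0 ≤ κ) (hM : 0 ≤ M) (hx : ∀ i ∈ S, D * |x i| ≤ g i * M)
    (hr : ∀ i ∈ S, |D * x i - r i| ≤ κ * (D * |x i|)) (hh : ∀ i ∈ S, h i ≤ 1)
    (h1 : ∑ i ∈ S, g i ≤ N1 * D) (h2 : ∑ i ∈ S, g i * (1 - h i) ≤ N2 * D)
    (hR : |∑ i ∈ S, r i| ≤ R * D) : |∑ i ∈ S, h i * x i| ≤ R + (κ * N1 + N2) * M := by
  have a1 : |∑ i ∈ S, (1 - h i) * x i| ≤ N2 * M :=
    sum_bd hD hM hx (fun i hi => by linarith [hh i hi])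
      (by simpa only [mul_comm] using h2)
  have a2 : |∑ i ∈ S, (D * x i - r i)| ≤ κ * (N1 * D * M) :=
    calc |∑ i ∈ S, (D * x i - r i)| ≤ ∑ i ∈ S, |D * x i - r i| := abs_sum_le_sum_abs _ _
      _ ≤ ∑ i ∈ S, κ * (g i * M) :=
          sum_le_sum fun i hi => (hr i hi).trans (mul_le_mul_of_nonneg_left (hx i hi) k0)
      _ = κ * ((∑ i ∈ S, g i) * M) := by rw [← mul_sum, sum_mul]
      _ ≤ κ * (N1 * D * M) := by gcongr
  have a3 : |∑ i ∈ S, x i| ≤ R + κ * N1 * M := by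
    refine le_of_mul_le_mul_left ?_ hD
    have e : D * ∑ i ∈ S, x i = ∑ i ∈ S, (D * x i - r i) + ∑ i ∈ S, r i := by
      rw [sum_sub_distrib, mul_sum]; ring
    have := abs_add_le (∑ i ∈ S, (D * x i - r i)) (∑ i ∈ S, r i)
    rw [← e, abs_mul, abs_of_pos hD] at this
    linarith
  have e : ∑ i ∈ S, h i * x i = ∑ i ∈ S, x i - ∑ i ∈ S, (1 - h i) * x i := by
    rw [← sum_sub_distrib]; exact sum_congr rfl fun i _ => by ring
  have := abs_sub (∑ i ∈ S, x i) (∑ i ∈ S, (1 - h i) * x i)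
  rw [e]
  linarith

end Sums

variable {V : Type} {U W L : Finset V} {H : V → V → Prop} {D p κ : ℝ}

/-- indicator of a triangle -/
noncomputable def T (H : V → V → Prop) (u w B : V) : ℝ := ind (H u w) * ind (H u B) * ind (H w B)

/-- the correction equations on all pairs -/
structure Full (U W L : Finset V) (H : V → V → Prop) (ψ : V → V → V → ℝ)
    (α β c α' β' c' : V → V → ℝ) : Prop where
  c0 : ∀ u ∈ U, ∀ w ∈ W, α' u w = α u w - ∑ B ∈ L, T H u w B * ψ u w B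
  c1 : ∀ u ∈ U, ∀ B ∈ L, β' u B = β u B - ∑ w ∈ W, T H u w B * ψ u w B
  c2 : ∀ w ∈ W, ∀ B ∈ L, c' w B = c w B - ∑ u ∈ U, T H u w B * ψ u w B

variable {ψ ψ' : V → V → V → ℝ} {α β c α' β' c' α'' β'' c'' : V → V → ℝ}

theorem Full.bal (h : Full U W L H ψ α β c α' β' c') (b : Bal U W L H α β c) :
    Bal U W L H α' β' c' := by
  refine ⟨fun u hu w hw n => ?_, fun u hu B hB n => ?_, fun w hw B hB n => ?_,
    fun u hu => ?_, fun w hw => ?_, fun B hB => ?_⟩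
  · simp [h.c0 u hu w hw, b.s0 u hu w hw n, T, ind_neg n]
  · simp [h.c1 u hu B hB, b.s1 u hu B hB n, T, ind_neg n]
  · simp [h.c2 w hw B hB, b.s2 w hw B hB n, T, ind_neg n]
  · rw [sum_congr rfl (h.c0 u hu), sum_congr rfl (h.c1 u hu), sum_sub_distrib, sum_sub_distrib,
      b.bU u hu, sum_comm]
  · rw [sum_congr rfl fun u hu => h.c0 u hu w hw, sum_congr rfl (h.c2 w hw), sum_sub_distrib,
      sum_sub_distrib, b.bW w hw, sum_comm]
  · rw [sum_congr rfl fun u hu => h.c1 u hu B hB, sum_congr rfl fun w hw => h.c2 w hw B hB,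
      sum_sub_distrib, sum_sub_distrib, b.bL B hB, sum_comm]

theorem Full.add (h : Full U W L H ψ α β c α' β' c') (h' : Full U W L H ψ' α' β' c' α'' β'' c'') :
    Full U W L H (fun u w B => ψ u w B + ψ' u w B) α β c α'' β'' c'' := by
  refine ⟨fun u hu w hw => ?_, fun u hu B hB => ?_, fun w hw B hB => ?_⟩
  · simp only [h'.c0 u hu w hw, h.c0 u hu w hw, mul_add, sum_add_distrib]; ring
  · simp only [h'.c1 u hu B hB, h.c1 u hu B hB, mul_add, sum_add_distrib]; ring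
  · simp only [h'.c2 w hw B hB, h.c2 w hw B hB, mul_add, sum_add_distrib]; ring

theorem Full.cor (h : Full U W L H ψ α β c α' β' c') : Cor U W L H ψ α β c α' β' c' := by
  refine ⟨fun u hu w hw e => ?_, fun u hu B hB e => ?_, fun w hw B hB e => ?_⟩
  · simp only [h.c0 u hu w hw, T, ind_pos e, one_mul]
  · simp only [h.c1 u hu B hB, T, ind_pos e, mul_one]
  · simp only [h.c2 w hw B hB, T, ind_pos e, mul_one]

theorem full1 (hb : BC U W L H D p κ) (b : Bal U W L H α β fun _ _ => 0) :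
    Full U W L H (fun u w _ => rx L H α u w) α β (fun _ _ => 0) (fun _ _ => 0)
      (rb1 W L H α β) (rc1 U L H α) := by
  have hi : ∀ u ∈ U, ∀ w ∈ W, ind (H u w) * rx L H α u w = rx L H α u w :=
    fun u hu w hw => ind_div (b.s0 u hu w hw)
  refine ⟨fun u hu w hw => ?_, fun u hu B _ => ?_, fun w hw B _ => ?_⟩
  · have h1 : rx L H α u w * tA L H u w = α u w :=
      div_mul hb.d0 hb.k1 (b.s0 u hu w hw) (hb.t0 u hu w hw)
    rw [← h1, tA, mul_sum, eq_comm, sub_eq_zero]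
    refine sum_congr rfl fun B _ => ?_
    rw [T]; linear_combination -(ind (H u B) * ind (H w B)) * hi u hu w hw
  · rw [rb1, mul_sum]
    congr 1
    refine sum_congr rfl fun w hw => ?_
    rw [T]; linear_combination -(ind (H u B) * ind (H w B)) * hi u hu w hw
  · rw [rc1, mul_sum, zero_sub]
    congr 1
    refine sum_congr rfl fun u hu => ?_
    rw [T]; linear_combination -(ind (H u B) * ind (H w B)) * hi u hu w hw

theorem full2 (hb : BC U W L H D p κ) (b : Bal U W L H α β fun _ _ => 0) :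
    Full U W L H (fun u _ B => ry W L H α β u B) (fun _ _ => 0) (rb1 W L H α β) (rc1 U L H α)
      (ra2 W L H α β) (fun _ _ => 0) (rc2 U W L H α β) := by
  have b1 := (full1 hb b).bal b
  have hi : ∀ u ∈ U, ∀ B ∈ L, ind (H u B) * ry W L H α β u B = ry W L H α β u B :=
    fun u hu B hB => ind_div (b1.s1 u hu B hB)
  refine ⟨fun u hu w _ => ?_, fun u hu B hB => ?_, fun w _ B hB => ?_⟩
  · rw [ra2, mul_sum, zero_sub]
    congr 1
    refine sum_congr rfl fun B hB => ?_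
    rw [T]; linear_combination -(ind (H u w) * ind (H w B)) * hi u hu B hB
  · have h1 : ry W L H α β u B * tB W H u B = rb1 W L H α β u B :=
      div_mul hb.d0 hb.k1 (b1.s1 u hu B hB) (hb.t1 u hu B hB)
    rw [← h1, tB, mul_sum, eq_comm, sub_eq_zero]
    refine sum_congr rfl fun w _ => ?_
    rw [T]; linear_combination -(ind (H u w) * ind (H w B)) * hi u hu B hB
  · rw [rc2, mul_sum]
    congr 1
    refine sum_congr rfl fun u hu => ?_
    rw [T]; linear_combination -(ind (H u w) * ind (H w B)) * hi u hu B hB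

theorem full3 (hb : BC U W L H D p κ) (b : Bal U W L H α β fun _ _ => 0) :
    Full U W L H (fun _ w B => rz U W L H α β w B) (ra2 W L H α β) (fun _ _ => 0)
      (rc2 U W L H α β) (ra3 U W L H α β) (rb3 U W L H α β) (fun _ _ => 0) := by
  have b2 := (full2 hb b).bal ((full1 hb b).bal b)
  have hi : ∀ w ∈ W, ∀ B ∈ L, ind (H w B) * rz U W L H α β w B = rz U W L H α β w B :=
    fun w hw B hB => ind_div (b2.s2 w hw B hB)
  refine ⟨fun u _ w hw => ?_, fun u _ B hB => ?_, fun w hw B hB => ?_⟩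
  · rw [ra3, mul_sum]
    congr 1
    refine sum_congr rfl fun B hB => ?_
    rw [T]; linear_combination -(ind (H u w) * ind (H u B)) * hi w hw B hB
  · rw [rb3, mul_sum, zero_sub]
    congr 1
    refine sum_congr rfl fun w hw => ?_
    rw [T]; linear_combination -(ind (H u w) * ind (H u B)) * hi w hw B hB
  · have h1 : rz U W L H α β w B * tC U H w B = rc2 U W L H α β w B :=
      div_mul hb.d0 hb.k1 (b2.s2 w hw B hB) (hb.t2 w hw B hB)
    rw [← h1, tC, mul_sum, eq_comm, sub_eq_zero]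
    refine sum_congr rfl fun u _ => ?_
    rw [T]; linear_combination -(ind (H u w) * ind (H u B)) * hi w hw B hB

section Num

variable {A a : ℝ}

theorem num1 (k0 : 0 ≤ κ) (k1 : κ ≤ 1 / 10 ^ 4) (hA : 0 ≤ A) :
    (1 + κ) * ((1 + 2 * κ) * A) ≤ (1 + 4 * κ) * A := by
  rw [← mul_assoc]; gcongr; nlinarith

theorem num2 (ph : p ≤ 1 / 2) (k0 : 0 ≤ κ) (k1 : κ ≤ 1 / 10 ^ 4) (hA : 0 ≤ A) :
    0 + (κ * 3 + (2 * p + κ)) * ((1 + 2 * κ) * A) ≤ (2 * p + 7 * κ) * A := by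
  rw [zero_add, ← mul_assoc]; gcongr; nlinarith

theorem num3 (ph : p ≤ 1 / 2) (k0 : 0 ≤ κ) (k1 : κ ≤ 1 / 10 ^ 4) (hA : 0 ≤ A) (ha : 0 ≤ a) :
    (2 * p + 7 * κ) * A + ((1 + κ) * ((2 * p + 7 * κ) * A) +
      (κ * (1 + κ) + κ) * ((1 + 2 * κ) * (a + (1 + 4 * κ) * A))) ≤
      (4 * p + 18 * κ) * A + 2.1 * κ * a := by
  have h1 : (κ * (1 + κ) + κ) * (1 + 2 * κ) ≤ 2.1 * κ := by nlinarith [mul_nonneg k0 k0]
  have h2 : (κ * (1 + κ) + κ) * ((1 + 2 * κ) * (a + (1 + 4 * κ) * A)) ≤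
      2.1 * κ * (a + (1 + 4 * κ) * A) := by
    rw [← mul_assoc]; gcongr
  have h3 : (2 * p + 7 * κ) + (1 + κ) * (2 * p + 7 * κ) + 2.1 * κ * (1 + 4 * κ) ≤
      4 * p + 18 * κ := by nlinarith
  nlinarith [mul_le_mul_of_nonneg_right h3 hA]

theorem num4 (ph : p ≤ 1 / 2) (k0 : 0 ≤ κ) (k1 : κ ≤ 1 / 10 ^ 4) (hA : 0 ≤ A) (ha : 0 ≤ a) :
    (1 + κ) * ((1 + 2 * κ) * (a + (1 + 4 * κ) * A)) +
      (1 + κ) * ((1 + 2 * κ) * ((4 * p + 18 * κ) * A + 2.1 * κ * a)) ≤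
      (1 + 4 * p + 40 * κ) * A + (1 + 6 * κ) * a := by
  have h0 : κ * κ ≤ κ / 10 ^ 4 := by nlinarith
  have h0' : κ * κ * κ ≤ κ / 10 ^ 4 := by nlinarith [mul_nonneg k0 k0]
  have h1 : (1 + κ) * (1 + 2 * κ) * (1 + 2.1 * κ) ≤ 1 + 6 * κ := by nlinarith
  have h2 : (1 + κ) * (1 + 2 * κ) * (1 + 4 * p + 22 * κ) ≤ 1 + 4 * p + 40 * κ := by
    nlinarith [mul_le_mul_of_nonneg_left ph k0, mul_le_mul_of_nonneg_left ph (mul_nonneg k0 k0)]
  nlinarith [mul_le_mul_of_nonneg_right h1 ha, mul_le_mul_of_nonneg_right h2 hA]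

theorem num5 (p0 : 0 < p) (ph : p ≤ 1 / 2) (k0 : 0 ≤ κ) (k1 : κ ≤ 1 / 10 ^ 4) (hA : 0 ≤ A)
    (ha : 0 ≤ a) :
    0 + (κ * (1 + κ) + κ) * ((1 + 2 * κ) * ((4 * p + 18 * κ) * A + 2.1 * κ * a)) ≤
      5 * κ * (A + a) := by
  have h1 : (κ * (1 + κ) + κ) * (1 + 2 * κ) ≤ 2.1 * κ := by nlinarith [mul_nonneg k0 k0]
  have h2 : (4 * p + 18 * κ) * A + 2.1 * κ * a ≤ 2.1 * (A + a) := by nlinarith
  rw [zero_add, ← mul_assoc]
  calc _ ≤ 2.1 * κ * (2.1 * (A + a)) := by gcongr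
    _ ≤ _ := by nlinarith [mul_nonneg k0 (add_nonneg hA ha)]

theorem num6 (ph : p ≤ 1 / 2) (k0 : 0 ≤ κ) (k1 : κ ≤ 1 / 10 ^ 4) (hA : 0 ≤ A) (ha : 0 ≤ a) :
    (1 + 2 * κ) * A + (1 + 2 * κ) * (a + (1 + 4 * κ) * A) +
      (1 + 2 * κ) * ((4 * p + 18 * κ) * A + 2.1 * κ * a) ≤ 5 * (A + a) := by
  have h1 : (1 + 2 * κ) * (1 + 2.1 * κ) ≤ 5 := by nlinarith
  have h2 : (1 + 2 * κ) * (2 + 4 * p + 22 * κ) ≤ 5 := by nlinarith
  nlinarith [mul_le_mul_of_nonneg_right h1 ha, mul_le_mul_of_nonneg_right h2 hA]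

end Num

end RSupP

open RSupP

theorem ralg : S_RAlg := by
  intro V U W L H D p κ α β hb b
  have f1 := full1 hb b
  have f2 := full2 hb b
  have f3 := full3 hb b
  exact ⟨f1.bal b, f2.bal (f1.bal b), f3.bal (f2.bal (f1.bal b)), ((f1.add f2).add f3).cor⟩

theorem rsup (h : S_RAlg) : S_RSup := by
  intro V U W L H D p κ α β A a hb b hA ha hα hβ
  obtain ⟨b1, b2, -, -⟩ := h V U W L H D p κ α β hb b
  have d0 := hb.d0
  have k0 := hb.k0
  have k1 := hb.k1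
  have p0 := hb.p0
  have ph := hb.ph
  have tAle : ∀ u ∈ U, ∀ w ∈ W, H u w →
      ∑ B ∈ L, ind (H u B) * ind (H w B) ≤ (1 + κ) * D := fun u hu w hw e => by
    have := (abs_le.1 (hb.t0 u hu w hw e)).2
    rw [tA] at this; linarith
  have tBle : ∀ u ∈ U, ∀ B ∈ L, H u B →
      ∑ w ∈ W, ind (H w B) * ind (H u w) ≤ (1 + κ) * D := fun u hu B hB e => by
    have := (abs_le.1 (hb.t1 u hu B hB e)).2
    rw [tB] at this
    simp only [mul_comm (ind (H _ B))]; linarith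
  have x1 : ∀ u ∈ U, ∀ w ∈ W, D * |rx L H α u w| ≤ ind (H u w) * ((1 + 2 * κ) * A) :=
    fun u hu w hw => div_bd d0 k0 k1 (b.s0 u hu w hw) (hb.t0 u hu w hw) (hα u hu w hw)
  have hB1 : ∀ u ∈ U, ∀ B ∈ L, |rb1 W L H α β u B| ≤ a + (1 + 4 * κ) * A := fun u hu B hB => by
    refine (abs_sub _ _).trans (add_le_add (hβ u hu B hB)
      (ind_mul_bd (by positivity) fun e => ?_))
    exact (sum_bd d0 (by positivity) (x1 u hu) (fun _ _ => ind_nonneg _)
      (tBle u hu B hB e)).trans (num1 k0 k1 hA)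
  have hc1 : ∀ w ∈ W, ∀ B ∈ L, |rc1 U L H α w B| ≤ (2 * p + 7 * κ) * A := fun w hw B hB => by
    rw [rc1, abs_neg]
    refine ind_mul_bd (by positivity) fun e => ?_
    refine (sum_bd2 (r := fun u => α u w) (N1 := 3) (R := 0) d0 k0 (by positivity)
      (fun u hu => x1 u hu w hw)
      (fun u hu => div_near d0 k1 (b.s0 u hu w hw) (hb.t0 u hu w hw))
      (fun _ _ => ind_le_one _) ?_ (hb.m1 w hw B hB e) ?_).trans (num2 ph k0 k1 hA)
    · refine le_trans ?_ hb.cU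
      simpa using sum_le_card_nsmul U (fun u => ind (H u w)) 1 fun _ _ => ind_le_one _
    · rw [b.bW w hw]; simp
  have y1 : ∀ u ∈ U, ∀ B ∈ L, D * |ry W L H α β u B| ≤
      ind (H u B) * ((1 + 2 * κ) * (a + (1 + 4 * κ) * A)) :=
    fun u hu B hB => div_bd d0 k0 k1 (b1.s1 u hu B hB) (hb.t1 u hu B hB) (hB1 u hu B hB)
  have hc2 : ∀ w ∈ W, ∀ B ∈ L, |rc2 U W L H α β w B| ≤ (4 * p + 18 * κ) * A + 2.1 * κ * a :=
    fun w hw B hB => by
    refine ((abs_sub _ _).trans (add_le_add (hc1 w hw B hB)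
      (ind_mul_bd (by positivity) fun e => ?_))).trans (num3 ph k0 k1 hA ha)
    refine sum_bd2 (r := fun u => rb1 W L H α β u B) d0 k0 (by positivity)
      (fun u hu => y1 u hu B hB)
      (fun u hu => div_near d0 k1 (b1.s1 u hu B hB) (hb.t1 u hu B hB))
      (fun _ _ => ind_le_one _) (hb.dBU B hB) (hb.m2 w hw B hB e) ?_
    rw [b1.bL B hB]
    calc |∑ w ∈ W, rc1 U L H α w B| ≤ ∑ w ∈ W, |rc1 U L H α w B| := abs_sum_le_sum_abs _ _
      _ ≤ ∑ w ∈ W, ind (H w B) * ((2 * p + 7 * κ) * A) := by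
          refine sum_le_sum fun w hw => ?_
          by_cases e : H w B
          · rw [ind_pos e, one_mul]; exact hc1 w hw B hB
          · rw [b1.s2 w hw B hB e, ind_neg e, zero_mul, abs_zero]
      _ = (∑ w ∈ W, ind (H w B)) * ((2 * p + 7 * κ) * A) := by rw [sum_mul]
      _ ≤ (1 + κ) * D * ((2 * p + 7 * κ) * A) := by gcongr; exact hb.dBW B hB
      _ = _ := by ring
  have z1 : ∀ w ∈ W, ∀ B ∈ L, D * |rz U W L H α β w B| ≤
      ind (H w B) * ((1 + 2 * κ) * ((4 * p + 18 * κ) * A + 2.1 * κ * a)) :=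
    fun w hw B hB => div_bd d0 k0 k1 (b2.s2 w hw B hB) (hb.t2 w hw B hB) (hc2 w hw B hB)
  refine ⟨fun u hu w hw => ?_, fun u hu B hB => ?_, fun u hu w hw B hB => ?_⟩
  · refine ((abs_sub _ _).trans (add_le_add ?_
      (ind_mul_bd (by positivity) fun e => ?_))).trans (num4 ph k0 k1 hA ha)
    · rw [ra2, abs_neg]
      refine ind_mul_bd (by positivity) fun e => ?_
      refine sum_bd d0 (by positivity) (y1 u hu) (fun _ _ => ind_nonneg _) ?_
      simpa only [mul_comm (ind (H w _))] using tAle u hu w hw e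
    · exact sum_bd d0 (by positivity) (z1 w hw) (fun _ _ => ind_nonneg _) (tAle u hu w hw e)
  · rw [rb3, abs_neg]
    refine ind_mul_bd (by positivity) fun e => ?_
    refine (sum_bd2 (r := fun w => rc2 U W L H α β w B) (R := 0) d0 k0 (by positivity)
      (fun w hw => z1 w hw B hB)
      (fun w hw => div_near d0 k1 (b2.s2 w hw B hB) (hb.t2 w hw B hB))
      (fun _ _ => ind_le_one _) (hb.dBW B hB) (hb.m3 u hu B hB e) ?_).trans
      (num5 p0 ph k0 k1 hA ha)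
    rw [← b2.bL B hB]; simp
  · have l : ∀ (P : Prop) (X M : ℝ), 0 ≤ M → X ≤ ind P * M → X ≤ M := fun P X M hM hX =>
      hX.trans (mul_le_of_le_one_left hM (ind_le_one _))
    have e1 := l _ _ _ (by positivity) (x1 u hu w hw)
    have e2 := l _ _ _ (by positivity) (y1 u hu B hB)
    have e3 := l _ _ _ (by positivity) (z1 w hw B hB)
    have e4 : D * |rψ U W L H α β u w B| ≤
        D * (|rx L H α u w| + |ry W L H α β u B| + |rz U W L H α β w B|) := by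
      gcongr; exact abs_add_three _ _ _
    rw [le_div_iff₀ d0]
    linarith [num6 ph k0 k1 hA ha]

end Pool.Agent.P.MP_77d020_co.L
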