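import Pool.Agent.P.MP_77d020_co.L.RandA

/-! The random labelling. -/

namespace Pool.Agent.P.MP_77d020_co.L

open Finset


open RandP in
theorem rand (h1 : S_FamPr) (h2 : S_OpPr) (h3 : S_Cell) : S_Rand := by
  refine ⟨1 / 1000, by norm_num, fun V _ A k l D ε η hA hP => ?_⟩
  classical
  have hk : 0 < k := by linarith [hA.k1]
  have hl := hP.lpos
  have L : ∀ i ≤ l, Lv A.p (D i) (ε i) (1 / η i) := fun i hi => lv hP hi
  have hD : ∀ i ≤ l, 0 < D i := fun i hi => by linarith [(L i hi).dbig]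
  have half : ∀ i < l, D (i + 1) ≤ D i / 2 := fun i hi => by
    rw [hP.ds i hi]; nlinarith [(L i hi.le).e1, hD i hi.le]
  have anti : ∀ i j, i ≤ j → j ≤ l → D j ≤ D i := fun i j hij hj => by
    induction j, hij using Nat.le_induction with
    | base => exact le_rfl
    | succ j _ ih => linarith [half j hj, hD j (by omega), ih (by omega)]
  have Ll := L l le_rfl
  obtain ⟨r, hr⟩ : ∃ r, r = ε l * D l := ⟨_, rfl⟩
  have hDl := hD l le_rfl
  have r1 : 1 ≤ r := by
    have := Ll.big 1 (by norm_num)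
    rw [pow_one] at this
    nlinarith [Ll.u0]
  have r2 : r ≤ D l / 100 := by rw [hr]; nlinarith [Ll.e1]
  have d1 : D 1 / k = ε 0 := by rw [hP.ds 0 hl, hP.d0]; field_simp
  have r3 : 2 * (r / k) ≤ ε 0 := by
    rw [← d1, ← mul_div_assoc]
    exact div_le_div_of_nonneg_right (by linarith [anti 1 l hl le_rfl]) hk.le
  have rk : r / k * k = r := by field_simp
  have r0 : 0 < r / k := by positivity
  have e0 := (L 0 (by omega)).e1
  obtain ⟨Y, -, hY, hcell⟩ := h3 V A k (r / k) (ε 0) (ε l ^ 60 / 8) hA r0 (by linarith)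
    (by linarith) (by rwa [rk]) (by have := Ll.e0; positivity) (by
      rw [rk, hr]
      exact hP.reg.imp_left fun h => by linarith)
  obtain ⟨c1, hc1⟩ : ∃ c1 : Fin 3 → ℝ, c1 = ![r / 10 ^ 5, A.g 1 * r, (1 - ε l ^ 52) * r] := ⟨_, rfl⟩
  obtain ⟨c2, hc2⟩ : ∃ c2 : Fin 3 → ℝ, c2 = ![0, 0, 2 * ε l ^ 52 * r] := ⟨_, rfl⟩
  have hc : ∀ j, 0 ≤ c1 j ∧ 0 ≤ c2 j ∧ c1 j + c2 j ≤ 2 * r := fun j => by
    have a1 := Ll.pow_le 52
    have a2 : 0 ≤ ε l ^ 52 := by have := Ll.e0; positivity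
    have a3 := hA.ok.g1
    have a4 := hA.ok.g1'
    rcases fin3 j with rfl | rfl | rfl <;>
      simp only [hc1, hc2, Matrix.cons_val_zero, Matrix.cons_val_one, Matrix.cons_val] <;>
      refine ⟨?_, ?_, ?_⟩ <;> nlinarith
  obtain ⟨co, hco⟩ : ∃ co : V → ℝ, ∀ v, co v = if Y v then c1 (A.pt v) / k else 0 :=
    ⟨_, fun _ => rfl⟩
  obtain ⟨sp, hsp⟩ : ∃ sp : V → ℝ, ∀ v, sp v = if Y v then c2 (A.pt v) / k else 0 :=
    ⟨_, fun _ => rfl⟩
  have hcs : ∀ v, 0 ≤ co v ∧ 0 ≤ sp v ∧ co v + sp v ≤ 2 * (r / k) := fun v => by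
    obtain ⟨a1, a2, a3⟩ := hc (A.pt v)
    rw [hco, hsp]
    split_ifs
    · refine ⟨by positivity, by positivity, ?_⟩
      rw [← add_div, ← mul_div_assoc]
      exact div_le_div_of_nonneg_right a3 hk.le
    · exact ⟨le_rfl, le_rfl, by linarith⟩
  obtain ⟨q, hq, q1, q2, q3, q4, q5⟩ := dist hl (fun i => D i / k) co sp
    (by simp only [hP.d0]; field_simp)
    (fun i hi => div_le_div_of_nonneg_right (anti i _ (by omega) hi) hk.le) (by positivity)
    (fun v => (hcs v).1) (fun v => (hcs v).2.1) fun v => by linarith [(hcs v).2.2]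
  have small : ∀ i ≤ l, 2 * (r / k) ≤ D i / (4 * k) ∧ 2 * (r / k) ≤ D i / k := fun i hi => by
    have a1 : r / k ≤ D i / 100 / k :=
      div_le_div_of_nonneg_right (by linarith [anti i l hi le_rfl]) hk.le
    have a2 : D i / (4 * k) = D i / k / 4 := by ring
    have a3 : D i / 100 / k = D i / k / 100 := by ring
    constructor <;> linarith
  have up : ∀ i j, i ≤ j → i ≤ l → j ≤ l + 1 → ∀ v,
      pl q v (fun a => j ≤ (a : ℕ)) ≤ 2 * (D i / k) := fun i j hij hi hj v => by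
    have a0 := (small i hi).2
    have a1 := (hcs v).2.2
    rcases hj.eq_or_lt with rfl | hj
    · rw [q2]; linarith
    · have a2 := (abs_le.1 (q1 v j (by omega))).2
      have a3 : D j / k ≤ D i / k := div_le_div_of_nonneg_right (anti i j hij (by omega)) hk.le
      linarith
  -- the events of one level
  have hF : ∀ i < l, ∀ t ≤ 2, Pr q (fun ω => ¬ A.Fam (fun x => i ≤ (ω x : ℕ))
      (fun x => i + t ≤ (ω x : ℕ)) (fun _ => if i + t ≤ l then D (i + t) else 0)
      (ε i ^ 60 * D i)) ≤ 1 / (8 * D i) := fun i hi t ht => by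
    have a0 := hD i hi.le
    have a1 : 0 < ε i ^ 60 * D i := by have := (L i hi.le).e0; positivity
    refine famB h1 hA hq (L i hi.le) (fun a => i ≤ (a : ℕ)) (fun a => i + t ≤ (a : ℕ))
      (fun _ => True) _ 0 _ (up i i le_rfl hi.le (by omega))
      (up i _ (by omega) hi.le (by omega)) (fun _ => ?_) (fun z _ => ?_) (famT A) (by linarith)
      le_rfl (by nlinarith [(L i hi.le).pow_le 60])
    · split_ifs with h
      · exact ⟨(hD _ h).le, by linarith [anti i (i + t) (by omega) h]⟩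
      · exact ⟨le_rfl, by linarith⟩
    · have a2 : 2 * (r / k) ≤ ε i ^ 60 * D i / (4 * k) := by
        have := div_le_div_of_nonneg_right (hr ▸ hP.cell i hi) (show 0 ≤ 4 * k by positivity)
        exact le_trans (le_of_eq (by ring)) this
      refine le_trans ?_ ((hcs z).2.2.trans a2)
      split_ifs with h
      · exact q1 z _ h
      · rw [show i + t = l + 1 by omega, q2, zero_div, sub_zero, abs_of_nonneg]
        linarith [(hcs z).1, (hcs z).2.1]
  have hG : ∀ (m : ℕ) (a : Fin 3 → ℝ), (∀ j, 0 ≤ a j ∧ a j ≤ 2 * D l) →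
      (∀ z, pl q z (fun b => (b : ℕ) = m) ≤ 2 * (D l / k)) →
      (∀ z, Y z → pl q z (fun b => (b : ℕ) = m) = a (A.pt z) / k) →
      Pr q (fun ω => ¬ A.Fam (fun x => l ≤ (ω x : ℕ)) (fun x => (ω x : ℕ) = m) a
        (ε l ^ 60 * D l)) ≤ 1 / (8 * D l) := fun m a b1 b2 b3 => by
    have a1 : 0 < ε l ^ 60 * D l := by have := Ll.e0; positivity
    refine famB h1 hA hq Ll (fun a => l ≤ (a : ℕ)) (fun a => (a : ℕ) = m) Y a _ _
      (up l l le_rfl le_rfl (by omega)) b2 b1 (fun z hz => ?_) hY (le_of_eq ?_) le_rfl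
      (by nlinarith [Ll.pow_le 60])
    · rw [b3 z hz, sub_self, abs_zero]
      exact div_nonneg a1.le (by linarith)
    · field_simp; ring
  have sl := (small l le_rfl).2
  have g0 := hG l (fun _ => D l) (fun _ => ⟨hDl.le, by linarith⟩)
    (fun z => by rw [q3]; linarith) fun z _ => q3 z
  have g1 := hG (l + 1) c1 (fun j => ⟨(hc j).1, by linarith [(hc j).2.1, (hc j).2.2]⟩)
    (fun z => by rw [q4]; linarith [(hcs z).2.1, (hcs z).2.2]) fun z hz => by
      rw [q4, hco, if_pos hz]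
  have g2 := hG (l + 2) c2 (fun j => ⟨(hc j).2.1, by linarith [(hc j).1, (hc j).2.2]⟩)
    (fun z => by rw [q5]; linarith [(hcs z).1, (hcs z).2.2]) fun z hz => by
      rw [q5, hsp, if_pos hz]
  have hO : ∀ i ≤ l, Pr q (fun ω => ¬ A.Ops (fun x => i ≤ (ω x : ℕ)) (ε i ^ 5 * D i)) ≤ _ :=
    fun i hi => opsB h1 h2 hA hq (L i hi) (fun a => i ≤ (a : ℕ)) fun x =>
      (q1 x i hi).trans ((hcs x).2.2.trans (small i hi).1)
  have hC := hcell (Fin (l + 3)) q (fun a => l + 1 ≤ (a : ℕ)) (fun a => (a : ℕ) = 0) hq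
    (fun B _ => by
      rw [q2]
      exact ⟨(hcs B).2.2, fun h => by rw [hco, hsp, if_neg h, if_neg h, add_zero]⟩)
    (fun u _ => by
      have a1 := (abs_le.1 (q1 u 1 hl)).2
      have a2 : (fun x : Fin (l + 3) => ¬ (x : ℕ) = 0) = fun x : Fin (l + 3) => 1 ≤ (x : ℕ) :=
        funext fun x => propext Nat.one_le_iff_ne_zero.symm
      rw [a2]
      linarith [(hcs u).2.2])
  have lev : ∀ i ∈ range (l + 1), Pr q (fun ω =>
      ¬ A.Ops (fun x => i ≤ (ω x : ℕ)) (ε i ^ 5 * D i) ∨ ∃ t ∈ range 3, i < l ∧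
        ¬ A.Fam (fun x => i ≤ (ω x : ℕ)) (fun x => i + t ≤ (ω x : ℕ))
          (fun _ => if i + t ≤ l then D (i + t) else 0) (ε i ^ 60 * D i)) ≤ 1 / D i := by
    intro i hi
    have hi' : i ≤ l := by simpa [Nat.lt_succ_iff] using hi
    have a0 := hD i hi'
    have a1 : 0 < 1 / D i := by positivity
    have a2 : 1 / (8 * D i) = 1 / D i / 8 := by field_simp
    refine (Pr_le_add hq (fun _ a => a) (hO i hi') (Pr_exists_le_card hq _ _
      (c := 1 / (8 * D i)) fun t ht => ?_)).trans ?_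
    · by_cases h : i < l
      · exact (Pr_mono hq fun _ a => a.2).trans (hF i h t (by simpa [Nat.lt_succ_iff] using ht))
      · rw [Pr_zero hq fun _ a => h a.1]; positivity
    · rw [card_range]
      push_cast
      linarith
  have tot := Pr_le_add hq (fun _ a => a) hC (Pr_le_add hq (fun _ a => a) (or3 hq g0 g1 g2)
    ((Pr_exists_le hq _ _).trans ((sum_le_sum lev).trans (sum_inv hD half))))
  obtain ⟨ω, hω⟩ := exists_not_of_Pr_lt hq (tot.trans_lt (by
    have a1 : 1 / D l ≤ 1 / 1000 := one_div_le_one_div_of_le (by norm_num) Ll.dbig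
    have a2 : 1 / (8 * D l) = 1 / D l / 8 := by field_simp
    have a3 : 2 / D l = 2 * (1 / D l) := by ring
    linarith))
  simp only [not_or, not_not, not_exists, not_and, not_lt, mem_range] at hω
  obtain ⟨w1, ⟨w2, w3, w4⟩, w5⟩ := hω
  refine ⟨fun v => ω v, fun v => Nat.lt_succ_iff.1 (ω v).2,
    fun i hi t ht => (w5 i (by omega)).2 t (by omega) hi, w2, ?_, ?_,
    fun i hi => (w5 i (by omega)).1, ?_⟩
  · rw [← hr, ← hc1]; exact w3
  · rw [← hr, ← hc2]; exact w4
  · rw [← hr, ← rk]; exact w1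

end Pool.Agent.P.MP_77d020_co.L
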