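import Pool.Agent.P.MP_77d020_co.L.ResA

/-! The reserve graph of a level. -/

namespace Pool.Agent.P.MP_77d020_co.L

open Finset

namespace ResP

variable {V : Type} [Fintype V]

/-- The reserve graph of a coin relation. -/
def RR (A : Amb V) (Vs V1 V2 : V → Prop) (W : V → V → Prop) (x y : V) : Prop :=
  A.G x y ∧ ((Vs x ∧ ¬ V1 x ∧ V1 y ∧ ¬ V2 y ∧ W x y) ∨ (Vs y ∧ ¬ V1 y ∧ V1 x ∧ ¬ V2 x ∧ W y x))

variable {A : Amb V} {Vb Vs V1 V2 : V → Prop} {Q R' W : V → V → Prop} {a π ρ : Fin 3 → ℝ}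
  {D ε η : ℝ}

omit [Fintype V] in
theorem RR_out {x z : V} (hx : Vs x) (hx1 : ¬ V1 x) :
    RR A Vs V1 V2 W x z ↔ V1 z ∧ ¬ V2 z ∧ A.G x z ∧ W x z := by
  unfold RR; tauto

omit [Fintype V] in
theorem RR_in {x z : V} (hx : V1 x) :
    RR A Vs V1 V2 W x z ↔ ¬ V2 x ∧ Vs z ∧ ¬ V1 z ∧ A.G x z ∧ W z x := by
  unfold RR; tauto

theorem Tst.le {P E : V → Prop} {ρ b c : ℝ} (h : Tst P E ρ b) (h0 : 0 ≤ ρ) (hc : cnt P ≤ c) :
    cnt (fun v => P v ∧ E v) ≤ ρ * c + b := by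
  have h1 := (abs_le.1 h).2
  have h2 := mul_le_mul_of_nonneg_left hc h0
  linarith

theorem Tst.ge {P E : V → Prop} {ρ b c : ℝ} (h : Tst P E ρ b) (h0 : 0 ≤ ρ) (hc : c ≤ cnt P) :
    ρ * c - b ≤ cnt (fun v => P v ∧ E v) := by
  have h1 := (abs_le.1 h).1
  have h2 := mul_le_mul_of_nonneg_left hc h0
  linarith

/-- Powers of a small number. -/
theorem pw {ε : ℝ} (h0 : 0 < ε) (h1 : ε ≤ 1 / 10 ^ 8) {m n : ℕ} (h : m < n) :
    ε ^ n ≤ ε ^ m / 10 ^ 8 := by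
  obtain ⟨k, rfl⟩ := Nat.exists_eq_add_of_lt h
  have h2 : ε ^ k ≤ 1 := pow_le_one₀ h0.le (by linarith)
  have h3 : 0 < ε ^ m := by positivity
  have h4 : ε ^ k * ε ≤ 1 / 10 ^ 8 := by nlinarith
  calc ε ^ (m + k + 1) = ε ^ m * (ε ^ k * ε) := by ring
    _ ≤ ε ^ m * (1 / 10 ^ 8) := by gcongr
    _ = _ := by ring

theorem det (h : A.LP Vb Vs V1 V2 Q a π D ε η) (hε1 : ε ≤ 1 / 10 ^ 8) (hD : 0 < D)
    (hR : ∀ x y j, Vs x → ¬ V1 x → V1 y → A.G x y → j ≠ A.pt x → j ≠ A.pt y →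
      cnt (fun z => V1 z ∧ ¬ V2 z ∧ A.G x z ∧ A.G y z ∧ R' y z) ≤ a j / 4)
    (h0 : ∀ j, 0 ≤ ρ j) (h1 : ∀ j, ρ j ≤ 10 ^ 6 * ε ^ 3) (h2 : ∀ j, ε ^ 3 / 2 ≤ ρ j)
    (h3 : ∀ j, ρ j * a j = ε ^ 4 * D) (w : Good A Vb Vs V1 V2 Q R' W ρ D ε) :
    A.RP Vb Vs V1 V2 Q (RR A Vs V1 V2 W) R' π D ε := by
  have hε := h.e0
  have g1 := h.ok.one_le_g
  have P := fun m n => pw hε hε1 (m := m) (n := n)
  have PD : ∀ m n : ℕ, m < n → ε ^ n * D ≤ ε ^ m * D / 10 ^ 8 := fun m n hmn => by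
    have := mul_le_mul_of_nonneg_right (P m n hmn) hD.le
    linarith
  have N : ∀ m : ℕ, 0 < ε ^ m * D := fun m => by positivity
  have h1' : ∀ j, ρ j ≤ 1 := fun j => by
    have := P 0 3 (by norm_num)
    linarith [h1 j]
  have d1 : ∀ x j, Vs x → ¬ V1 x → j ≠ A.pt x →
      |deg A.pt (RR A Vs V1 V2 W) x j - ε ^ 4 * D * A.g (A.pt x)| ≤
        ε ^ 48 * A.g (A.pt x) * D + ε ^ 50 * A.g (A.pt x) * D := by
    intro x j hx hx1 hj
    have e : deg A.pt (RR A Vs V1 V2 W) x j =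
        cnt fun z => (V1 z ∧ ¬ V2 z ∧ A.pt z = j ∧ A.G x z) ∧ W x z :=
      cnt_congr fun z => by rw [RR_out hx hx1]; tauto
    have t := abs_le.1 (w.t1 x x j ⟨hx, hx1, hj, rfl⟩)
    have l := h.l1 x j hx hx1 hj
    have l' : |ρ j * (cnt (fun z => V1 z ∧ ¬ V2 z ∧ A.pt z = j ∧ A.G x z) - a j * A.g (A.pt x))| ≤
        ε ^ 50 * A.g (A.pt x) * D := by
      rw [abs_mul, abs_of_nonneg (h0 j)]
      exact (mul_le_of_le_one_left (abs_nonneg _) (h1' j)).trans l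
    rw [mul_sub, ← mul_assoc, h3] at l'
    have l'' := abs_le.1 l'
    rw [e, abs_le]
    constructor <;> linarith [t.1, t.2, l''.1, l''.2]
  have gD : ∀ (i : Fin 3) (m n : ℕ), m < n →
      ε ^ n * A.g i * D ≤ ε ^ m * A.g i * D / 10 ^ 8 := fun i m n hmn => by
    have := mul_le_mul_of_nonneg_right (PD m n hmn) (zero_le_one.trans (g1 i))
    linarith
  have gN : ∀ (i : Fin 3) (m : ℕ), 0 < ε ^ m * A.g i * D := fun i m => by
    have := g1 i; positivity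
  have c3 : ∀ x y, Vb x → V1 y → A.G x y →
      cnt (fun z => A.G x z ∧ A.G y z ∧ RR A Vs V1 V2 W y z) ≤ ε * D := by
    intro x y hx hy hxy
    have t := (w.t3 x y 0 ⟨hx, hy, hxy⟩).le (h0 _) (h.l7 x y hx (h.s1s _ hy) hxy)
    have e : cnt (fun z => A.G x z ∧ A.G y z ∧ RR A Vs V1 V2 W y z) ≤
        cnt fun z => (Vs z ∧ A.G x z ∧ A.G y z) ∧ W z y :=
      cnt_mono fun z => by rw [RR_in hy]; tauto
    have k := mul_le_mul_of_nonneg_right (h1 (A.pt y)) hD.le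
    have k1 := PD 1 3 (by norm_num)
    have k2 := PD 1 48 (by norm_num)
    have k3 := N 1
    rw [pow_one] at k1 k2 k3
    linarith
  have a0 : ∀ j, 0 < a j := fun j => lt_of_lt_of_le (by positivity) (h.al j)
  refine ⟨fun x y hxy => ⟨h.ok.sy _ _ hxy.1, hxy.2.symm⟩, fun x y hxy => ⟨hxy.1, ?_⟩,
    fun x => ?_, fun x y hx hy hxy => ?_, fun x y hx hx1 hy hy1 hxy => ?_,
    fun x y hx hx1 hy hxy => ?_, fun x j hx hx1 => ?_, fun x y hx hx1 hy hxy => ?_,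
    fun x y hx hx1 hy hxy => ?_, fun x y hx hy hxy => ?_, fun x y hx hy hxy => ?_⟩
  · have := hxy.2; tauto
  · have k1 := gD (A.pt x) 47 48 (by norm_num)
    have k2 := gD (A.pt x) 47 50 (by norm_num)
    have k3 := gN (A.pt x) 47
    by_cases hx1 : V1 x
    · by_cases hx2 : V2 x
      · rw [imb_zero fun y hy => ((RR_in hx1).1 hy).1 hx2, abs_zero]; exact k3.le
      · have e : ∀ j, deg A.pt (RR A Vs V1 V2 W) x j =
            cnt fun z => (A.pt z = j ∧ Vs z ∧ ¬ V1 z ∧ A.G x z) ∧ W z x := fun j =>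
          cnt_congr fun z => by rw [RR_in hx1]; tauto
        have t := abs_le.1 (w.t2 x x _ ⟨hx1, add_one_ne _, rfl⟩)
        have t' := abs_le.1 (w.t2 x x _ ⟨hx1, add_two_ne _, rfl⟩)
        have l' : |ρ (A.pt x) * imb A.pt (fun y z => Vs z ∧ ¬ V1 z ∧ A.G y z) x| ≤
            ε ^ 50 * A.g (A.pt x) * D := by
          rw [abs_mul, abs_of_nonneg (h0 _)]
          exact (mul_le_of_le_one_left (abs_nonneg _) (h1' _)).trans (h.l2 x hx1)
        unfold imb deg at l'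
        rw [mul_sub] at l'
        have l'' := abs_le.1 l'
        unfold imb
        rw [e, e, abs_le]
        constructor <;> linarith [t.1, t.2, t'.1, t'.2, l''.1, l''.2]
    · by_cases hx : Vs x
      · have t := abs_le.1 (d1 x _ hx hx1 (add_one_ne _))
        have t' := abs_le.1 (d1 x _ hx hx1 (add_two_ne _))
        unfold imb
        rw [abs_le]
        constructor <;> linarith [t.1, t.2, t'.1, t'.2]
      · rw [imb_zero fun y hy => by have := hy.2; tauto, abs_zero]; exact k3.le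
  · have k3 := N 1
    rw [pow_one] at k3
    by_cases hx1 : V1 x
    · have := c3 y x (h.ssb _ hy) hx1 (h.ok.sy _ _ hxy)
      refine le_trans (cnt_mono fun z hz => ⟨hz.2.1, hz.1, hz.2.2⟩) (this.trans ?_)
      linarith
    · refine le_trans (cnt_mono fun z hz => ⟨((RR_out hx hx1).1 hz.2.2).1, hz.1, hz.2.1⟩)
        ((h.l3 x y hx hy hxy).trans ?_)
      linarith
  · obtain ⟨j, hj, hj'⟩ := exists_third (h.ok.tp x y hxy)
    have t := (w.t4 x y j ⟨hx, hy, hxy, hj, hj'⟩).ge (mul_nonneg (h0 j) (h0 j))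
      (h.l4 x y j hx hx1 hy hy1 hxy hj hj')
    refine le_trans ?_ (t.trans (cnt_mono fun z => by rw [RR_out hx hx1, RR_out hy hy1]; tauto))
    have e : ρ j * ρ j * (a j / 2) = ρ j * (ε ^ 4 * D) / 2 := by rw [← h3 j]; ring
    have k := mul_le_mul_of_nonneg_right (h2 j) (N 4).le
    have k1 := PD 7 48 (by norm_num)
    have k2 := N 7
    rw [e]
    linarith
  · obtain ⟨j, hj, hj'⟩ := exists_third (h.ok.tp x y hxy)
    have l := h.l5 x y j hx hx1 hy hxy hj hj'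
    have l1 := hR x y j hx hx1 hy hxy hj hj'
    have l2 := cnt_split (fun z => V1 z ∧ ¬ V2 z ∧ A.G x z ∧ Q y z) fun z => R' y z
    have l3 : cnt (fun z => (V1 z ∧ ¬ V2 z ∧ A.G x z ∧ Q y z) ∧ R' y z) ≤
        cnt (fun z => V1 z ∧ ¬ V2 z ∧ A.G x z ∧ A.G y z ∧ R' y z) :=
      cnt_mono fun z hz => ⟨hz.1.1, hz.1.2.1, hz.1.2.2.1, (h.qG _ _ hz.1.2.2.2).1, hz.2⟩
    have l4 := mul_le_mul_of_nonneg_left (h.pl (A.pt x)) (a0 j).le
    have l5 : a j / 5 ≤ cnt (fun z => (V1 z ∧ ¬ V2 z ∧ A.G x z ∧ Q y z) ∧ ¬ R' y z) := by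
      linarith [a0 j]
    have t := (w.t5 x y j ⟨hx, h.s1s _ hy, hxy, hj, hj'⟩).ge (h0 j) l5
    refine le_trans ?_ (t.trans (cnt_mono fun z => by rw [RR_out hx hx1]; tauto))
    have e : ρ j * (a j / 5) = ε ^ 4 * D / 5 := by rw [← h3 j]; ring
    have k1 := PD 4 48 (by norm_num)
    have k2 := PD 4 7 (by norm_num)
    have k3 := N 4
    rw [e]
    linarith
  · have k1 := gD (A.pt x) 4 48 (by norm_num)
    have k2 := gD (A.pt x) 4 50 (by norm_num)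
    have k3 := gN (A.pt x) 4
    by_cases hj : j = A.pt x
    · rw [hj, deg_self (h.ok.tp.mono fun _ _ a => a.1)]
      linarith
    · linarith [(abs_le.1 (d1 x j hx hx1 hj)).2]
  · obtain ⟨j, hj, hj'⟩ := exists_third (h.ok.tp x y hxy)
    have t := (w.t6 x y j ⟨hx, h.s1s _ hy, hxy, hj, hj'⟩).ge (h0 j)
      (h.l5 x y j hx hx1 hy hxy hj hj')
    refine le_trans ?_ (t.trans (cnt_mono fun z => by rw [RR_out hx hx1]; tauto))
    have e : ρ j * (0.98 * a j * (π (A.pt x) * A.g (A.pt x))) =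
        0.98 * (ε ^ 4 * D * (π (A.pt x) * A.g (A.pt x))) := by rw [← h3 j]; ring
    have k := mul_le_mul_of_nonneg_left (h.pl (A.pt x)) (N 4).le
    have k1 := PD 4 48 (by norm_num)
    have k3 := N 4
    rw [e]
    linarith
  · obtain ⟨j, hj, hj'⟩ := exists_third (h.ok.tp x y hxy)
    have t := (w.t7 x y j ⟨hx, h.s1s _ hy, hxy, hj, hj'⟩).le (h0 j)
      (h.l4' x y j hx (h.s1s _ hy) hxy hj hj')
    refine le_trans (cnt_mono fun z => by rw [RR_out hx hx1]; tauto) (t.trans ?_)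
    have e : ρ j * (2 * a j) = 2 * (ε ^ 4 * D) := by rw [← h3 j]; ring
    have k1 := PD 4 48 (by norm_num)
    have k3 := N 4
    rw [e]
    linarith
  · have t := (w.t8 x y 0 ⟨h.s1s _ hx, h.s1s _ hy, hxy⟩).le (mul_nonneg (h0 _) (h0 _))
      (h.l7 x y (h.ssb _ (h.s1s _ hx)) (h.s1s _ hy) hxy)
    refine le_trans (cnt_mono fun z hz => ?_) (t.trans ?_)
    · have b1 := (RR_in hx).1 (show RR A Vs V1 V2 W x z from ⟨h.ok.sy _ _ hz.1.1, hz.1.2.symm⟩)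
      have b2 := (RR_in hy).1 (show RR A Vs V1 V2 W y z from ⟨h.ok.sy _ _ hz.2.1, hz.2.2.symm⟩)
      tauto
    · have k : ρ (A.pt x) * ρ (A.pt y) ≤ 10 ^ 6 * ε ^ 3 * (10 ^ 6 * ε ^ 3) :=
        mul_le_mul (h1 _) (h1 _) (h0 _) (by positivity)
      have k0 := mul_le_mul_of_nonneg_right k hD.le
      have k1 := PD 6 48 (by norm_num)
      have k3 := N 6
      linarith
  · have := mul_le_mul_of_nonneg_right hε1 hD.le
    linarith [c3 x y hx hy hxy]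

end ResP

open ResP in
theorem res : S_Res := by
  refine ⟨1 / 10 ^ 4, by norm_num, fun V _ A Vb Vs V1 V2 Q R' a π D ε η h hη hR => ?_⟩
  have hε := h.e0
  have hη0 := h.h0
  have hε1 : ε ≤ 1 / 10 ^ 8 := h.eh.trans (by nlinarith)
  have hD : 0 < D := by
    by_contra h'
    have : ε ^ 600 * D ≤ 0 := mul_nonpos_of_nonneg_of_nonpos (by positivity) (not_lt.1 h')
    linarith [h.dl]
  have a0 : ∀ j, 0 < a j := fun j => lt_of_lt_of_le (by positivity) (h.al j)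
  have h0 : ∀ j, 0 ≤ ε ^ 4 * D / a j := fun j => by have := a0 j; positivity
  have h1 : ∀ j, ε ^ 4 * D / a j ≤ 10 ^ 6 * ε ^ 3 := fun j => by
    rw [div_le_iff₀ (a0 j)]
    have := mul_le_mul_of_nonneg_left (h.al j) (show 0 ≤ 10 ^ 6 * ε ^ 3 by positivity)
    linarith
  have h2 : ∀ j, ε ^ 3 / 2 ≤ ε ^ 4 * D / a j := fun j => by
    rw [le_div_iff₀ (a0 j)]
    have := mul_le_mul_of_nonneg_left (h.au j) (show 0 ≤ ε ^ 3 / 2 by positivity)
    linarith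
  obtain ⟨W, w⟩ := exists_good R' h (by linarith) h0 fun j => by
    have := pw hε hε1 (show 0 < 3 by norm_num)
    linarith [h1 j]
  exact ⟨_, det h hε1 hD hR h0 h1 h2 (fun j => div_mul_cancel₀ _ (a0 j).ne') w⟩

end Pool.Agent.P.MP_77d020_co.L
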