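import Pool.Agent.P.MP_77d020_co.L.Prob

/-! Covering the leftover edges by triangles with two edges from the available graph. -/

namespace Pool.Agent.P.MP_77d020_co.L

open Finset

namespace Step3P

variable {V : Type}

/-- `a` is an end point of `i`. -/
def En (i : V × V) (a : V) : Prop := a = i.1 ∨ a = i.2

/-- `a b` is one of the two edges from `z` to the ends of `i`. -/
def UE (i : V × V) (z a b : V) : Prop := (En i a ∧ b = z) ∨ (En i b ∧ a = z)

theorem UE.symm {i : V × V} {z a b : V} (h : UE i z a b) : UE i z b a := Or.symm h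

theorem te_iff (i : V × V) (z a b : V) :
    TE i.1 i.2 z a b ↔ ((a = i.1 ∧ b = i.2) ∨ (a = i.2 ∧ b = i.1)) ∨ UE i z a b := by
  unfold TE UE En; tauto

variable [Fintype V]

theorem cnt_ex_le {I : Type} (t : Finset I) (P : I → V → Prop) :
    cnt (fun z => ∃ j ∈ t, P j z) ≤ ∑ j ∈ t, cnt (P j) := by
  simp only [cnt_eq_sum]
  rw [sum_comm]
  refine sum_le_sum fun z _ => ind_le (sum_nonneg fun _ _ => ind_nonneg _) ?_
  rintro ⟨j, hj, h⟩
  exact (ind_pos h).ge.trans (single_le_sum (f := fun j => ind (P j z)) (fun _ _ => ind_nonneg _) hj)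

theorem cnt_le_one {P : V → Prop} (h : ∀ x y, P x → P y → x = y) : cnt P ≤ 1 := by
  unfold cnt
  exact_mod_cast card_le_one.2 fun x hx y hy => h x y (mem_fs.1 hx) (mem_fs.1 hy)

theorem cnt_eq_le (z : V) (P : Prop) : cnt (fun o => o = z ∧ P) ≤ ind P := by
  by_cases h : P
  · rw [ind_pos h]; exact cnt_le_one fun x y a b => a.1.trans b.1.symm
  · rw [ind_neg h, cnt_zero fun _ a => h a.2]

end Step3P

open Step3P in
theorem step3 (h : S_Greedy) : S_Step3 := by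
  classical
  intro V _ pt G Lf Av Vs O K γ τ σ lg sG tG sL sA hL hA hO hOA hK hSt hτ K0 γ0 τ0 hlg hσ hσK
  rcases isEmpty_or_nonempty V with hV | hV
  · exact ⟨fun _ _ => False, fun x => hV.elim x, fun x => hV.elim x,
      Dec.empty fun x => hV.elim x, fun x => hV.elim x⟩
  obtain ⟨s, hs⟩ : ∃ s : Finset (V × V), ∀ i, i ∈ s ↔ Lf i.1 i.2 ∧ pt i.1 < pt i.2 :=
    ⟨univ.filter _, fun i => by simp only [mem_filter, mem_univ, true_and]; rfl⟩
  obtain ⟨Fs, hFs, hc⟩ : ∃ Fs : Finset (V × V), (∀ f, f ∈ Fs ↔ Vs f.1 ∧ Vs f.2 ∧ G f.1 f.2) ∧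
      (Fs.card : ℝ) ≤ cnt Vs ^ 2 := by
    refine ⟨(fs Vs ×ˢ fs Vs).filter fun f => G f.1 f.2, fun f => by simp [and_assoc], ?_⟩
    have := card_filter_le (fs Vs ×ˢ fs Vs) fun f => G f.1 f.2
    rw [card_product] at this
    unfold cnt
    rw [sq]
    exact_mod_cast this
  have hEn : ∀ i z a, O i.1 i.2 z → En i a → Av a z := by
    rintro i z a ho (rfl | rfl)
    exacts [(hOA _ _ _ ho).1, (hOA _ _ _ ho).2]
  have hUA : ∀ i z a b, O i.1 i.2 z → UE i z a b → Av a b := by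
    rintro i z a b ho (⟨e, rfl⟩ | ⟨e, rfl⟩)
    exacts [hEn i _ a ho e, sA _ _ (hEn i _ b ho e)]
  have hN : ∀ p q, ∑ i ∈ s, ind (En i p ∧ O i.1 i.2 q) ≤ γ * ind (Vs p ∧ Vs q ∧ G p q) := by
    intro p q
    by_cases hpq : Vs p ∧ Vs q ∧ G p q
    · rw [ind_pos hpq, mul_one, ← card_filter_eq_sum_ind]
      refine le_trans ?_ (hSt p q hpq.1 hpq.2.1 hpq.2.2)
      unfold cnt
      refine Nat.cast_le.2 (card_le_card_of_injOn (fun i => if p = i.1 then i.2 else i.1) ?_ ?_)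
      · rintro ⟨x, y⟩ hi
        obtain ⟨h1, h2, h3⟩ := mem_filter.1 hi
        have h4 := ((hs _).1 h1).1
        refine mem_coe.2 (mem_fs.2 ?_)
        dsimp only at h3 h4 ⊢
        split_ifs with e
        · subst e
          exact ⟨(hL _ _ h4).1, sG _ _ (hA _ _ (hOA _ _ _ h3).2).1, h4⟩
        · obtain rfl : p = y := h2.resolve_left e
          exact ⟨sG _ _ (hL _ _ h4).1, sG _ _ (hA _ _ (hOA _ _ _ h3).1).1, sL _ _ h4⟩
      · rintro ⟨x, y⟩ hi ⟨x', y'⟩ hi' e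
        obtain ⟨h1, h2, -⟩ := mem_filter.1 hi
        obtain ⟨h1', h2', -⟩ := mem_filter.1 hi'
        have h4 := ((hs _).1 h1).2
        have h4' := ((hs _).1 h1').2
        dsimp only at e h4 h4'
        split_ifs at e with e1 e2 e2
        · rw [← e1, ← e2, e]
        · obtain rfl : p = y' := h2'.resolve_left e2
          subst e1 e
          exact absurd h4 h4'.asymm
        · obtain rfl : p = y := h2.resolve_left e1
          subst e2 e
          exact absurd h4 h4'.asymm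
        · exact Prod.ext e ((h2.resolve_left e1).symm.trans (h2'.resolve_left e2))
    · rw [ind_neg hpq, mul_zero]
      refine (sum_eq_zero fun i _ => ind_neg fun a => hpq ?_).le
      have := hA _ _ (hEn i q p a.2 a.1)
      exact ⟨this.2.1, this.2.2, this.1⟩
  have hstar : ∀ (t : Finset (V × V)) (ch : V × V → V) x y,
      cnt (fun z => G y z ∧ ∃ j ∈ t, UE j (ch j) x z) ≤
        ∑ j ∈ t, cnt (fun z => G y z ∧ UE j (ch j) x z) := fun t ch x y =>
    (cnt_mono fun z ⟨a, j, hj, b⟩ => ⟨j, hj, a, b⟩).trans (cnt_ex_le t _)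
  refine Exists.elim (h (V × V) V (V × V) s Fs
    (fun i o f => cnt fun z => G f.2 z ∧ UE i o f.1 z)
    (fun i f => 2 / K * ∑ o ∈ fs (O i.1 i.2), cnt fun z => G f.2 z ∧ UE i o f.1 z)
    (fun _ => σ) lg (fun i o => O i.1 i.2 o) (fun i o j o' => ∀ a b, UE i o a b → ¬ UE j o' a b)
    hV ?_ (fun i _ f _ => mul_nonneg (by positivity) (sum_nonneg fun _ _ => cnt_nonneg _))
    (hc.trans hlg) ?_ ?_) fun ch ⟨h1, h2, h3⟩ => ?_
  rotate_right
  · refine ⟨fun a b => ∃ j ∈ s, UE j (ch j) a b, fun a b ⟨j, hj, e⟩ => ⟨j, hj, e.symm⟩,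
      fun a b ⟨j, hj, e⟩ => hUA j _ a b (h1 j hj) e, ?_, fun x y hx hy hxy => ?_⟩
    · refine (Dec.iUnion (· ∈ s) (fun j => TE j.1 j.2 (ch j)) (fun j hj => ?_) ?_).congr ?_
      · have := hOA _ _ _ (h1 j hj)
        exact Dec.tri (tG.ne (hL _ _ ((hs j).1 hj).1).1) (tG.ne (hA _ _ this.1).1)
          (tG.ne (hA _ _ this.2).1)
      · have key : ∀ i ∈ s, ∀ a b, (a = i.1 ∧ b = i.2) ∨ (a = i.2 ∧ b = i.1) → ¬ Av a b := by
          rintro i hi a b (⟨rfl, rfl⟩ | ⟨rfl, rfl⟩)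
          exacts [(hL _ _ ((hs i).1 hi).1).2.2.2, (hL _ _ (sL _ _ ((hs i).1 hi).1)).2.2.2]
        intro i j a b hi hj e e'
        rcases (te_iff _ _ _ _).1 e with e | e <;> rcases (te_iff _ _ _ _).1 e' with e' | e'
        · have h4 := ((hs i).1 hi).2
          have h5 := ((hs j).1 hj).2
          rcases e with ⟨rfl, rfl⟩ | ⟨rfl, rfl⟩ <;> rcases e' with ⟨e1, e2⟩ | ⟨e1, e2⟩
          · exact Prod.ext e1 e2
          · rw [e1, e2] at h4; exact absurd h4 h5.asymm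
          · rw [e1, e2] at h4; exact absurd h4 h5.asymm
          · exact Prod.ext e2 e1
        · exact absurd (hUA _ _ _ _ (h1 j hj) e') (key i hi a b e)
        · exact absurd (hUA _ _ _ _ (h1 i hi) e) (key j hj a b e')
        · by_contra hij
          exact h2 i hi j hj hij a b e e'
      · intro a b
        simp only [te_iff]
        constructor
        · rintro ⟨j, hj, (⟨rfl, rfl⟩ | ⟨rfl, rfl⟩) | e⟩
          exacts [Or.inl ((hs j).1 hj).1, Or.inl (sL _ _ ((hs j).1 hj).1), Or.inr ⟨j, hj, e⟩]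
        · rintro (e | ⟨j, hj, e⟩)
          · rcases lt_or_gt_of_ne (tG _ _ (hL _ _ e).1) with h4 | h4
            · exact ⟨(a, b), (hs _).2 ⟨e, h4⟩, Or.inl (Or.inl ⟨rfl, rfl⟩)⟩
            · exact ⟨(b, a), (hs _).2 ⟨sL _ _ e, h4⟩, Or.inl (Or.inr ⟨rfl, rfl⟩)⟩
          · exact ⟨j, hj, Or.inr e⟩
    · exact ((cnt_mono fun z hz => hz.2).trans (hstar s ch x y)).trans
        (h3 (x, y) ((hFs _).2 ⟨hx, hy, hxy⟩))
  · intro i hi o ho f hf
    refine ⟨cnt_nonneg _, cnt_le_one ?_⟩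
    have hne : ∀ a, En i a → a ≠ o := fun a e => tG.ne (hA _ _ (hEn i o a ho e)).1
    rintro z z' ⟨a, ⟨e, rfl⟩ | ⟨e, e1⟩⟩ ⟨a', ⟨e', e2⟩ | ⟨e', e2⟩⟩
    · exact e2.symm
    · exact absurd e2 (hne _ e)
    · exact absurd e1 (hne _ e')
    · have h4 : pt z = pt z' := third_unique (tG _ _ ((hFs f).1 hf).2.2)
        (e1 ▸ tG _ _ (hA _ _ (hEn i o z ho e)).1) (tG _ _ a).symm
        (e1 ▸ tG _ _ (hA _ _ (hEn i o z' ho e')).1) (tG _ _ a').symm
      have h5 := ((hs i).1 hi).2.ne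
      rcases e with rfl | rfl <;> rcases e' with rfl | rfl
      exacts [rfl, absurd h4 h5, absurd h4.symm h5, rfl]
  · intro f hf
    obtain ⟨f1, f2, f3⟩ := (hFs f).1 hf
    have e1 : ∀ i, ∑ o ∈ fs (O i.1 i.2), cnt (fun z => G f.2 z ∧ UE i o f.1 z) ≤
        ∑ z ∈ fs (G f.2), (ind (En i f.1 ∧ O i.1 i.2 z) + ind (En i z ∧ O i.1 i.2 f.1)) := by
      intro i
      rw [sum_cnt_comm]
      refine sum_le_sum fun z _ => (cnt_le_add ?_).trans (add_le_add (cnt_eq_le z _) (cnt_eq_le f.1 _))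
      rintro o ⟨ho, ⟨e, rfl⟩ | ⟨e, e'⟩⟩
      exacts [Or.inl ⟨rfl, e, ho⟩, Or.inr ⟨e'.symm, e, e' ▸ ho⟩]
    have e2 : ∑ i ∈ s, ∑ o ∈ fs (O i.1 i.2), cnt (fun z => G f.2 z ∧ UE i o f.1 z) ≤
        2 * γ * τ := by
      refine (sum_le_sum fun i _ => e1 i).trans ?_
      rw [sum_comm]
      refine (sum_le_sum (g := fun z => 2 * γ * ind (Vs z ∧ G f.1 z)) fun z _ => ?_).trans ?_
      · have a1 := mul_le_mul_of_nonneg_left (ind_mono (P := Vs f.1 ∧ Vs z ∧ G f.1 z) And.right) γ0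
        have a2 := mul_le_mul_of_nonneg_left (ind_mono (P := Vs z ∧ Vs f.1 ∧ G z f.1)
          (Q := Vs z ∧ G f.1 z) fun a => ⟨a.1, sG _ _ a.2.2⟩) γ0
        rw [sum_add_distrib]
        linarith [hN f.1 z, hN z f.1]
      · rw [← mul_sum, ← cnt_and_eq_sum]
        exact mul_le_mul_of_nonneg_left ((cnt_mono fun z hz => ⟨hz.2.1, hz.2.2, hz.1⟩).trans
          (hτ _ _ f1 f2 f3)) (by positivity)
    have e3 := mul_le_mul_of_nonneg_left e2 (show 0 ≤ 2 / K by positivity)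
    rw [show 2 / K * (2 * γ * τ) = 4 * γ * τ / K by ring] at e3
    rw [← mul_sum]
    linarith
  · intro t _ i hi _ ch _ _ hl
    obtain ⟨i1, i2, i3, -⟩ := hL _ _ ((hs i).1 hi).1
    have e1 := (hstar t ch i.1 i.2).trans (hl (i.1, i.2) ((hFs _).2 ⟨i2, i3, i1⟩))
    have e2 := (hstar t ch i.2 i.1).trans (hl (i.2, i.1) ((hFs _).2 ⟨i3, i2, sG _ _ i1⟩))
    have e3 := (hK _ _ ((hs i).1 hi).1).trans (cnt_le_add3
      (Q := fun z => O i.1 i.2 z ∧ ∀ j ∈ t, ∀ a b, UE i z a b → ¬ UE j (ch j) a b)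
      (R := fun z => G i.2 z ∧ ∃ j ∈ t, UE j (ch j) i.1 z)
      (T := fun z => G i.1 z ∧ ∃ j ∈ t, UE j (ch j) i.2 z) fun z hz => by
        by_cases hb : ∀ j ∈ t, ∀ a b, UE i z a b → ¬ UE j (ch j) a b
        · exact Or.inl ⟨hz, hb⟩
        · push Not at hb
          obtain ⟨j, hj, a, b, e, e'⟩ := hb
          have g1 := (hA _ _ (hOA _ _ _ hz).1).1
          have g2 := (hA _ _ (hOA _ _ _ hz).2).1
          rcases e with ⟨rfl | rfl, rfl⟩ | ⟨rfl | rfl, rfl⟩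
          exacts [Or.inr (Or.inl ⟨g2, j, hj, e'⟩), Or.inr (Or.inr ⟨g1, j, hj, e'⟩),
            Or.inr (Or.inl ⟨g2, j, hj, e'.symm⟩), Or.inr (Or.inr ⟨g1, j, hj, e'.symm⟩)])
    have e4 : K / 2 ≤ ((fs fun z => O i.1 i.2 z ∧
        ∀ j ∈ t, ∀ a b, UE i z a b → ¬ UE j (ch j) a b).card : ℝ) := by
      change _ ≤ cnt _
      linarith
    refine ⟨_, card_pos.1 (Nat.cast_pos.1 ((half_pos K0).trans_le e4)), fun o ho => ?_,
      fun f _ => ?_⟩
    · obtain ⟨a1, a2⟩ := mem_fs.1 ho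
      exact ⟨a1, fun j hj => ⟨a2 j hj, fun a b e e' => a2 j hj a b e' e⟩⟩
    · refine (sum_le_sum_of_subset_of_nonneg (fs_mono fun z hz => hz.1)
        fun _ _ _ => cnt_nonneg _).trans ?_
      rw [← mul_assoc]
      refine le_mul_of_one_le_left (sum_nonneg fun _ _ => cnt_nonneg _) ?_
      rw [mul_div_assoc', le_div_iff₀ K0]
      linarith

end Pool.Agent.P.MP_77d020_co.L
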