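import Pool.Agent.P.MP_77d020_co.L.Prob

/-! Covering the reserve edges by edge-disjoint perfect matchings in the neighbourhoods. -/

namespace Pool.Agent.P.MP_77d020_co.L

open Finset

namespace Step4P

variable {V : Type} [Fintype V]

/-- The neighbours of `x` in part `pt x + i`. -/
noncomputable def Nb (pt : V → Fin 3) (R : V → V → Prop) (x : V) (i : Fin 3) : Finset V :=
  fs fun z => pt z = pt x + i ∧ R x z

/-- The edges of the matching `f` at the centre `x`. -/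
def ME (pt : V → Fin 3) (R : V → V → Prop) (x : V) (f : V → V) (z z' : V) : Prop :=
  (z ∈ Nb pt R x 1 ∧ f z = z') ∨ (z' ∈ Nb pt R x 1 ∧ f z' = z)

/-- A valid matching at the centre `x`. -/
def Val (pt : V → Fin 3) (R Av : V → V → Prop) (x : V) (f : V → V) : Prop :=
  Set.BijOn f (Nb pt R x 1) (Nb pt R x 2) ∧ ∀ z ∈ Nb pt R x 1, Av z (f z)

variable {pt : V → Fin 3} {R Av : V → V → Prop}

theorem mem_Nb {x z : V} {i : Fin 3} : z ∈ Nb pt R x i ↔ pt z = pt x + i ∧ R x z := mem_fs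

theorem ME.symm {x : V} {f : V → V} {z z' : V} (h : ME pt R x f z z') : ME pt R x f z' z :=
  Or.symm h

theorem Val.maps {x : V} {f : V → V} (h : Val pt R Av x f) {z : V} (hz : z ∈ Nb pt R x 1) :
    f z ∈ Nb pt R x 2 := h.1.mapsTo hz

theorem not_both {x z : V} (h1 : z ∈ Nb pt R x 1) (h2 : z ∈ Nb pt R x 2) : False :=
  add_one_ne_add_two (pt x) ((mem_Nb.1 h1).1.symm.trans (mem_Nb.1 h2).1)

theorem Val.uniq {x : V} {f : V → V} (h : Val pt R Av x f) {z a b : V} (ha : ME pt R x f z a)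
    (hb : ME pt R x f z b) : a = b := by
  rcases ha with ⟨h1, rfl⟩ | ⟨h1, h2⟩
  · rcases hb with ⟨-, h3⟩ | ⟨h3, h4⟩
    · exact h3
    · exact (not_both h1 (h4 ▸ h.maps h3)).elim
  · rcases hb with ⟨h3, -⟩ | ⟨h3, h4⟩
    · exact (not_both h3 (h2 ▸ h.maps h1)).elim
    · exact h.1.injOn h1 h3 (h2.trans h4.symm)

theorem Val.edge {x : V} {f : V → V} (h : Val pt R Av x f) (hs : Sy Av) {z a : V}
    (ha : ME pt R x f z a) : R x z ∧ R x a ∧ Av z a := by
  rcases ha with ⟨h1, rfl⟩ | ⟨h1, rfl⟩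
  · exact ⟨(mem_Nb.1 h1).2, (mem_Nb.1 (h.maps h1)).2, h.2 z h1⟩
  · exact ⟨(mem_Nb.1 (h.maps h1)).2, (mem_Nb.1 h1).2, hs _ _ (h.2 a h1)⟩

theorem Val.cover {x : V} {f : V → V} (h : Val pt R Av x f) (ht : Tp pt R) {z : V}
    (hz : R x z) : ∃ a, ME pt R x f z a := by
  rcases ne_iff_add.1 (ht x z hz).symm with e | e
  · exact ⟨f z, Or.inl ⟨mem_Nb.2 ⟨e, hz⟩, rfl⟩⟩
  · obtain ⟨a, ha, e'⟩ := h.1.surjOn (mem_Nb.2 ⟨e, hz⟩ : z ∈ Nb pt R x 2)
    exact ⟨a, Or.inr ⟨ha, e'⟩⟩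

theorem cnt_le_ind {P : V → Prop} (h : ∀ a b, P a → P b → a = b) :
    cnt P ≤ ind (∃ a, P a) := by
  by_cases hP : ∃ a, P a
  · rw [ind_pos hP]
    unfold cnt
    exact_mod_cast card_le_one.2 fun a ha b hb => h a b (mem_fs.1 ha) (mem_fs.1 hb)
  · rw [cnt_zero (not_exists.1 hP)]
    exact ind_nonneg _

theorem ind_ex_le_sum {κ : Type} (t : Finset κ) (P : κ → Prop) :
    ind (∃ j ∈ t, P j) ≤ ∑ j ∈ t, ind (P j) := by
  refine ind_le (sum_nonneg fun _ _ => ind_nonneg _) ?_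
  rintro ⟨j, hj, h⟩
  rw [← ind_pos h]
  exact single_le_sum (f := fun j => ind (P j)) (fun _ _ => ind_nonneg _) hj

theorem sum_ind_le {κ : Type} (t : Finset κ) (P : κ → Prop) (Q : Prop)
    (h : ∀ a b, P a → P b → a = b) (hQ : ∀ a, P a → Q) : ∑ j ∈ t, ind (P j) ≤ ind Q := by
  classical
  rw [← card_filter_eq_sum_ind]
  by_cases hq : Q
  · rw [ind_pos hq]
    exact_mod_cast card_le_one.2 fun a ha b hb => h a b (mem_filter.1 ha).2 (mem_filter.1 hb).2
  · rw [ind_neg hq, filter_eq_empty_iff.2 fun a _ ha => hq (hQ a ha)]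
    simp

/-- The used edges at `z` that end in `S` are bounded by the load. -/
theorem cnt_used (t : Finset V) (ch : V → V → V) (hv : ∀ j ∈ t, Val pt R Av j (ch j))
    (S : V → Prop) (z : V) :
    cnt (fun z' => S z' ∧ ∃ j ∈ t, ME pt R j (ch j) z z') ≤
      ∑ j ∈ t, ind (∃ z', S z' ∧ ME pt R j (ch j) z z') := by
  calc cnt (fun z' => S z' ∧ ∃ j ∈ t, ME pt R j (ch j) z z')
      ≤ ∑ z', ∑ j ∈ t, ind (S z' ∧ ME pt R j (ch j) z z') := by
        rw [cnt_eq_sum]
        refine sum_le_sum fun z' _ => le_trans (ind_mono ?_) (ind_ex_le_sum t _)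
        rintro ⟨a, j, hj, b⟩
        exact ⟨j, hj, a, b⟩
    _ = ∑ j ∈ t, cnt (fun z' => S z' ∧ ME pt R j (ch j) z z') := by
        rw [sum_comm]
        exact sum_congr rfl fun j _ => (cnt_eq_sum _).symm
    _ ≤ _ := sum_le_sum fun j hj => cnt_le_ind fun a b ha hb => (hv j hj).uniq ha.2 hb.2

/-- Edge-disjoint matchings hit a test set at most as often as it has admissible elements. -/
theorem sum_hit {K : ℕ} {x : V} (hs : Sy Av) (f : Fin K → V → V)
    (hv : ∀ i, Val pt R Av x (f i))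
    (hd : ∀ i i', i ≠ i' → ∀ z ∈ Nb pt R x 1, f i z ≠ f i' z) (S : V → Prop) (z : V) :
    ∑ i, ind (∃ z', S z' ∧ ME pt R x (f i) z z') ≤
      cnt (fun z' => S z' ∧ R x z ∧ R x z' ∧ Av z z') := by
  calc ∑ i, ind (∃ z', S z' ∧ ME pt R x (f i) z z')
      ≤ ∑ i, ∑ z', ind (S z' ∧ ME pt R x (f i) z z') := by
        refine sum_le_sum fun i _ => le_trans (ind_mono ?_) (ind_ex_le_sum univ _)
        rintro ⟨a, b⟩
        exact ⟨a, mem_univ _, b⟩
    _ ≤ _ := by
        rw [sum_comm, cnt_eq_sum]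
        refine sum_le_sum fun z' _ => sum_ind_le _ _ _ ?_ fun i h => ⟨h.1, (hv i).edge hs h.2⟩
        rintro i i' ⟨-, h⟩ ⟨-, h'⟩
        by_contra hne
        rcases h with ⟨h1, h2⟩ | ⟨h1, h2⟩
        · rcases h' with ⟨-, h4⟩ | ⟨h3, h4⟩
          · exact hd i i' hne z h1 (h2.trans h4.symm)
          · exact not_both h1 (h4 ▸ (hv i').maps h3)
        · rcases h' with ⟨h3, -⟩ | ⟨-, h4⟩
          · exact not_both h3 (h2 ▸ (hv i).maps h1)
          · exact hd i i' hne z' h1 (h2.trans h4.symm)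

/-- The triangles centre - matching edge decompose the reserve together with the used edges. -/
theorem dec {Λ : V → Prop} (hR : Sy R) (hs : Sy Av) (ht : Tp pt R)
    (hL : ∀ x y, R x y → (Λ x ↔ ¬ Λ y)) (ch : V → V → V)
    (hv : ∀ j, Λ j → Val pt R Av j (ch j))
    (hc : ∀ j j' z z', Λ j → Λ j' → ME pt R j (ch j) z z' → ME pt R j' (ch j') z z' → j = j') :
    Dec fun x y => R x y ∨ ∃ j, Λ j ∧ ME pt R j (ch j) x y := by
  have k1 : ∀ {u v w}, Λ u → ME pt R u (ch u) v w → ¬ Λ v := fun hu h =>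
    (hL _ _ ((hv _ hu).edge hs h).1).1 hu
  refine ⟨fun u v w => (Λ u ∧ ME pt R u (ch u) v w) ∨ (Λ v ∧ ME pt R v (ch v) u w) ∨
    (Λ w ∧ ME pt R w (ch w) u v), ?_, ?_, ?_, fun x y => ⟨?_, ?_⟩⟩
  · rintro x y z (h | h | h)
    · exact Or.inr (Or.inl h)
    · exact Or.inl h
    · exact Or.inr (Or.inr ⟨h.1, h.2.symm⟩)
  · rintro x y z (h | h | h)
    · exact Or.inl ⟨h.1, h.2.symm⟩
    · exact Or.inr (Or.inr ⟨h.1, h.2⟩)
    · exact Or.inr (Or.inl h)
  · rintro x y z z' (h | h | h) (h' | h' | h')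
    · exact (hv x h.1).uniq h.2 h'.2
    · exact (k1 h.1 h.2 h'.1).elim
    · exact (k1 h'.1 h'.2 h.1).elim
    · exact (k1 h.1 h.2 h'.1).elim
    · exact (hv y h.1).uniq h.2 h'.2
    · exact (k1 h'.1 h'.2.symm h.1).elim
    · exact (k1 h.1 h.2 h'.1).elim
    · exact (k1 h.1 h.2.symm h'.1).elim
    · exact hc z z' x y h.1 h'.1 h.2 h'.2
  · rintro (h | ⟨j, h⟩)
    · by_cases hx : Λ x
      · obtain ⟨a, ha⟩ := (hv x hx).cover ht h
        exact ⟨a, Or.inl ⟨hx, ha⟩⟩
      · have hy : Λ y := by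
          by_contra hy
          exact hx ((hL x y h).2 hy)
        obtain ⟨a, ha⟩ := (hv y hy).cover ht (hR _ _ h)
        exact ⟨a, Or.inr (Or.inl ⟨hy, ha⟩)⟩
    · exact ⟨j, Or.inr (Or.inr h)⟩
  · rintro ⟨z, h | h | h⟩
    · exact Or.inl ((hv x h.1).edge hs h.2).1
    · exact Or.inl (hR _ _ ((hv y h.1).edge hs h.2).1)
    · exact Or.inr ⟨z, h⟩

/-- The total mean load of a test. -/
theorem sum_mean {Λ : V → Prop} {b : ℝ} (hb : ∀ z z', Av z z' → cnt (fun x => R x z ∧ R x z') ≤ b)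
    (hb0 : 0 ≤ b) (S : V → Prop) (z : V) :
    ∑ x ∈ fs Λ, cnt (fun z' => S z' ∧ R x z ∧ R x z' ∧ Av z z') ≤ cnt S * b := by
  rw [sum_cnt_comm Λ S fun x z' => R x z ∧ R x z' ∧ Av z z']
  refine sum_fs_le fun z' _ => ?_
  by_cases h : Av z z'
  · exact (cnt_mono fun x hx => ⟨hx.2.1, hx.2.2.1⟩).trans (hb z z' h)
  · rw [cnt_zero fun x hx => h hx.2.2.2]
    exact hb0

/-- The vertex of a test. -/
def tv : Bool × V × V → V
  | (true, _, z) => z
  | (false, z, _) => z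

/-- The set of a test. -/
def ts (Λ : V → Prop) (R Av : V → V → Prop) (Pt : V → V → V → Prop) : Bool × V × V → V → Prop
  | (true, x, z) => fun z' => Λ x ∧ R x z ∧ R x z' ∧ Av z z'
  | (false, z, y) => Pt z y

end Step4P

open Step4P in
theorem step4 (h : S_Greedy) (h' : S_PMs) : S_Step4 := by
  classical
  intro V _ pt Vs Λ R Av π nn r b σ lg Pt hR hs ht hta hRV _ himb hπ hd hdeg hcn heb hb hb0 hbr
    hlg hlr hr hσ hPt
  have hr0 : 0 < r := by linarith
  have hw : 0 ≤ 24.5 / r := by positivity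
  set Fs : Finset (Bool × V × V) := univ ×ˢ fs Vs ×ˢ fs Vs with hFs
  have hmem : ∀ u x y, Vs x → Vs y → (u, x, y) ∈ Fs := fun u x y hx hy => by
    simp [hFs, hx, hy]
  have hsum : ∀ f : Bool × V × V, ∑ x ∈ fs Λ,
      cnt (fun z' => ts Λ R Av Pt f z' ∧ R x (tv f) ∧ R x z' ∧ Av (tv f) z') * (24.5 / r) ≤
        cnt (ts Λ R Av Pt f) * b * (24.5 / r) := fun f => by
    rw [← sum_mul]
    exact mul_le_mul_of_nonneg_right (sum_mean hb hb0 _ _) hw
  obtain ⟨ch, hv, hc, hload⟩ := h V (V → V) (Bool × V × V) (fs Λ) Fs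
    (fun x o f => ind (∃ z', ts Λ R Av Pt f z' ∧ ME pt R x o (tv f) z'))
    (fun x f => cnt (fun z' => ts Λ R Av Pt f z' ∧ R x (tv f) ∧ R x z' ∧ Av (tv f) z') *
      (24.5 / r))
    (fun f => 1.45 * (cnt (ts Λ R Av Pt f) * b * (24.5 / r) + lg)) lg
    (fun x o => Val pt R Av x o)
    (fun x o x' o' => ∀ z z', ME pt R x o z z' → ¬ ME pt R x' o' z z') ⟨id⟩
    (fun _ _ _ _ _ _ => ⟨ind_nonneg _, ind_le_one _⟩)
    (fun _ _ _ _ => mul_nonneg (cnt_nonneg _) hw)
    (by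
      rw [hFs, card_product, card_product]
      refine le_of_eq_of_le ?_ hlg
      simp [cnt, sq])
    (fun f _ => by have := hsum f; linarith)
    (by
      intro t _ x hx _ ch hv _ hload
      have hx : Λ x := mem_fs.1 hx
      have hdx := hd (pt x)
      have hπx := hπ (pt x)
      have hn : 0 < nn (pt x) := by
        by_contra hn
        nlinarith [not_lt.1 hn]
      -- free degrees
      have free : ∀ z, R x z → 0.8 * (π (pt x) * nn (pt x)) ≤
          cnt (fun z' => (R x z' ∧ Av z z') ∧ ¬ ∃ j ∈ t, ME pt R j (ch j) z z') := by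
        intro z hz
        have h1 := hload (true, x, z) (hmem _ _ _ (hRV _ _ hz).1 (hRV _ _ (hR _ _ hz)).1)
        have h2 := cnt_used t ch hv (ts Λ R Av Pt (true, x, z)) z
        have h3 : cnt (fun z' => (R x z' ∧ Av z z') ∧ ∃ j ∈ t, ME pt R j (ch j) z z') ≤
            cnt (fun z' => ts Λ R Av Pt (true, x, z) z' ∧ ∃ j ∈ t, ME pt R j (ch j) z z') :=
          cnt_mono fun z' a => ⟨⟨hx, hz, a.1⟩, a.2⟩
        have h4 : cnt (ts Λ R Av Pt (true, x, z)) ≤ 4 * r :=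
          (cnt_mono fun z' a => a.2.2).trans (hcn x z hx hz).2
        have h5 := cnt_split (fun z' => R x z' ∧ Av z z') fun z' => ∃ j ∈ t, ME pt R j (ch j) z z'
        have h6 := (hcn x z hx hz).1
        have h7 : cnt (ts Λ R Av Pt (true, x, z)) * b * (24.5 / r) ≤ 4 * r * b * (24.5 / r) := by
          gcongr
        have h8 : 4 * r * b * (24.5 / r) = 98 * b := by field_simp; ring
        have h9 : ∑ j ∈ t, ind (∃ z', ts Λ R Av Pt (true, x, z) z' ∧ ME pt R j (ch j) z z') ≤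
            1.45 * (cnt (ts Λ R Av Pt (true, x, z)) * b * (24.5 / r) + lg) := h1
        linarith
      obtain ⟨f, hf1, hf2, hf3⟩ := h' V (Nb pt R x 1) (Nb pt R x 2)
        (fun z z' => Av z z' ∧ ¬ ∃ j ∈ t, ME pt R j (ch j) z z') (π (pt x)) (nn (pt x))
        ⌊π (pt x) * nn (pt x) / 10⌋₊ hπx hn
        (by
          have := himb x hx
          unfold imb deg cnt at this
          rw [sub_eq_zero] at this
          exact_mod_cast this)
        (hdeg x _ hx) (Nat.floor_le (by positivity))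
        (fun z hz => by
          have hz := mem_Nb.1 hz
          rw [sum_ind_eq_cnt]
          refine (free z hz.2).trans (cnt_mono fun z' a => ⟨mem_Nb.2 ⟨?_, a.1.1⟩, a.1.2, a.2⟩)
          rcases ne_iff_add.1 (ht _ _ a.1.1).symm with e | e
          · exact (hta _ _ a.1.2 (hz.1.trans e.symm)).elim
          · exact e)
        (fun z hz => by
          have hz := mem_Nb.1 hz
          rw [sum_ind_eq_cnt]
          refine (free z hz.2).trans (cnt_mono fun z' a => ⟨mem_Nb.2 ⟨?_, a.1.1⟩,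
            hs _ _ a.1.2, fun ⟨j, hj, e⟩ => a.2 ⟨j, hj, e.symm⟩⟩)
          rcases ne_iff_add.1 (ht _ _ a.1.1).symm with e | e
          · exact e
          · exact (hta _ _ a.1.2 (hz.1.trans e.symm)).elim)
        (fun X' hX Y' hY => (eb_mono (fun _ _ a => a.1) _ _).trans
          (heb x hx X' Y' (fun z hz => (mem_Nb.1 (hX hz)).symm)
            fun z hz => (mem_Nb.1 (hY hz)).symm))
      have hK : r / 24.5 ≤ (⌊π (pt x) * nn (pt x) / 10⌋₊ : ℝ) := by
        have := Nat.lt_floor_add_one (π (pt x) * nn (pt x) / 10)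
        have e : r / 24.5 = 2 / 49 * r := by ring
        linarith
      have hK0 : 0 < ⌊π (pt x) * nn (pt x) / 10⌋₊ := by
        have : (0 : ℝ) < r / 24.5 := by positivity
        exact_mod_cast this.trans_le hK
      have hval : ∀ i, Val pt R Av x (f i) := fun i => ⟨hf1 i, fun z hz => (hf2 i z hz).1⟩
      have hfree : ∀ i, ∀ j ∈ t, ∀ z z', ME pt R x (f i) z z' → ¬ ME pt R j (ch j) z z' := by
        rintro i j hj z z' (⟨a, rfl⟩ | ⟨a, rfl⟩) e
        · exact (hf2 i z a).2 ⟨j, hj, e⟩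
        · exact (hf2 i z' a).2 ⟨j, hj, e.symm⟩
      refine ⟨univ.image f, ⟨f ⟨0, hK0⟩, mem_image_of_mem _ (mem_univ _)⟩, ?_, ?_⟩
      · intro o ho
        obtain ⟨i, -, rfl⟩ := mem_image.1 ho
        exact ⟨hval i, fun j hj => ⟨hfree i j hj, fun z z' a e => hfree i j hj z z' e a⟩⟩
      · intro g _
        rcases (Nb pt R x 1).eq_empty_or_nonempty with he | ⟨z0, hz0⟩
        · rw [sum_eq_zero]
          · exact mul_nonneg (Nat.cast_nonneg _) (mul_nonneg (cnt_nonneg _) hw)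
          · intro o _
            refine ind_neg ?_
            rintro ⟨z', -, ⟨a, -⟩ | ⟨a, -⟩⟩ <;> simp [he] at a
        · have hinj : Function.Injective f := fun i i' e => by
            by_contra hne
            exact hf3 i i' hne z0 hz0 (by rw [e])
          rw [sum_image fun i _ i' _ e => hinj e, card_image_of_injective _ hinj, card_univ,
            Fintype.card_fin]
          refine (sum_hit hs f hval hf3 _ _).trans ?_
          have h1 : 1 ≤ (⌊π (pt x) * nn (pt x) / 10⌋₊ : ℝ) * (24.5 / r) := by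
            calc (1 : ℝ) = r / 24.5 * (24.5 / r) := by field_simp
              _ ≤ _ := mul_le_mul_of_nonneg_right hK hw
          have h2 := cnt_nonneg
            (fun z' => ts Λ R Av Pt g z' ∧ R x (tv g) ∧ R x z' ∧ Av (tv g) z')
          nlinarith)
  have hv' : ∀ j, Λ j → Val pt R Av j (ch j) := fun j hj => hv j (mem_fs.2 hj)
  refine ⟨fun x y => ∃ j, Λ j ∧ ME pt R j (ch j) x y, ?_, ?_, ?_, ?_⟩
  · rintro x y ⟨j, a, e⟩
    exact ⟨j, a, e.symm⟩
  · rintro x y ⟨j, a, e⟩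
    exact ((hv' j a).edge hs e).2.2
  · refine dec hR hs ht (fun x y a => (hRV x y a).2) ch hv' fun j j' z z' a a' e e' => ?_
    by_contra hne
    exact hc j (mem_fs.2 a) j' (mem_fs.2 a') hne z z' e e'
  · intro z y hz hy
    have h1 := hload (false, z, y) (hmem _ _ _ hz hy)
    have h2 := cnt_used (fs Λ) ch hv (Pt z y) z
    have h3 : cnt (fun z' => Pt z y z' ∧ ∃ j, Λ j ∧ ME pt R j (ch j) z z') ≤
        cnt (fun z' => Pt z y z' ∧ ∃ j ∈ fs Λ, ME pt R j (ch j) z z') :=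
      cnt_mono fun z' ⟨a, j, c, e⟩ => ⟨a, j, mem_fs.2 c, e⟩
    have h4 : ∑ j ∈ fs Λ, ind (∃ z', Pt z y z' ∧ ME pt R j (ch j) z z') ≤
        1.45 * (cnt (Pt z y) * b * (24.5 / r) + lg) := h1
    have h5 : cnt (Pt z y) * b * (24.5 / r) ≤ σ * b * (24.5 / r) := by
      have := hPt z y hz hy
      gcongr
    have h6 : 0 ≤ lg := by
      have h7 := one_le_cnt hz
      have h8 : (1 : ℝ) ≤ Real.exp lg := by nlinarith
      exact Real.one_le_exp_iff.1 h8
    have h7 : σ * b * (24.5 / r) = 24.5 * (b * σ / r) := by ring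
    have h8 : 36 * b * σ / r = 36 * (b * σ / r) := by ring
    have h9 : 0 ≤ b * σ / r := by positivity
    linarith

end Pool.Agent.P.MP_77d020_co.L
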