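import Pool.Agent.P.MP_77d020_co.L.Prob

/-! Assembly of the vortex from the random labelling. -/

namespace Pool.Agent.P.MP_77d020_co.L

open Finset

namespace VortexP

variable {V : Type} [Fintype V] {pt : V → Fin 3} {S C : V → Prop}

theorem imb_Ab_le (hS : ∀ u, S u → pt u = 0 ∧ ¬ C u)
    (he : cnt (fun x => C x ∧ pt x = 1) = cnt (fun x => C x ∧ pt x = 2)) (x : V) :
    |imb pt (Ab pt S C) x| ≤ cnt S := by
  by_cases hx : C x
  · have k : ∀ j, deg pt (Ab pt S C) x j ≤ cnt S := fun j => cnt_mono fun y a =>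
      a.2.elim (fun b => ((hS x b.1).2 hx).elim) fun b => b.1
    have k' : ∀ j, 0 ≤ deg pt (Ab pt S C) x j := fun j => cnt_nonneg _
    unfold imb
    rw [abs_le]
    constructor <;> linarith [k (pt x + 1), k (pt x + 2), k' (pt x + 1), k' (pt x + 2)]
  · suffices h : imb pt (Ab pt S C) x = 0 by rw [h, abs_zero]; exact cnt_nonneg _
    by_cases h : S x
    · unfold imb deg
      rw [(hS x h).1, sub_eq_zero]
      refine ((cnt_congr fun y => ?_).trans he).trans (cnt_congr fun y => ?_)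
      · simp only [Ab, h, hx, zero_add]
        constructor
        · rintro ⟨a, b⟩; simp_all
        · rintro ⟨a, b⟩; simp [a, b]
      · simp only [Ab, h, hx, zero_add]
        constructor
        · rintro ⟨a, b⟩; simp [a, b]
        · rintro ⟨a, b⟩; simp_all
    · exact imb_zero fun y a => by rcases a with a | a; exacts [h a.1, hx a.2.1]

end VortexP

open VortexP in
theorem vortex (h1 : S_Par) (h2 : S_Rand) (h3 : S_LPnat) (h4 : S_LPlast) : S_Vortex := by
  obtain ⟨η2, p2, h2⟩ := h2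
  obtain ⟨η3, p3, h3⟩ := h3
  obtain ⟨η4, p4, h4⟩ := h4
  intro η0 p0
  obtain ⟨k0, h1⟩ := h1 (min (min (min η0 η2) (min η3 η4)) (1 / 10)) (by positivity)
  refine ⟨k0, fun V _ A k dg hk => ?_⟩
  have ok := dg.ok
  obtain ⟨l, D, ε, η, pp⟩ := h1 k A.p hk ok.p0 ok.ph dg.pk
  have m0 : ∀ i ≤ l, η i ≤ η0 ∧ η i ≤ η3 ∧ η i ≤ η4 ∧ η i ≤ 1 / 10 := fun i hi => by
    have := pp.h1 i hi
    simp only [le_min_iff] at this
    tauto
  obtain ⟨lab, ly⟩ := h2 V A k l D ε η dg (pp.mono (by simp))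
  have lpos := pp.lpos
  have e0 := pp.e0
  have e1 : ∀ i ≤ l, ε i ≤ 1 / 100 := fun i hi => by
    have := pp.eh i hi
    have := (m0 i hi).2.2.2
    have := pp.h0 i hi
    nlinarith
  have ep : ∀ i ≤ l, ∀ a b : ℕ, b ≤ a → ε i ^ a ≤ ε i ^ b := fun i hi a b h =>
    pow_le_pow_of_le_one (e0 i hi).le (by linarith [e1 i hi]) h
  have D0 : ∀ i ≤ l, 0 < D i := fun i hi =>
    (pos_iff_pos_of_mul_pos (zero_lt_one.trans_le (pp.dl i hi))).1 (pow_pos (e0 i hi) _)
  have Dm : ∀ j ≤ l, ∀ i ≤ j, D j ≤ D i := by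
    intro j
    induction j with
    | zero => intro _ i hi; rw [Nat.le_zero.1 hi]
    | succ j ih =>
      intro hj i hi
      rcases hi.eq_or_lt with rfl | hi
      · rfl
      refine le_trans ?_ (ih (by omega) i (by omega))
      rw [pp.ds j hj]
      nlinarith [e1 j (by omega), D0 j (by omega)]
  have Dk : ∀ i ≤ l, D i ≤ k := fun i hi => pp.d0 ▸ Dm i hi 0 (Nat.zero_le _)
  have eD : ∀ i ≤ l, ε i ^ 60 * D i ≤ ε i * D i := fun i hi => by
    have := ep i hi 60 1 (by norm_num)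
    rw [pow_one] at this
    exact mul_le_mul_of_nonneg_right this (D0 i hi).le
  have eD' : ∀ i ≤ l, ε i * D i ≤ D i := fun i hi => by nlinarith [e1 i hi, D0 i hi]
  have f0 : ∀ i < l, A.Fam (fun x => i ≤ lab x) (fun x => i ≤ lab x) (fun _ => D i)
      (ε i ^ 60 * D i) := fun i hi => by simpa [hi.le] using ly.f i hi 0 (by norm_num)
  have f1 : ∀ i < l, A.Fam (fun x => i ≤ lab x) (fun x => i + 1 ≤ lab x) (fun _ => ε i * D i)
      (ε i ^ 60 * D i) := fun i hi => by
    have := ly.f i hi 1 (by norm_num)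
    rwa [if_pos (show i + 1 ≤ l from hi), pp.ds i hi] at this
  have fb : ∀ i ≤ l, A.Fam (fun x => i - 1 ≤ lab x) (fun x => i ≤ lab x) (fun _ => D i) (D i) ∧
      cnt (fun x => i - 1 ≤ lab x) ≤ Real.exp (1 / ε i) := by
    have k : ∀ i < l, cnt (fun x => i ≤ lab x) ≤ 8 * D i / A.p := fun i hi => by
      have := (f0 i hi).cnt_le ok (b := 2 * D i)
        (fun _ => by linarith [eD i hi.le, eD' i hi.le]) (by linarith [D0 i hi.le])
      rwa [show 4 * (2 * D i) = 8 * D i by ring] at this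
    rintro (_ | i) hi
    · refine ⟨(f0 0 lpos).mono ok (fun _ a => a) ((eD 0 hi).trans (eD' 0 hi)),
        ((k 0 lpos).trans (pp.lg 0 hi)).trans (Real.exp_le_exp.2 ?_)⟩
      refine one_div_le_one_div_of_le (e0 0 hi) ?_
      nlinarith [pp.eh 0 hi, (m0 0 hi).2.2.2, pp.h0 0 hi]
    · rw [pp.ds i hi]
      exact ⟨(f1 i hi).mono ok (fun _ a => a) (eD i (by omega)), (k i hi).trans (pp.lg' i hi)⟩
  obtain ⟨C, Q, a, π, hC, lp, fp, heq, hab⟩ := h4 V A (fun x => l - 1 ≤ lab x) l lab k (D l) (ε l)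
    (η l) dg ly.le (fun x a => by omega) (pp.h0 l le_rfl) (m0 l le_rfl).2.2.1 (e0 l le_rfl)
    (pp.eh l le_rfl) (pp.dl l le_rfl) (Dk l le_rfl) (pp.lg l le_rfl) (fb l le_rfl).2
    (fb l le_rfl).1 ly.f0 ly.f1 ly.f2 (ly.op l le_rfl)
  have r0 : 0 < ε l * D l := by linarith [fp.r0]
  have g1 := ok.g1
  have g1' := ok.g1'
  have s0 : 0 ≤ (A.g 1 - 1 / 10 ^ 5) * (ε l * D l) := mul_nonneg (by linarith) r0.le
  have s1 := Nat.floor_le s0
  have s2 := Nat.lt_floor_add_one ((A.g 1 - 1 / 10 ^ 5) * (ε l * D l))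
  obtain ⟨S, hS, cS⟩ := exists_sub_cnt (n := ⌊(A.g 1 - 1 / 10 ^ 5) * (ε l * D l)⌋₊)
    (s1.trans (le_trans (by nlinarith) ly.s))
  rw [← cS] at s1 s2
  have s3 : cnt S ≤ 2 * (ε l * D l) := by nlinarith
  have hSC : ∀ u, S u → A.pt u = 0 ∧ ¬ C u := fun u hu =>
    ⟨(hS u hu).1, fun c => by have := hC u c; have := (hS u hu).2.1; omega⟩
  let Vt : ℕ → V → Prop := fun i x => if i ≤ l then i ≤ lab x else if i = l + 1 then C x else False
  have v1 : ∀ i ≤ l, Vt i = fun x => i ≤ lab x := fun i hi => funext fun x => if_pos hi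
  have v2 : Vt (l + 1) = C := funext fun x => by simp [Vt]
  have v3 : Vt (l + 2) = fun _ => False := funext fun x => by simp [Vt]
  have nat : ∀ i < l, A.LP (Vt (i - 1)) (Vt i) (Vt (i + 1)) (Vt (i + 2))
      (fun x y => A.G x y ∧ Vt (i + 1) x ∧ Vt (i + 1) y)
      (fun _ => ε i * D i - if i + 2 ≤ l then D (i + 2) else 0) ![A.p, 1 - A.p, 1] (D i) (ε i)
      (η i) ∧ (∀ x, |imb A.pt (fun x y => A.G x y ∧ Vt (i + 1) x ∧ Vt (i + 1) y) x| ≤
        2 * ε i ^ 60 * A.g (A.pt x) * D i) ∧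
      (if i + 2 ≤ l then D (i + 2) else 0) ≤ ε i * D i / 2 := by
    intro i hi
    have k1 : (if i + 2 ≤ l then D (i + 2) else 0) ≤ ε i * D i / 2 := by
      split_ifs with h
      · rw [pp.ds (i + 1) h, ← pp.ds i hi]
        nlinarith [e1 (i + 1) hi, D0 (i + 1) hi]
      · nlinarith [e0 i hi.le, D0 i hi.le]
    have k2 : ∀ x, Vt (i + 2) x → i + 2 ≤ lab x := by
      rcases (show i + 2 ≤ l ∨ i + 2 = l + 1 by omega) with h | h
      · rw [v1 _ h]; exact fun _ a => a
      · rw [h, v2]; exact hC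
    have k3 : A.Fam (fun x => i ≤ lab x) (Vt (i + 2))
        (fun _ => if i + 2 ≤ l then D (i + 2) else 0) (ε i ^ 60 * D i) := by
      have := ly.f i hi 2 le_rfl
      by_cases h : i + 2 ≤ l
      · rwa [v1 _ h]
      · simp only [if_neg h] at this ⊢
        exact this.zero_mono k2
    rw [v1 (i - 1) (by omega), v1 i hi.le, v1 (i + 1) hi]
    refine and_assoc.1 ⟨h3 V A _ _ _ _ k (D i) _ (ε i) (η i) dg
      (fun x a => by have := k2 x a; omega) (fun x a => by omega) (fun x a => by omega)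
      (pp.h0 i hi.le) (m0 i hi.le).2.1 (e0 i hi.le) (pp.eh i hi.le) (pp.dl i hi.le) (Dk i hi.le)
      (pp.lg i hi.le) (fb i hi.le).2 ?_ k1 (fb i hi.le).1 (f0 i hi) (f1 i hi) k3 (ly.op i hi.le),
      k1⟩
    split_ifs with h
    exacts [(D0 _ h).le, le_rfl]
  refine ⟨l, Vt, fun i => if i < l then fun x y => A.G x y ∧ Vt (i + 1) x ∧ Vt (i + 1) y else Q, S,
    fun i => if i < l then fun _ => ε i * D i - if i + 2 ≤ l then D (i + 2) else 0 else a,
    fun i => if i < l then ![A.p, 1 - A.p, 1] else π, D, ε, η, lpos,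
    fun x => by simp [Vt], fun x => by simp [v3], fun i hi => ?_, fun i hi x y => by simp [hi],
    fun i hi => (m0 i hi).1, fun i hi => ?_, fun i hi j => ?_, fun i hi x _ => ?_,
    fun u hu => ⟨(hS u hu).1, ?_⟩, fun u B hu hB h2 => ?_, by rw [v2]; exact heq, ?_, ?_⟩
  · rcases hi.eq_or_lt with rfl | hi
    · simp only [lt_irrefl, if_false]
      rw [v1 (i - 1) (by omega), v1 i le_rfl, v2, v3]
      exact lp
    · simp only [hi, if_true]
      exact (nat i hi).1
  · have k1 := pp.e1 i hi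
    have k2 := D0 (i + 1) hi
    rw [sq, mul_assoc, ← pp.ds i hi]
    nlinarith [sq_nonneg (η (i + 1))]
  · simp only [hi, if_true]
    linarith [(nat i hi).2.2, pp.ds i hi]
  · rw [v2]
    rcases hi.eq_or_lt with rfl | hi
    · simp only [lt_irrefl, if_false]
      exact hab S hSC (abs_le.2 ⟨by linarith, by linarith⟩) x
    · simp only [hi, if_true]
      have k1 := imb_Ab_le hSC heq x
      have k2 := (nat i hi).2.1 x
      have k3 := pp.cell i hi
      have k4 := ok.one_le_g (A.pt x)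
      have k5 : 0 < ε i ^ 60 * D i := mul_pos (pow_pos (e0 i hi.le) _) (D0 i hi.le)
      have k6 : 3 * ε i ^ 60 ≤ ε i ^ 47 := by
        have := ep i hi.le 60 48 (by norm_num)
        have h47 := pow_pos (e0 i hi.le) 47
        rw [pow_succ (ε i) 47] at this
        nlinarith [e1 i hi.le]
      have k7 : 3 * ε i ^ 60 * A.g (A.pt x) * D i ≤ ε i ^ 47 * A.g (A.pt x) * D i := by
        have := D0 i hi.le
        gcongr
      refine (abs_add_le _ _).trans ?_
      nlinarith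
  · rw [v1 1 lpos]
    have := (hS u hu).2.1
    simp [this]
  · rw [v2] at hB
    exact (hS u hu).2.2 B h2 (hC B hB)
  · rw [v2]
    intro x y _ _ hxy
    obtain ⟨j, j1, j2⟩ := exists_third (ok.tp x y hxy)
    have k1 := (abs_le.1 ((f1 0 lpos).f2 x y j (Nat.zero_le _) (Nat.zero_le _) hxy j1 j2)).2
    have k2 := cnt_le_add (P := fun z => A.G x z ∧ A.G y z ∧ Ab A.pt S C x z)
      (Q := fun z => 0 + 1 ≤ lab z ∧ A.G x z ∧ A.G y z) (R := S) fun z a =>
        a.2.2.imp (fun b => ⟨by have := hC z b.2.1; omega, a.1, a.2.1⟩) fun b => b.1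
    have k3 := eD 0 (Nat.zero_le _)
    have k4 := (eD' l le_rfl).trans ((Dm l le_rfl 1 lpos).trans_eq (pp.ds 0 lpos))
    have k5 := mul_le_mul_of_nonneg_right (pp.eh 0 (Nat.zero_le _)) (D0 0 (Nat.zero_le _)).le
    have k6 := mul_pos (e0 0 (Nat.zero_le _)) (D0 0 (Nat.zero_le _))
    nlinarith
  · simp only [lt_irrefl, if_false]
    rw [v2]
    exact fp

end Pool.Agent.P.MP_77d020_co.L
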