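import Pool.Agent.P.MP_77d020_co.L.AD
import Pool.Agent.P.MP_77d020_co.L.Boost
import Pool.Agent.P.MP_77d020_co.L.CD
import Pool.Agent.P.MP_77d020_co.L.Cell
import Pool.Agent.P.MP_77d020_co.L.Core
import Pool.Agent.P.MP_77d020_co.L.DG
import Pool.Agent.P.MP_77d020_co.L.Drop
import Pool.Agent.P.MP_77d020_co.L.FamPr
import Pool.Agent.P.MP_77d020_co.L.Final
import Pool.Agent.P.MP_77d020_co.L.Greedy
import Pool.Agent.P.MP_77d020_co.L.LPlast
import Pool.Agent.P.MP_77d020_co.L.LPnat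
import Pool.Agent.P.MP_77d020_co.L.LemE
import Pool.Agent.P.MP_77d020_co.L.Main
import Pool.Agent.P.MP_77d020_co.L.Mat
import Pool.Agent.P.MP_77d020_co.L.Par
import Pool.Agent.P.MP_77d020_co.L.RG
import Pool.Agent.P.MP_77d020_co.L.RL2
import Pool.Agent.P.MP_77d020_co.L.RSup
import Pool.Agent.P.MP_77d020_co.L.Rand
import Pool.Agent.P.MP_77d020_co.L.Res
import Pool.Agent.P.MP_77d020_co.L.Step3
import Pool.Agent.P.MP_77d020_co.L.Step4
import Pool.Agent.P.MP_77d020_co.L.Vortex

/-! Assembly of all packages. -/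

namespace Pool.Agent.P.MP_77d020_co.L

theorem largeOrder :
    ∃ v0 : ℕ, ∀ (P : Type) [Fintype P] [DecidableEq P] (Blk : Finset (Finset P)) (k lam : ℕ),
      Blk.card = Fintype.card P → (∀ B ∈ Blk, B.card = k) →
      (∀ x y : P, x ≠ y → (Blk.filter (fun B => x ∈ B ∧ y ∈ B)).card = lam) →
      lam + 2 < k → v0 ≤ Fintype.card P → ∀ B0 ∈ Blk, Arrangeable Blk B0 :=
  final dg (vortex par (rand fampr (oppr mat) cell) lpnat (lplast drop))
    (main res
      (cd (boost bc lemE (core ralg (rsup ralg) (rl2 ralg))) (ad rg) (step3 greedy)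
        (step4 greedy pms))
      (fin (step4 greedy pms) konig))

end Pool.Agent.P.MP_77d020_co.L
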