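import Pool.Agent.P.MP_77d020_co.L.Stm

/-! Basic lemmas: indicators, counting, imbalance, decompositions, operator bounds. -/

namespace Pool.Agent.P.MP_77d020_co.L

open Finset

theorem ind_pos {P : Prop} (h : P) : ind P = 1 := if_pos h

theorem ind_neg {P : Prop} (h : ¬ P) : ind P = 0 := if_neg h

theorem ind_nonneg (P : Prop) : 0 ≤ ind P := by
  by_cases h : P
  · rw [ind_pos h]; exact zero_le_one
  · rw [ind_neg h]

theorem ind_le_one (P : Prop) : ind P ≤ 1 := by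
  by_cases h : P
  · rw [ind_pos h]
  · rw [ind_neg h]; exact zero_le_one

theorem ind_le {P : Prop} {x : ℝ} (h0 : 0 ≤ x) (h : P → 1 ≤ x) : ind P ≤ x := by
  by_cases hP : P
  · rw [ind_pos hP]; exact h hP
  · rw [ind_neg hP]; exact h0

theorem ind_not (P : Prop) : ind (¬ P) = 1 - ind P := by
  by_cases h : P
  · rw [ind_pos h, ind_neg (not_not.2 h)]; ring
  · rw [ind_neg h, ind_pos h]; ring

theorem ind_and (P Q : Prop) : ind (P ∧ Q) = ind P * ind Q := by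
  by_cases h : P
  · by_cases h' : Q
    · rw [ind_pos h, ind_pos h', ind_pos ⟨h, h'⟩, mul_one]
    · rw [ind_neg h', ind_neg (fun a => h' a.2), mul_zero]
  · rw [ind_neg h, ind_neg (fun a => h a.1), zero_mul]

theorem ind_congr {P Q : Prop} (h : P ↔ Q) : ind P = ind Q := by rw [propext h]

theorem ind_mono {P Q : Prop} (h : P → Q) : ind P ≤ ind Q :=
  ind_le (ind_nonneg _) fun hP => (ind_pos (h hP)).ge

theorem ind_mul_self (P : Prop) : ind P * ind P = ind P := by rw [← ind_and, and_self]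

theorem ind_sq (P : Prop) : ind P ^ 2 = ind P := by rw [sq, ind_mul_self]

theorem ind_or_le (P Q : Prop) : ind (P ∨ Q) ≤ ind P + ind Q := by
  refine ind_le (add_nonneg (ind_nonneg _) (ind_nonneg _)) fun h => ?_
  rcases h with h | h
  · rw [ind_pos h]; linarith [ind_nonneg Q]
  · rw [ind_pos h]; linarith [ind_nonneg P]

theorem ind_or {P Q : Prop} (h : P → ¬ Q) : ind (P ∨ Q) = ind P + ind Q := by
  by_cases hP : P
  · rw [ind_pos hP, ind_neg (h hP), ind_pos (Or.inl hP), add_zero]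
  · rw [ind_neg hP, zero_add]; exact ind_congr (by tauto)

theorem card_filter_eq_sum_ind {κ : Type*} (S : Finset κ) (P : κ → Prop) [DecidablePred P] :
    ((S.filter P).card : ℝ) = ∑ j ∈ S, ind (P j) := by
  rw [card_filter]
  push_cast
  refine sum_congr rfl fun j _ => ?_
  by_cases h : P j
  · rw [if_pos h, ind_pos h]
  · rw [if_neg h, ind_neg h]

theorem sum_filter_eq_sum_ind {κ : Type*} (S : Finset κ) (P : κ → Prop) [DecidablePred P]
    (f : κ → ℝ) : ∑ j ∈ S.filter P, f j = ∑ j ∈ S, ind (P j) * f j := by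
  rw [sum_filter]
  refine sum_congr rfl fun j _ => ?_
  by_cases h : P j
  · rw [if_pos h, ind_pos h, one_mul]
  · rw [if_neg h, ind_neg h, zero_mul]

theorem exists_third {i i' : Fin 3} (h : i ≠ i') : ∃ j, j ≠ i ∧ j ≠ i' := by
  revert i i'; decide

theorem third_unique {i i' j j' : Fin 3} (h : i ≠ i') (h1 : j ≠ i) (h2 : j ≠ i') (h3 : j' ≠ i)
    (h4 : j' ≠ i') : j = j' := by
  revert i i' j j'; decide

theorem ne_iff_add {i j : Fin 3} : j ≠ i ↔ j = i + 1 ∨ j = i + 2 := by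
  revert i j; decide

theorem add_one_ne (i : Fin 3) : i + 1 ≠ i := by revert i; decide

theorem add_two_ne (i : Fin 3) : i + 2 ≠ i := by revert i; decide

theorem add_one_ne_add_two (i : Fin 3) : i + 1 ≠ i + 2 := by revert i; decide

theorem fin3 (i : Fin 3) : i = 0 ∨ i = 1 ∨ i = 2 := by revert i; decide

section Graphs

variable {V : Type} [Fintype V]

@[simp] theorem mem_fs {P : V → Prop} {x : V} : x ∈ fs P ↔ P x := by simp [fs]

theorem fs_mono {P Q : V → Prop} (h : ∀ x, P x → Q x) : fs P ⊆ fs Q :=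
  fun x hx => mem_fs.2 (h x (mem_fs.1 hx))

theorem fs_congr {P Q : V → Prop} (h : ∀ x, P x ↔ Q x) : fs P = fs Q := by
  ext x; simp [h x]

theorem sum_fs (P : V → Prop) (f : V → ℝ) : ∑ x ∈ fs P, f x = ∑ x, ind (P x) * f x := by
  classical
  rw [← sum_filter_eq_sum_ind]
  exact sum_congr (by ext x; simp) fun _ _ => rfl

theorem cnt_eq_sum (P : V → Prop) : cnt P = ∑ x, ind (P x) := by
  have := sum_fs P fun _ => 1
  simpa [cnt] using this

theorem cnt_and_eq_sum (P Q : V → Prop) : cnt (fun x => P x ∧ Q x) = ∑ x ∈ fs P, ind (Q x) := by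
  simp only [cnt_eq_sum, sum_fs, ind_and]

theorem sum_ind_eq_cnt (S : Finset V) (Q : V → Prop) :
    ∑ x ∈ S, ind (Q x) = cnt (fun x => x ∈ S ∧ Q x) := by
  rw [cnt_and_eq_sum]
  exact sum_congr (by ext x; simp) fun _ _ => rfl

theorem cnt_mem (S : Finset V) : cnt (fun x => x ∈ S) = S.card := by
  unfold cnt
  congr 2
  ext x; simp

theorem cnt_nonneg (P : V → Prop) : 0 ≤ cnt P := Nat.cast_nonneg _

theorem cnt_mono {P Q : V → Prop} (h : ∀ x, P x → Q x) : cnt P ≤ cnt Q :=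
  Nat.cast_le.2 (card_le_card (fs_mono h))

theorem cnt_congr {P Q : V → Prop} (h : ∀ x, P x ↔ Q x) : cnt P = cnt Q := by
  unfold cnt; rw [fs_congr h]

theorem cnt_zero {P : V → Prop} (h : ∀ x, ¬ P x) : cnt P = 0 := by
  rw [cnt_eq_sum]; exact sum_eq_zero fun x _ => ind_neg (h x)

theorem cnt_le_univ (P : V → Prop) : cnt P ≤ Fintype.card V :=
  Nat.cast_le.2 (card_le_univ _)

theorem cnt_true : cnt (fun _ : V => True) = Fintype.card V := by
  rw [cnt_eq_sum]; simp [ind_pos]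

theorem cnt_le_card {P : V → Prop} {S : Finset V} (h : ∀ x, P x → x ∈ S) : cnt P ≤ S.card := by
  rw [← cnt_mem]; exact cnt_mono h

theorem card_le_cnt {P : V → Prop} {S : Finset V} (h : ∀ x ∈ S, P x) : (S.card : ℝ) ≤ cnt P := by
  rw [← cnt_mem]; exact cnt_mono h

theorem cnt_le_add {P Q R : V → Prop} (h : ∀ x, P x → Q x ∨ R x) : cnt P ≤ cnt Q + cnt R := by
  simp only [cnt_eq_sum, ← sum_add_distrib]
  exact sum_le_sum fun x _ => (ind_mono (h x)).trans (ind_or_le _ _)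

theorem cnt_le_add3 {P Q R T : V → Prop} (h : ∀ x, P x → Q x ∨ R x ∨ T x) :
    cnt P ≤ cnt Q + cnt R + cnt T := by
  have h1 := cnt_le_add (R := fun x => R x ∨ T x) h
  have h2 := cnt_le_add (P := fun x => R x ∨ T x) (Q := R) (R := T) fun _ h => h
  linarith

theorem cnt_eq_add {P Q R : V → Prop} (h : ∀ x, P x ↔ Q x ∨ R x) (hd : ∀ x, Q x → ¬ R x) :
    cnt P = cnt Q + cnt R := by
  simp only [cnt_eq_sum, ← sum_add_distrib]
  exact sum_congr rfl fun x _ => (ind_congr (h x)).trans (ind_or (hd x))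

theorem cnt_split (P Q : V → Prop) :
    cnt P = cnt (fun x => P x ∧ Q x) + cnt (fun x => P x ∧ ¬ Q x) :=
  cnt_eq_add (fun x => by tauto) fun x => by tauto

theorem cnt_parts (pt : V → Fin 3) (P : V → Prop) : cnt P =
    cnt (fun x => P x ∧ pt x = 0) + cnt (fun x => P x ∧ pt x = 1) +
      cnt (fun x => P x ∧ pt x = 2) := by
  simp only [cnt_eq_sum, ← sum_add_distrib, ind_and]
  refine sum_congr rfl fun x _ => ?_
  rcases fin3 (pt x) with h | h | h <;> simp [h, ind]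

theorem exists_of_cnt_pos {P : V → Prop} (h : 0 < cnt P) : ∃ x, P x := by
  by_contra h'
  rw [cnt_zero (not_exists.1 h')] at h
  exact lt_irrefl _ h

theorem one_le_cnt {P : V → Prop} {x : V} (h : P x) : 1 ≤ cnt P := by
  unfold cnt
  exact_mod_cast card_pos.2 ⟨x, mem_fs.2 h⟩

/-- Double counting. -/
theorem sum_cnt_comm (P Q : V → Prop) (R : V → V → Prop) :
    ∑ x ∈ fs P, cnt (fun y => Q y ∧ R x y) = ∑ y ∈ fs Q, cnt (fun x => P x ∧ R x y) := by
  simp only [cnt_and_eq_sum]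
  exact sum_comm

theorem sum_fs_le {P : V → Prop} {f : V → ℝ} {b : ℝ} (h : ∀ x, P x → f x ≤ b) :
    ∑ x ∈ fs P, f x ≤ cnt P * b := by
  refine (sum_le_sum (g := fun _ => b) fun x hx => h x (mem_fs.1 hx)).trans ?_
  rw [sum_const, nsmul_eq_mul]; rfl

theorem le_sum_fs {P : V → Prop} {f : V → ℝ} {b : ℝ} (h : ∀ x, P x → b ≤ f x) :
    cnt P * b ≤ ∑ x ∈ fs P, f x := by
  refine le_trans ?_ (sum_le_sum (f := fun _ => b) fun x hx => h x (mem_fs.1 hx))
  rw [sum_const, nsmul_eq_mul]; rfl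

theorem exists_sub_cnt {P : V → Prop} {n : ℕ} (h : (n : ℝ) ≤ cnt P) :
    ∃ S : V → Prop, (∀ x, S x → P x) ∧ cnt S = n := by
  obtain ⟨T, hT, hc⟩ := exists_subset_card_eq (s := fs P) (n := n) (Nat.cast_le.1 h)
  exact ⟨fun x => x ∈ T, fun x hx => mem_fs.1 (hT hx), by rw [cnt_mem, hc]⟩

theorem cnt_bij {P Q : V → Prop} (f : V → V) (h1 : ∀ x, P x → Q (f x))
    (h2 : ∀ x x', P x → P x' → f x = f x' → x = x') (h3 : ∀ y, Q y → ∃ x, P x ∧ f x = y) :
    cnt P = cnt Q := by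
  unfold cnt
  congr 1
  refine card_bij (fun x _ => f x) (fun x hx => mem_fs.2 (h1 x (mem_fs.1 hx)))
    (fun x hx x' hx' e => h2 x x' (mem_fs.1 hx) (mem_fs.1 hx') e) fun y hy => ?_
  obtain ⟨x, hx, e⟩ := h3 y (mem_fs.1 hy)
  exact ⟨x, mem_fs.2 hx, e⟩

variable {pt : V → Fin 3} {G H H' : V → V → Prop}

omit [Fintype V] in
theorem Tp.mono (h : Tp pt H) (h' : ∀ x y, H' x y → H x y) : Tp pt H' :=
  fun x y a => h x y (h' x y a)

omit [Fintype V] in
theorem Tp.ne (h : Tp pt H) {x y : V} (a : H x y) : x ≠ y := fun e => h x y a (by rw [e])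

theorem deg_self (h : Tp pt H) (x : V) : deg pt H x (pt x) = 0 :=
  cnt_zero fun y a => h x y a.2 a.1.symm

theorem imb_congr {x : V} (h : ∀ y, H x y ↔ H' x y) : imb pt H x = imb pt H' x := by
  unfold imb deg
  simp only [h]

theorem imb_zero {x : V} (h : ∀ y, ¬ H x y) : imb pt H x = 0 := by
  unfold imb deg
  rw [cnt_zero fun y a => h y a.2, cnt_zero fun y a => h y a.2, sub_zero]

theorem imb_eq_add {x : V} (h : ∀ y, G x y ↔ H x y ∨ H' x y) (hd : ∀ y, H x y → ¬ H' x y) :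
    imb pt G x = imb pt H x + imb pt H' x := by
  have key : ∀ j, deg pt G x j = deg pt H x j + deg pt H' x j := fun j =>
    cnt_eq_add (fun y => by rw [h y]; tauto) fun y a b => hd y a.2 b.2
  unfold imb
  rw [key, key]; ring

theorem imb_sub {x : V} (h : ∀ y, H' x y → H x y) :
    imb pt (fun x y => H x y ∧ ¬ H' x y) x = imb pt H x - imb pt H' x := by
  have := imb_eq_add (pt := pt) (G := H) (H := H') (H' := fun x y => H x y ∧ ¬ H' x y) (x := x)
    (fun y => by have := h y; tauto) fun y a b => b.2 a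
  linarith

omit [Fintype V] in
theorem Dec.congr (h : Dec H) (e : ∀ x y, H x y ↔ H' x y) : Dec H' := by
  obtain ⟨Tr, a, b, c, d⟩ := h
  exact ⟨Tr, a, b, c, fun x y => (e x y).symm.trans (d x y)⟩

omit [Fintype V] in
theorem Dec.sy (h : Dec H) : Sy H := by
  obtain ⟨Tr, a, -, -, d⟩ := h
  intro x y hxy
  obtain ⟨z, hz⟩ := (d x y).1 hxy
  exact (d y x).2 ⟨z, a _ _ _ hz⟩

omit [Fintype V] in
theorem Dec.empty (h : ∀ x y, ¬ H x y) : Dec H :=
  ⟨fun _ _ _ => False, fun _ _ _ a => a, fun _ _ _ a => a, fun _ _ _ _ a => a.elim,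
    fun x y => by simp [h x y]⟩

omit [Fintype V] in
/-- A union of pairwise edge-disjoint decomposable graphs. -/
theorem Dec.iUnion {I : Type*} (s : I → Prop) (K : I → V → V → Prop) (h : ∀ i, s i → Dec (K i))
    (hd : ∀ i i' x y, s i → s i' → K i x y → K i' x y → i = i') :
    Dec fun x y => ∃ i, s i ∧ K i x y := by
  choose Tr a b c d using h
  refine ⟨fun x y z => ∃ i, ∃ hi : s i, Tr i hi x y z, ?_, ?_, ?_, fun x y => ?_⟩
  · rintro x y z ⟨i, hi, h⟩; exact ⟨i, hi, a i hi _ _ _ h⟩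
  · rintro x y z ⟨i, hi, h⟩; exact ⟨i, hi, b i hi _ _ _ h⟩
  · rintro x y z z' ⟨i, hi, h⟩ ⟨i', hi', h'⟩
    obtain rfl := hd i i' x y hi hi' ((d i hi x y).2 ⟨z, h⟩) ((d i' hi' x y).2 ⟨z', h'⟩)
    exact c i hi _ _ _ _ h h'
  · constructor
    · rintro ⟨i, hi, h⟩
      obtain ⟨z, hz⟩ := (d i hi x y).1 h
      exact ⟨z, i, hi, hz⟩
    · rintro ⟨z, i, hi, h⟩
      exact ⟨i, hi, (d i hi x y).2 ⟨z, h⟩⟩

omit [Fintype V] in
theorem Dec.union (h : Dec H) (h' : Dec H') (hd : ∀ x y, H x y → ¬ H' x y) :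
    Dec fun x y => H x y ∨ H' x y := by
  refine (Dec.iUnion (fun _ : Bool => True) (fun b => if b then H else H') ?_ ?_).congr ?_
  · rintro (_ | _) - <;> simpa
  · rintro (_ | _) (_ | _) x y - - a b
    · rfl
    · exact (hd x y b a).elim
    · exact (hd x y a b).elim
    · rfl
  · intro x y
    simp [or_comm]

omit [Fintype V] in
/-- A family of triples, any two sharing at most one vertex, decomposes the graph it covers. -/
theorem Dec.of_sets (S : Finset V → Prop) (h3 : ∀ t, S t → t.card = 3)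
    (hd : ∀ t t' x y, S t → S t' → x ≠ y → x ∈ t → y ∈ t → x ∈ t' → y ∈ t' → t = t') :
    Dec fun x y => x ≠ y ∧ ∃ t, S t ∧ x ∈ t ∧ y ∈ t := by
  classical
  refine ⟨fun x y z => x ≠ y ∧ x ≠ z ∧ y ≠ z ∧ ∃ t, S t ∧ x ∈ t ∧ y ∈ t ∧ z ∈ t, ?_, ?_, ?_,
    fun x y => ⟨?_, ?_⟩⟩
  · rintro x y z ⟨a, b, c, t, h, d, e, f⟩; exact ⟨a.symm, c, b, t, h, e, d, f⟩
  · rintro x y z ⟨a, b, c, t, h, d, e, f⟩; exact ⟨b, a, c.symm, t, h, d, f, e⟩
  · rintro x y z z' ⟨a, b, c, t, h, d, e, f⟩ ⟨-, b', c', t', h', d', e', f'⟩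
    obtain rfl := hd t t' x y h h' a d e d' e'
    by_contra hz
    have h4 : ({x, y, z, z'} : Finset V) ⊆ t := by
      intro v hv
      simp only [mem_insert, mem_singleton] at hv
      rcases hv with rfl | rfl | rfl | rfl <;> assumption
    have := card_le_card h4
    rw [h3 t h, card_insert_of_notMem (by simp [a, b, b']), card_insert_of_notMem (by simp [c, c']),
      card_pair hz] at this
    omega
  · rintro ⟨a, t, h, d, e⟩
    obtain ⟨z, hz, hz'⟩ : ∃ z ∈ t, z ∉ ({x, y} : Finset V) :=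
      exists_mem_notMem_of_card_lt_card (by rw [h3 t h, card_pair a]; omega)
    simp only [mem_insert, mem_singleton, not_or] at hz'
    exact ⟨z, a, fun e => hz'.1 e.symm, fun e => hz'.2 e.symm, t, h, d, e, hz⟩
  · rintro ⟨z, a, -, -, t, h, d, e, -⟩
    exact ⟨a, t, h, d, e⟩

/-- The edges of the triangle `a b c`. -/
def TE (a b c x y : V) : Prop :=
  (x = a ∧ y = b) ∨ (x = b ∧ y = a) ∨ (x = a ∧ y = c) ∨ (x = c ∧ y = a) ∨ (x = b ∧ y = c) ∨
    (x = c ∧ y = b)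

omit [Fintype V] in
theorem Dec.tri {a b c : V} (h1 : a ≠ b) (h2 : a ≠ c) (h3 : b ≠ c) : Dec (TE a b c) := by
  classical
  refine (Dec.of_sets (fun t => t = {a, b, c}) ?_ ?_).congr fun x y => ?_
  · rintro t rfl
    exact card_eq_three.2 ⟨a, b, c, h1, h2, h3, rfl⟩
  · rintro t t' x y rfl rfl - - - - -; rfl
  · simp only [exists_eq_left, mem_insert, mem_singleton, TE]
    constructor
    · rintro ⟨h, rfl | rfl | rfl, rfl | rfl | rfl⟩ <;> simp_all
    · rintro (⟨rfl, rfl⟩ | ⟨rfl, rfl⟩ | ⟨rfl, rfl⟩ | ⟨rfl, rfl⟩ | ⟨rfl, rfl⟩ | ⟨rfl, rfl⟩) <;>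
        simp [h1, h2, h3, h1.symm, h2.symm, h3.symm]

/-- A decomposable tripartite graph is balanced at every vertex. -/
theorem Dec.imb (h : Dec H) (ht : Tp pt H) (x : V) : imb pt H x = 0 := by
  classical
  obtain ⟨Tr, a, b, c, d⟩ := h
  have e12 : ∀ {x y z}, Tr x y z → H x y := fun h => (d _ _).2 ⟨_, h⟩
  let f : V → V := fun y => if h : ∃ z, Tr x y z then h.choose else y
  have hf : ∀ y, H x y → Tr x y (f y) := by
    intro y hy
    have h := (d x y).1 hy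
    simp only [f, dif_pos h]
    exact h.choose_spec
  have key : ∀ y z, Tr x y z → pt y ≠ pt x ∧ pt z ≠ pt x ∧ pt y ≠ pt z := fun y z h =>
    ⟨(ht _ _ (e12 h)).symm, (ht _ _ (e12 (b _ _ _ h))).symm,
      ht _ _ (e12 (b _ _ _ (a _ _ _ h)))⟩
  unfold L.imb deg
  rw [sub_eq_zero]
  refine cnt_bij f (fun y hy => ?_) (fun y y' hy hy' e => ?_) fun z hz => ?_
  · have h := hf y hy.2
    obtain ⟨-, k2, k3⟩ := key _ _ h
    refine ⟨?_, e12 (b _ _ _ h)⟩
    rcases ne_iff_add.1 k2 with k | k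
    · exact (k3 (hy.1.trans k.symm)).elim
    · exact k
  · exact c _ _ _ _ (b _ _ _ (hf y hy.2)) (e ▸ b _ _ _ (hf y' hy'.2))
  · have h := hf z hz.2
    obtain ⟨-, k2, k3⟩ := key _ _ h
    refine ⟨f z, ⟨?_, e12 (b _ _ _ h)⟩, c _ _ _ _ (hf _ (e12 (b _ _ _ h))) (b _ _ _ h)⟩
    rcases ne_iff_add.1 k2 with k | k
    · exact k
    · exact (k3 (hz.1.trans k.symm)).elim

theorem St.mono {A A' : V → Prop} {P P' : V → V → Prop} {b b' : ℝ} (h : St G A P b)
    (hA : ∀ x, A' x → A x) (hP : ∀ x z, A' x → G x z → P' x z → P x z) (hb : b ≤ b') :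
    St G A' P' b' := fun x y hx hy hxy =>
  ((cnt_mono fun z hz => ⟨hz.1, hz.2.1, hP x z hx hz.1 hz.2.2⟩).trans
    (h x y (hA x hx) (hA y hy) hxy)).trans hb

theorem St.or {A : V → Prop} {P P' P'' : V → V → Prop} {b b' : ℝ} (h : St G A P b)
    (h' : St G A P' b') (hP : ∀ x z, A x → G x z → P'' x z → P x z ∨ P' x z) :
    St G A P'' (b + b') := fun x y hx hy hxy =>
  (cnt_le_add fun z hz => (hP x z hx hz.1 hz.2.2).imp (fun a => ⟨hz.1, hz.2.1, a⟩)
    fun a => ⟨hz.1, hz.2.1, a⟩).trans (add_le_add (h x y hx hy hxy) (h' x y hx hy hxy))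

theorem Frac.mono {φ : V → V → V → ℝ} {δ δ' : ℝ} (h : Frac pt H φ δ) (hd : δ ≤ δ') :
    Frac pt H φ δ' :=
  ⟨fun _ _ a b c => (h.f01 _ _ a b c).trans hd, fun _ _ a b c => (h.f02 _ _ a b c).trans hd,
    fun _ _ a b c => (h.f12 _ _ a b c).trans hd⟩

/-- The operator bound for arbitrary finite subsets. -/
theorem Op.sub {A B : V → Prop} {M : V → V → ℝ} {c : ℝ} (h : Op A B M c) {X Y : Finset V}
    (hX : ∀ x ∈ X, A x) (hY : ∀ y ∈ Y, B y) (f k : V → ℝ) :
    (∑ x ∈ X, ∑ y ∈ Y, M x y * f x * k y) ^ 2 ≤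
      c ^ 2 * (∑ x ∈ X, f x ^ 2) * ∑ y ∈ Y, k y ^ 2 := by
  have e : ∀ (A : V → Prop) (X : Finset V), (∀ x ∈ X, A x) → ∀ F : V → ℝ,
      ∑ x ∈ fs A, ind (x ∈ X) * F x = ∑ x ∈ X, F x := by
    intro A X hX F
    classical
    rw [← sum_filter_eq_sum_ind]
    refine sum_congr ?_ fun _ _ => rfl
    ext x
    simp only [mem_filter, mem_fs]
    exact ⟨fun a => a.2, fun a => ⟨hX x a, a⟩⟩
  have := h (fun x => ind (x ∈ X) * f x) fun y => ind (y ∈ Y) * k y
  simp only [mul_pow, ind_sq] at this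
  rw [e A X hX, e B Y hY] at this
  refine le_of_eq_of_le ?_ this
  congr 1
  rw [← e A X hX]
  refine sum_congr rfl fun x _ => ?_
  rw [← e B Y hY, mul_sum]
  exact sum_congr rfl fun y _ => by ring

theorem Op.mono {A B A' B' : V → Prop} {M : V → V → ℝ} {c c' : ℝ} (h : Op A B M c)
    (hA : ∀ x, A' x → A x) (hB : ∀ x, B' x → B x) (h0 : 0 ≤ c) (hc : c ≤ c') : Op A' B' M c' :=
  fun f k => (h.sub (fun x hx => hA x (mem_fs.1 hx)) (fun x hx => hB x (mem_fs.1 hx)) f k).trans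
    (by gcongr)

/-- Norm form of the operator bound. -/
theorem Op.vec {A B : V → Prop} {M : V → V → ℝ} {c : ℝ} (h : Op A B M c) {X Y : Finset V}
    (hX : ∀ x ∈ X, A x) (hY : ∀ y ∈ Y, B y) (f : V → ℝ) :
    ∑ y ∈ Y, (∑ x ∈ X, M x y * f x) ^ 2 ≤ c ^ 2 * ∑ x ∈ X, f x ^ 2 := by
  have h1 := h.sub hX hY f fun y => ∑ x ∈ X, M x y * f x
  have e : ∑ x ∈ X, ∑ y ∈ Y, M x y * f x * ∑ x ∈ X, M x y * f x =
      ∑ y ∈ Y, (∑ x ∈ X, M x y * f x) ^ 2 := by
    rw [sum_comm]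
    exact sum_congr rfl fun y _ => by rw [← sum_mul, sq]
  rw [e] at h1
  have h0 : 0 ≤ ∑ y ∈ Y, (∑ x ∈ X, M x y * f x) ^ 2 := sum_nonneg fun _ _ => sq_nonneg _
  rcases h0.eq_or_lt with h0 | h0
  · rw [← h0]; positivity
  · rw [sq] at h1; exact le_of_mul_le_mul_right h1 h0

/-- Discrepancy form of the operator bound. -/
theorem Op.disc {A B : V → Prop} {M : V → V → ℝ} {c : ℝ} (h : Op A B M c) (hc : 0 ≤ c)
    {X Y : Finset V} (hX : ∀ x ∈ X, A x) (hY : ∀ y ∈ Y, B y) :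
    |∑ x ∈ X, ∑ y ∈ Y, M x y| ≤ c * max (X.card : ℝ) Y.card := by
  have h1 := h.sub hX hY (fun _ => 1) fun _ => 1
  simp only [mul_one, one_pow, sum_const, nsmul_eq_mul] at h1
  refine abs_le_of_sq_le_sq' (h1.trans ?_) (by positivity) |> abs_le.2
  rw [mul_pow, sq (max _ _), mul_assoc]
  gcongr
  · exact le_max_left _ _
  · exact le_max_right _ _

omit [Fintype V] in
theorem eb_mono (h : ∀ x y, H x y → H' x y) (X Y : Finset V) : eb H X Y ≤ eb H' X Y :=
  sum_le_sum fun _ _ => sum_le_sum fun _ _ => ind_mono (h _ _)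

omit [Fintype V] in
theorem eb_comm (h : Sy H) (X Y : Finset V) : eb H X Y = eb H Y X := by
  unfold eb
  rw [sum_comm]
  exact sum_congr rfl fun _ _ => sum_congr rfl fun _ _ => ind_congr ⟨h _ _, h _ _⟩

end Graphs

namespace Amb

variable {V : Type} [Fintype V] {A : Amb V}

omit [Fintype V] in
theorem Ok.one_le_g (h : A.Ok) (i : Fin 3) : 1 ≤ A.g i := by
  rcases fin3 i with rfl | rfl | rfl
  · exact h.g1.trans h.g0
  · exact h.g1
  · exact h.g2.ge

omit [Fintype V] in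
theorem Ok.one_le_gz (h : A.Ok) (i : Fin 3) : 1 ≤ A.gz i := by
  rcases fin3 i with rfl | rfl | rfl
  · exact h.g1
  · exact h.one_le_g 0
  · exact one_le_mul_of_one_le_of_one_le (h.one_le_g 0) h.g1

omit [Fintype V] in
theorem Ok.g0_le (h : A.Ok) : A.g 0 ≤ 1 / A.p := by
  rw [le_div_iff₀ h.p0, mul_comm]; exact h.pg

omit [Fintype V] in
theorem Ok.g1_le (h : A.Ok) : A.g 1 ≤ 1 + 2 * A.p := by
  have h1 := h.pg'
  have h2 := h.pg
  have h3 := h.p0
  have h4 := h.g1'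
  nlinarith

omit [Fintype V] in
theorem Ok.gz_sum (h : A.Ok) : A.gz 0 + A.gz 1 + A.gz 2 ≤ 4 / A.p := by
  have h1 := h.g0_le
  have h2 := h.g0
  have h3 := h.g1'
  have h4 := h.one_le_g 0
  have : A.g 0 * A.g 1 ≤ A.g 0 * 2 := by gcongr
  have e : 4 / A.p = 4 * (1 / A.p) := by ring
  simp only [gz, Matrix.cons_val_zero, Matrix.cons_val_one, Matrix.cons_val]
  linarith

variable {T T' Z Z' : V → Prop} {a : Fin 3 → ℝ} {e e' : ℝ}

theorem Fam.mono (ok : A.Ok) (h : A.Fam T Z a e) (hT : ∀ x, T' x → T x) (he : e ≤ e') :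
    A.Fam T' Z a e' :=
  ⟨fun j => (h.f0 j).trans (by have := ok.one_le_gz j; gcongr),
    fun x j hx hj => (h.f1 x j (hT x hx) hj).trans (by have := ok.one_le_g (A.pt x); gcongr),
    fun x y j hx hy hxy h1 h2 => (h.f2 x y j (hT x hx) (hT y hy) hxy h1 h2).trans he⟩

theorem Fam.zero_mono (h : A.Fam T Z (fun _ => 0) e) (hZ : ∀ x, Z' x → Z x) :
    A.Fam T Z' (fun _ => 0) e := by
  refine ⟨fun j => ?_, fun x j hx hj => ?_, fun x y j hx hy hxy h1 h2 => ?_⟩
  · have := h.f0 j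
    rw [zero_mul, sub_zero, abs_of_nonneg (cnt_nonneg _)] at this ⊢
    exact (cnt_mono fun z hz => ⟨hZ z hz.1, hz.2⟩).trans this
  · have := h.f1 x j hx hj
    rw [zero_mul, sub_zero, abs_of_nonneg (cnt_nonneg _)] at this ⊢
    exact (cnt_mono fun z hz => ⟨hZ z hz.1, hz.2⟩).trans this
  · have := h.f2 x y j hx hy hxy h1 h2
    rw [sub_zero, abs_of_nonneg (cnt_nonneg _)] at this ⊢
    exact (cnt_mono fun z hz => ⟨hZ z hz.1, hz.2⟩).trans this

theorem Fam.congr (h : A.Fam T Z a e) (hZ : ∀ x, Z x ↔ Z' x) : A.Fam T Z' a e := by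
  rwa [show Z' = Z from funext fun x => propext (hZ x).symm]

/-- Size of a set from the part sizes. -/
theorem Fam.cnt_le (ok : A.Ok) (h : A.Fam T Z a e) {b : ℝ} (hb : ∀ j, a j + e ≤ b)
    (h0 : 0 ≤ b) : cnt Z ≤ 4 * b / A.p := by
  have k : ∀ j, cnt (fun z => Z z ∧ A.pt z = j) ≤ b * A.gz j := fun j => by
    have h1 := (abs_le.1 (h.f0 j)).2
    have h2 : (a j + e) * A.gz j ≤ b * A.gz j := by
      have := ok.one_le_gz j
      gcongr
      exact hb j
    linarith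
  have h3 : b * (A.gz 0 + A.gz 1 + A.gz 2) ≤ b * (4 / A.p) := by
    gcongr; exact ok.gz_sum
  rw [cnt_parts A.pt Z]
  have e : 4 * b / A.p = b * (4 / A.p) := by ring
  linarith [k 0, k 1, k 2]

theorem Ops.mono {c c' : ℝ} (h : A.Ops Z c) (hZ : ∀ x, Z' x → Z x) (h0 : 0 ≤ c) (hc : c ≤ c') :
    A.Ops Z' c' := fun j hj =>
  (h j hj).mono (fun x hx => ⟨hZ x hx.1, hx.2⟩) (fun x hx => ⟨hZ x hx.1, hx.2⟩) h0 hc

theorem DG.card_le {k : ℝ} (h : A.DG k) : (Fintype.card V : ℝ) ≤ 4 * k / A.p := by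
  rw [← cnt_true]
  exact h.fam.cnt_le h.ok (fun _ => by simp) (by linarith [h.k1])

theorem DG.sz {k : ℝ} (h : A.DG k) (j : Fin 3) : cnt (fun z => A.pt z = j) = k * A.gz j := by
  have := h.fam.f0 j
  simpa [sub_eq_zero] using this

theorem DG.dg {k : ℝ} (h : A.DG k) (x : V) {j : Fin 3} (hj : j ≠ A.pt x) :
    cnt (fun z => A.pt z = j ∧ A.G x z) = k * A.g (A.pt x) := by
  have := h.fam.f1 x j trivial hj
  simpa [sub_eq_zero] using this

theorem DG.tri {k : ℝ} (h : A.DG k) {x y : V} (hxy : A.G x y) :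
    cnt (fun z => A.G x z ∧ A.G y z) = k := by
  obtain ⟨j, h1, h2⟩ := exists_third (h.ok.tp x y hxy)
  have := h.fam.f2 x y j trivial trivial hxy h1 h2
  simpa [sub_eq_zero] using this

theorem DG.imb {k : ℝ} (h : A.DG k) (x : V) : imb A.pt A.G x = 0 := by
  unfold L.imb deg
  rw [h.dg x (add_one_ne _), h.dg x (add_two_ne _), sub_self]

theorem Vx.mono {η0 η1 : ℝ} {l : ℕ} {Vt : ℕ → V → Prop} {Qt : ℕ → V → V → Prop} {S : V → Prop}
    {a π : ℕ → Fin 3 → ℝ} {D ε η : ℕ → ℝ} (h : A.Vx η0 l Vt Qt S a π D ε η) (h1 : η0 ≤ η1) :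
    A.Vx η1 l Vt Qt S a π D ε η :=
  { h with eta := fun i hi => (h.eta i hi).trans h1 }

end Amb

theorem PP.mono {η0 η1 k p : ℝ} {l : ℕ} {D ε η : ℕ → ℝ} (h : PP η0 k p l D ε η) (h1 : η0 ≤ η1) :
    PP η1 k p l D ε η :=
  { h with h1 := fun i hi => (h.h1 i hi).trans h1 }

end Pool.Agent.P.MP_77d020_co.L
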