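import Mathlib

/-!
Definitions for the large order case of the Agrawal conjecture.
Graphs are relations, vertex sets are predicates. Part 0 = rows, part 1 = columns,
part 2 = letters.
-/

noncomputable section

namespace Pool.Agent.P.MP_77d020_co.L

open Finset

open scoped Classical in
/-- Indicator of a proposition. -/
def ind (P : Prop) : ℝ := if P then 1 else 0

section Graphs

variable {V : Type} [Fintype V]

open scoped Classical in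
/-- The finite set of a predicate. -/
def fs (P : V → Prop) : Finset V := univ.filter P

/-- The number of vertices with a property, as a real number. -/
def cnt (P : V → Prop) : ℝ := ((fs P).card : ℝ)

/-- Symmetric relation. -/
def Sy (H : V → V → Prop) : Prop := ∀ x y, H x y → H y x

/-- Edges join different parts. -/
def Tp (pt : V → Fin 3) (H : V → V → Prop) : Prop := ∀ x y, H x y → pt x ≠ pt y

/-- Degree into part `j`. -/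
def deg (pt : V → Fin 3) (H : V → V → Prop) (x : V) (j : Fin 3) : ℝ :=
  cnt fun y => pt y = j ∧ H x y

/-- Imbalance at a vertex. -/
def imb (pt : V → Fin 3) (H : V → V → Prop) (x : V) : ℝ :=
  deg pt H x (pt x + 1) - deg pt H x (pt x + 2)

/-- `H` has a triangle decomposition. -/
def Dec (H : V → V → Prop) : Prop :=
  ∃ Tr : V → V → V → Prop, (∀ x y z, Tr x y z → Tr y x z) ∧ (∀ x y z, Tr x y z → Tr x z y) ∧
    (∀ x y z z', Tr x y z → Tr x y z' → z = z') ∧ ∀ x y, H x y ↔ ∃ z, Tr x y z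

/-- Star bound: for every edge `x y` of `G` inside `A`, at most `b` common neighbours `z` of
`x` and `y` satisfy `P x z`. -/
def St (G : V → V → Prop) (A : V → Prop) (P : V → V → Prop) (b : ℝ) : Prop :=
  ∀ x y, A x → A y → G x y → cnt (fun z => G x z ∧ G y z ∧ P x z) ≤ b

/-- Operator norm bound for the block of `M` on `A × B`. -/
def Op (A B : V → Prop) (M : V → V → ℝ) (c : ℝ) : Prop :=
  ∀ f h : V → ℝ, (∑ x ∈ fs A, ∑ y ∈ fs B, M x y * f x * h y) ^ 2 ≤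
    c ^ 2 * (∑ x ∈ fs A, f x ^ 2) * ∑ y ∈ fs B, h y ^ 2

/-- Number of edges between two finite sets. -/
def eb (H : V → V → Prop) (X Y : Finset V) : ℝ := ∑ x ∈ X, ∑ y ∈ Y, ind (H x y)

/-- The absorber: all pairs between `S` and the columns and letters of `C`. -/
def Ab (pt : V → Fin 3) (S C : V → Prop) (x y : V) : Prop :=
  (S x ∧ C y ∧ pt y ≠ 0) ∨ (S y ∧ C x ∧ pt x ≠ 0)

/-- An approximate fractional triangle decomposition; `φ u w B` is the weight of the triangle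
with row `u`, column `w`, letter `B`. -/
structure Frac (pt : V → Fin 3) (H : V → V → Prop) (φ : V → V → V → ℝ) (δ : ℝ) : Prop where
  f01 : ∀ u w, pt u = 0 → pt w = 1 → H u w →
    |∑ B ∈ fs (fun B => H u B ∧ H w B), φ u w B - 1| ≤ δ
  f02 : ∀ u B, pt u = 0 → pt B = 2 → H u B →
    |∑ w ∈ fs (fun w => H u w ∧ H w B), φ u w B - 1| ≤ δ
  f12 : ∀ w B, pt w = 1 → pt B = 2 → H w B →
    |∑ u ∈ fs (fun u => H u w ∧ H u B), φ u w B - 1| ≤ δ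

end Graphs

/-- The ambient tripartite graph with its constants. -/
structure Amb (V : Type) where
  pt : V → Fin 3
  G : V → V → Prop
  p : ℝ
  g : Fin 3 → ℝ

namespace Amb

variable {V : Type} [Fintype V] (A : Amb V)

/-- Relative sizes of the three parts. -/
def gz : Fin 3 → ℝ := ![A.g 1, A.g 0, A.g 0 * A.g 1]

/-- Centred adjacency matrix between points and letters. -/
def am (x B : V) : ℝ := ind (A.G x B) - (if A.pt x = 0 then 1 - A.p else A.p)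

structure Ok : Prop where
  sy : Sy A.G
  tp : Tp A.pt A.G
  cpl : ∀ u w, A.pt u = 0 → A.pt w = 1 → A.G u w
  p0 : 0 < A.p
  ph : A.p ≤ 1 / 2
  g2 : A.g 2 = 1
  g1 : 1 ≤ A.g 1
  g1' : A.g 1 ≤ 2
  g0 : A.g 1 ≤ A.g 0
  pg : A.p * A.g 0 ≤ 1
  pg' : (1 - A.p) * A.g 1 = A.p * A.g 0

/-- Counts in `Z` seen from vertices and edges inside `T` are as for a random set with
scale `a j` on part `j`, up to the error `e`. -/
structure Fam (T Z : V → Prop) (a : Fin 3 → ℝ) (e : ℝ) : Prop where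
  f0 : ∀ j, |cnt (fun z => Z z ∧ A.pt z = j) - a j * A.gz j| ≤ e * A.gz j
  f1 : ∀ x j, T x → j ≠ A.pt x →
    |cnt (fun z => Z z ∧ A.pt z = j ∧ A.G x z) - a j * A.g (A.pt x)| ≤ e * A.g (A.pt x)
  f2 : ∀ x y j, T x → T y → A.G x y → j ≠ A.pt x → j ≠ A.pt y →
    |cnt (fun z => Z z ∧ A.G x z ∧ A.G y z) - a j| ≤ e

/-- Operator bounds on a vertex set. -/
def Ops (Z : V → Prop) (c : ℝ) : Prop :=
  ∀ j, j ≠ 2 → Op (fun x => Z x ∧ A.pt x = j) (fun y => Z y ∧ A.pt y = 2) A.am c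

/-- The graph of a design of order `k`. -/
structure DG (k : ℝ) : Prop where
  ok : A.Ok
  k1 : 1 ≤ k
  fam : A.Fam (fun _ => True) (fun _ => True) (fun _ => k) 0
  op : A.Ops (fun _ => True) (√k)
  pk : 1 ≤ 2 * k * A.p
  pl : 1 - 1 / k ≤ A.p * A.g 0

/-- A vertex set on which the ambient graph looks like a design graph of order `D`. -/
structure Nt (Vs : V → Prop) (D ξ : ℝ) : Prop where
  fam : A.Fam Vs Vs (fun _ => D) (ξ * D)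
  op : A.Ops Vs (ξ * D)
  pl : 1 - ξ ≤ A.p * A.g 0

/-- Level package. `Vs ∖ V1` are the vertices finished at this level, `V1 ∖ V2` carries the
other ends of the reserve edges, `Q` is the graph kept inside `V1`. -/
structure LP (Vb Vs V1 V2 : V → Prop) (Q : V → V → Prop) (a π : Fin 3 → ℝ) (D ε η : ℝ) :
    Prop where
  ok : A.Ok
  s21 : ∀ x, V2 x → V1 x
  s1s : ∀ x, V1 x → Vs x
  ssb : ∀ x, Vs x → Vb x
  qsy : Sy Q
  qG : ∀ x y, Q x y → A.G x y ∧ V1 x ∧ V1 y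
  e0 : 0 < ε
  h0 : 0 < η
  eh : ε ≤ η ^ 2
  dl : 1 ≤ ε ^ 600 * D
  nat : A.Nt Vs D (10 * η ^ 2)
  cb : cnt Vb ≤ Real.exp (1 / ε)
  cs : cnt Vs ≤ Real.exp (1 / η)
  cp : 1 / A.p ≤ Real.exp (1 / η)
  al : ∀ j, ε * D / 10 ^ 6 ≤ a j
  au : ∀ j, a j ≤ 2 * ε * D
  p0 : ∀ i, 0 < π i
  pl : ∀ i, 0.48 ≤ π i * A.g i
  pu : ∀ i, π i * A.g i ≤ 1
  l1 : ∀ x j, Vs x → ¬ V1 x → j ≠ A.pt x →
    |cnt (fun z => V1 z ∧ ¬ V2 z ∧ A.pt z = j ∧ A.G x z) - a j * A.g (A.pt x)| ≤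
      ε ^ 50 * A.g (A.pt x) * D
  l2 : ∀ x, V1 x → |imb A.pt (fun y z => Vs z ∧ ¬ V1 z ∧ A.G y z) x| ≤ ε ^ 50 * A.g (A.pt x) * D
  l3 : ∀ x y, Vs x → Vs y → A.G x y → cnt (fun z => V1 z ∧ A.G x z ∧ A.G y z) ≤ 3 * ε * D
  l4 : ∀ x y j, Vs x → ¬ V1 x → Vs y → ¬ V1 y → A.G x y → j ≠ A.pt x → j ≠ A.pt y →
    a j / 2 ≤ cnt (fun z => V1 z ∧ ¬ V2 z ∧ A.G x z ∧ A.G y z)
  l4' : ∀ x y j, Vs x → Vs y → A.G x y → j ≠ A.pt x → j ≠ A.pt y →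
    cnt (fun z => V1 z ∧ ¬ V2 z ∧ A.G x z ∧ A.G y z) ≤ 2 * a j
  l5 : ∀ x y j, Vs x → ¬ V1 x → V1 y → A.G x y → j ≠ A.pt x → j ≠ A.pt y →
    0.98 * a j * (π (A.pt x) * A.g (A.pt x)) ≤ cnt (fun z => V1 z ∧ ¬ V2 z ∧ A.G x z ∧ Q y z)
  l6 : ∀ i, ∀ X Y : Finset V, (∀ x ∈ X, V1 x ∧ A.pt x = i + 1) →
    (∀ y ∈ Y, V1 y ∧ A.pt y = i + 2) → (X.card : ℝ) ≤ 2 * ε ^ 4 * D * A.g i →
    (Y.card : ℝ) ≤ 2 * ε ^ 4 * D * A.g i →
    eb Q X Y ≤ π i * X.card * Y.card + ε ^ 4 * D / 25 * max (X.card : ℝ) Y.card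
  l7 : ∀ x y, Vb x → Vs y → A.G x y → cnt (fun z => Vs z ∧ A.G x z ∧ A.G y z) ≤ 2 * D

/-- Reserve package: `R` is the reserve of this level, `R'` the reserve of the next one. -/
structure RP (Vb Vs V1 V2 : V → Prop) (Q R R' : V → V → Prop) (π : Fin 3 → ℝ) (D ε : ℝ) :
    Prop where
  sy : Sy R
  sub : ∀ x y, R x y → A.G x y ∧
    ((Vs x ∧ ¬ V1 x ∧ V1 y ∧ ¬ V2 y) ∨ (Vs y ∧ ¬ V1 y ∧ V1 x ∧ ¬ V2 x))
  r1 : ∀ x, |imb A.pt R x| ≤ ε ^ 47 * A.g (A.pt x) * D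
  r2 : St A.G Vs R (5 * ε * D)
  r3 : ∀ x y, Vs x → ¬ V1 x → Vs y → ¬ V1 y → A.G x y →
    ε ^ 7 * D / 8 ≤ cnt (fun z => R x z ∧ R y z)
  r3' : ∀ x y, Vs x → ¬ V1 x → V1 y → A.G x y →
    ε ^ 7 * D / 8 ≤ cnt (fun z => R x z ∧ Q y z ∧ ¬ R' y z)
  r4 : ∀ x j, Vs x → ¬ V1 x → deg A.pt R x j ≤ 1.1 * (ε ^ 4 * D * A.g (A.pt x))
  r5 : ∀ x y, Vs x → ¬ V1 x → V1 y → A.G x y →
    0.95 * (π (A.pt x) * (ε ^ 4 * D * A.g (A.pt x))) ≤ cnt (fun z => R x z ∧ Q y z)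
  r5' : ∀ x y, Vs x → ¬ V1 x → V1 y → A.G x y →
    cnt (fun z => R x z ∧ A.G y z) ≤ 4 * (ε ^ 4 * D)
  r6 : ∀ z z', V1 z → V1 z' → A.G z z' → cnt (fun x => R x z ∧ R x z') ≤ 10 ^ 13 * ε ^ 6 * D
  r7 : ∀ x y, Vb x → V1 y → A.G x y → cnt (fun z => A.G x z ∧ A.G y z ∧ R y z) ≤ D / 8

/-- Final cell package. -/
structure FP (C : V → Prop) (Q : V → V → Prop) (r : ℝ) : Prop where
  ok : A.Ok
  r0 : 1000 ≤ r
  pl : 0.99 ≤ A.p * A.g 0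
  lg : 2 * cnt C ^ 2 ≤ Real.exp (r / 100)
  f1 : cnt (fun u => C u ∧ A.pt u = 0) ≤ r / 10 ^ 4
  f2 : ∀ u, C u → A.pt u = 0 → cnt (fun B => C B ∧ A.pt B = 2 ∧ A.G u B) ≤ 1.1 * (r * A.g 0)
  f3 : ∀ u y, C u → A.pt u = 0 → C y → A.G u y → 0.95 * r ≤ cnt (fun z => Q u z ∧ Q y z)
  f3' : ∀ u y, C u → A.pt u = 0 → C y → A.G u y →
    cnt (fun z => C z ∧ A.G u z ∧ A.G y z) ≤ 4 * r
  f4 : Op (fun x => C x ∧ A.pt x = 1) (fun y => C y ∧ A.pt y = 2) A.am (r / 25)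
  qG : ∀ x y, Q x y → A.G x y ∧ C x ∧ C y

/-- The vortex: levels `Vt 0 ⊇ Vt 1 ⊇ ...`, the cell `Vt (l + 1)` and the absorbing rows `S`. -/
structure Vx (η0 : ℝ) (l : ℕ) (Vt : ℕ → V → Prop) (Qt : ℕ → V → V → Prop) (S : V → Prop)
    (a π : ℕ → Fin 3 → ℝ) (D ε η : ℕ → ℝ) : Prop where
  lpos : 1 ≤ l
  v0 : ∀ x, Vt 0 x
  vend : ∀ x, ¬ Vt (l + 2) x
  lp : ∀ i ≤ l, A.LP (Vt (i - 1)) (Vt i) (Vt (i + 1)) (Vt (i + 2)) (Qt i) (a i) (π i) (D i)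
    (ε i) (η i)
  qn : ∀ i < l, ∀ x y, Qt i x y ↔ A.G x y ∧ Vt (i + 1) x ∧ Vt (i + 1) y
  eta : ∀ i ≤ l, η i ≤ η0
  k1 : ∀ i < l, ε i ^ 2 * D i ≤ 15 * η (i + 1) ^ 2 * D (i + 1)
  k2 : ∀ i < l, ∀ j, D (i + 1) ≤ 2 * a i j
  ab : ∀ i ≤ l, ∀ x, Vt i x →
    |imb A.pt (Ab A.pt S (Vt (l + 1))) x + imb A.pt (Qt i) x| ≤ ε i ^ 47 * A.g (A.pt x) * D i
  s0 : ∀ u, S u → A.pt u = 0 ∧ ¬ Vt 1 u
  sG : ∀ u B, S u → Vt (l + 1) B → A.pt B = 2 → A.G u B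
  eq : cnt (fun x => Vt (l + 1) x ∧ A.pt x = 1) = cnt (fun x => Vt (l + 1) x ∧ A.pt x = 2)
  st : St A.G (fun _ => True) (Ab A.pt S (Vt (l + 1))) (15 * η 0 ^ 2 * D 0)
  fp : A.FP (Vt (l + 1)) (Qt l) (ε l * D l)

/-- The random labelling. -/
structure Lay (l : ℕ) (lab : V → ℕ) (D ε : ℕ → ℝ) : Prop where
  le : ∀ x, lab x ≤ l + 2
  f : ∀ i < l, ∀ t ≤ 2, A.Fam (fun x => i ≤ lab x) (fun x => i + t ≤ lab x)
    (fun _ => if i + t ≤ l then D (i + t) else 0) (ε i ^ 60 * D i)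
  f0 : A.Fam (fun x => l ≤ lab x) (fun x => lab x = l) (fun _ => D l) (ε l ^ 60 * D l)
  f1 : A.Fam (fun x => l ≤ lab x) (fun x => lab x = l + 1)
    ![ε l * D l / 10 ^ 5, A.g 1 * (ε l * D l), (1 - ε l ^ 52) * (ε l * D l)] (ε l ^ 60 * D l)
  f2 : A.Fam (fun x => l ≤ lab x) (fun x => lab x = l + 2)
    ![0, 0, 2 * ε l ^ 52 * (ε l * D l)] (ε l ^ 60 * D l)
  op : ∀ i ≤ l, A.Ops (fun x => i ≤ lab x) (ε i ^ 5 * D i)
  s : A.g 1 * (ε l * D l) ≤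
    cnt (fun u => A.pt u = 0 ∧ lab u = 0 ∧ ∀ B, A.pt B = 2 → l + 1 ≤ lab B → A.G u B)

end Amb

/-- The numerical parameters. -/
structure PP (η0 k p : ℝ) (l : ℕ) (D ε η : ℕ → ℝ) : Prop where
  lpos : 1 ≤ l
  d0 : D 0 = k
  h0 : ∀ i ≤ l, 0 < η i
  h1 : ∀ i ≤ l, η i ≤ η0
  e0 : ∀ i ≤ l, 0 < ε i
  eh : ∀ i ≤ l, ε i ≤ η i ^ 2
  dl : ∀ i ≤ l, 1 ≤ ε i ^ 600 * D i
  lg : ∀ i ≤ l, 8 * D i / p ≤ Real.exp (1 / η i)
  ds : ∀ i < l, D (i + 1) = ε i * D i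
  e1 : ∀ i < l, ε i ≤ η (i + 1) ^ 2
  lg' : ∀ i < l, 8 * D i / p ≤ Real.exp (1 / ε (i + 1))
  cell : ∀ i < l, 8 * (ε l * D l) ≤ ε i ^ 60 * D i
  reg : 320 * (ε l * D l) * p ≤ ε l ^ 60 ∨
    ∃ t : ℕ, 64 * (ε l * D l) / p ≤ t ∧ 1000 * 12 ^ t * ε 0 ≤ 1

section Boost

variable {V : Type}

/-- Triangle counts on a cell, on a row-letter pair and on a column-letter pair. -/
def tA (L : Finset V) (H : V → V → Prop) (u w : V) : ℝ := ∑ B ∈ L, ind (H u B) * ind (H w B)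

def tB (W : Finset V) (H : V → V → Prop) (u B : V) : ℝ := ∑ w ∈ W, ind (H u w) * ind (H w B)

def tC (U : Finset V) (H : V → V → Prop) (w B : V) : ℝ := ∑ u ∈ U, ind (H u w) * ind (H u B)

/-- Hypotheses of the correction step. -/
structure BC (U W L : Finset V) (H : V → V → Prop) (D p κ : ℝ) : Prop where
  d0 : 0 < D
  p0 : 0 < p
  ph : p ≤ 1 / 2
  k0 : 0 ≤ κ
  k1 : κ ≤ 1 / 10 ^ 4
  t0 : ∀ u ∈ U, ∀ w ∈ W, H u w → |tA L H u w - D| ≤ κ * D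
  t1 : ∀ u ∈ U, ∀ B ∈ L, H u B → |tB W H u B - D| ≤ κ * D
  t2 : ∀ w ∈ W, ∀ B ∈ L, H w B → |tC U H w B - D| ≤ κ * D
  cU : (U.card : ℝ) ≤ 3 * D
  cW : (W.card : ℝ) ≤ 2 * D / p
  cL : (L.card : ℝ) ≤ 3 * D / p
  dBU : ∀ B ∈ L, ∑ u ∈ U, ind (H u B) ≤ (1 + κ) * D
  dBW : ∀ B ∈ L, ∑ w ∈ W, ind (H w B) ≤ (1 + κ) * D
  dWL : ∀ w ∈ W, ∑ B ∈ L, ind (H w B) ≤ 3 * D
  m1 : ∀ w ∈ W, ∀ B ∈ L, H w B → ∑ u ∈ U, ind (H u w) * (1 - ind (H u B)) ≤ (2 * p + κ) * D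
  m2 : ∀ w ∈ W, ∀ B ∈ L, H w B → ∑ u ∈ U, ind (H u B) * (1 - ind (H u w)) ≤ κ * D
  m3 : ∀ u ∈ U, ∀ B ∈ L, H u B → ∑ w ∈ W, ind (H w B) * (1 - ind (H u w)) ≤ κ * D
  o1 : ∀ u ∈ U, ∀ x y : V → ℝ,
    (∑ w ∈ W, ∑ B ∈ L, ind (H u w) * ind (H u B) * (ind (H w B) - p) * x w * y B) ^ 2 ≤
      (κ * D) ^ 2 * (∑ w ∈ W, x w ^ 2) * ∑ B ∈ L, y B ^ 2
  o2 : ∀ w ∈ W, ∀ x y : V → ℝ,
    (∑ u ∈ U, ∑ B ∈ L, ind (H u w) * ind (H w B) * (ind (H u B) - (1 - p)) * x u * y B) ^ 2 ≤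
      (κ * D) ^ 2 * (∑ u ∈ U, x u ^ 2) * ∑ B ∈ L, y B ^ 2

/-- Errors `α` (cells), `β` (row-letter), `c` (column-letter) vanish off the edges of `H` and
are balanced at every vertex. -/
structure Bal (U W L : Finset V) (H : V → V → Prop) (α β c : V → V → ℝ) : Prop where
  s0 : ∀ u ∈ U, ∀ w ∈ W, ¬ H u w → α u w = 0
  s1 : ∀ u ∈ U, ∀ B ∈ L, ¬ H u B → β u B = 0
  s2 : ∀ w ∈ W, ∀ B ∈ L, ¬ H w B → c w B = 0
  bU : ∀ u ∈ U, ∑ w ∈ W, α u w = ∑ B ∈ L, β u B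
  bW : ∀ w ∈ W, ∑ u ∈ U, α u w = ∑ B ∈ L, c w B
  bL : ∀ B ∈ L, ∑ u ∈ U, β u B = ∑ w ∈ W, c w B

/-- The triangle weights `ψ` turn the errors `α β c` into `α' β' c'`. -/
structure Cor (U W L : Finset V) (H : V → V → Prop) (ψ : V → V → V → ℝ)
    (α β c α' β' c' : V → V → ℝ) : Prop where
  c0 : ∀ u ∈ U, ∀ w ∈ W, H u w →
    α' u w = α u w - ∑ B ∈ L, ind (H u B) * ind (H w B) * ψ u w B
  c1 : ∀ u ∈ U, ∀ B ∈ L, H u B →
    β' u B = β u B - ∑ w ∈ W, ind (H u w) * ind (H w B) * ψ u w B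
  c2 : ∀ w ∈ W, ∀ B ∈ L, H w B →
    c' w B = c w B - ∑ u ∈ U, ind (H u w) * ind (H u B) * ψ u w B

variable (U W L : Finset V) (H : V → V → Prop) (α β : V → V → ℝ)

/-- One round of pushes: first on cells, then on row-letter pairs, then on column-letter
pairs. -/
def rx (u w : V) : ℝ := α u w / tA L H u w

def rb1 (u B : V) : ℝ := β u B - ind (H u B) * ∑ w ∈ W, ind (H w B) * rx L H α u w

def rc1 (w B : V) : ℝ := -(ind (H w B) * ∑ u ∈ U, ind (H u B) * rx L H α u w)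

def ry (u B : V) : ℝ := rb1 W L H α β u B / tB W H u B

def rc2 (w B : V) : ℝ :=
  rc1 U L H α w B - ind (H w B) * ∑ u ∈ U, ind (H u w) * ry W L H α β u B

def ra2 (u w : V) : ℝ := -(ind (H u w) * ∑ B ∈ L, ind (H w B) * ry W L H α β u B)

def rz (w B : V) : ℝ := rc2 U W L H α β w B / tC U H w B

def ra3 (u w : V) : ℝ :=
  ra2 W L H α β u w - ind (H u w) * ∑ B ∈ L, ind (H u B) * rz U W L H α β w B

def rb3 (u B : V) : ℝ := -(ind (H u B) * ∑ w ∈ W, ind (H u w) * rz U W L H α β w B)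

def rψ (u w B : V) : ℝ := rx L H α u w + ry W L H α β u B + rz U W L H α β w B

end Boost

section Prob

variable {ι α : Type} [Fintype ι] [Fintype α]

open scoped Classical in
/-- Expectation for independent coordinates, coordinate `i` having distribution `q i`. -/
def Ex (q : ι → α → ℝ) (f : (ι → α) → ℝ) : ℝ := ∑ ω : ι → α, (∏ i, q i (ω i)) * f ω

/-- Probability of an event. -/
def Pr (q : ι → α → ℝ) (E : (ι → α) → Prop) : ℝ := Ex q fun ω => ind (E ω)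

/-- Every `q i` is a probability vector. -/
structure IsP (q : ι → α → ℝ) : Prop where
  nn : ∀ i a, 0 ≤ q i a
  one : ∀ i, ∑ a, q i a = 1

/-- Probability that coordinate `i` has a value in `L`. -/
def pl (q : ι → α → ℝ) (i : ι) (L : α → Prop) : ℝ := ∑ a, q i a * ind (L a)

/-- The event `E` depends only on the coordinates in `S`. -/
def Dep (E : (ι → α) → Prop) (S : ι → Prop) : Prop :=
  ∀ ω ω', (∀ i, S i → ω i = ω' i) → E ω → E ω'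

end Prob

end Pool.Agent.P.MP_77d020_co.L
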