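import Pool.Agent.P.MP_77d020_co.L.Prob

/-! The level package at an ordinary level of the vortex. -/

namespace Pool.Agent.P.MP_77d020_co.L

open Finset

namespace LPnatP

variable {V : Type} [Fintype V] {A : Amb V}

theorem abs_diff {c c' d a a' e e' : ℝ} (h : |c - a| ≤ e) (h' : |c' - a'| ≤ e') (hd : c = c' + d) :
    |d - (a - a')| ≤ e + e' := by
  rw [abs_le] at *
  constructor <;> linarith [h.1, h.2, h'.1, h'.2]

theorem cnt_diff {Z Z' P : V → Prop} (h : ∀ x, Z' x → Z x) : cnt (fun z => Z z ∧ P z) =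
    cnt (fun z => Z' z ∧ P z) + cnt (fun z => (Z z ∧ ¬ Z' z) ∧ P z) :=
  cnt_eq_add (fun x => by have := h x; tauto) fun x => by tauto

theorem fam_diff {T Z Z' : V → Prop} {a a' e e' : ℝ} (h : A.Fam T Z (fun _ => a) e)
    (h' : A.Fam T Z' (fun _ => a') e') (hs : ∀ x, Z' x → Z x) :
    A.Fam T (fun z => Z z ∧ ¬ Z' z) (fun _ => a - a') (e + e') := by
  refine ⟨fun j => ?_, fun x j hx hj => ?_, fun x y j hx hy hxy h1 h2 => ?_⟩
  · rw [sub_mul, add_mul]
    exact abs_diff (h.f0 j) (h'.f0 j) (cnt_diff hs)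
  · rw [sub_mul, add_mul]
    exact abs_diff (h.f1 x j hx hj) (h'.f1 x j hx hj) (cnt_diff hs)
  · exact abs_diff (h.f2 x y j hx hy hxy h1 h2) (h'.f2 x y j hx hy hxy h1 h2) (cnt_diff hs)

theorem imb_le {T Z : V → Prop} {a e : ℝ} (h : A.Fam T Z (fun _ => a) e) {H : V → V → Prop}
    {x : V} (hx : T x) (hH : ∀ y, H x y ↔ Z y ∧ A.G x y) :
    |imb A.pt H x| ≤ 2 * e * A.g (A.pt x) := by
  have k : ∀ j, deg A.pt H x j = cnt (fun z => Z z ∧ A.pt z = j ∧ A.G x z) := fun j =>
    cnt_congr fun y => by rw [hH]; tauto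
  have h1 := abs_le.1 (h.f1 x _ hx (add_one_ne _))
  have h2 := abs_le.1 (h.f1 x _ hx (add_two_ne _))
  rw [imb, k, k, abs_le]
  constructor <;> linarith [h1.1, h1.2, h2.1, h2.2]

theorem tri_le {T Z : V → Prop} {a e : ℝ} (ok : A.Ok) (h : A.Fam T Z (fun _ => a) e) {x y : V}
    (hx : T x) (hy : T y) (hxy : A.G x y) :
    a - e ≤ cnt (fun z => Z z ∧ A.G x z ∧ A.G y z) ∧
      cnt (fun z => Z z ∧ A.G x z ∧ A.G y z) ≤ a + e := by
  obtain ⟨j, h1, h2⟩ := exists_third (ok.tp x y hxy)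
  have := abs_le.1 (h.f2 x y j hx hy hxy h1 h2)
  constructor <;> linarith [this.1, this.2]

theorem eb_le {Z : V → Prop} {c : ℝ} (h : A.Ops Z c) (hc : 0 ≤ c) {j : Fin 3} (hj : j ≠ 2)
    {X Y : Finset V} (hX : ∀ x ∈ X, Z x ∧ A.pt x = j) (hY : ∀ y ∈ Y, Z y ∧ A.pt y = 2) :
    eb A.G X Y ≤ (if j = 0 then 1 - A.p else A.p) * X.card * Y.card +
      c * max (X.card : ℝ) Y.card := by
  have h1 := (le_abs_self _).trans ((h j hj).disc hc hX hY)
  have h2 : ∑ x ∈ X, ∑ y ∈ Y, A.am x y =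
      eb A.G X Y - (if j = 0 then 1 - A.p else A.p) * X.card * Y.card := by
    rw [eb, mul_comm _ (X.card : ℝ), mul_assoc, ← nsmul_eq_mul, ← sum_const, ← sum_sub_distrib]
    refine sum_congr rfl fun x hx => ?_
    simp only [Amb.am, (hX x hx).2, sum_sub_distrib, sum_const, nsmul_eq_mul, mul_comm]
  linarith

theorem pow_le {ε : ℝ} (h0 : 0 < ε) (h1 : ε ≤ 1 / 1000) {m n : ℕ} (h : m < n) :
    1000 * ε ^ n ≤ ε ^ m := by
  have h2 : ε ^ n ≤ ε ^ (m + 1) := pow_le_pow_of_le_one h0.le (by linarith) h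
  have h3 := pow_pos h0 m
  rw [pow_succ] at h2
  nlinarith

end LPnatP

open LPnatP in
theorem lpnat : S_LPnat := by
  refine ⟨1 / 100, by norm_num, ?_⟩
  intro V _ A Vb Vs V1 V2 k D D2 ε η hA s21 s1s ssb h0 h1 e0 eh dl hk lg cb d0 d1 fb fs f1 f2 op
  have ok := hA.ok
  have hε : ε ≤ 1 / 1000 := by nlinarith
  have q0 := pow_le e0 hε (m := 0) (n := 600) (by norm_num)
  have q1 := pow_le e0 hε (m := 1) (n := 600) (by norm_num)
  have q2 := pow_le e0 hε (m := 1) (n := 60) (by norm_num)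
  have q3 := pow_le e0 hε (m := 50) (n := 60) (by norm_num)
  have q4 := pow_le e0 hε (m := 4) (n := 5) (by norm_num)
  have q5 := pow_le e0 hε (m := 1) (n := 5) (by norm_num)
  have p600 := pow_pos e0 600
  have p60 := pow_pos e0 60
  have p5 := pow_pos e0 5
  rw [pow_zero] at q0
  rw [pow_one] at q1 q2 q5
  have hD : 0 < D := (mul_pos_iff_of_pos_left p600).1 (by linarith)
  have hD1 : 1 ≤ D := by nlinarith
  have hk1 : 1 / k ≤ ε := by
    rw [div_le_iff₀ (by linarith)]
    nlinarith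
  have r2 : 1000 * (ε ^ 60 * D) ≤ ε * D := by nlinarith
  have r3 : 1000 * (ε ^ 60 * D) ≤ ε ^ 50 * D := by nlinarith
  have r6 : 0 < ε ^ 60 * D := by positivity
  have r7 : ε * D ≤ η ^ 2 * D := by gcongr
  have r8 : ε * D ≤ D := by nlinarith
  have r9 : 0 < ε * D := by positivity
  have pl := hA.pl
  have f12 := fam_diff f1 f2 s21
  have fs1 := fam_diff fs f1 s1s
  have pu : ∀ i, ![A.p, 1 - A.p, 1] i * A.g i ≤ 1 := fun i => by
    rcases fin3 i with rfl | rfl | rfl
    · exact ok.pg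
    · exact ok.pg'.trans_le ok.pg
    · exact (one_mul _).trans_le ok.g2.le
  have t12 := fun x y hx hy hxy => tri_le ok f12 (x := x) (y := y) hx hy hxy
  simp only [and_assoc] at t12
  refine ⟨⟨ok, s21, s1s, ssb, fun x y h => ⟨ok.sy _ _ h.1, h.2.2, h.2.1⟩, fun _ _ h => h, e0, h0,
    eh, dl, ⟨fs.mono ok (fun _ h => h) (by linarith), op.mono (fun _ h => h) (by positivity)
      (by nlinarith), by nlinarith⟩, cb, ?_, ?_, fun _ => by linarith, fun _ => by linarith,
    fun i => ?_, fun i => ?_, pu, fun x j hx _ hj => ?_, fun x hx => ?_, fun x y hx hy hxy => ?_,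
    fun x y j hx _ hy _ hxy _ _ => ?_, fun x y j hx hy hxy _ _ => ?_,
    fun x y j hx _ hy hxy _ _ => ?_, fun i X Y hX hY _ _ => ?_, fun x y hx hy hxy => ?_⟩,
    fun x => ?_⟩
  · refine (fs.cnt_le ok (b := 2 * D) (fun _ => by linarith) (by linarith)).trans ?_
    rwa [← mul_assoc, show (4 : ℝ) * 2 = 8 by norm_num]
  · exact (div_le_div_of_nonneg_right (by linarith) ok.p0.le).trans lg
  · rcases fin3 i with rfl | rfl | rfl
    · exact ok.p0
    · exact sub_pos.2 (ok.ph.trans_lt (by norm_num))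
    · exact one_pos
  · rcases fin3 i with rfl | rfl | rfl
    · change 0.48 ≤ A.p * A.g 0
      linarith
    · change 0.48 ≤ (1 - A.p) * A.g 1
      rw [ok.pg']
      linarith
    · change 0.48 ≤ 1 * A.g 2
      rw [ok.g2]
      norm_num
  · have := f12.f1 x j hx hj
    simp only [and_assoc] at this
    refine this.trans ?_
    have := ok.one_le_g (A.pt x)
    nlinarith
  · refine (imb_le fs1 (s1s x hx) fun y => and_assoc.symm).trans ?_
    have := ok.one_le_g (A.pt x)
    nlinarith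
  · linarith [(tri_le ok f1 hx hy hxy).2]
  · linarith [(t12 x y hx hy hxy).1]
  · linarith [(t12 x y hx hy hxy).2]
  · have h2 := (t12 x y hx (s1s y hy) hxy).1
    have h3 := mul_le_mul_of_nonneg_left (pu (A.pt x))
      (by linarith : 0 ≤ 0.98 * (ε * D - D2))
    refine h3.trans (le_trans (by linarith) (h2.trans (cnt_mono fun z hz => ?_)))
    exact ⟨hz.1, hz.2.1, hz.2.2.1, hz.2.2.2, hy, hz.1⟩
  · refine (eb_mono (H' := A.G) (fun _ _ h => h.1) X Y).trans ?_
    have hm : (0 : ℝ) ≤ max (X.card : ℝ) Y.card := le_max_of_le_left (Nat.cast_nonneg _)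
    have hc : ε ^ 5 * D * max (X.card : ℝ) Y.card ≤ ε ^ 4 * D / 25 * max (X.card : ℝ) Y.card := by
      gcongr
      nlinarith
    rcases fin3 i with rfl | rfl | rfl
    · have := eb_le op (by positivity) (j := 1) (by decide)
        (fun x hx => ⟨s1s x (hX x hx).1, (hX x hx).2⟩) fun y hy => ⟨s1s y (hY y hy).1, (hY y hy).2⟩
      rw [if_neg (by decide)] at this
      exact this.trans (add_le_add_right hc _)
    · have := eb_le op (by positivity) (j := 0) (by decide)
        (fun y hy => ⟨s1s y (hY y hy).1, (hY y hy).2⟩) fun x hx => ⟨s1s x (hX x hx).1, (hX x hx).2⟩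
      rw [if_pos rfl, max_comm, mul_right_comm, ← eb_comm ok.sy] at this
      exact this.trans (add_le_add_right hc _)
    · have h2 : eb A.G X Y ≤ X.card * Y.card := by
        refine (sum_le_sum fun x _ => sum_le_sum fun y _ => ind_le_one _).trans ?_
        simp
      change _ ≤ 1 * _ * _ + _
      rw [one_mul]
      exact h2.trans (le_add_of_nonneg_right (by positivity))
  · linarith [(tri_le ok fb hx (ssb y hy) hxy).2]
  · by_cases hx : V1 x
    · refine (imb_le f1 (s1s x hx) fun y => by tauto).trans (le_of_eq ?_)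
      ring
    · rw [imb_zero fun y h => hx h.2.1, abs_zero]
      have := ok.one_le_g (A.pt x)
      positivity

end Pool.Agent.P.MP_77d020_co.L
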