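import Pool.Agent.P.MP_77d020_co.L.Prob

/-! Quadratic forms of powers of positive semidefinite matrices. -/

namespace Pool.Agent.P.MP_77d020_co.L

open Finset Matrix

namespace MatP

variable {ι : Type} [Fintype ι] [DecidableEq ι]

/-- The quadratic form of a matrix. -/
def qf (N : Matrix ι ι ℝ) (x : ι → ℝ) : ℝ := x ⬝ᵥ N *ᵥ x

/-- Symmetric with nonnegative quadratic form. -/
def PS (N : Matrix ι ι ℝ) : Prop := Nᵀ = N ∧ ∀ x, 0 ≤ qf N x

theorem qf_add (N N' : Matrix ι ι ℝ) (x : ι → ℝ) : qf (N + N') x = qf N x + qf N' x := by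
  rw [qf, add_mulVec, dotProduct_add]; rfl

theorem qf_smul (c : ℝ) (N : Matrix ι ι ℝ) (x : ι → ℝ) : qf (c • N) x = c * qf N x := by
  rw [qf, smul_mulVec, dotProduct_smul]; rfl

theorem qf_one (x : ι → ℝ) : qf 1 x = ∑ i, x i ^ 2 := by
  rw [qf, one_mulVec, dotProduct]
  exact sum_congr rfl fun i _ => (sq _).symm

theorem qf_sum {κ : Type} (s : Finset κ) (N : κ → Matrix ι ι ℝ) (x : ι → ℝ) :
    qf (∑ j ∈ s, N j) x = ∑ j ∈ s, qf (N j) x := by
  rw [qf, sum_mulVec, dotProduct_sum]; rfl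

theorem vv_mulVec (a x : ι → ℝ) : vecMulVec a a *ᵥ x = (a ⬝ᵥ x) • a := by
  ext i
  simp [mulVec, dotProduct, vecMulVec_apply, mul_sum, sum_mul, mul_comm, mul_left_comm]

theorem qf_vv (a x : ι → ℝ) : qf (vecMulVec a a) x = (∑ i, a i * x i) ^ 2 := by
  rw [qf, vv_mulVec, dotProduct_smul, dotProduct_comm x a, smul_eq_mul, sq]; rfl

theorem spec {N : Matrix ι ι ℝ} (h : PS N) :
    ∃ (F : (ι → ℝ) →ₐ[ℝ] Matrix ι ι ℝ) (v : ι → ι → ℝ) (l : ι → ℝ), N = F l ∧ (∀ e, 0 ≤ l e) ∧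
      (∀ d x, qf (F d) x = ∑ e, d e * (∑ i, v e i * x i) ^ 2) ∧
      (∀ d, trace (F d) = ∑ e, d e) ∧ ∀ e, ∑ i, v e i ^ 2 = 1 := by
  have hN : N.IsHermitian := by
    rw [IsHermitian, conjTranspose_eq_transpose_of_trivial]; exact h.1
  obtain ⟨U, hU1, hU2, l, hl⟩ : ∃ U : Matrix ι ι ℝ, Uᵀ * U = 1 ∧ U * Uᵀ = 1 ∧ ∃ l : ι → ℝ,
      N = U * diagonal l * Uᵀ := by
    refine ⟨hN.eigenvectorUnitary, ?_, ?_, hN.eigenvalues, ?_⟩
    · rw [← conjTranspose_eq_transpose_of_trivial]; exact hN.eigenvectorUnitary.2.1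
    · rw [← conjTranspose_eq_transpose_of_trivial]; exact hN.eigenvectorUnitary.2.2
    · rw [← conjTranspose_eq_transpose_of_trivial]
      have := hN.spectral_theorem
      rw [Unitary.conjStarAlgAut_apply] at this
      simpa [star_eq_conjTranspose] using this
  let F : (ι → ℝ) →ₐ[ℝ] Matrix ι ι ℝ :=
    { toFun := fun d => U * diagonal d * Uᵀ
      map_one' := by
        show U * diagonal (fun _ => (1 : ℝ)) * Uᵀ = 1
        rw [diagonal_one, mul_one, hU2]
      map_mul' := fun d d' => by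
        show U * diagonal (fun i => d i * d' i) * Uᵀ = _
        rw [← diagonal_mul_diagonal]
        calc U * (diagonal d * diagonal d') * Uᵀ
            = U * diagonal d * (Uᵀ * U) * diagonal d' * Uᵀ := by
              rw [hU1]; simp only [mul_assoc, mul_one]
          _ = _ := by simp only [mul_assoc]
      map_zero' := by
        show U * diagonal (fun _ => (0 : ℝ)) * Uᵀ = 0
        rw [diagonal_zero, mul_zero, zero_mul]
      map_add' := fun d d' => by
        show U * diagonal (fun i => d i + d' i) * Uᵀ = _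
        rw [← diagonal_add, mul_add, add_mul]
      commutes' := fun r => by
        show U * diagonal (algebraMap ℝ (ι → ℝ) r) * Uᵀ = _
        rw [← algebraMap_eq_diagonal, ← Algebra.commutes, mul_assoc, hU2, mul_one] }
  have hF : ∀ d, F d = U * diagonal d * Uᵀ := fun _ => rfl
  have hq : ∀ d x, qf (F d) x = ∑ e, d e * (∑ i, U i e * x i) ^ 2 := by
    intro d x
    rw [hF, qf, ← mulVec_mulVec, ← mulVec_mulVec, dotProduct_mulVec, ← mulVec_transpose]
    refine sum_congr rfl fun e _ => ?_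
    rw [mulVec_diagonal]
    have : (Uᵀ *ᵥ x) e = ∑ i, U i e * x i := rfl
    rw [this]; ring
  have hv : ∀ e e', ∑ i, U i e * U i e' = if e = e' then 1 else 0 := fun e e' => by
    have := congrFun (congrFun hU1 e) e'
    rwa [mul_apply, one_apply] at this
  refine ⟨F, fun e i => U i e, l, hl, fun e => ?_, hq, fun d => ?_, fun e => ?_⟩
  · have := h.2 fun i => U i e
    rw [hl, ← hF, hq] at this
    simpa [hv] using this
  · rw [hF, trace_mul_comm, ← mul_assoc, hU1, one_mul, trace_diagonal]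
  · simpa [sq] using hv e e

theorem PS.pow_nonneg {N : Matrix ι ι ℝ} (h : PS N) (s : ℕ) (x : ι → ℝ) : 0 ≤ qf (N ^ s) x := by
  obtain ⟨F, v, l, rfl, h0, hq, -, -⟩ := spec h
  rw [← map_pow, hq]
  exact sum_nonneg fun e _ => mul_nonneg (_root_.pow_nonneg (h0 e) s) (sq_nonneg _)

theorem step (N : Matrix ι ι ℝ) (a : ι → ℝ) (s r : ℕ) :
    qf (N ^ s * (N + vecMulVec a a) ^ (r + 1)) a =
      qf (N ^ (s + 1) * (N + vecMulVec a a) ^ r) a +
        qf (N ^ s) a * qf (N ^ 0 * (N + vecMulVec a a) ^ r) a := by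
  rw [pow_succ' (N + vecMulVec a a), add_mul, mul_add, qf_add, ← mul_assoc, ← pow_succ, pow_zero,
    one_mul]
  congr 1
  unfold qf
  rw [← mulVec_mulVec, ← mulVec_mulVec, vv_mulVec, mulVec_smul, dotProduct_smul, smul_eq_mul,
    mul_comm]

theorem low {N : Matrix ι ι ℝ} (h : PS N) (a : ι → ℝ) (r : ℕ) :
    qf (N ^ r) a ≤ qf ((N + vecMulVec a a) ^ r) a := by
  have key : ∀ r s : ℕ, qf (N ^ (s + r)) a ≤ qf (N ^ s * (N + vecMulVec a a) ^ r) a := by
    intro r
    induction r with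
    | zero => intro s; simp
    | succ r ih =>
      intro s
      rw [step]
      have h1 := ih (s + 1)
      have h2 := mul_nonneg (h.pow_nonneg s a) ((h.pow_nonneg _ a).trans (ih 0))
      rw [show s + (r + 1) = s + 1 + r by ring]
      linarith
  simpa using key r 0

theorem cheb {w f g : ι → ℝ} (hw : ∀ e, 0 ≤ w e) (hm : ∀ e e', 0 ≤ (f e - f e') * (g e - g e')) :
    (∑ e, f e * w e) * ∑ e, g e * w e ≤ (∑ e, w e) * ∑ e, f e * g e * w e := by
  have h : 0 ≤ ∑ e, ∑ e', w e * w e' * ((f e - f e') * (g e - g e')) :=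
    sum_nonneg fun e _ => sum_nonneg fun e' _ => mul_nonneg (mul_nonneg (hw e) (hw e')) (hm e e')
  have e1 : ∑ e, ∑ e', w e * w e' * ((f e - f e') * (g e - g e')) =
      (∑ e, f e * g e * w e) * (∑ e, w e) + (∑ e, w e) * (∑ e, f e * g e * w e) -
        (∑ e, f e * w e) * (∑ e, g e * w e) - (∑ e, g e * w e) * ∑ e, f e * w e := by
    simp only [sum_mul_sum, ← sum_add_distrib, ← sum_sub_distrib]
    exact sum_congr rfl fun e _ => sum_congr rfl fun e' _ => by ring
  rw [e1] at h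
  linarith

theorem up {N : Matrix ι ι ℝ} (h : PS N) {a : ι → ℝ} {t : ℝ} (ha : ∑ i, a i ^ 2 ≤ t) (r : ℕ) :
    qf ((N + vecMulVec a a) ^ r) a ≤ qf ((N + t • (1 : Matrix ι ι ℝ)) ^ r) a := by
  have ht : 0 ≤ t := (sum_nonneg fun _ _ => sq_nonneg _).trans ha
  have hc : ∀ s r : ℕ, qf (N ^ s) a * qf (N ^ 0 * (N + t • (1 : Matrix ι ι ℝ)) ^ r) a ≤
      t * qf (N ^ s * (N + t • (1 : Matrix ι ι ℝ)) ^ r) a := by
    intro s r
    obtain ⟨F, v, l, rfl, h0, hq, -, -⟩ := spec h
    have e1 : F l + t • (1 : Matrix ι ι ℝ) = F (l + t • 1) := by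
      rw [map_add, map_smul, map_one]
    have e2 := hq 1 a
    rw [map_one, qf_one] at e2
    simp only [Pi.one_apply, one_mul] at e2
    rw [pow_zero, one_mul, e1, ← map_pow, ← map_pow, ← map_mul, hq, hq, hq]
    refine (cheb (fun e => sq_nonneg _) fun e e' => ?_).trans ?_
    · simp only [Pi.pow_apply, Pi.add_apply, Pi.smul_apply, Pi.one_apply, smul_eq_mul, mul_one]
      have a0 := h0 e
      have a1 := h0 e'
      rcases le_total (l e) (l e') with b | b
      · exact mul_nonneg_of_nonpos_of_nonpos (sub_nonpos.2 (by gcongr)) (sub_nonpos.2 (by gcongr))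
      · exact mul_nonneg (sub_nonneg.2 (by gcongr)) (sub_nonneg.2 (by gcongr))
    · rw [← e2]
      refine mul_le_mul_of_nonneg_right ha (sum_nonneg fun e _ => mul_nonneg (mul_nonneg
        (pow_nonneg (h0 e) _) (pow_nonneg ?_ _)) (sq_nonneg _))
      simpa using add_nonneg (h0 e) ht
  have key : ∀ r s : ℕ, qf (N ^ s * (N + vecMulVec a a) ^ r) a ≤
      qf (N ^ s * (N + t • (1 : Matrix ι ι ℝ)) ^ r) a := by
    intro r
    induction r with
    | zero => intro s; simp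
    | succ r ih =>
      intro s
      rw [step, pow_succ' (N + t • (1 : Matrix ι ι ℝ)), add_mul, mul_add, qf_add, ← mul_assoc,
        ← pow_succ, smul_mul_assoc, one_mul, mul_smul_comm, qf_smul]
      have h1 := ih (s + 1)
      have h2 := mul_le_mul_of_nonneg_left (ih 0) (h.pow_nonneg s a)
      have h3 := hc s r
      linarith
  simpa using key r 0

theorem sum_qf_le {κ : Type} [Fintype κ] {a : κ → ι → ℝ} {k : ℝ}
    (hk : ∀ f : ι → ℝ, ∑ j, (∑ i, a j i * f i) ^ 2 ≤ k * ∑ i, f i ^ 2) {N : Matrix ι ι ℝ}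
    (h : PS N) (r : ℕ) : ∑ j, qf (N ^ r) (a j) ≤ k * trace (N ^ r) := by
  obtain ⟨F, v, l, rfl, h0, hq, ht, hv⟩ := spec h
  rw [← map_pow, ht, mul_sum]
  simp only [hq]
  rw [sum_comm]
  refine sum_le_sum fun e _ => ?_
  rw [← mul_sum, mul_comm k]
  refine mul_le_mul_of_nonneg_left ?_ (pow_nonneg (h0 e) r)
  have := hk (v e)
  rw [hv, mul_one] at this
  simpa only [mul_comm] using this

theorem PS.trace_nonneg {N : Matrix ι ι ℝ} (h : PS N) (r : ℕ) : 0 ≤ trace (N ^ r) := by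
  obtain ⟨F, v, l, rfl, h0, -, ht, -⟩ := spec h
  rw [← map_pow, ht]
  exact sum_nonneg fun e _ => _root_.pow_nonneg (h0 e) r

theorem PS.le_trace {N : Matrix ι ι ℝ} (h : PS N) {b : ℝ} (hb : 0 ≤ b) {f : ι → ℝ}
    (hf : b * ∑ i, f i ^ 2 < qf N f) (r : ℕ) : b ^ r ≤ trace (N ^ r) := by
  obtain ⟨F, v, l, rfl, h0, hq, ht, -⟩ := spec h
  have e2 := hq 1 f
  rw [map_one, qf_one] at e2
  rw [e2, hq, mul_sum] at hf
  obtain ⟨e, -, he⟩ := exists_lt_of_sum_lt hf
  simp only [Pi.one_apply, one_mul] at he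
  have h1 : b < l e := lt_of_mul_lt_mul_right he (sq_nonneg _)
  rw [← map_pow, ht]
  exact (pow_le_pow_left₀ hb h1.le r).trans
    (single_le_sum (f := fun e => (l ^ r) e) (fun e _ => _root_.pow_nonneg (h0 e) r) (mem_univ e))

variable {κ : Type} [Fintype κ] [DecidableEq κ]

/-- A shifted weighted sum of rank one matrices. -/
def Mx (a : κ → ι → ℝ) (w : κ → ℝ) (x : ℝ) : Matrix ι ι ℝ :=
  x • (1 : Matrix ι ι ℝ) + ∑ j, w j • vecMulVec (a j) (a j)

variable {a : κ → ι → ℝ} {w : κ → ℝ} {x : ℝ}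

omit [DecidableEq κ] in
theorem qf_Mx (f : ι → ℝ) :
    qf (Mx a w x) f = x * ∑ i, f i ^ 2 + ∑ j, w j * (∑ i, a j i * f i) ^ 2 := by
  simp only [Mx, qf_add, qf_smul, qf_one, qf_sum, qf_vv]

omit [DecidableEq κ] in
theorem ps_Mx (hw : ∀ j, 0 ≤ w j) (hx : 0 ≤ x) : PS (Mx a w x) := by
  refine ⟨?_, fun f => ?_⟩
  · simp only [Mx, transpose_add, transpose_smul, transpose_one, transpose_sum, transpose_vecMulVec]
  · rw [qf_Mx]
    exact add_nonneg (mul_nonneg hx (sum_nonneg fun _ _ => sq_nonneg _))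
      (sum_nonneg fun j _ => mul_nonneg (hw j) (sq_nonneg _))

theorem Mx_split (j : κ) :
    Mx a w x = Mx a (Function.update w j 0) x + w j • vecMulVec (a j) (a j) := by
  unfold Mx
  rw [add_assoc, ← add_sum_erase _ _ (mem_univ j), ← add_sum_erase _ _ (mem_univ j),
    Function.update_self, zero_smul, zero_add, add_comm (w j • _)]
  congr 2
  exact sum_congr rfl fun i hi => by rw [Function.update_of_ne (ne_of_mem_erase hi)]

omit [DecidableEq κ] in
theorem Mx_shift (t : ℝ) : Mx a w x + t • (1 : Matrix ι ι ℝ) = Mx a w (x + t) := by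
  unfold Mx
  rw [add_smul]; abel

omit [DecidableEq κ] in
theorem trace_succ (r : ℕ) : trace (Mx a w x ^ (r + 1)) =
    x * trace (Mx a w x ^ r) + ∑ j, w j * qf (Mx a w x ^ r) (a j) := by
  rw [pow_succ]
  generalize Mx a w x ^ r = X
  unfold Mx
  rw [mul_add, trace_add, mul_smul_comm, mul_one, trace_smul, Finset.mul_sum, trace_sum]
  congr 1
  refine sum_congr rfl fun j _ => ?_
  rw [mul_smul_comm, trace_smul, mul_vecMulVec, trace_vecMulVec, dotProduct_comm]
  rfl

end MatP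

end Pool.Agent.P.MP_77d020_co.L
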