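import Pool.Agent.P.MP_77d020_co.L.Prob

/-! The random labelling: auxiliary bounds. -/

namespace Pool.Agent.P.MP_77d020_co.L

open Finset

namespace RandP

theorem tele (F : ℕ → ℝ) {i n : ℕ} (h : i ≤ n) :
    ∑ a ∈ range n, (F a - F (a + 1)) * ind (i ≤ a) = F i - F n := by
  induction n, h using Nat.le_induction with
  | base =>
    rw [sub_self]
    exact sum_eq_zero fun a ha => by rw [ind_neg (by simpa using ha), mul_zero]
  | succ n hn ih => rw [sum_range_succ, ih, ind_pos hn]; ring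

theorem pl_ge {V : Type} [Fintype V] (F : V → ℕ → ℝ) {i n : ℕ} (h : i ≤ n) (v : V) :
    pl (fun v (a : Fin n) => F v a - F v (a + 1)) v (fun a => i ≤ (a : ℕ)) = F v i - F v n := by
  rw [← tele (F v) h, ← Fin.sum_univ_eq_sum_range fun a => (F v a - F v (a + 1)) * ind (i ≤ a)]
  rfl

theorem pl_eq {V : Type} [Fintype V] (F : V → ℕ → ℝ) {i n : ℕ} (h : i < n) (v : V) :
    pl (fun v (a : Fin n) => F v a - F v (a + 1)) v (fun a => (a : ℕ) = i) =
      F v i - F v (i + 1) := by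
  unfold pl
  rw [sum_eq_single (⟨i, h⟩ : Fin n)]
  · rw [ind_pos rfl, mul_one]
  · intro b _ hb
    rw [ind_neg fun e => hb (Fin.ext e), mul_zero]
  · simp

theorem dist {V : Type} [Fintype V] {l : ℕ} (hl : 1 ≤ l) (ρ : ℕ → ℝ) (co sp : V → ℝ)
    (h0 : ρ 0 = 1) (ha : ∀ i < l, ρ (i + 1) ≤ ρ i) (hρ : 0 ≤ ρ l) (hc : ∀ v, 0 ≤ co v)
    (hs : ∀ v, 0 ≤ sp v) (h1 : ∀ v, ρ 1 + co v + sp v ≤ 1) :
    ∃ q : V → Fin (l + 3) → ℝ, IsP q ∧
      (∀ v, ∀ i ≤ l, |pl q v (fun a => i ≤ (a : ℕ)) - ρ i| ≤ co v + sp v) ∧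
      (∀ v, pl q v (fun a => l + 1 ≤ (a : ℕ)) = co v + sp v) ∧
      (∀ v, pl q v (fun a => (a : ℕ) = l) = ρ l) ∧
      (∀ v, pl q v (fun a => (a : ℕ) = l + 1) = co v) ∧
      ∀ v, pl q v (fun a => (a : ℕ) = l + 2) = sp v := by
  obtain ⟨F, hF⟩ : ∃ F : V → ℕ → ℝ, ∀ v i, F v i = if i = 0 then 1 else
      (if i ≤ l then ρ i else 0) + (if i ≤ l + 1 then co v else 0) +
        if i ≤ l + 2 then sp v else 0 := ⟨_, fun _ _ => rfl⟩
  have f0 : ∀ v, F v 0 = 1 := fun v => by rw [hF, if_pos rfl]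
  have f1 : ∀ v i, 1 ≤ i → i ≤ l → F v i = ρ i + co v + sp v := fun v i a b => by
    rw [hF, if_neg (by omega), if_pos b, if_pos (by omega), if_pos (by omega)]
  have f2 : ∀ v, F v (l + 1) = co v + sp v := fun v => by
    rw [hF, if_neg (by omega), if_neg (by omega), if_pos le_rfl, if_pos (by omega), zero_add]
  have f3 : ∀ v, F v (l + 2) = sp v := fun v => by
    rw [hF, if_neg (by omega), if_neg (by omega), if_neg (by omega), if_pos le_rfl]; ring
  have f4 : ∀ v, F v (l + 3) = 0 := fun v => by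
    rw [hF, if_neg (by omega), if_neg (by omega), if_neg (by omega), if_neg (by omega)]; ring
  refine ⟨fun v a => F v a - F v (a + 1), ⟨fun v a => ?_, fun v => ?_⟩, fun v i hi => ?_,
    fun v => ?_, fun v => ?_, fun v => ?_, fun v => ?_⟩
  · obtain ⟨a, hlt⟩ := a
    have := hc v
    have := hs v
    simp only [sub_nonneg]
    rcases (by omega : a = 0 ∨ (1 ≤ a ∧ a < l) ∨ a = l ∨ a = l + 1 ∨ a = l + 2) with
      h | h | h | h | h
    · rw [h, f0, f1 v _ le_rfl hl]; exact h1 v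
    · rw [f1 v a h.1 h.2.le, f1 v _ (by omega) h.2]; linarith [ha a h.2]
    · rw [h, f1 v l hl le_rfl, f2]; linarith
    · rw [h, f2, f3]; linarith
    · rw [h, f3, f4]; linarith
  · rw [Fin.sum_univ_eq_sum_range fun a => F v a - F v (a + 1), sum_range_sub', f0, f4, sub_zero]
  · have := hc v
    have := hs v
    rw [pl_ge F (by omega), f4, sub_zero]
    rcases Nat.eq_zero_or_pos i with rfl | h
    · rw [f0, h0, sub_self, abs_zero]; linarith
    · rw [f1 v i h hi, abs_le]; constructor <;> linarith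
  · rw [pl_ge F (by omega), f4, f2, sub_zero]
  · rw [pl_eq F (by omega), f1 v l hl le_rfl, f2]; ring
  · rw [pl_eq F (by omega), f2, f3]; ring
  · rw [pl_eq F (by omega), f3, f4]; ring

/-- numerical facts of one level -/
structure Lv (p D ε u : ℝ) : Prop where
  u0 : 1000 ≤ u
  e0 : 0 < ε
  e1 : ε ≤ 1 / 100
  big : ∀ a ≤ 599, u ^ 2 ≤ ε ^ a * D
  lg : 8 * D / p ≤ Real.exp u

theorem lv {k p : ℝ} {l : ℕ} {D ε η : ℕ → ℝ} (h : PP (1 / 1000) k p l D ε η) {i : ℕ}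
    (hi : i ≤ l) : Lv p (D i) (ε i) (1 / η i) := by
  have a0 := h.h0 i hi
  have a1 := h.h1 i hi
  have a2 := h.e0 i hi
  have a3 := h.eh i hi
  have a4 := h.dl i hi
  have a5 : ε i ≤ 1 / 100 := by nlinarith
  have hD : 0 < D i := (mul_pos_iff_of_pos_left (pow_pos a2 600)).1 (one_pos.trans_le a4)
  refine ⟨by rw [le_div_iff₀ a0]; linarith, a2, a5, fun a ha => ?_, h.lg i hi⟩
  have b1 : ε i ^ 600 ≤ ε i ^ (a + 1) := pow_le_pow_of_le_one a2.le (by linarith) (by omega)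
  have b2 : ε i ^ 600 * D i ≤ ε i ^ a * η i ^ 2 * D i := by
    refine mul_le_mul_of_nonneg_right (b1.trans ?_) hD.le
    rw [pow_succ]
    exact mul_le_mul_of_nonneg_left a3 (by positivity)
  rw [div_pow, one_pow, div_le_iff₀ (by positivity)]
  linarith

variable {p D ε u : ℝ}

theorem Lv.dbig (h : Lv p D ε u) : 1000 ≤ D := by
  have := h.big 0 (by norm_num)
  have := h.u0
  nlinarith

theorem Lv.pow_le (h : Lv p D ε u) (n : ℕ) : ε ^ n ≤ 1 :=
  pow_le_one₀ h.e0.le (by linarith [h.e1])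

theorem Lv.d_le (h : Lv p D ε u) (h0 : 0 < p) (h1 : p ≤ 1 / 2) : D ≤ Real.exp u := by
  refine le_trans ?_ h.lg
  rw [le_div_iff₀ h0]
  nlinarith [h.dbig]

theorem Lv.fin (h : Lv p D ε u) (h0 : 0 < p) (h1 : p ≤ 1 / 2) {w x : ℝ}
    (hw : w ≤ 24 * Real.exp u ^ 2) (hx : 3 * u + 192 ≤ x) : w * Real.exp (-x) ≤ 1 / (8 * D) := by
  have hD := h.dbig
  have h2 := h.d_le h0 h1
  have h3 : 192 * Real.exp u ^ 3 ≤ Real.exp x := by
    refine le_trans ?_ (Real.exp_le_exp.2 hx)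
    rw [Real.exp_add, mul_comm, ← Real.exp_nat_mul]
    exact mul_le_mul_of_nonneg_left (by linarith [Real.add_one_le_exp 192]) (Real.exp_pos _).le
  rw [Real.exp_neg, ← div_eq_mul_inv, div_le_div_iff₀ (Real.exp_pos _) (by positivity), one_mul]
  refine le_trans ?_ h3
  have h4 : w * (8 * D) ≤ 24 * Real.exp u ^ 2 * (8 * Real.exp u) :=
    mul_le_mul hw (by linarith) (by positivity) (by positivity)
  linarith

variable {V α : Type} [Fintype V] [Fintype α] {A : Amb V} {q : V → α → ℝ} {k : ℝ}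

theorem famB (h1 : S_FamPr) (hA : A.DG k) (hq : IsP q) (h : Lv A.p D ε u) (LA LZ : α → Prop)
    (Y : V → Prop) (a : Fin 3 → ℝ) (τ e : ℝ) (b1 : ∀ x, pl q x LA ≤ 2 * (D / k))
    (b2 : ∀ x, pl q x LZ ≤ 2 * (D / k)) (b3 : ∀ j, 0 ≤ a j ∧ a j ≤ 2 * D)
    (b4 : ∀ z, Y z → |pl q z LZ - a (A.pt z) / k| ≤ e / (4 * k))
    (b5 : A.Fam (fun _ => True) (fun z => ¬ Y z) (fun _ => 0) τ) (b6 : 2 * (D / k) * τ ≤ e / 4)
    (b7 : ε ^ 60 * D ≤ e) (b8 : e ≤ D) :
    Pr q (fun ω => ¬ A.Fam (fun x => LA (ω x)) (fun z => LZ (ω z)) a e) ≤ 1 / (8 * D) := by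
  have hk : 0 < k := by linarith [hA.k1]
  have hD := h.dbig
  have hp := hA.ok.p0
  have e1 : 2 * (D / k) * k = 2 * D := by field_simp
  have he : 0 < ε ^ 60 * D := by have := h.e0; positivity
  refine (h1 V α A q LA LZ Y a k (2 * (D / k)) τ e hA hq b1 b2 (by rwa [e1]) b4 b5 b6
    (by linarith) (by rw [mul_assoc, e1]; linarith)).trans (h.fin hp hA.ok.ph ?_ ?_)
  · have c1 : 2 * (D / k) * Fintype.card V ≤ Real.exp u := by
      refine (mul_le_mul_of_nonneg_left hA.card_le (by positivity)).trans (le_trans ?_ h.lg)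
      exact le_of_eq (by field_simp; ring)
    have c2 : 1 ≤ Real.exp u := Real.one_le_exp (by linarith [h.u0])
    have c3 : (1 + 2 * (D / k) * Fintype.card V) ^ 2 ≤ (2 * Real.exp u) ^ 2 :=
      pow_le_pow_left₀ (by positivity) (by linarith) 2
    linarith
  · rw [mul_assoc, e1, le_div_iff₀ (by positivity)]
    have c1 := pow_le_pow_left₀ he.le b7 2
    have c2 := mul_le_mul_of_nonneg_right (h.big 120 (by norm_num)) (show 0 ≤ D by linarith)
    have c3 : (3 * u + 192) * 32 ≤ u ^ 2 := by nlinarith [h.u0]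
    have c4 := mul_le_mul_of_nonneg_right c3 (show 0 ≤ D by linarith)
    have c5 : (ε ^ 60 * D) ^ 2 = ε ^ 120 * D * D := by ring
    linarith

theorem famT (A : Amb V) : A.Fam (fun _ => True) (fun _ => ¬ True) (fun _ => 0) 0 :=
  ⟨fun _ => by rw [cnt_zero fun _ a => a.1 trivial]; simp,
    fun _ _ _ _ => by rw [cnt_zero fun _ a => a.1 trivial]; simp,
    fun _ _ _ _ _ _ _ _ => by rw [cnt_zero fun _ a => a.1 trivial]; simp⟩

theorem opB (h2 : S_OpPr) (hA : A.DG k) (hq : IsP q) (h : Lv A.p D ε u) (L : α → Prop)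
    (b1 : ∀ x, pl q x L ≤ 2 * (D / k)) {j : Fin 3} (hj : j ≠ 2) :
    Pr q (fun ω => A.Fam (fun x => L (ω x)) (fun z => L (ω z)) (fun _ => D) D ∧
      ¬ Op (fun x => L (ω x) ∧ A.pt x = j) (fun y => L (ω y) ∧ A.pt y = 2) A.am (ε ^ 5 * D)) ≤
      1 / (8 * D) := by
  have hk : 0 < k := by linarith [hA.k1]
  have hD := h.dbig
  have hp := hA.ok.p0
  have he := h.e0
  have hu := h.u0
  have e1 : 2 * (D / k) * k = 2 * D := by field_simp
  have c0 := h.big 10 (by norm_num)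
  have c1 : (⌊ε ^ 10 * D / 54⌋₊ : ℝ) ≤ ε ^ 10 * D / 54 := Nat.floor_le (by positivity)
  have c2 := Nat.lt_floor_add_one (ε ^ 10 * D / 54)
  have c3 : 3 * u + 192 ≤ ⌊ε ^ 10 * D / 54⌋₊ := by nlinarith
  generalize ⌊ε ^ 10 * D / 54⌋₊ = n at c1 c3
  refine (Pr_mono hq fun ω a => ?_).trans ((h2 V α A q L k (2 * (D / k)) (ε ^ 5 * D) n j hA hq
    (by positivity) b1 hj (by positivity) (by exact_mod_cast (show (1 : ℝ) ≤ n by linarith))
    ?_).trans (h.fin hp hA.ok.ph ?_ c3))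
  · refine ⟨?_, fun B hB hB2 => ?_, a.2⟩
    · have d1 := (abs_le.1 (a.1.f0 j)).2
      have d2 := hA.ok.one_le_gz j
      rw [mul_assoc 4, e1]
      nlinarith
    · have d1 := (abs_le.1 (a.1.f1 B j hB (by rwa [hB2]))).2
      rw [hB2, hA.ok.g2] at d1
      rw [mul_assoc 4, e1]
      linarith
  · rw [mul_assoc 27, e1]
    have d1 := mul_le_mul_of_nonneg_right c1 (show 0 ≤ D by linarith)
    have d2 : (ε ^ 5 * D) ^ 2 = ε ^ 10 * D * D := by ring
    linarith
  · rw [mul_assoc 8, e1]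
    have d1 := h.lg
    have d2 : 1 ≤ Real.exp u := Real.one_le_exp (by linarith)
    have d3 : 8 * (2 * D) / A.p = 2 * (8 * D / A.p) := by ring
    nlinarith

theorem sum_inv {D : ℕ → ℝ} {l : ℕ} (h0 : ∀ i ≤ l, 0 < D i) (h : ∀ i < l, D (i + 1) ≤ D i / 2) :
    ∑ i ∈ range (l + 1), 1 / D i ≤ 2 / D l := by
  induction l with
  | zero => simpa using div_le_div_of_nonneg_right one_le_two (h0 0 le_rfl).le
  | succ l ih =>
    have a1 := ih (fun i hi => h0 i (by omega)) fun i hi => h i (by omega)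
    have a2 := h0 l (by omega)
    have a3 := h0 (l + 1) le_rfl
    have a4 : 2 / D l ≤ 1 / D (l + 1) := by
      rw [div_le_div_iff₀ a2 a3]; linarith [h l (by omega)]
    have a5 : 2 / D (l + 1) = 1 / D (l + 1) + 1 / D (l + 1) := by ring
    rw [sum_range_succ]
    linarith

theorem or3 (hq : IsP q) {P Q R : (V → α) → Prop} {b : ℝ} (hP : Pr q P ≤ b) (hQ : Pr q Q ≤ b)
    (hR : Pr q R ≤ b) : Pr q (fun ω => P ω ∨ Q ω ∨ R ω) ≤ b + (b + b) :=
  Pr_le_add hq (fun _ a => a) hP (Pr_le_add hq (fun _ a => a) hQ hR)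

theorem opsB (h1 : S_FamPr) (h2 : S_OpPr) (hA : A.DG k) (hq : IsP q) (h : Lv A.p D ε u)
    (L : α → Prop) (b1 : ∀ x, |pl q x L - D / k| ≤ D / (4 * k)) :
    Pr q (fun ω => ¬ A.Ops (fun x => L (ω x)) (ε ^ 5 * D)) ≤
      1 / (8 * D) + (1 / (8 * D) + 1 / (8 * D)) := by
  have hk : 0 < k := by linarith [hA.k1]
  have hD := h.dbig
  have b2 : ∀ x, pl q x L ≤ 2 * (D / k) := fun x => by
    have := (abs_le.1 (b1 x)).2
    have e : D / (4 * k) = D / k / 4 := by ring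
    have : 0 ≤ D / k := by positivity
    linarith
  refine (Pr_mono hq fun ω a => ?_).trans (or3 hq
    (famB h1 hA hq h L L (fun _ => True) (fun _ => D) 0 D b2 b2
      (fun _ => ⟨by linarith, by linarith⟩) (fun z _ => b1 z) (famT A) (by linarith)
      (by nlinarith [h.pow_le 60]) le_rfl)
    (opB h2 hA hq h L b2 (j := 0) (by decide)) (opB h2 hA hq h L b2 (j := 1) (by decide)))
  by_contra hc
  simp only [not_or, not_not, not_and] at hc
  refine a fun j hj => ?_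
  rcases fin3 j with rfl | rfl | rfl
  · exact hc.2.1 hc.1
  · exact hc.2.2 hc.1
  · exact absurd rfl hj

end RandP

end Pool.Agent.P.MP_77d020_co.L
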