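import Pool.Agent.P.MP_77d020_co.L.Prob

/-! The reserve graph: the random part. -/

namespace Pool.Agent.P.MP_77d020_co.L

open Finset

namespace ResP

variable {V : Type} [Fintype V]

/-- The number of `v` in `P` with `E v` is within `b` of `ρ` times the size of `P`. -/
def Tst (P E : V → Prop) (ρ b : ℝ) : Prop := |cnt (fun v => P v ∧ E v) - ρ * cnt P| ≤ b

theorem gen {ι : Type} [Fintype ι] {q : ι → Bool → ℝ} (hq : IsP q) (P : V → Prop)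
    (E : V → (ι → Bool) → Prop) (S : V → ι → Prop) (hE : ∀ v, Dep (E v) (S v))
    (hd : ∀ v v', v ≠ v' → ∀ x, S v x → ¬ S v' x) {ρ g D ε : ℝ}
    (hρ : ∀ v, P v → Pr q (E v) = ρ) (hP : cnt P ≤ 3 * g * D) (hg : 1 ≤ g) (hD : 0 < D)
    (hε : 0 < ε) (hε1 : ε ≤ 1 / 2) :
    Pr q (fun ω => ¬ Tst P (fun v => E v ω) ρ (ε ^ 48 * g * D)) ≤
      2 * Real.exp (-(ε ^ 100 * D)) := by
  have hs : ∑ v ∈ fs P, Pr q (E v) = ρ * cnt P := by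
    rw [sum_congr rfl fun v hv => hρ v (mem_fs.1 hv), sum_const, nsmul_eq_mul, mul_comm]; rfl
  have hμ : ∑ v ∈ fs P, Pr q (E v) ≤ 3 * g * D := by
    have := sum_fs_le (P := P) (f := fun v => Pr q (E v)) (b := 1) fun v _ => Pr_le_one hq _
    linarith
  have h48 : ε ^ 48 ≤ 1 := pow_le_one₀ hε.le (by linarith)
  have hgD : 0 < g * D := by positivity
  have h := chernoff' hq (fs P) E S (fun v _ => hE v) (fun v _ v' _ h => hd v v' h)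
    (a := ε ^ 48 * g * D) hμ (by positivity) (by nlinarith)
  refine (Pr_mono hq fun ω hω => ?_).trans (h.trans ?_)
  · unfold Tst at hω
    rw [hs, ← cnt_and_eq_sum]
    exact not_le.1 hω
  · have e : (ε ^ 48 * g * D) ^ 2 / (4 * (3 * g * D)) = ε ^ 96 * D * (g / 12) := by
      field_simp; ring
    have h4 : ε ^ 4 ≤ g / 12 := by
      have : ε ^ 4 ≤ (1 / 2) ^ 4 := by gcongr
      linarith
    have e2 : ε ^ 100 * D = ε ^ 96 * D * ε ^ 4 := by ring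
    rw [e, e2]
    gcongr

theorem one {p : V × V → ℝ} (hq : IsP (bern p)) (P : V → Prop) (c : V → V × V)
    (hc : Function.Injective c) {ρ g D ε : ℝ} (hρ : ∀ v, P v → p (c v) = ρ)
    (hP : cnt P ≤ 3 * g * D) (hg : 1 ≤ g) (hD : 0 < D) (hε : 0 < ε) (hε1 : ε ≤ 1 / 2) :
    Pr (bern p) (fun ω => ¬ Tst P (fun v => ω (c v) = true) ρ (ε ^ 48 * g * D)) ≤
      2 * Real.exp (-(ε ^ 100 * D)) :=
  gen hq P (fun v ω => ω (c v) = true) (fun v x => x = c v)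
    (fun _ => Dep.coord (fun b => b = true) rfl)
    (fun _ _ h _ a b => h (hc (a.symm.trans b)))
    (fun v hv => by rw [Pr_coord hq (c v) fun b => b = true, pl_bern, hρ v hv]) hP hg hD hε hε1

theorem two {p : V × V → ℝ} (hq : IsP (bern p)) (P : V → Prop) (c c' : V → V × V)
    (hc : Function.Injective c) (hc' : Function.Injective c') (hcc : ∀ v v', c v ≠ c' v')
    {ρ ρ' g D ε : ℝ} (hρ : ∀ v, P v → p (c v) = ρ) (hρ' : ∀ v, P v → p (c' v) = ρ')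
    (hP : cnt P ≤ 3 * g * D) (hg : 1 ≤ g) (hD : 0 < D) (hε : 0 < ε) (hε1 : ε ≤ 1 / 2) :
    Pr (bern p) (fun ω => ¬ Tst P (fun v => ω (c v) = true ∧ ω (c' v) = true) (ρ * ρ')
      (ε ^ 48 * g * D)) ≤ 2 * Real.exp (-(ε ^ 100 * D)) := by
  refine gen hq P (fun v ω => ω (c v) = true ∧ ω (c' v) = true) (fun v x => x = c v ∨ x = c' v)
    (fun v => (Dep.coord (fun b => b = true) (S := fun x => x = c v ∨ x = c' v) (Or.inl rfl)).and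
      (Dep.coord (fun b => b = true) (S := fun x => x = c v ∨ x = c' v) (Or.inr rfl))) ?_
    (fun v hv => ?_) hP hg hD hε hε1
  · rintro v v' h x (a | a) (b | b)
    · exact h (hc (a.symm.trans b))
    · exact hcc _ _ (a.symm.trans b)
    · exact hcc _ _ (b.symm.trans a)
    · exact h (hc' (a.symm.trans b))
  · rw [Pr_two hq (hcc v v) (fun b => b = true) fun b => b = true, pl_bern, pl_bern, hρ v hv,
      hρ' v hv]

theorem fam {ι : Type} [Fintype ι] {q : ι → Bool → ℝ} (hq : IsP q) (Vb : V → Prop) {δ : ℝ}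
    (hδ : 0 ≤ δ) (hN : 3 * cnt Vb ^ 2 * δ ≤ 1 / 20) (H : V → V → Fin 3 → Prop)
    (T : V → V → Fin 3 → (ι → Bool) → Prop) (hH : ∀ x y j, H x y j → Vb x ∧ Vb y)
    (h : ∀ x y j, H x y j → Pr q (fun ω => ¬ T x y j ω) ≤ δ) :
    Pr q (fun ω => ¬ ∀ x y j, H x y j → T x y j ω) ≤ 1 / 20 := by
  have h1 := Pr_exists_le_card hq (fs Vb ×ˢ fs Vb ×ˢ (univ : Finset (Fin 3)))
    (fun k ω => H k.1 k.2.1 k.2.2 ∧ ¬ T k.1 k.2.1 k.2.2 ω) (c := δ) fun k _ => by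
      by_cases hk : H k.1 k.2.1 k.2.2
      · exact (Pr_mono hq fun ω a => a.2).trans (h _ _ _ hk)
      · rw [Pr_zero hq fun ω a => hk a.1]; exact hδ
  refine (Pr_mono hq fun ω hω => ?_).trans (h1.trans (le_trans (le_of_eq ?_) hN))
  · push Not at hω
    obtain ⟨x, y, j, a, b⟩ := hω
    exact ⟨(x, y, j), by simp [(hH x y j a).1, (hH x y j a).2], a, b⟩
  · simp only [card_product, card_univ, Fintype.card_fin, cnt]
    push_cast; ring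

theorem num {N D ε : ℝ} (hε : 0 < ε) (hε1 : ε ≤ 1 / 100) (hD : 1 ≤ ε ^ 600 * D) (h0 : 0 ≤ N)
    (hN : N ≤ Real.exp (1 / ε)) : 3 * N ^ 2 * (2 * Real.exp (-(ε ^ 100 * D))) ≤ 1 / 20 := by
  have h1 : ε ^ 498 ≤ 1 := pow_le_one₀ hε.le (by linarith)
  have hD0 : 0 < D := by
    by_contra h
    have : ε ^ 600 * D ≤ 0 := mul_nonpos_of_nonneg_of_nonpos (by positivity) (not_lt.1 h)
    linarith
  have h2 : 1 ≤ ε ^ 2 * (ε ^ 100 * D) := by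
    have e : ε ^ 600 * D = ε ^ 498 * (ε ^ 2 * (ε ^ 100 * D)) := by ring
    have : 0 ≤ ε ^ 2 * (ε ^ 100 * D) := by positivity
    nlinarith
  have h3 : 100 ≤ 1 / ε := by rw [le_div_iff₀ hε]; linarith
  have h4 : (1 / ε) ^ 2 ≤ ε ^ 100 * D := by
    rw [div_pow, one_pow, div_le_iff₀ (by positivity)]; linarith
  have h5 : 1 / ε + 1 / ε + -(ε ^ 100 * D) ≤ -200 := by nlinarith
  have h6 : N ^ 2 ≤ Real.exp (1 / ε + 1 / ε) := by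
    rw [Real.exp_add, sq]; gcongr
  have h7 : N ^ 2 * Real.exp (-(ε ^ 100 * D)) ≤ Real.exp (-200) := by
    refine le_trans (mul_le_mul_of_nonneg_right h6 (Real.exp_pos _).le) ?_
    rw [← Real.exp_add]; exact Real.exp_le_exp.2 h5
  have h8 : Real.exp (-200) ≤ 1 / 201 := by
    rw [Real.exp_neg, one_div]
    exact inv_anti₀ (by norm_num) (by linarith [Real.add_one_le_exp (200 : ℝ)])
  nlinarith

/-- The outcomes of all tests for the coin relation `W`. -/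
structure Good (A : Amb V) (Vb Vs V1 V2 : V → Prop) (Q R' W : V → V → Prop) (ρ : Fin 3 → ℝ)
    (D ε : ℝ) : Prop where
  t1 : ∀ x y j, Vs x ∧ ¬ V1 x ∧ j ≠ A.pt x ∧ y = x →
    Tst (fun z => V1 z ∧ ¬ V2 z ∧ A.pt z = j ∧ A.G x z) (fun z => W x z) (ρ j)
      (ε ^ 48 * A.g (A.pt x) * D)
  t2 : ∀ x y j, V1 x ∧ j ≠ A.pt x ∧ y = x →
    Tst (fun z => A.pt z = j ∧ Vs z ∧ ¬ V1 z ∧ A.G x z) (fun z => W z x) (ρ (A.pt x))
      (ε ^ 48 * A.g (A.pt x) * D)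
  t3 : ∀ x y (_ : Fin 3), Vb x ∧ V1 y ∧ A.G x y →
    Tst (fun z => Vs z ∧ A.G x z ∧ A.G y z) (fun z => W z y) (ρ (A.pt y)) (ε ^ 48 * 1 * D)
  t4 : ∀ x y j, Vs x ∧ Vs y ∧ A.G x y ∧ j ≠ A.pt x ∧ j ≠ A.pt y →
    Tst (fun z => V1 z ∧ ¬ V2 z ∧ A.G x z ∧ A.G y z) (fun z => W x z ∧ W y z) (ρ j * ρ j)
      (ε ^ 48 * 1 * D)
  t5 : ∀ x y j, Vs x ∧ Vs y ∧ A.G x y ∧ j ≠ A.pt x ∧ j ≠ A.pt y →
    Tst (fun z => (V1 z ∧ ¬ V2 z ∧ A.G x z ∧ Q y z) ∧ ¬ R' y z) (fun z => W x z) (ρ j)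
      (ε ^ 48 * 1 * D)
  t6 : ∀ x y j, Vs x ∧ Vs y ∧ A.G x y ∧ j ≠ A.pt x ∧ j ≠ A.pt y →
    Tst (fun z => V1 z ∧ ¬ V2 z ∧ A.G x z ∧ Q y z) (fun z => W x z) (ρ j) (ε ^ 48 * 1 * D)
  t7 : ∀ x y j, Vs x ∧ Vs y ∧ A.G x y ∧ j ≠ A.pt x ∧ j ≠ A.pt y →
    Tst (fun z => V1 z ∧ ¬ V2 z ∧ A.G x z ∧ A.G y z) (fun z => W x z) (ρ j) (ε ^ 48 * 1 * D)
  t8 : ∀ x y (_ : Fin 3), Vs x ∧ Vs y ∧ A.G x y →
    Tst (fun z => Vs z ∧ A.G x z ∧ A.G y z) (fun z => W z x ∧ W z y) (ρ (A.pt x) * ρ (A.pt y))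
      (ε ^ 48 * 1 * D)

theorem exists_good {A : Amb V} {Vb Vs V1 V2 : V → Prop} {Q : V → V → Prop} (R' : V → V → Prop)
    {a π : Fin 3 → ℝ} {D ε η : ℝ} (h : A.LP Vb Vs V1 V2 Q a π D ε η) (hη : η ≤ 1 / 10)
    {ρ : Fin 3 → ℝ} (h0 : ∀ j, 0 ≤ ρ j) (h1 : ∀ j, ρ j ≤ 1) :
    ∃ W, Good A Vb Vs V1 V2 Q R' W ρ D ε := by
  have hε := h.e0
  have hη0 := h.h0
  have hη2 : η ^ 2 ≤ 1 / 100 := by nlinarith
  have hε1 : ε ≤ 1 / 100 := h.eh.trans hη2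
  have hε2 : ε ≤ 1 / 2 := by linarith
  have hD : 0 < D := by
    by_contra h'
    have : ε ^ 600 * D ≤ 0 := mul_nonpos_of_nonneg_of_nonpos (by positivity) (not_lt.1 h')
    linarith [h.dl]
  have hq : IsP (bern fun k : V × V => ρ (A.pt k.2)) := bern_isP (fun _ => h0 _) fun _ => h1 _
  have hN := num hε hε1 h.dl (cnt_nonneg Vb) h.cb
  have hδ : 0 ≤ 2 * Real.exp (-(ε ^ 100 * D)) := by positivity
  have g1 := h.ok.one_le_g
  have ir : ∀ x : V, Function.Injective fun z : V => (x, z) := fun x _ _ e => (Prod.mk.inj e).2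
  have il : ∀ x : V, Function.Injective fun z : V => (z, x) := fun x _ _ e => (Prod.mk.inj e).1
  have c1 : ∀ x j, Vs x → j ≠ A.pt x →
      cnt (fun z => Vs z ∧ A.pt z = j ∧ A.G x z) ≤ 3 * A.g (A.pt x) * D := by
    intro x j hx hj
    have := (abs_le.1 (h.nat.fam.f1 x j hx hj)).2
    have h3 : 0 < A.g (A.pt x) * D := by have := g1 (A.pt x); positivity
    nlinarith
  have c2 : ∀ x y, Vb x → Vs y → A.G x y →
      cnt (fun z => Vs z ∧ A.G x z ∧ A.G y z) ≤ 3 * 1 * D := by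
    intro x y hx hy hxy
    linarith [h.l7 x y hx hy hxy]
  have th : ∀ x y z j, A.G x y → j ≠ A.pt x → j ≠ A.pt y → A.G x z → A.G y z → A.pt z = j :=
    fun x y z j a b c d e => third_unique (h.ok.tp x y a) (h.ok.tp x z d).symm
      (h.ok.tp y z e).symm b c
  have F := fun H T => fam hq Vb hδ hN H T
  have p1 := F (fun x y j => Vs x ∧ ¬ V1 x ∧ j ≠ A.pt x ∧ y = x)
    (fun x _ j ω => Tst (fun z => V1 z ∧ ¬ V2 z ∧ A.pt z = j ∧ A.G x z)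
      (fun z => ω (x, z) = true) (ρ j) (ε ^ 48 * A.g (A.pt x) * D))
    (fun x y j a => ⟨h.ssb _ a.1, a.2.2.2 ▸ h.ssb _ a.1⟩)
    fun x y j a => one hq _ _ (ir x) (fun v hv => by simp only [hv.2.2.1])
      ((cnt_mono fun z hz => ⟨h.s1s _ hz.1, hz.2.2⟩).trans (c1 x j a.1 a.2.2.1)) (g1 _) hD hε hε2
  have p2 := F (fun x y j => V1 x ∧ j ≠ A.pt x ∧ y = x)
    (fun x _ j ω => Tst (fun z => A.pt z = j ∧ Vs z ∧ ¬ V1 z ∧ A.G x z)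
      (fun z => ω (z, x) = true) (ρ (A.pt x)) (ε ^ 48 * A.g (A.pt x) * D))
    (fun x y j a => ⟨h.ssb _ (h.s1s _ a.1), a.2.2 ▸ h.ssb _ (h.s1s _ a.1)⟩)
    fun x y j a => one hq _ _ (il x) (fun v hv => rfl)
      ((cnt_mono fun z hz => ⟨hz.2.1, hz.1, hz.2.2.2⟩).trans (c1 x j (h.s1s _ a.1) a.2.1)) (g1 _)
      hD hε hε2
  have p3 := F (fun x y _ => Vb x ∧ V1 y ∧ A.G x y)
    (fun x y _ ω => Tst (fun z => Vs z ∧ A.G x z ∧ A.G y z)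
      (fun z => ω (z, y) = true) (ρ (A.pt y)) (ε ^ 48 * 1 * D))
    (fun x y j a => ⟨a.1, h.ssb _ (h.s1s _ a.2.1)⟩)
    fun x y j a => one hq _ _ (il y) (fun v hv => rfl)
      (c2 x y a.1 (h.s1s _ a.2.1) a.2.2) le_rfl hD hε hε2
  have p4 := F (fun x y j => Vs x ∧ Vs y ∧ A.G x y ∧ j ≠ A.pt x ∧ j ≠ A.pt y)
    (fun x y j ω => Tst (fun z => V1 z ∧ ¬ V2 z ∧ A.G x z ∧ A.G y z)
      (fun z => ω (x, z) = true ∧ ω (y, z) = true) (ρ j * ρ j) (ε ^ 48 * 1 * D))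
    (fun x y j a => ⟨h.ssb _ a.1, h.ssb _ a.2.1⟩)
    fun x y j a => two hq _ _ _ (ir x) (ir y)
      (fun _ _ e => h.ok.tp.ne a.2.2.1 (Prod.mk.inj e).1)
      (fun v hv => by simp only [th x y v j a.2.2.1 a.2.2.2.1 a.2.2.2.2 hv.2.2.1 hv.2.2.2])
      (fun v hv => by simp only [th x y v j a.2.2.1 a.2.2.2.1 a.2.2.2.2 hv.2.2.1 hv.2.2.2])
      ((cnt_mono fun z hz => ⟨h.s1s _ hz.1, hz.2.2⟩).trans (c2 x y (h.ssb _ a.1) a.2.1 a.2.2.1))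
      le_rfl hD hε hε2
  have p5 := F (fun x y j => Vs x ∧ Vs y ∧ A.G x y ∧ j ≠ A.pt x ∧ j ≠ A.pt y)
    (fun x y j ω => Tst (fun z => (V1 z ∧ ¬ V2 z ∧ A.G x z ∧ Q y z) ∧ ¬ R' y z)
      (fun z => ω (x, z) = true) (ρ j) (ε ^ 48 * 1 * D))
    (fun x y j a => ⟨h.ssb _ a.1, h.ssb _ a.2.1⟩)
    fun x y j a => one hq _ _ (ir x)
      (fun v hv => by
        simp only [th x y v j a.2.2.1 a.2.2.2.1 a.2.2.2.2 hv.1.2.2.1 (h.qG _ _ hv.1.2.2.2).1])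
      ((cnt_mono fun z hz => ⟨h.s1s _ hz.1.1, hz.1.2.2.1, (h.qG _ _ hz.1.2.2.2).1⟩).trans
        (c2 x y (h.ssb _ a.1) a.2.1 a.2.2.1)) le_rfl hD hε hε2
  have p6 := F (fun x y j => Vs x ∧ Vs y ∧ A.G x y ∧ j ≠ A.pt x ∧ j ≠ A.pt y)
    (fun x y j ω => Tst (fun z => V1 z ∧ ¬ V2 z ∧ A.G x z ∧ Q y z)
      (fun z => ω (x, z) = true) (ρ j) (ε ^ 48 * 1 * D))
    (fun x y j a => ⟨h.ssb _ a.1, h.ssb _ a.2.1⟩)
    fun x y j a => one hq _ _ (ir x)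
      (fun v hv => by
        simp only [th x y v j a.2.2.1 a.2.2.2.1 a.2.2.2.2 hv.2.2.1 (h.qG _ _ hv.2.2.2).1])
      ((cnt_mono fun z hz => ⟨h.s1s _ hz.1, hz.2.2.1, (h.qG _ _ hz.2.2.2).1⟩).trans
        (c2 x y (h.ssb _ a.1) a.2.1 a.2.2.1)) le_rfl hD hε hε2
  have p7 := F (fun x y j => Vs x ∧ Vs y ∧ A.G x y ∧ j ≠ A.pt x ∧ j ≠ A.pt y)
    (fun x y j ω => Tst (fun z => V1 z ∧ ¬ V2 z ∧ A.G x z ∧ A.G y z)
      (fun z => ω (x, z) = true) (ρ j) (ε ^ 48 * 1 * D))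
    (fun x y j a => ⟨h.ssb _ a.1, h.ssb _ a.2.1⟩)
    fun x y j a => one hq _ _ (ir x)
      (fun v hv => by simp only [th x y v j a.2.2.1 a.2.2.2.1 a.2.2.2.2 hv.2.2.1 hv.2.2.2])
      ((cnt_mono fun z hz => ⟨h.s1s _ hz.1, hz.2.2⟩).trans (c2 x y (h.ssb _ a.1) a.2.1 a.2.2.1))
      le_rfl hD hε hε2
  have p8 := F (fun x y _ => Vs x ∧ Vs y ∧ A.G x y)
    (fun x y _ ω => Tst (fun z => Vs z ∧ A.G x z ∧ A.G y z)
      (fun z => ω (z, x) = true ∧ ω (z, y) = true) (ρ (A.pt x) * ρ (A.pt y)) (ε ^ 48 * 1 * D))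
    (fun x y j a => ⟨h.ssb _ a.1, h.ssb _ a.2.1⟩)
    fun x y j a => two hq _ _ _ (il x) (il y)
      (fun _ _ e => h.ok.tp.ne a.2.2 (Prod.mk.inj e).2) (fun v hv => rfl) (fun v hv => rfl)
      (c2 x y (h.ssb _ a.1) a.2.1 a.2.2) le_rfl hD hε hε2
  have O : ∀ {E E' : (V × V → Bool) → Prop} {b c : ℝ}, Pr _ (fun ω => ¬ E ω) ≤ b →
      Pr _ (fun ω => ¬ E' ω) ≤ c → Pr _ (fun ω => ¬ (E ω ∧ E' ω)) ≤ b + c :=
    fun a b => Pr_le_add hq (fun ω hω => not_and_or.1 hω) a b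
  obtain ⟨ω, hω⟩ := exists_not_of_Pr_lt hq
    ((O p1 (O p2 (O p3 (O p4 (O p5 (O p6 (O p7 p8))))))).trans_lt (by norm_num))
  obtain ⟨a1, a2, a3, a4, a5, a6, a7, a8⟩ := not_not.1 hω
  exact ⟨fun x z => ω (x, z) = true, a1, a2, a3, a4, a5, a6, a7, a8⟩

end ResP

end Pool.Agent.P.MP_77d020_co.L
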