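import Pool.Agent.P.MP_77d020_co.L.Defs

/-! Statements of the packages. -/

namespace Pool.Agent.P.MP_77d020_co.L

open Finset

def S_Greedy : Prop :=
  ∀ (I O F : Type) (s : Finset I) (Fs : Finset F) (c : I → O → F → ℝ) (a : I → F → ℝ)
    (Lb : F → ℝ) (lg : ℝ) (val : I → O → Prop) (cp : I → O → I → O → Prop), Nonempty O →
    (∀ i ∈ s, ∀ o, val i o → ∀ f ∈ Fs, 0 ≤ c i o f ∧ c i o f ≤ 1) →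
    (∀ i ∈ s, ∀ f ∈ Fs, 0 ≤ a i f) → (Fs.card : ℝ) ≤ Real.exp lg →
    (∀ f ∈ Fs, 1.45 * (∑ i ∈ s, a i f + lg) ≤ Lb f) →
    (∀ t ⊆ s, ∀ i ∈ s, i ∉ t → ∀ ch : I → O, (∀ j ∈ t, val j (ch j)) →
      (∀ j ∈ t, ∀ j' ∈ t, j ≠ j' → cp j (ch j) j' (ch j')) →
      (∀ f ∈ Fs, ∑ j ∈ t, c j (ch j) f ≤ Lb f) →
      ∃ Os : Finset O, Os.Nonempty ∧
        (∀ o ∈ Os, val i o ∧ ∀ j ∈ t, cp i o j (ch j) ∧ cp j (ch j) i o) ∧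
        ∀ f ∈ Fs, ∑ o ∈ Os, c i o f ≤ Os.card * a i f) →
    ∃ ch : I → O, (∀ j ∈ s, val j (ch j)) ∧
      (∀ j ∈ s, ∀ j' ∈ s, j ≠ j' → cp j (ch j) j' (ch j')) ∧
      ∀ f ∈ Fs, ∑ j ∈ s, c j (ch j) f ≤ Lb f

def S_PMs : Prop :=
  ∀ (V : Type) (X Y : Finset V) (E : V → V → Prop) (π n : ℝ) (K : ℕ), 0 < π → 0 < n →
    X.card = Y.card → (X.card : ℝ) ≤ 1.1 * n → (K : ℝ) ≤ π * n / 10 →
    (∀ x ∈ X, 0.8 * (π * n) ≤ ∑ y ∈ Y, ind (E x y)) →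
    (∀ y ∈ Y, 0.8 * (π * n) ≤ ∑ x ∈ X, ind (E x y)) →
    (∀ X' ⊆ X, ∀ Y' ⊆ Y,
      eb E X' Y' ≤ π * X'.card * Y'.card + π * n / 10 * max (X'.card : ℝ) Y'.card) →
    ∃ f : Fin K → V → V, (∀ i, Set.BijOn (f i) X Y) ∧ (∀ i, ∀ x ∈ X, E x (f i x)) ∧
      ∀ i i', i ≠ i' → ∀ x ∈ X, f i x ≠ f i' x

def S_Step3 : Prop :=
  ∀ (V : Type) [Fintype V] (pt : V → Fin 3) (G Lf Av : V → V → Prop) (Vs : V → Prop)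
    (O : V → V → V → Prop) (K γ τ σ lg : ℝ), Sy G → Tp pt G → Sy Lf → Sy Av →
    (∀ x y, Lf x y → G x y ∧ Vs x ∧ Vs y ∧ ¬ Av x y) →
    (∀ x y, Av x y → G x y ∧ Vs x ∧ Vs y) → (∀ x y z, O x y z → O y x z) →
    (∀ x y z, O x y z → Av x z ∧ Av y z) → (∀ x y, Lf x y → K ≤ cnt (O x y)) →
    St G Vs Lf γ → (∀ x y, Vs x → Vs y → G x y → cnt (fun z => Vs z ∧ G x z ∧ G y z) ≤ τ) →
    0 < K → 0 ≤ γ → 0 ≤ τ → cnt Vs ^ 2 ≤ Real.exp lg → 1.45 * (4 * γ * τ / K + lg) ≤ σ →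
    4 * σ ≤ K →
    ∃ Us : V → V → Prop, Sy Us ∧ (∀ x y, Us x y → Av x y) ∧ Dec (fun x y => Lf x y ∨ Us x y) ∧
      St G Vs Us σ

def S_Step4 : Prop :=
  ∀ (V : Type) [Fintype V] (pt : V → Fin 3) (Vs Λ : V → Prop) (R Av : V → V → Prop)
    (π nn : Fin 3 → ℝ) (r b σ lg : ℝ) (Pt : V → V → V → Prop),
    Sy R → Sy Av → Tp pt R → Tp pt Av → (∀ x y, R x y → Vs x ∧ (Λ x ↔ ¬ Λ y)) →
    (∀ x y, Av x y → ¬ Λ x) → (∀ x, Λ x → imb pt R x = 0) → (∀ i, 0 < π i) →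
    (∀ i, 0.45 * r ≤ π i * nn i) → (∀ x j, Λ x → deg pt R x j ≤ 1.1 * nn (pt x)) →
    (∀ x z, Λ x → R x z → 0.9 * (π (pt x) * nn (pt x)) ≤ cnt (fun z' => R x z' ∧ Av z z') ∧
      cnt (fun z' => R x z' ∧ Av z z') ≤ 4 * r) →
    (∀ x, Λ x → ∀ X Y : Finset V, (∀ z ∈ X, R x z ∧ pt z = pt x + 1) →
      (∀ z ∈ Y, R x z ∧ pt z = pt x + 2) →
      eb Av X Y ≤ π (pt x) * X.card * Y.card +
        π (pt x) * nn (pt x) / 10 * max (X.card : ℝ) Y.card) →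
    (∀ z z', Av z z' → cnt (fun x => R x z ∧ R x z') ≤ b) → 0 ≤ b → b ≤ r / 10 ^ 4 →
    2 * cnt Vs ^ 2 ≤ Real.exp lg → lg ≤ r / 100 → 1000 ≤ r → 0 ≤ σ →
    (∀ z y, Vs z → Vs y → cnt (Pt z y) ≤ σ) →
    ∃ Us : V → V → Prop, Sy Us ∧ (∀ x y, Us x y → Av x y) ∧ Dec (fun x y => R x y ∨ Us x y) ∧
      ∀ z y, Vs z → Vs y → cnt (fun z' => Pt z y z' ∧ Us z z') ≤ 36 * b * σ / r + 2 * lg

def S_Konig : Prop :=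
  ∀ (V : Type) [Fintype V] (pt : V → Fin 3) (S C : V → Prop) (Z : V → V → Prop),
    Sy Z → Tp pt Z → (∀ x y, Z x y → C x ∧ pt x ≠ 0) → (∀ u, S u → pt u = 0) →
    (∀ x, C x → pt x ≠ 0 → cnt (Z x) = cnt S) → Dec (fun x y => Z x y ∨ Ab pt S C x y)

def S_RG : Prop :=
  ∀ (E T F : Type) [DecidableEq E] (Ev : Finset E) (Ts : Finset T) (Fs : Finset F)
    (ed : T → Finset E) (φ : T → ℝ) (Z : F → Finset E) (γ ω s : ℝ),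
    0 < γ → γ ≤ 1 / 100 → ω ≤ γ ^ 20 → 0 < ω → 1 ≤ ω * s →
    (∀ t ∈ Ts, ed t ⊆ Ev ∧ (ed t).card = 3 ∧ 0 ≤ φ t ∧ φ t ≤ ω) →
    (∀ t ∈ Ts, ∀ t' ∈ Ts, t ≠ t' → (ed t ∩ ed t').card ≤ 1) →
    (∀ e ∈ Ev, |∑ t ∈ Ts.filter (fun t => e ∈ ed t), φ t - 1| ≤ γ ^ 3) →
    (Ev.card : ℝ) ≤ Real.exp (3 / γ) → (Fs.card : ℝ) ≤ Real.exp (3 / γ) →
    (∀ f ∈ Fs, Z f ⊆ Ev ∧ ((Z f).card : ℝ) ≤ s) →
    ∃ M ⊆ Ts, (∀ t ∈ M, ∀ t' ∈ M, t ≠ t' → Disjoint (ed t) (ed t')) ∧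
      ∀ f ∈ Fs, ((Z f \ M.biUnion ed).card : ℝ) ≤ γ * s

def S_AD : Prop :=
  ∀ (V : Type) [Fintype V] (pt : V → Fin 3) (G H : V → V → Prop) (Vs : V → Prop)
    (φ : V → V → V → ℝ) (D γ : ℝ), Sy G → Tp pt G → Sy H →
    (∀ x y, H x y → G x y ∧ Vs x ∧ Vs y) → 0 < γ → γ ≤ 1 / 100 → 0 < D → 2 / D ≤ γ ^ 20 →
    (∀ u w B, 0 ≤ φ u w B ∧ φ u w B ≤ 2 / D) → Frac pt H φ (γ ^ 3) →
    (∀ x y, Vs x → Vs y → G x y → cnt (fun z => Vs z ∧ G x z ∧ G y z) ≤ 2 * D) →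
    cnt Vs ≤ Real.exp (1 / γ) →
    ∃ C : V → V → Prop, (∀ x y, C x y → H x y) ∧ Dec C ∧
      St G Vs (fun x z => H x z ∧ ¬ C x z) (2 * γ * D)

def S_RAlg : Prop :=
  ∀ (V : Type) (U W L : Finset V) (H : V → V → Prop) (D p κ : ℝ) (α β : V → V → ℝ),
    BC U W L H D p κ → Bal U W L H α β (fun _ _ => 0) →
    Bal U W L H (fun _ _ => 0) (rb1 W L H α β) (rc1 U L H α) ∧
      Bal U W L H (ra2 W L H α β) (fun _ _ => 0) (rc2 U W L H α β) ∧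
      Bal U W L H (ra3 U W L H α β) (rb3 U W L H α β) (fun _ _ => 0) ∧
      Cor U W L H (rψ U W L H α β) α β (fun _ _ => 0) (ra3 U W L H α β) (rb3 U W L H α β)
        (fun _ _ => 0)

def S_RSup : Prop :=
  ∀ (V : Type) (U W L : Finset V) (H : V → V → Prop) (D p κ : ℝ) (α β : V → V → ℝ) (A a : ℝ),
    BC U W L H D p κ → Bal U W L H α β (fun _ _ => 0) → 0 ≤ A → 0 ≤ a →
    (∀ u ∈ U, ∀ w ∈ W, |α u w| ≤ A) → (∀ u ∈ U, ∀ B ∈ L, |β u B| ≤ a) →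
    (∀ u ∈ U, ∀ w ∈ W, |ra3 U W L H α β u w| ≤ (1 + 4 * p + 40 * κ) * A + (1 + 6 * κ) * a) ∧
      (∀ u ∈ U, ∀ B ∈ L, |rb3 U W L H α β u B| ≤ 5 * κ * (A + a)) ∧
      ∀ u ∈ U, ∀ w ∈ W, ∀ B ∈ L, |rψ U W L H α β u w B| ≤ 5 * (A + a) / D

def S_RL2 : Prop :=
  ∀ (V : Type) (U W L : Finset V) (H : V → V → Prop) (D p κ : ℝ) (α β : V → V → ℝ)
    (A P Q : ℝ), BC U W L H D p κ → Bal U W L H α β (fun _ _ => 0) → 0 ≤ A → 0 ≤ P → 0 ≤ Q →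
    (∀ u ∈ U, ∀ w ∈ W, |α u w| ≤ A) → (∀ u ∈ U, ∑ w ∈ W, α u w ^ 2 ≤ P ^ 2) →
    (∀ u ∈ U, ∑ B ∈ L, β u B ^ 2 ≤ Q ^ 2) →
    (∀ u ∈ U, ∑ w ∈ W, ra3 U W L H α β u w ^ 2 ≤ (12 * Q + 20 * κ * P) ^ 2) ∧
      (∀ u ∈ U, ∑ B ∈ L, rb3 U W L H α β u B ^ 2 ≤ κ * (9 * Q + 18 * κ * P) ^ 2) ∧
      ∀ u ∈ U, ∀ w ∈ W, |ra3 U W L H α β u w| ≤ 3 * (4 * Q + 4 * κ * P) / √D + 8 * κ * A

def S_Core : Prop :=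
  ∀ (V : Type) (U W L : Finset V) (H : V → V → Prop) (D p κ : ℝ) (α β c : V → V → ℝ)
    (A τ : ℝ) (J : ℕ), BC U W L H D p κ → Bal U W L H α β c → 1 ≤ 4 ^ J * p →
    50 * κ * J ≤ 1 → 0 ≤ A → 0 < τ → (∀ u ∈ U, ∀ w ∈ W, |α u w| ≤ A) →
    (∀ u ∈ U, ∀ B ∈ L, |β u B| ≤ A) → (∀ w ∈ W, ∀ B ∈ L, |c w B| ≤ A) →
    ∃ (ψ : V → V → V → ℝ) (α' β' : V → V → ℝ), Cor U W L H ψ α β c α' β' (fun _ _ => 0) ∧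
      (∀ u ∈ U, ∀ w ∈ W, ∀ B ∈ L, |ψ u w B| ≤ 5000 * (J + 2) * A / D) ∧
      (∀ u ∈ U, ∀ w ∈ W, |α' u w| ≤ τ) ∧ ∀ u ∈ U, ∀ B ∈ L, |β' u B| ≤ τ

def S_BC : Prop :=
  ∀ (V : Type) [Fintype V] (A : Amb V) (Vs : V → Prop) (H : V → V → Prop) (D η : ℝ),
    A.Ok → 0 < D → η ^ 2 ≤ 1 / 10 ^ 6 → A.Nt Vs D (10 * η ^ 2) → Sy H →
    (∀ x y, H x y → A.G x y ∧ Vs x ∧ Vs y) →
    St A.G Vs (fun x z => Vs z ∧ ¬ H x z) (30 * η ^ 2 * D) →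
    BC (fs fun x => Vs x ∧ A.pt x = 0) (fs fun x => Vs x ∧ A.pt x = 1)
      (fs fun x => Vs x ∧ A.pt x = 2) H D A.p (100 * η ^ 2)

def S_LemE : Prop :=
  ∀ (V : Type) [Fintype V] (A : Amb V) (Vs : V → Prop) (H : V → V → Prop) (D η δ : ℝ),
    A.Ok → 0 < D → η ^ 2 ≤ 1 / 10 ^ 6 → A.Nt Vs D (10 * η ^ 2) → Sy H →
    (∀ x y, H x y → A.G x y ∧ Vs x ∧ Vs y) →
    St A.G Vs (fun x z => Vs z ∧ ¬ H x z) (30 * η ^ 2 * D) → 0 ≤ δ →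
    (∀ x, Vs x → |imb A.pt H x| ≤ δ * A.g (A.pt x) * D) →
    ∃ α β : V → V → ℝ, (∀ u w, |α u w| ≤ 40 * δ) ∧ (∀ u B, |β u B| ≤ 40 * δ) ∧
      Bal (fs fun x => Vs x ∧ A.pt x = 0) (fs fun x => Vs x ∧ A.pt x = 1)
        (fs fun x => Vs x ∧ A.pt x = 2) H (fun u w => ind (H u w) - α u w)
        (fun u B => ind (H u B) - β u B) (fun w B => ind (H w B))

def S_Boost : Prop :=
  ∃ η0 : ℝ, 0 < η0 ∧ ∀ (V : Type) [Fintype V] (A : Amb V) (Vs : V → Prop) (H : V → V → Prop)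
    (D η δ : ℝ), A.Ok → 0 < D → 0 < η → η ≤ η0 → A.Nt Vs D (10 * η ^ 2) → Sy H →
    (∀ x y, H x y → A.G x y ∧ Vs x ∧ Vs y) →
    St A.G Vs (fun x z => Vs z ∧ ¬ H x z) (30 * η ^ 2 * D) → 0 < δ → δ ≤ η ^ 2 →
    (∀ x, Vs x → |imb A.pt H x| ≤ δ * A.g (A.pt x) * D) → 1 / A.p ≤ Real.exp (1 / η) →
    ∃ φ : V → V → V → ℝ, (∀ u w B, 0 ≤ φ u w B ∧ φ u w B ≤ 2 / D) ∧ Frac A.pt H φ (100 * δ)

def S_Res : Prop :=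
  ∃ η0 : ℝ, 0 < η0 ∧ ∀ (V : Type) [Fintype V] (A : Amb V) (Vb Vs V1 V2 : V → Prop)
    (Q R' : V → V → Prop) (a π : Fin 3 → ℝ) (D ε η : ℝ),
    A.LP Vb Vs V1 V2 Q a π D ε η → η ≤ η0 →
    (∀ x y j, Vs x → ¬ V1 x → V1 y → A.G x y → j ≠ A.pt x → j ≠ A.pt y →
      cnt (fun z => V1 z ∧ ¬ V2 z ∧ A.G x z ∧ A.G y z ∧ R' y z) ≤ a j / 4) →
    ∃ R : V → V → Prop, A.RP Vb Vs V1 V2 Q R R' π D ε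

def S_CD : Prop :=
  ∃ η0 : ℝ, 0 < η0 ∧ ∀ (V : Type) [Fintype V] (A : Amb V) (Vb Vs V1 V2 : V → Prop)
    (Q R R' H : V → V → Prop) (a π : Fin 3 → ℝ) (D ε η : ℝ),
    A.LP Vb Vs V1 V2 Q a π D ε η → η ≤ η0 → A.RP Vb Vs V1 V2 Q R R' π D ε → Sy R' →
    (∀ x y, R' x y → V2 x ∨ V2 y) → Sy H → (∀ x y, H x y → A.G x y ∧ Vs x ∧ Vs y) →
    (∀ x y, Q x y → H x y) → (∀ x y, R x y → H x y) →
    St A.G Vs (fun x z => Vs z ∧ ¬ H x z) (15 * η ^ 2 * D) →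
    (∀ x, Vs x → |imb A.pt H x - imb A.pt Q x| ≤ ε ^ 47 * A.g (A.pt x) * D) →
    (∀ x, Vs x → ¬ V1 x → imb A.pt H x = 0) →
    ∃ H' : V → V → Prop, Sy H' ∧ (∀ x y, H' x y → H x y ∧ V1 x ∧ V1 y) ∧
      Dec (fun x y => H x y ∧ ¬ H' x y) ∧ (∀ x y, Q x y → V2 x → V2 y → H' x y) ∧
      (∀ x y, Q x y → R' x y → H' x y) ∧ St A.G V1 (fun x z => Q x z ∧ ¬ H' x z) (ε ^ 2 * D)

def S_Fin : Prop :=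
  ∀ (V : Type) [Fintype V] (A : Amb V) (C S : V → Prop) (Q H : V → V → Prop) (r : ℝ),
    A.FP C Q r → (∀ u, S u → A.pt u = 0 ∧ ¬ C u) → Sy H →
    (∀ x y, H x y → A.G x y ∧ C x ∧ C y) → St A.G C (fun x z => Q x z ∧ ¬ H x z) (r / 40) →
    (∀ x, imb A.pt H x + imb A.pt (Ab A.pt S C) x = 0) →
    Dec (fun x y => H x y ∨ Ab A.pt S C x y)

def S_Main : Prop :=
  ∃ η0 : ℝ, 0 < η0 ∧ ∀ (V : Type) [Fintype V] (A : Amb V) (l : ℕ) (Vt : ℕ → V → Prop)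
    (Qt : ℕ → V → V → Prop) (S : V → Prop) (a π : ℕ → Fin 3 → ℝ) (D ε η : ℕ → ℝ),
    A.Vx η0 l Vt Qt S a π D ε η → (∀ x, imb A.pt A.G x = 0) → Dec A.G

def S_Drop : Prop :=
  ∀ (V : Type) [Fintype V] (A : Amb V) (Vs Uc Wc : V → Prop) (π e μ r lg : ℝ), A.Ok →
    (∀ u, Uc u → Vs u ∧ A.pt u = 0) → (∀ w, Wc w → Vs w ∧ A.pt w = 1) → 0 ≤ π → π ≤ 1 →
    cnt Vs ≤ Real.exp lg → 1 ≤ lg → cnt Uc ≤ μ → cnt Wc ≤ μ * A.g 0 →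
    (∀ B, Vs B → A.pt B = 2 → cnt (fun w => Wc w ∧ A.G B w) ≤ μ) → 0 < e → e ≤ 2 * μ →
    100 * lg * μ ≤ e ^ 2 → 10 ^ 5 * lg ≤ r →
    ∃ K : V → V → Prop,
      (∀ u, Uc u → |cnt (fun w => Wc w ∧ K u w) - π * cnt Wc| ≤ e * A.g 0) ∧
      (∀ w, Wc w → |cnt (fun u => Uc u ∧ K u w) - π * cnt Uc| ≤ e) ∧
      (∀ B u, Vs B → A.pt B = 2 → Uc u →
        |cnt (fun w => Wc w ∧ A.G B w ∧ K u w) - π * cnt (fun w => Wc w ∧ A.G B w)| ≤ e) ∧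
      (∀ B w, Vs B → A.pt B = 2 → Wc w →
        |cnt (fun u => Uc u ∧ A.G B u ∧ K u w) - π * cnt (fun u => Uc u ∧ A.G B u)| ≤ e) ∧
      ∀ X Y : Finset V, (∀ u ∈ X, Uc u) → (∀ w ∈ Y, Wc w) → (X.card : ℝ) ≤ 2 * r →
        (Y.card : ℝ) ≤ 2 * r →
        eb K X Y ≤ π * X.card * Y.card + r / 25 * max (X.card : ℝ) Y.card

def S_Mat : Prop :=
  ∀ (ι κ α : Type) [Fintype ι] [Fintype κ] [Fintype α] (q : κ → α → ℝ) (L : α → Prop)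
    (a : κ → ι → ℝ) (k ρ ϖ c : ℝ) (n : ℕ), IsP q → 0 ≤ k → 0 ≤ ρ → 0 ≤ ϖ → 0 < c →
    (∀ j, pl q j L ≤ ρ) → (∀ j, ∑ i, a j i ^ 2 ≤ ϖ) →
    (∀ f : ι → ℝ, ∑ j, (∑ i, a j i * f i) ^ 2 ≤ k * ∑ i, f i ^ 2) →
    Pr q (fun ω => ∃ f : ι → ℝ,
      c ^ 2 * ∑ i, f i ^ 2 < ∑ j, ind (L (ω j)) * (∑ i, a j i * f i) ^ 2) ≤
      Fintype.card ι * ((ρ * k + ϖ * n) / c ^ 2) ^ n

def S_OpPr : Prop :=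
  ∀ (V α : Type) [Fintype V] [Fintype α] (A : Amb V) (q : V → α → ℝ) (L : α → Prop)
    (k ρ c : ℝ) (n : ℕ) (j : Fin 3), A.DG k → IsP q → 0 ≤ ρ → (∀ z, pl q z L ≤ ρ) → j ≠ 2 →
    0 < c → 1 ≤ n → 27 * ρ * k * n ≤ c ^ 2 →
    Pr q (fun ω => cnt (fun x => L (ω x) ∧ A.pt x = j) ≤ 4 * ρ * k * A.gz j ∧
      (∀ B, L (ω B) → A.pt B = 2 → cnt (fun x => L (ω x) ∧ A.pt x = j ∧ A.G B x) ≤ 4 * ρ * k) ∧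
      ¬ Op (fun x => L (ω x) ∧ A.pt x = j) (fun y => L (ω y) ∧ A.pt y = 2) A.am c) ≤
      8 * ρ * k / A.p * Real.exp (-n)

def S_FamPr : Prop :=
  ∀ (V α : Type) [Fintype V] [Fintype α] (A : Amb V) (q : V → α → ℝ) (LA LZ : α → Prop)
    (Y : V → Prop) (a : Fin 3 → ℝ) (k ρ τ e : ℝ), A.DG k → IsP q → (∀ x, pl q x LA ≤ ρ) →
    (∀ z, pl q z LZ ≤ ρ) → (∀ j, 0 ≤ a j ∧ a j ≤ ρ * k) →
    (∀ z, Y z → |pl q z LZ - a (A.pt z) / k| ≤ e / (4 * k)) →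
    A.Fam (fun _ => True) (fun z => ¬ Y z) (fun _ => 0) τ → ρ * τ ≤ e / 4 → 0 < e →
    e ≤ 4 * ρ * k →
    Pr q (fun ω => ¬ A.Fam (fun x => LA (ω x)) (fun z => LZ (ω z)) a e) ≤
      6 * (1 + ρ * Fintype.card V) ^ 2 * Real.exp (-(e ^ 2 / (16 * ρ * k)))

def S_Cell : Prop :=
  ∀ (V : Type) [Fintype V] (A : Amb V) (k ρc ρ1 τ : ℝ), A.DG k → 0 < ρc → ρc ≤ ρ1 →
    ρ1 ≤ 1 / 16 → 1 ≤ ρc * k → 0 ≤ τ →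
    (40 * (ρc * k) * A.p ≤ τ ∨ ∃ t : ℕ, 64 * (ρc * k) / A.p ≤ t ∧ 1000 * 12 ^ t * ρ1 ≤ 1) →
    ∃ Y : V → Prop, (∀ z, A.pt z ≠ 2 → Y z) ∧
      A.Fam (fun _ => True) (fun z => ¬ Y z) (fun _ => 0) (τ * k) ∧
      ∀ (α : Type) [Fintype α] (q : V → α → ℝ) (Lc L0 : α → Prop), IsP q →
        (∀ B, A.pt B = 2 → pl q B Lc ≤ 2 * ρc ∧ (¬ Y B → pl q B Lc = 0)) →
        (∀ u, A.pt u = 0 → pl q u (fun x => ¬ L0 x) ≤ 2 * ρ1) →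
        Pr q (fun ω => cnt (fun u => A.pt u = 0 ∧ L0 (ω u) ∧
          ∀ B, A.pt B = 2 → Lc (ω B) → A.G u B) < A.g 1 * (ρc * k)) ≤ 1 / 4

def S_Rand : Prop :=
  ∃ η0 : ℝ, 0 < η0 ∧ ∀ (V : Type) [Fintype V] (A : Amb V) (k : ℝ) (l : ℕ) (D ε η : ℕ → ℝ),
    A.DG k → PP η0 k A.p l D ε η → ∃ lab : V → ℕ, A.Lay l lab D ε

def S_LPnat : Prop :=
  ∃ η0 : ℝ, 0 < η0 ∧ ∀ (V : Type) [Fintype V] (A : Amb V) (Vb Vs V1 V2 : V → Prop)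
    (k D D2 ε η : ℝ), A.DG k → (∀ x, V2 x → V1 x) → (∀ x, V1 x → Vs x) → (∀ x, Vs x → Vb x) →
    0 < η → η ≤ η0 → 0 < ε → ε ≤ η ^ 2 → 1 ≤ ε ^ 600 * D → D ≤ k →
    8 * D / A.p ≤ Real.exp (1 / η) → cnt Vb ≤ Real.exp (1 / ε) → 0 ≤ D2 → D2 ≤ ε * D / 2 →
    A.Fam Vb Vs (fun _ => D) D → A.Fam Vs Vs (fun _ => D) (ε ^ 60 * D) →
    A.Fam Vs V1 (fun _ => ε * D) (ε ^ 60 * D) → A.Fam Vs V2 (fun _ => D2) (ε ^ 60 * D) →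
    A.Ops Vs (ε ^ 5 * D) →
    A.LP Vb Vs V1 V2 (fun x y => A.G x y ∧ V1 x ∧ V1 y) (fun _ => ε * D - D2)
        ![A.p, 1 - A.p, 1] D ε η ∧
      ∀ x, |imb A.pt (fun x y => A.G x y ∧ V1 x ∧ V1 y) x| ≤ 2 * ε ^ 60 * A.g (A.pt x) * D

def S_LPlast : Prop :=
  ∃ η0 : ℝ, 0 < η0 ∧ ∀ (V : Type) [Fintype V] (A : Amb V) (Vb : V → Prop) (l : ℕ)
    (lab : V → ℕ) (k D ε η : ℝ), A.DG k → (∀ x, lab x ≤ l + 2) → (∀ x, l ≤ lab x → Vb x) →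
    0 < η → η ≤ η0 → 0 < ε → ε ≤ η ^ 2 → 1 ≤ ε ^ 600 * D → D ≤ k →
    8 * D / A.p ≤ Real.exp (1 / η) → cnt Vb ≤ Real.exp (1 / ε) →
    A.Fam Vb (fun x => l ≤ lab x) (fun _ => D) D →
    A.Fam (fun x => l ≤ lab x) (fun x => lab x = l) (fun _ => D) (ε ^ 60 * D) →
    A.Fam (fun x => l ≤ lab x) (fun x => lab x = l + 1)
      ![ε * D / 10 ^ 5, A.g 1 * (ε * D), (1 - ε ^ 52) * (ε * D)] (ε ^ 60 * D) →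
    A.Fam (fun x => l ≤ lab x) (fun x => lab x = l + 2)
      ![0, 0, 2 * ε ^ 52 * (ε * D)] (ε ^ 60 * D) →
    A.Ops (fun x => l ≤ lab x) (ε ^ 5 * D) →
    ∃ (C : V → Prop) (Q : V → V → Prop) (a π : Fin 3 → ℝ), (∀ x, C x → l + 1 ≤ lab x) ∧
      A.LP Vb (fun x => l ≤ lab x) C (fun _ => False) Q a π D ε η ∧ A.FP C Q (ε * D) ∧
      cnt (fun x => C x ∧ A.pt x = 1) = cnt (fun x => C x ∧ A.pt x = 2) ∧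
      ∀ S : V → Prop, (∀ u, S u → A.pt u = 0 ∧ ¬ C u) →
        |cnt S - (A.g 1 - 1 / 10 ^ 5) * (ε * D)| ≤ 1 →
        ∀ x, |imb A.pt (Ab A.pt S C) x + imb A.pt Q x| ≤ ε ^ 47 * A.g (A.pt x) * D

def S_Par : Prop :=
  ∀ η0 : ℝ, 0 < η0 → ∃ k0 : ℝ, ∀ k p : ℝ, k0 ≤ k → 0 < p → p ≤ 1 / 2 → 1 ≤ 2 * k * p →
    ∃ (l : ℕ) (D ε η : ℕ → ℝ), PP η0 k p l D ε η

def S_Vortex : Prop :=
  ∀ η0 : ℝ, 0 < η0 → ∃ k0 : ℝ, ∀ (V : Type) [Fintype V] (A : Amb V) (k : ℝ), A.DG k → k0 ≤ k →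
    ∃ (l : ℕ) (Vt : ℕ → V → Prop) (Qt : ℕ → V → V → Prop) (S : V → Prop)
      (a π : ℕ → Fin 3 → ℝ) (D ε η : ℕ → ℝ), A.Vx η0 l Vt Qt S a π D ε η

def S_DG : Prop :=
  ∀ (P : Type) [Fintype P] [DecidableEq P] (Blk : Finset (Finset P)) (n lam : ℕ),
    Blk.card = Fintype.card P → (∀ B ∈ Blk, B.card = n) →
    (∀ x y : P, x ≠ y → (Blk.filter (fun B => x ∈ B ∧ y ∈ B)).card = lam) → lam + 2 < n →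
    2 * n ≤ Fintype.card P → ∀ B0 ∈ Blk,
    ∃ (V : Type) (_ : Fintype V) (A : Amb V), A.DG ((n : ℝ) - lam) ∧
      (Dec A.G → ∃ f : P → P → Finset P,
        (∀ j : P, j ∉ B0 → B0.image (fun i => f i j) = Blk.filter (fun B => j ∈ B)) ∧
        (∀ i ∈ B0, (univ.filter (fun j => j ∉ B0)).image (fun j => f i j)
          = Blk.filter (fun B => B ≠ B0 ∧ i ∉ B)))

end Pool.Agent.P.MP_77d020_co.L
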